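import Pool.Agent.Run7.h166.Tree2

/-!
The number of lists with bounded entries and small cost.
-/

namespace Run7.h166

open Finset

lemma sum_inv_le_log (M : ℕ) :
    ∑ b ∈ Finset.Icc 1 M, 1 / ((b : ℝ) + 1) ≤ Real.log ((M : ℝ) + 1) := by
  induction M with
  | zero => simp
  | succ M ih =>
    rw [Finset.sum_Icc_succ_top (by omega)]
    push_cast
    have h0 : (0 : ℝ) < (M : ℝ) + 1 := by positivity
    have h1 : (0 : ℝ) < (M : ℝ) + 1 + 1 := by positivity
    have h2 := Real.one_sub_inv_le_log_of_pos (show (0 : ℝ) < ((M : ℝ) + 1 + 1) / ((M : ℝ) + 1) by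
      positivity)
    rw [Real.log_div h1.ne' h0.ne'] at h2
    have h3 : 1 - (((M : ℝ) + 1 + 1) / ((M : ℝ) + 1))⁻¹ = 1 / ((M : ℝ) + 1 + 1) := by
      field_simp
      ring
    rw [h3] at h2
    linarith

/-- `λ = log (M + 1) / M`. -/
noncomputable def lam (M : ℕ) : ℝ := Real.log ((M : ℝ) + 1) / M

lemma exp_neg_two_le (z : ℝ) (h0 : 0 ≤ z) (h1 : z ≤ 1 / 2) : Real.exp (-(2 * z)) ≤ 1 - z := by
  have h2 : 0 < 1 - z := by linarith
  rw [Real.exp_neg]
  rw [inv_le_comm₀ (Real.exp_pos _) h2]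
  have h3 := Real.add_one_le_exp (2 * z)
  refine le_trans ?_ h3
  rw [inv_le_iff_one_le_mul₀ h2]
  nlinarith

lemma theta_ge (M : ℕ) (hM : 2 ≤ M) (hl : lam M ≤ 1 / 8) :
    Real.exp (-(8 * lam M)) ≤ theta M := by
  have hM0 : (0 : ℝ) < M := by exact_mod_cast (show 0 < M by omega)
  have hM2 : (2 : ℝ) ≤ M := by exact_mod_cast hM
  have hlog : 1 ≤ Real.log ((M : ℝ) + 1) := by
    rw [Real.le_log_iff_exp_le (by positivity)]
    have := Real.exp_one_lt_d9
    linarith
  have hl0 : 0 ≤ lam M := by unfold lam; positivity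
  have h1 := exp_neg_two_le (4 * lam M) (by linarith) (by linarith)
  have h2 : Real.exp (-(8 * lam M)) = Real.exp (-(2 * (4 * lam M))) := by congr 1; ring
  rw [h2]
  refine h1.trans ?_
  unfold theta
  have h3 := sum_inv_le_log M
  have h4 : 1 - 2 / (M : ℝ) ≤ (M : ℝ) / (M + 2) := by
    rw [le_div_iff₀ (by positivity)]
    have : (1 - 2 / (M : ℝ)) * (M + 2) = M - 4 / M := by
      field_simp
      ring
    rw [this]
    have : 0 ≤ 4 / (M : ℝ) := by positivity
    linarith
  have h5 : 2 * (∑ b ∈ Finset.Icc 1 M, 1 / ((b : ℝ) + 1)) / M ≤ 2 * Real.log ((M : ℝ) + 1) / M := by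
    gcongr
  have h6 : 2 * Real.log ((M : ℝ) + 1) / M = 2 * lam M := by unfold lam; ring
  have h7 : 2 / (M : ℝ) ≤ 2 * lam M := by
    unfold lam
    rw [← mul_div_assoc]
    apply div_le_div_of_nonneg_right _ hM0.le
    linarith
  linarith

/-- The lists of small cost. -/
def nset2 (M X B : ℕ) : Finset (List (ℕ × ℕ)) := (nset M X).filter (fun m => cost m ≤ B)

lemma nset2_subset (M X B : ℕ) : nset2 M X B ⊆ nset M X := Finset.filter_subset _ _

lemma card_nset_le (M X : ℕ) (hX : 1 ≤ X) : (nset M X).card ≤ X ^ 2 := by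
  have hcard : ((Finset.Icc 1 X) ×ˢ (Finset.range X)).card = X ^ 2 := by
    rw [Finset.card_product, Nat.card_Icc, Finset.card_range]
    simp only [Nat.add_sub_cancel]
    ring
  rw [← hcard]
  apply Finset.card_le_card_of_injOn col
  · intro l hl
    have P := nset_posL hX (Finset.mem_coe.1 hl)
    obtain ⟨-, a1, -⟩ := nset_spec M X hX l (Finset.mem_coe.1 hl)
    obtain ⟨b1, b2⟩ := col_lt P
    rw [Finset.mem_coe, Finset.mem_product, Finset.mem_Icc, Finset.mem_range]
    exact ⟨⟨b1, a1⟩, by omega⟩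
  · intro l hl l' hl' h
    exact col_injective (nset_posL hX (Finset.mem_coe.1 hl)) (nset_posL hX (Finset.mem_coe.1 hl')) h

/-- The lower bound. -/
theorem card_nset2_ge (M X B : ℕ) (hM : 2 ≤ M) (hX : 1 ≤ X) (hl : lam M ≤ 1 / 8)
    (hB : (M : ℝ) * (3 + 4 * Real.log ((M : ℝ) + 1) + 24 * lam M * Real.log X) ≤ B) :
    Real.exp (-2) / 2 / ((M : ℝ) + 1) ^ 4 * ((X : ℝ) ^ 2 * Real.exp (-(24 * lam M * Real.log X)))
      ≤ ((nset2 M X B).card : ℝ) := by
  have hM0 : (0 : ℝ) < M := by exact_mod_cast (show 0 < M by omega)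
  have hX0 : (0 : ℝ) < X := by exact_mod_cast hX
  have hX1 : (1 : ℝ) ≤ X := by exact_mod_cast hX
  have hlogX : 0 ≤ Real.log X := Real.log_nonneg hX1
  have hl0 : 0 ≤ lam M := by
    unfold lam
    apply div_nonneg _ hM0.le
    apply Real.log_nonneg
    linarith
  have hθ := theta_ge M hM hl
  have hθ0 : 0 ≤ theta M := (Real.exp_pos _).le.trans hθ
  set n := Nat.log 2 X + 1 with hn
  have hlogn : (n : ℝ) ≤ 3 / 2 * Real.log X + 1 := by
    have h1 : 2 ^ (Nat.log 2 X) ≤ X := Nat.pow_log_le_self 2 (by omega)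
    have h2 : ((2 : ℝ)) ^ (Nat.log 2 X) ≤ X := by exact_mod_cast h1
    have h3 : (Nat.log 2 X : ℝ) * Real.log 2 ≤ Real.log X := by
      rw [← Real.log_pow]
      exact Real.log_le_log (by positivity) h2
    have h4 : (2 / 3 : ℝ) ≤ Real.log 2 := by
      have := Real.log_two_gt_d9
      linarith
    have h5 : (0 : ℝ) ≤ (Nat.log 2 X : ℝ) := by positivity
    rw [hn]
    push_cast
    nlinarith
  have hw := wsum_ge M X n (1, 0) (by omega) hθ0 (by simp) (by simp) (by
    have h1 : X < 2 ^ n := Nat.lt_pow_succ_log_self (by norm_num) X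
    simp only [add_zero, mul_one, one_mul]
    calc X ^ 2 < (2 ^ n) ^ 2 := Nat.pow_lt_pow_left h1 (by norm_num)
      _ = 4 ^ n := by rw [← pow_mul, mul_comm, pow_mul]; norm_num)
  have hwt : wt (1, 0) = 1 := by simp [wt]
  rw [hwt, mul_one] at hw
  set E : ℝ := Real.exp (-(24 * lam M * Real.log X)) with hE
  have hE0 : 0 < E := Real.exp_pos _
  -- the lower bound for the weighted sum
  have hpow : Real.exp (-2) * E ≤ (theta M ^ 2) ^ n := by
    calc Real.exp (-2) * E = Real.exp (-2 + -(24 * lam M * Real.log X)) := by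
          rw [hE, ← Real.exp_add]
      _ ≤ Real.exp (-(16 * n * lam M)) := by
          apply Real.exp_le_exp.2
          nlinarith
      _ = (Real.exp (-(8 * lam M)) ^ 2) ^ n := by
          rw [← pow_mul, ← Real.exp_nat_mul]
          congr 1
          push_cast
          ring
      _ ≤ _ := by gcongr
  have hlow : Real.exp (-2) * E * ((X : ℝ) ^ 2 / ((M : ℝ) + 1) ^ 4) ≤ wsum M X n (1, 0) := by
    refine le_trans ?_ hw
    gcongr
  -- split the weighted sum
  have hsplit : wsum M X n (1, 0) = ∑ m ∈ nset2 M X B, Real.exp (-((cost m : ℝ) / M))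
      + ∑ m ∈ (nset M X).filter (fun m => ¬ cost m ≤ B), Real.exp (-((cost m : ℝ) / M)) := by
    unfold nset2
    rw [Finset.sum_filter_add_sum_filter_not]
    rfl
  have hfirst : ∑ m ∈ nset2 M X B, Real.exp (-((cost m : ℝ) / M)) ≤ ((nset2 M X B).card : ℝ) := by
    calc _ ≤ ∑ m ∈ nset2 M X B, (1 : ℝ) := by
          apply Finset.sum_le_sum
          intro m _
          apply Real.exp_le_one_iff.2
          have : (0 : ℝ) ≤ (cost m : ℝ) / M := by positivity
          linarith
      _ = _ := by simp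
  have hsecond : ∑ m ∈ (nset M X).filter (fun m => ¬ cost m ≤ B), Real.exp (-((cost m : ℝ) / M))
      ≤ (X : ℝ) ^ 2 * Real.exp (-((B : ℝ) / M)) := by
    calc _ ≤ ∑ m ∈ (nset M X).filter (fun m => ¬ cost m ≤ B), Real.exp (-((B : ℝ) / M)) := by
          apply Finset.sum_le_sum
          intro m hm
          rw [Finset.mem_filter] at hm
          apply Real.exp_le_exp.2
          have h1 : (B : ℝ) ≤ cost m := by exact_mod_cast (not_le.1 hm.2).le
          have h2 : (B : ℝ) / M ≤ (cost m : ℝ) / M := div_le_div_of_nonneg_right h1 hM0.le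
          linarith
      _ = (((nset M X).filter (fun m => ¬ cost m ≤ B)).card : ℝ) * Real.exp (-((B : ℝ) / M)) := by
          rw [Finset.sum_const, nsmul_eq_mul]
      _ ≤ _ := by
          apply mul_le_mul_of_nonneg_right _ (Real.exp_pos _).le
          have h1 : ((nset M X).filter (fun m => ¬ cost m ≤ B)).card ≤ X ^ 2 :=
            (Finset.card_filter_le _ _).trans (card_nset_le M X hX)
          exact_mod_cast h1
  have hBexp : Real.exp (-((B : ℝ) / M)) ≤ Real.exp (-2) / 2 * E / ((M : ℝ) + 1) ^ 4 := by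
    have h1 : 3 + 4 * Real.log ((M : ℝ) + 1) + 24 * lam M * Real.log X ≤ (B : ℝ) / M := by
      rw [le_div_iff₀ hM0]
      linarith
    calc Real.exp (-((B : ℝ) / M))
        ≤ Real.exp (-(3 + 4 * Real.log ((M : ℝ) + 1) + 24 * lam M * Real.log X)) := by
          apply Real.exp_le_exp.2
          linarith
      _ = Real.exp (-3) * Real.exp (-(4 * Real.log ((M : ℝ) + 1))) * E := by
          rw [hE, ← Real.exp_add, ← Real.exp_add]
          congr 1
          ring
      _ = Real.exp (-3) * (((M : ℝ) + 1) ^ 4)⁻¹ * E := by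
          rw [Real.exp_neg (4 * Real.log ((M : ℝ) + 1))]
          congr 3
          have : 4 * Real.log ((M : ℝ) + 1) = Real.log (((M : ℝ) + 1) ^ 4) := by
            rw [Real.log_pow]; push_cast; ring
          rw [this, Real.exp_log (by positivity)]
      _ ≤ (Real.exp (-2) / 2) * (((M : ℝ) + 1) ^ 4)⁻¹ * E := by
          gcongr
          have h2 : Real.exp (-3) = Real.exp (-2) * Real.exp (-1) := by
            rw [← Real.exp_add]; norm_num
          rw [h2]
          have h3 : Real.exp (-1) ≤ 1 / 2 := by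
            rw [Real.exp_neg, inv_le_comm₀ (Real.exp_pos _) (by norm_num)]
            have := Real.add_one_le_exp (1 : ℝ)
            norm_num
            linarith
          have h4 := Real.exp_pos (-2)
          nlinarith
      _ = _ := by
          rw [div_eq_mul_inv (Real.exp (-2) / 2 * E)]
          ring
  have hfin : Real.exp (-2) * E * ((X : ℝ) ^ 2 / ((M : ℝ) + 1) ^ 4)
      ≤ ((nset2 M X B).card : ℝ) + (X : ℝ) ^ 2 * (Real.exp (-2) / 2 * E / ((M : ℝ) + 1) ^ 4) := by
    calc _ ≤ _ := hlow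
      _ = _ := hsplit
      _ ≤ _ := add_le_add hfirst (hsecond.trans (mul_le_mul_of_nonneg_left hBexp (by positivity)))
  have e1 : Real.exp (-2) * E * ((X : ℝ) ^ 2 / ((M : ℝ) + 1) ^ 4)
      = 2 * ((X : ℝ) ^ 2 * (Real.exp (-2) / 2 * E / ((M : ℝ) + 1) ^ 4)) := by ring
  have e2 : Real.exp (-2) / 2 / ((M : ℝ) + 1) ^ 4 * ((X : ℝ) ^ 2 * E)
      = (X : ℝ) ^ 2 * (Real.exp (-2) / 2 * E / ((M : ℝ) + 1) ^ 4) := by ring
  rw [e2]
  linarith

end Run7.h166
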