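import Pool.Agent.Run7.h166.Fibers

/-!
Collisions modulo `p` of the matrices of the lists.
-/

namespace Run7.h166

open Matrix Finset Gen

/-- The quadruples of determinant one on a hyperplane. -/
noncomputable def hyp4 (Z : ℕ) (v : ℤ × ℤ × ℤ × ℤ) (k : ℤ) : Finset (ℤ × ℤ × ℤ × ℤ) :=
  (box4 Z).filter (fun u => u.1 * u.2.2.2 - u.2.1 * u.2.2.1 = 1 ∧
    u.1 * v.2.2.2 + u.2.2.2 * v.1 - u.2.1 * v.2.2.1 - u.2.2.1 * v.2.1 = k)

lemma mem_hyp4 {Z : ℕ} {v : ℤ × ℤ × ℤ × ℤ} {k : ℤ} {u : ℤ × ℤ × ℤ × ℤ} :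
    u ∈ hyp4 Z v k ↔
      ((0 ≤ u.1 ∧ u.1 ≤ Z) ∧ (0 ≤ u.2.1 ∧ u.2.1 ≤ Z) ∧ (0 ≤ u.2.2.1 ∧ u.2.2.1 ≤ Z) ∧
        (0 ≤ u.2.2.2 ∧ u.2.2.2 ≤ Z)) ∧ u.1 * u.2.2.2 - u.2.1 * u.2.2.1 = 1 ∧
    u.1 * v.2.2.2 + u.2.2.2 * v.1 - u.2.1 * v.2.2.1 - u.2.2.1 * v.2.1 = k := by
  unfold hyp4 box4
  simp only [Finset.mem_filter, Finset.mem_product, Finset.mem_Icc]

lemma card_hyp4_le (Z R T : ℕ) (hZ : 1 ≤ Z) (v : ℤ × ℤ × ℤ × ℤ) (k : ℤ) (hv : v ≠ 0)
    (h1 : |v.1| ≤ R) (h2 : |v.2.1| ≤ R) (h3 : |v.2.2.1| ≤ R) (h4 : |v.2.2.2| ≤ R)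
    (hT : 672 * (R ^ 2 * Z ^ 2) < (T + 1) ^ 3) :
    (hyp4 Z v k).card ≤ 2 * (Z + 1) * (T + R ^ 2) := by
  have h2' : |-v.2.1| ≤ R := by rwa [abs_neg]
  have h3' : |-v.2.2.1| ≤ R := by rwa [abs_neg]
  by_cases c1 : v.1 = 0
  · by_cases c4 : v.2.2.2 = 0
    · by_cases c3 : v.2.2.1 = 0
      · -- the coefficient `v.2.1` is not zero
        have c2 : v.2.1 ≠ 0 := by
          intro c2
          apply hv
          exact Prod.ext c1 (Prod.ext c2 (Prod.ext c3 c4))
        have hb := card_plane_le Z R T hZ (-1) (-v.2.1) v.2.2.2 v.1 (-v.2.2.1) k (Or.inr rfl)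
          (neg_ne_zero.2 c2) h2' h4 h1 h3' hT
        refine le_trans ?_ hb
        apply Finset.card_le_card_of_injOn (fun u => (u.2.1, u.1, u.2.2.2, u.2.2.1))
        · intro u hu
          obtain ⟨⟨a, b, c, d⟩, e, f⟩ := mem_hyp4.1 (Finset.mem_coe.1 hu)
          rw [Finset.mem_coe, mem_plane]
          exact ⟨⟨b, a, d, c⟩, by simp only; linear_combination (-1) * e,
            by simp only; linear_combination f⟩
        · intro u _ w _ huw
          simp only [Prod.mk.injEq] at huw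
          obtain ⟨a, b, c, d⟩ := huw
          exact Prod.ext b (Prod.ext a (Prod.ext d c))
      · have hb := card_plane_le Z R T hZ (-1) (-v.2.2.1) v.2.2.2 v.1 (-v.2.1) k (Or.inr rfl)
          (neg_ne_zero.2 c3) h3' h4 h1 h2' hT
        refine le_trans ?_ hb
        apply Finset.card_le_card_of_injOn (fun u => (u.2.2.1, u.1, u.2.2.2, u.2.1))
        · intro u hu
          obtain ⟨⟨a, b, c, d⟩, e, f⟩ := mem_hyp4.1 (Finset.mem_coe.1 hu)
          rw [Finset.mem_coe, mem_plane]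
          exact ⟨⟨c, a, d, b⟩, by simp only; linear_combination (-1) * e,
            by simp only; linear_combination f⟩
        · intro u _ w _ huw
          simp only [Prod.mk.injEq] at huw
          obtain ⟨a, b, c, d⟩ := huw
          exact Prod.ext b (Prod.ext d (Prod.ext a c))
    · have hb := card_plane_le Z R T hZ 1 v.2.2.2 (-v.2.2.1) (-v.2.1) v.1 k (Or.inl rfl)
        c4 h4 h3' h2' h1 hT
      refine le_trans ?_ hb
      apply Finset.card_le_card_of_injOn (fun u => (u.2.2.2, u.2.1, u.2.2.1, u.1))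
      · intro u hu
        obtain ⟨⟨a, b, c, d⟩, e, f⟩ := mem_hyp4.1 (Finset.mem_coe.1 hu)
        rw [Finset.mem_coe, mem_plane]
        exact ⟨⟨d, b, c, a⟩, by simp only; linear_combination e,
          by simp only; linear_combination f⟩
      · intro u _ w _ huw
        simp only [Prod.mk.injEq] at huw
        obtain ⟨a, b, c, d⟩ := huw
        exact Prod.ext d (Prod.ext b (Prod.ext c a))
  · have hb := card_plane_le Z R T hZ 1 v.1 (-v.2.2.1) (-v.2.1) v.2.2.2 k (Or.inl rfl)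
      c1 h1 h3' h2' h4 hT
    refine le_trans ?_ hb
    apply Finset.card_le_card
    intro u hu
    obtain ⟨a, e, f⟩ := mem_hyp4.1 hu
    rw [mem_plane]
    exact ⟨a, e, by linear_combination f⟩

/-- The entries of the matrix of a list. -/
def ent (l : List (ℕ × ℕ)) : ℤ × ℤ × ℤ × ℤ := ((col l).1, (col2 l).1, (col l).2, (col2 l).2)

lemma ent_det (l : List (ℕ × ℕ)) :
    (ent l).1 * (ent l).2.2.2 - (ent l).2.1 * (ent l).2.2.1 = 1 := by
  have := det_nat l
  unfold ent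
  simp only
  have h : ((col l).1 : ℤ) * (col2 l).2 = (col2 l).1 * (col l).2 + 1 := by exact_mod_cast this
  linarith

lemma ent_injective {l l' : List (ℕ × ℕ)} (h : PosL l) (h' : PosL l') (e : ent l = ent l') :
    l = l' := by
  unfold ent at e
  simp only [Prod.mk.injEq, Nat.cast_inj] at e
  exact col_injective h h' (Prod.ext e.1 e.2.2.1)

/-- The box of the differences. -/
noncomputable def vbox (R : ℕ) : Finset (ℤ × ℤ × ℤ × ℤ) :=
  (Finset.Icc (-(R : ℤ)) R ×ˢ Finset.Icc (-(R : ℤ)) R ×ˢ Finset.Icc (-(R : ℤ)) R ×ˢ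
    Finset.Icc (-(R : ℤ)) R).erase 0

lemma mem_vbox {R : ℕ} {v : ℤ × ℤ × ℤ × ℤ} : v ∈ vbox R ↔
    v ≠ 0 ∧ |v.1| ≤ R ∧ |v.2.1| ≤ R ∧ |v.2.2.1| ≤ R ∧ |v.2.2.2| ≤ R := by
  unfold vbox
  rw [Finset.mem_erase, Finset.mem_product, Finset.mem_product, Finset.mem_product,
    Finset.mem_Icc, Finset.mem_Icc, Finset.mem_Icc, Finset.mem_Icc, abs_le, abs_le, abs_le, abs_le]

lemma card_vbox_le (R : ℕ) : (vbox R).card ≤ (2 * R + 1) ^ 4 := by
  unfold vbox
  refine (Finset.card_erase_le).trans (le_of_eq ?_)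
  have h : (Finset.Icc (-(R : ℤ)) R).card = 2 * R + 1 := by
    rw [Int.card_Icc]
    omega
  rw [Finset.card_product, Finset.card_product, Finset.card_product, h]
  ring

lemma exists_diff {p : ℕ} (hp : 0 < p) {a b Z : ℕ} (ha : a ≤ Z) (hb : b ≤ Z)
    (h : (a : ZMod p) = b) : ∃ v : ℤ, (b : ℤ) = a + p * v ∧ |v| ≤ ((Z / p : ℕ) : ℤ) := by
  have h1 : ((p : ℕ) : ℤ) ∣ (b : ℤ) - a := by
    have := (ZMod.natCast_eq_natCast_iff a b p).1 h
    exact (Nat.modEq_iff_dvd).1 this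
  obtain ⟨v, hv⟩ := h1
  refine ⟨v, by linarith, ?_⟩
  have h2 : (p : ℤ) * |v| ≤ Z := by
    have : |(p : ℤ) * v| ≤ Z := by
      rw [← hv, abs_le]
      constructor <;> omega
    rwa [abs_mul, abs_of_nonneg (by positivity : (0 : ℤ) ≤ p)] at this
  have h3 : |v| ≤ (Z : ℤ) / p := by
    rw [Int.le_ediv_iff_mul_le (by exact_mod_cast hp)]
    linarith
  rw [Int.natCast_ediv]
  exact h3

section

variable {p : ℕ} [Fact p.Prime]

/-- The number of collisions. -/
lemma card_collisions_le (M Z T : ℕ) (hZ : 1 ≤ Z)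
    (hT : 672 * ((Z / p) ^ 2 * Z ^ 2) < (T + 1) ^ 3) :
    (((nset M Z) ×ˢ (nset M Z)).filter (fun x => rd p x.1 = rd p x.2)).card
      ≤ (nset M Z).card + (2 * (Z / p) + 1) ^ 4 * (2 * (Z + 1) * (T + (Z / p) ^ 2)) := by
  have hp0 : 0 < p := (Fact.out : p.Prime).pos
  set R := Z / p with hR
  -- the diagonal
  have hsplit : ((nset M Z) ×ˢ (nset M Z)).filter (fun x => rd p x.1 = rd p x.2)
      ⊆ ((nset M Z).image (fun l => (l, l))) ∪
        (((nset M Z) ×ˢ (nset M Z)).filter (fun x => rd p x.1 = rd p x.2 ∧ x.1 ≠ x.2)) := by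
    intro x hx
    rw [Finset.mem_filter, Finset.mem_product] at hx
    obtain ⟨⟨h1, h2⟩, h3⟩ := hx
    rw [Finset.mem_union]
    by_cases h : x.1 = x.2
    · left
      rw [Finset.mem_image]
      exact ⟨x.1, h1, Prod.ext rfl h⟩
    · right
      rw [Finset.mem_filter, Finset.mem_product]
      exact ⟨⟨h1, h2⟩, h3, h⟩
  have hoff : (((nset M Z) ×ˢ (nset M Z)).filter
      (fun x => rd p x.1 = rd p x.2 ∧ x.1 ≠ x.2)).card
      ≤ ∑ v ∈ vbox R, (hyp4 Z v (-(p : ℤ) * (v.1 * v.2.2.2 - v.2.1 * v.2.2.1))).card := by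
    rw [← Finset.card_sigma]
    -- the map
    have hex : ∀ x ∈ (((nset M Z) ×ˢ (nset M Z)).filter
        (fun x => rd p x.1 = rd p x.2 ∧ x.1 ≠ x.2)), ∃ v : ℤ × ℤ × ℤ × ℤ,
        v ∈ vbox R ∧ (ent x.2).1 = (ent x.1).1 + p * v.1 ∧
          (ent x.2).2.1 = (ent x.1).2.1 + p * v.2.1 ∧
          (ent x.2).2.2.1 = (ent x.1).2.2.1 + p * v.2.2.1 ∧
          (ent x.2).2.2.2 = (ent x.1).2.2.2 + p * v.2.2.2 := by
      intro x hx
      rw [Finset.mem_filter, Finset.mem_product] at hx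
      obtain ⟨⟨h1, h2⟩, h3, h4⟩ := hx
      have P1 := nset_posL hZ h1
      have P2 := nset_posL hZ h2
      obtain ⟨-, a1, -⟩ := nset_spec M Z hZ _ h1
      obtain ⟨-, a2, -⟩ := nset_spec M Z hZ _ h2
      have b1 := (col_lt P1).2
      have b2 := (col_lt P2).2
      obtain ⟨c1, c2, -⟩ := col2_le P1
      obtain ⟨d1, d2, -⟩ := col2_le P2
      unfold rd at h3
      obtain ⟨e1, e2, e3, e4⟩ := eval_qword_entries (R := ZMod p) x.1
      obtain ⟨f1, f2, f3, f4⟩ := eval_qword_entries (R := ZMod p) x.2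
      rw [h3] at e1 e2 e3 e4
      obtain ⟨v1, hv1, hv1'⟩ := exists_diff hp0 (show (col x.1).1 ≤ Z by omega)
        (show (col x.2).1 ≤ Z by omega) (e1.symm.trans f1)
      obtain ⟨v3, hv3, hv3'⟩ := exists_diff hp0 (show (col x.1).2 ≤ Z by omega)
        (show (col x.2).2 ≤ Z by omega) (e2.symm.trans f2)
      obtain ⟨v2, hv2, hv2'⟩ := exists_diff hp0 (show (col2 x.1).1 ≤ Z by omega)
        (show (col2 x.2).1 ≤ Z by omega) (e3.symm.trans f3)
      obtain ⟨v4, hv4, hv4'⟩ := exists_diff hp0 (show (col2 x.1).2 ≤ Z by omega)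
        (show (col2 x.2).2 ≤ Z by omega) (e4.symm.trans f4)
      refine ⟨(v1, v2, v3, v4), ?_, hv1, hv2, hv3, hv4⟩
      rw [mem_vbox]
      refine ⟨?_, hv1', hv2', hv3', hv4'⟩
      intro h0
      apply h4
      have z1 : v1 = 0 := congrArg Prod.fst h0
      have z3 : v3 = 0 := congrArg (fun t => t.2.2.1) h0
      rw [z1, mul_zero, add_zero] at hv1
      rw [z3, mul_zero, add_zero] at hv3
      apply col_injective P1 P2
      exact Prod.ext (by exact_mod_cast hv1.symm) (by exact_mod_cast hv3.symm)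
    choose! φ hφ using hex
    apply Finset.card_le_card_of_injOn
      (fun x => (⟨φ x, ent x.1⟩ : Σ _ : ℤ × ℤ × ℤ × ℤ, ℤ × ℤ × ℤ × ℤ))
    · intro x hx
      have hx' := Finset.mem_coe.1 hx
      obtain ⟨g0, g1, g2, g3, g4⟩ := hφ x hx'
      rw [Finset.mem_filter, Finset.mem_product] at hx'
      obtain ⟨⟨h1, h2⟩, h3, h4⟩ := hx'
      have P1 := nset_posL hZ h1
      obtain ⟨-, a1, -⟩ := nset_spec M Z hZ _ h1
      have b1 := (col_lt P1).2
      obtain ⟨c1, c2, -⟩ := col2_le P1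
      rw [Finset.mem_coe, Finset.mem_sigma]
      refine ⟨g0, ?_⟩
      rw [mem_hyp4]
      refine ⟨?_, ent_det x.1, ?_⟩
      · unfold ent
        simp only
        refine ⟨⟨by positivity, ?_⟩, ⟨by positivity, ?_⟩, ⟨by positivity, ?_⟩,
          ⟨by positivity, ?_⟩⟩
        · exact_mod_cast a1
        · exact_mod_cast c1.trans a1
        · exact_mod_cast b1.le.trans a1
        · exact_mod_cast c2.trans a1
      · have k1 := ent_det x.1
        have k2 := ent_det x.2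
        rw [g1, g2, g3, g4] at k2
        have hp' : (p : ℤ) ≠ 0 := by exact_mod_cast hp0.ne'
        apply mul_left_cancel₀ hp'
        linear_combination k2 - k1
    · intro x hx y hy hxy
      have hx' := Finset.mem_coe.1 hx
      have hy' := Finset.mem_coe.1 hy
      obtain ⟨g0, g1, g2, g3, g4⟩ := hφ x hx'
      obtain ⟨k0, k1, k2, k3, k4⟩ := hφ y hy'
      simp only [Sigma.mk.injEq, heq_eq_eq] at hxy
      obtain ⟨e1, e2⟩ := hxy
      rw [Finset.mem_filter, Finset.mem_product] at hx' hy'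
      obtain ⟨⟨h1, h2⟩, h3, h4⟩ := hx'
      obtain ⟨⟨h1', h2'⟩, h3', h4'⟩ := hy'
      have E1 : x.1 = y.1 := ent_injective (nset_posL hZ h1) (nset_posL hZ h1') e2
      have E2 : x.2 = y.2 := by
        apply ent_injective (nset_posL hZ h2) (nset_posL hZ h2')
        apply Prod.ext
        · rw [g1, k1, e1, e2]
        · apply Prod.ext
          · rw [g2, k2, e1, e2]
          · apply Prod.ext
            · rw [g3, k3, e1, e2]
            · rw [g4, k4, e1, e2]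
      exact Prod.ext E1 E2
  calc _ ≤ _ := Finset.card_le_card hsplit
    _ ≤ _ := Finset.card_union_le _ _
    _ ≤ (nset M Z).card + (2 * R + 1) ^ 4 * (2 * (Z + 1) * (T + R ^ 2)) := by
      apply Nat.add_le_add Finset.card_image_le
      refine hoff.trans ?_
      calc _ ≤ ∑ v ∈ vbox R, 2 * (Z + 1) * (T + R ^ 2) := by
            apply Finset.sum_le_sum
            intro v hv
            obtain ⟨v0, v1, v2, v3, v4⟩ := mem_vbox.1 hv
            exact card_hyp4_le Z R T hZ v _ v0 v1 v2 v3 v4 hT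
        _ = (vbox R).card * (2 * (Z + 1) * (T + R ^ 2)) := by
            rw [Finset.sum_const, smul_eq_mul]
        _ ≤ _ := Nat.mul_le_mul_right _ (card_vbox_le R)

end

end Run7.h166
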