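import Pool.Agent.Run7.h166.Collide

/-!
The number of triples of lists whose concatenation sends `(1, 0)` to `(1/2, 0)`.
-/

namespace Run7.h166

open Matrix Finset Gen

section

variable {p : ℕ} [Fact p.Prime]

/-- The triples of lists whose concatenation sends `(1, 0)` to `(1/2, 0)` modulo `p`. -/
def goodTriples (p M X1 X2 X3 : ℕ) :
    Finset (List (ℕ × ℕ) × List (ℕ × ℕ) × List (ℕ × ℕ)) :=
  ((nset M X1) ×ˢ ((nset M X2) ×ˢ (nset M X3))).filter
    (fun t => cl p (t.1 ++ (t.2.1 ++ t.2.2)) = v0 p)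

lemma goodTriples_eq (M X1 X2 X3 : ℕ) :
    ((goodTriples p M X1 X2 X3).card : ℝ)
      = ∑ g : Matrix.SpecialLinearGroup (Fin 2) (ZMod p), cnt (nset M X2) (rd p) g *
          cross (cnt (nset M X3) (cl p)) (cnt (nset M X1) (dl p)) g := by
  rw [sum_cnt_mul]
  unfold cross
  have h1 : ∀ l2 ∈ nset M X2, ∑ v, cnt (nset M X3) (cl p) v *
      cnt (nset M X1) (dl p) (act (rd p l2) v)
      = ∑ l3 ∈ nset M X3, cnt (nset M X1) (dl p) (act (rd p l2) (cl p l3)) := by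
    intro l2 _
    exact sum_cnt_mul (nset M X3) (cl p) (fun v => cnt (nset M X1) (dl p) (act (rd p l2) v))
  rw [Finset.sum_congr rfl h1]
  unfold goodTriples cnt
  rw [Finset.card_filter, Finset.sum_product_right, Finset.sum_product]
  push_cast
  apply Finset.sum_congr rfl
  intro l2 _
  apply Finset.sum_congr rfl
  intro l3 _
  rw [Finset.card_filter]
  push_cast
  apply Finset.sum_congr rfl
  intro l1 _
  have h2 : cl p (l1 ++ (l2 ++ l3)) = v0 p ↔ dl p l1 = act (rd p l2) (cl p l3) := by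
    rw [cl_append, cl_append, act_rd_eq_iff]
  by_cases h : dl p l1 = act (rd p l2) (cl p l3)
  · rw [if_pos h, if_pos (h2.2 h)]
  · rw [if_neg h, if_neg (fun h' => h (h2.1 h'))]

lemma final_ineq (W n1 n2 n3 P B sν sH sF : ℝ) (hP : 2 ≤ P) (h1 : 0 ≤ n1) (h2 : 0 ≤ n2)
    (h3 : 0 ≤ n3) (hB : 0 ≤ B) (hsH : 0 ≤ sH) (hsF : 0 ≤ sF)
    (hν : sν ≤ 2 * n2) (hH : sH ≤ 1 * n3) (hF : sF ≤ B * n1)
    (hmix : (W - n2 * n3 * n1 / (P ^ 2 - 1)) ^ 2 ≤ sν * (2 * P ^ 2 * sH * sF))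
    (hbig : 16 * P ^ 6 * B ≤ n1 * n2 * n3) :
    n1 * n2 * n3 / (2 * P ^ 2) ≤ W := by
  have hP0 : 0 < P ^ 2 - 1 := by nlinarith
  have hPpos : 0 < P := by linarith
  have hbound : (W - n2 * n3 * n1 / (P ^ 2 - 1)) ^ 2 ≤ (n1 * n2 * n3 / (2 * P ^ 2)) ^ 2 := by
    refine hmix.trans ?_
    have e1 : 2 * P ^ 2 * sH * sF ≤ 2 * P ^ 2 * (1 * n3) * (B * n1) := by
      apply mul_le_mul _ hF hsF (by positivity)
      exact mul_le_mul_of_nonneg_left hH (by positivity)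
    have e2 : sν * (2 * P ^ 2 * sH * sF) ≤ (2 * n2) * (2 * P ^ 2 * (1 * n3) * (B * n1)) := by
      apply mul_le_mul hν e1 (by positivity) (by positivity)
    refine e2.trans ?_
    have e3 : (2 * n2) * (2 * P ^ 2 * (1 * n3) * (B * n1))
        = (16 * P ^ 6 * B) * (n1 * n2 * n3) / (4 * P ^ 4) := by
      field_simp
      ring
    have e4 : (n1 * n2 * n3 / (2 * P ^ 2)) ^ 2 = (n1 * n2 * n3) * (n1 * n2 * n3) / (4 * P ^ 4) := by
      field_simp
      ring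
    rw [e3, e4]
    apply div_le_div_of_nonneg_right _ (by positivity)
    exact mul_le_mul_of_nonneg_right hbig (by positivity)
  have habs : |W - n2 * n3 * n1 / (P ^ 2 - 1)| ≤ n1 * n2 * n3 / (2 * P ^ 2) :=
    abs_le_of_sq_le_sq hbound (by positivity)
  have h5 := (abs_le.1 habs).1
  have h6 : n1 * n2 * n3 / P ^ 2 ≤ n2 * n3 * n1 / (P ^ 2 - 1) := by
    have : n2 * n3 * n1 = n1 * n2 * n3 := by ring
    rw [this]
    apply div_le_div_of_nonneg_left (by positivity) hP0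
    linarith
  have h7 : n1 * n2 * n3 / P ^ 2 = 2 * (n1 * n2 * n3 / (2 * P ^ 2)) := by
    field_simp
  linarith

/-- The lower bound for the number of good triples. -/
theorem goodTriples_ge (hp : Odd p) (M X1 X2 X3 T : ℕ) (hX1 : 1 ≤ X1) (hX2 : 1 ≤ X2)
    (hX3 : 1 ≤ X3) (hX3p : X3 < p)
    (hT : 672 * ((X2 / p) ^ 2 * X2 ^ 2) < (T + 1) ^ 3)
    (hcol : (2 * (X2 / p) + 1) ^ 4 * (2 * (X2 + 1) * (T + (X2 / p) ^ 2)) ≤ (nset M X2).card)
    (hbig : 16 * (p : ℝ) ^ 6 * (((M : ℝ) + 2) * ((X1 / p : ℕ) + 1) ^ 2)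
      ≤ ((nset M X1).card : ℝ) * ((nset M X2).card : ℝ) * ((nset M X3).card : ℝ)) :
    ((nset M X1).card : ℝ) * ((nset M X2).card : ℝ) * ((nset M X3).card : ℝ)
      / (2 * (p : ℝ) ^ 2) ≤ ((goodTriples p M X1 X2 X3).card : ℝ) := by
  have hp2 : (2 : ℝ) ≤ p := by exact_mod_cast (Fact.out : p.Prime).two_le
  have hmix := mixing (K := ZMod p) (cnt (nset M X2) (rd p)) (cnt (nset M X3) (cl p))
    (cnt (nset M X1) (dl p)) (cnt_eq_zero _ _ _ (fun l _ => cl_ne_zero l))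
    (cnt_eq_zero _ _ _ (fun l _ => dl_ne_zero hp l))
  rw [← goodTriples_eq, sum_cnt, sum_cnt, sum_cnt, ZMod.card] at hmix
  have hν : ∑ g : Matrix.SpecialLinearGroup (Fin 2) (ZMod p), cnt (nset M X2) (rd p) g ^ 2
      ≤ 2 * ((nset M X2).card : ℝ) := by
    rw [sum_cnt_sq]
    have h1 := card_collisions_le (p := p) M X2 T hX2 hT
    have h2 : (((nset M X2) ×ˢ (nset M X2)).filter (fun x => rd p x.1 = rd p x.2)).card
        ≤ 2 * (nset M X2).card := by omega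
    have h3 : ((((nset M X2) ×ˢ (nset M X2)).filter (fun x => rd p x.1 = rd p x.2)).card : ℝ)
        ≤ ((2 * (nset M X2).card : ℕ) : ℝ) := by exact_mod_cast h2
    push_cast at h3
    exact h3
  have hH : ∑ x : ZMod p × ZMod p, cnt (nset M X3) (cl p) x ^ 2
      ≤ 1 * ((nset M X3).card : ℝ) :=
    sum_cnt_sq_le _ _ 1 (cnt_cl_le M X3 hX3 hX3p)
  have hF : ∑ x : ZMod p × ZMod p, cnt (nset M X1) (dl p) x ^ 2
      ≤ (((M : ℝ) + 2) * ((X1 / p : ℕ) + 1) ^ 2) * ((nset M X1).card : ℝ) :=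
    sum_cnt_sq_le _ _ _ (cnt_dl_le hp M X1 hX1)
  exact final_ineq _ _ _ _ _ _ _ _ _ hp2 (by positivity) (by positivity) (by positivity)
    (by positivity) (Finset.sum_nonneg (fun x _ => sq_nonneg _))
    (Finset.sum_nonneg (fun x _ => sq_nonneg _)) hν hH hF hmix hbig

end

end Run7.h166
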