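import Pool.Agent.Run7.h166.Final

/-!
The final density theorem.
-/

namespace Run7.h166

open Matrix Finset Gen

lemma small_case (p L : ℕ) (hp : Odd p) (hp3 : 3 ≤ p) (hL : p + 2 ≤ L) :
    (1, 0) ∈ goodPairs L p := by
  obtain ⟨k, hk⟩ := hp
  have hk1 : 1 ≤ k := by omega
  have hp' : Odd p := ⟨k, hk⟩
  refine ⟨?_, ?_, ?_⟩
  · show 1 < p ^ 3
    exact Nat.one_lt_pow (by norm_num) (by omega)
  · show 0 < p ^ 3
    positivity
  · show IsSolution p (candidate L p 1 0)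
    set l : List (ℕ × ℕ) := [(1, 1), (1, k)] with hl
    have hcol : col l = (3 * k + 2, 2 * k + 1) := by
      rw [hl, col_cons, col_cons, col_nil]
      unfold stp
      simp only
      ext
      · simp only; ring
      · simp only; ring
    have hpos : PosL l := by
      intro ab hab
      rw [hl] at hab
      simp only [List.mem_cons, List.not_mem_nil, or_false] at hab
      rcases hab with rfl | rfl
      · exact ⟨le_refl _, le_refl _⟩
      · exact ⟨le_refl _, hk1⟩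
    have hlen : (qword l).length = k + 3 := by
      rw [hl]
      simp [qword]
    have h1 : (p * (2 * 1 + 1) + 1) / 2 = 3 * k + 2 := by omega
    have h2 : p * (0 + 1) = 2 * k + 1 := by omega
    obtain ⟨n, hn⟩ := Nat.exists_eq_add_of_le (show (qword l).length ≤ L by omega)
    have hw : euclid L (3 * k + 2) (2 * k + 1) = qword l := by
      have := euclid_qword l hpos n
      rw [hcol] at this
      rw [hn, add_comm]
      exact this
    unfold candidate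
    rw [h1, h2, hw]
    obtain ⟨g1, g2, -, -⟩ := eval_qword_entries (R := ZMod p) l
    have hpz : ((2 * k + 1 : ℕ) : ZMod p) = 0 := by
      rw [← hk]; exact ZMod.natCast_self p
    apply isSolution_conj hp'
    · rw [g1, hcol]
      push_cast at hpz ⊢
      linear_combination 3 * hpz
    · rw [g2, hcol]
      exact hpz

lemma log_le_of_le (p X : ℕ) (hp : 1 ≤ p) (hX : 1 ≤ X) (hXp : X ≤ p ^ 4) :
    (Nat.log 2 X : ℝ) ≤ 6 * Real.log p := by
  have h1 : 2 ^ (Nat.log 2 X) ≤ X := Nat.pow_log_le_self 2 (by omega)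
  have h2 : ((2 : ℝ)) ^ (Nat.log 2 X) ≤ (p : ℝ) ^ 4 := by exact_mod_cast h1.trans hXp
  have h3 : (Nat.log 2 X : ℝ) * Real.log 2 ≤ 4 * Real.log p := by
    have h5 : Real.log ((p : ℝ) ^ 4) = 4 * Real.log p := by
      rw [Real.log_pow]; push_cast; ring
    rw [← Real.log_pow, ← h5]
    exact Real.log_le_log (by positivity) h2
  have h4 : (2 / 3 : ℝ) ≤ Real.log 2 := by
    have := Real.log_two_gt_d9
    linarith
  have h5 : (0 : ℝ) ≤ (Nat.log 2 X : ℝ) := by positivity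
  nlinarith

/-- The density of the good pairs. -/
theorem density (ε : ℝ) (hε : 0 < ε) : ∃ c C : ℝ, 0 < c ∧ 0 < C ∧ ∀ p : ℕ, p.Prime → Odd p →
    (p : ℝ) ^ 6 ≤ C * (p : ℝ) ^ ε * ((goodPairs ⌊c * Real.log p⌋₊ p).ncard : ℝ) := by
  set M : ℕ := max 720 ⌈48 / ε⌉₊ with hMdef
  have hM720 : 720 ≤ M := le_max_left _ _
  have hMε : 48 / ε ≤ (M : ℝ) := (Nat.le_ceil _).trans (by exact_mod_cast le_max_right _ _)
  have hM0 : (0 : ℝ) < M := by exact_mod_cast (show 0 < M by omega)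
  set K : ℝ := max 2 (max (14256 / cM M) (1024 * ((M : ℝ) + 2) / cM M ^ 3)) with hKdef
  have hK2 : 2 ≤ K := le_max_left _ _
  set p0 : ℕ := ⌈K ^ 90⌉₊ + 3 with hp0def
  have hp0K : K ^ 90 ≤ (p0 : ℝ) := by
    rw [hp0def]
    push_cast
    have := Nat.le_ceil (K ^ 90)
    linarith
  have hc := cM_pos M
  set C1 : ℝ := 512 * 1024 / (cM M ^ 3 * ε ^ 2) with hC1def
  have hC1pos : 0 < C1 := by positivity
  refine ⟨42 * M + p0 + 2, C1 + (p0 : ℝ) ^ 6, by positivity, by positivity, ?_⟩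
  intro p hpp hodd
  have hp3 : 3 ≤ p := by
    have h2 := hpp.two_le
    rcases hodd with ⟨k, hk⟩
    omega
  have hp3R : (3 : ℝ) ≤ p := by exact_mod_cast hp3
  have hpR : (0 : ℝ) < p := by linarith
  have hp1R : (1 : ℝ) ≤ p := by linarith
  have hlog1 : 1 ≤ Real.log p := by
    rw [Real.le_log_iff_exp_le hpR]
    have := Real.exp_one_lt_d9
    linarith
  have hpε : 1 ≤ (p : ℝ) ^ ε := Real.one_le_rpow hp1R hε.le
  set L : ℕ := ⌊(42 * (M : ℝ) + p0 + 2) * Real.log p⌋₊ with hLdef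
  rcases Nat.lt_or_ge p p0 with hlt | hge
  · -- small primes
    have hL : p + 2 ≤ L := by
      rw [hLdef]
      apply Nat.le_floor
      push_cast
      have h1 : (p : ℝ) ≤ p0 := by exact_mod_cast hlt.le
      have h2 : (p : ℝ) + 2 ≤ 42 * (M : ℝ) + p0 + 2 := by linarith
      have h3 : 0 ≤ 42 * (M : ℝ) + p0 + 2 := by positivity
      nlinarith
    have hmem := small_case p L hodd hp3 hL
    have hn : 1 ≤ (goodPairs L p).ncard := by
      rw [Nat.one_le_iff_ne_zero, Ne, Set.ncard_eq_zero (goodPairs_finite L p)]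
      exact Set.nonempty_iff_ne_empty.1 ⟨_, hmem⟩
    have hnR : (1 : ℝ) ≤ ((goodPairs L p).ncard : ℝ) := by exact_mod_cast hn
    have h6 : (p : ℝ) ^ 6 ≤ (p0 : ℝ) ^ 6 := by
      apply pow_le_pow_left₀ hpR.le
      exact_mod_cast hlt.le
    calc (p : ℝ) ^ 6 ≤ (p0 : ℝ) ^ 6 := h6
      _ ≤ C1 + (p0 : ℝ) ^ 6 := by linarith
      _ = (C1 + (p0 : ℝ) ^ 6) * 1 * 1 := by ring
      _ ≤ _ := by gcongr
  · -- large primes
    haveI : Fact p.Prime := ⟨hpp⟩
    set y : ℝ := (p : ℝ) ^ (1 / 90 : ℝ) with hydef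
    have hy90 : y ^ 90 = p := by
      rw [hydef, ← Real.rpow_natCast, ← Real.rpow_mul hpR.le]
      norm_num
    have hyK : K ≤ y := by
      have h1 : K ^ 90 ≤ y ^ 90 := by
        rw [hy90]
        exact hp0K.trans (by exact_mod_cast hge)
      have hy0 : 0 ≤ y := by positivity
      exact le_of_pow_le_pow_left₀ (by norm_num) hy0 h1
    obtain ⟨X1, X2, X3, T, hX1, hX2, hX3, hX3p, hprod, hT, hcol, hbig, hlow⟩ :=
      exists_params p M hpp y hy90 (hK2.trans hyK) hM720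
        ((le_max_left _ _).trans ((le_max_right _ _).trans hyK))
        ((le_max_right _ _).trans ((le_max_right _ _).trans hyK))
    have hW := goodTriples_ge hodd M X1 X2 X3 T hX1 hX2 hX3 hX3p hT hcol hbig
    have hX1p : X1 ≤ p ^ 4 := by
      have : X1 * 1 * 1 ≤ X1 * X2 * X3 := Nat.mul_le_mul (Nat.mul_le_mul_left _ hX2) hX3
      omega
    have hX2p : X2 ≤ p ^ 4 := by
      have : 1 * X2 * 1 ≤ X1 * X2 * X3 := Nat.mul_le_mul (Nat.mul_le_mul_right _ hX1) hX3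
      omega
    have hX3p' : X3 ≤ p ^ 4 := by
      have : 1 * 1 * X3 ≤ X1 * X2 * X3 := Nat.mul_le_mul (Nat.mul_le_mul hX1 hX2) (le_refl _)
      omega
    have l1 := log_le_of_le p X1 (by omega) hX1 hX1p
    have l2 := log_le_of_le p X2 (by omega) hX2 hX2p
    have l3 := log_le_of_le p X3 (by omega) hX3 hX3p'
    have hL : 2 * M * (Nat.log 2 X1 + Nat.log 2 X2 + Nat.log 2 X3 + 3) ≤ L := by
      rw [hLdef]
      apply Nat.le_floor
      push_cast
      have h1 : (Nat.log 2 X1 : ℝ) + Nat.log 2 X2 + Nat.log 2 X3 + 3 ≤ 21 * Real.log p := by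
        linarith
      calc 2 * (M : ℝ) * ((Nat.log 2 X1 : ℝ) + Nat.log 2 X2 + Nat.log 2 X3 + 3)
          ≤ 2 * (M : ℝ) * (21 * Real.log p) := by gcongr
        _ = 42 * (M : ℝ) * Real.log p := by ring
        _ ≤ (42 * (M : ℝ) + p0 + 2) * Real.log p := by
          apply mul_le_mul_of_nonneg_right _ (by linarith)
          have : (0 : ℝ) ≤ p0 := by positivity
          linarith
    have hpairs := card_goodTriples_le hodd M X1 X2 X3 L hX1 hX2 hX3 hprod hL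
    set N : ℝ := ((goodPairs L p).ncard : ℝ) with hNdef
    have hN0 : 0 ≤ N := by positivity
    have hpairsR : ((goodTriples p M X1 X2 X3).card : ℝ)
        ≤ ((Nat.log 2 X1 : ℝ) + 2) * ((Nat.log 2 X2 : ℝ) + 2) * N := by
      rw [hNdef]
      exact_mod_cast hpairs
    -- powers of p
    have hpow1 : ((p : ℝ) ^ 4) ^ (6 / (M : ℝ)) ≤ (p : ℝ) ^ (ε / 2) := by
      rw [← Real.rpow_natCast, ← Real.rpow_mul hpR.le]
      apply Real.rpow_le_rpow_of_exponent_le hp1R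
      have h1 : ((4 : ℕ) : ℝ) * (6 / (M : ℝ)) = 24 / M := by push_cast; ring
      rw [h1, div_le_iff₀ hM0]
      rw [div_le_iff₀ hε] at hMε
      linarith
    have hlogp : Real.log p ≤ (p : ℝ) ^ (ε / 4) / (ε / 4) :=
      Real.log_le_rpow_div hpR.le (by positivity)
    have hpow2 : (p : ℝ) ^ (ε / 4) * (p : ℝ) ^ (ε / 4) = (p : ℝ) ^ (ε / 2) := by
      rw [← Real.rpow_add hpR]; congr 1; ring
    have hpow3 : (p : ℝ) ^ (ε / 2) * (p : ℝ) ^ (ε / 2) = (p : ℝ) ^ ε := by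
      rw [← Real.rpow_add hpR]; congr 1; ring
    have hlogs : ((Nat.log 2 X1 : ℝ) + 2) * ((Nat.log 2 X2 : ℝ) + 2)
        ≤ 1024 / ε ^ 2 * (p : ℝ) ^ (ε / 2) := by
      have h1 : (Nat.log 2 X1 : ℝ) + 2 ≤ 8 * ((p : ℝ) ^ (ε / 4) / (ε / 4)) := by linarith
      have h2 : (Nat.log 2 X2 : ℝ) + 2 ≤ 8 * ((p : ℝ) ^ (ε / 4) / (ε / 4)) := by linarith
      calc _ ≤ (8 * ((p : ℝ) ^ (ε / 4) / (ε / 4))) * (8 * ((p : ℝ) ^ (ε / 4) / (ε / 4))) := by
            gcongr
        _ = 1024 / ε ^ 2 * ((p : ℝ) ^ (ε / 4) * (p : ℝ) ^ (ε / 4)) := by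
            field_simp
            ring
        _ = _ := by rw [hpow2]
    have hpε2 : (0 : ℝ) < (p : ℝ) ^ (ε / 2) := Real.rpow_pos_of_pos hpR _
    have hmain : cM M ^ 3 * (p : ℝ) ^ 6 / 512 / (p : ℝ) ^ (ε / 2)
        ≤ 1024 / ε ^ 2 * (p : ℝ) ^ (ε / 2) * N := by
      calc cM M ^ 3 * (p : ℝ) ^ 6 / 512 / (p : ℝ) ^ (ε / 2)
          = cM M ^ 3 * (((p : ℝ) ^ 4 / 16) ^ 2 / (p : ℝ) ^ (ε / 2)) / (2 * (p : ℝ) ^ 2) := by
            field_simp
            ring
        _ ≤ cM M ^ 3 * (((p : ℝ) ^ 4 / 16) ^ 2 / ((p : ℝ) ^ 4) ^ (6 / (M : ℝ)))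
            / (2 * (p : ℝ) ^ 2) := by gcongr
        _ ≤ ((nset M X1).card : ℝ) * ((nset M X2).card : ℝ) * ((nset M X3).card : ℝ)
            / (2 * (p : ℝ) ^ 2) := by gcongr
        _ ≤ _ := hW
        _ ≤ _ := hpairsR
        _ ≤ _ := by gcongr
    have hfin : (p : ℝ) ^ 6 ≤ C1 * (p : ℝ) ^ ε * N := by
      rw [div_le_iff₀ hpε2, div_le_iff₀ (by norm_num)] at hmain
      have h1 : cM M ^ 3 * (p : ℝ) ^ 6 ≤ (512 * 1024 / ε ^ 2) * (p : ℝ) ^ ε * N := by
        calc _ ≤ _ := hmain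
          _ = (512 * 1024 / ε ^ 2) * ((p : ℝ) ^ (ε / 2) * (p : ℝ) ^ (ε / 2)) * N := by ring
          _ = _ := by rw [hpow3]
      have hc3 : 0 < cM M ^ 3 := by positivity
      have h2 : C1 * (p : ℝ) ^ ε * N = ((512 * 1024 / ε ^ 2) * (p : ℝ) ^ ε * N) / cM M ^ 3 := by
        rw [hC1def]
        field_simp
      rw [h2, le_div_iff₀ hc3]
      linarith
    calc (p : ℝ) ^ 6 ≤ C1 * (p : ℝ) ^ ε * N := hfin
      _ ≤ (C1 + (p0 : ℝ) ^ 6) * (p : ℝ) ^ ε * N := by
        gcongr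
        have : (0 : ℝ) ≤ (p0 : ℝ) ^ 6 := by positivity
        linarith

end Run7.h166
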