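import Mathlib

/-!
The number of divisors of `n` is at most `(96 n)^(1/3)`.
-/

namespace Run7.h166

open Finset

lemma succ_cube_le_eight_pow (k : ℕ) : (k + 1) ^ 3 ≤ 8 ^ k := by
  have h : k + 1 ≤ 2 ^ k := Nat.lt_two_pow_self
  calc (k + 1) ^ 3 ≤ (2 ^ k) ^ 3 := Nat.pow_le_pow_left h 3
    _ = 8 ^ k := by rw [← pow_mul, mul_comm, pow_mul]; norm_num

lemma cube_two (k : ℕ) : (k + 1) ^ 3 ≤ 8 * 2 ^ k := by
  induction k with
  | zero => norm_num
  | succ k ih =>
    rcases Nat.lt_or_ge k 3 with h | h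
    · interval_cases k <;> norm_num
    · have : (k + 1 + 1) ^ 3 ≤ 2 * (k + 1) ^ 3 := by
        obtain ⟨m, rfl⟩ := Nat.exists_eq_add_of_le h
        ring_nf
        nlinarith [sq_nonneg m]
      calc _ ≤ _ := this
        _ ≤ 2 * (8 * 2 ^ k) := by omega
        _ = _ := by ring

lemma cube_three (k : ℕ) : (k + 1) ^ 3 ≤ 3 * 3 ^ k := by
  induction k with
  | zero => norm_num
  | succ k ih =>
    rcases Nat.lt_or_ge k 2 with h | h
    · interval_cases k <;> norm_num
    · have : (k + 1 + 1) ^ 3 ≤ 3 * (k + 1) ^ 3 := by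
        obtain ⟨m, rfl⟩ := Nat.exists_eq_add_of_le h
        ring_nf
        nlinarith [sq_nonneg m]
      calc _ ≤ _ := this
        _ ≤ 3 * (3 * 3 ^ k) := by omega
        _ = _ := by ring

lemma cube_five (k : ℕ) : (k + 1) ^ 3 ≤ 2 * 5 ^ k := by
  induction k with
  | zero => norm_num
  | succ k ih =>
    rcases Nat.lt_or_ge k 1 with h | h
    · interval_cases k; norm_num
    · have : (k + 1 + 1) ^ 3 ≤ 5 * (k + 1) ^ 3 := by
        obtain ⟨m, rfl⟩ := Nat.exists_eq_add_of_le h
        ring_nf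
        nlinarith [sq_nonneg m]
      calc _ ≤ _ := this
        _ ≤ 5 * (2 * 5 ^ k) := by omega
        _ = _ := by ring

lemma cube_seven (k : ℕ) : (k + 1) ^ 3 ≤ 2 * 7 ^ k :=
  (cube_five k).trans (Nat.mul_le_mul_left 2 (Nat.pow_le_pow_left (by norm_num) k))

/-- The bound for numbers all of whose prime factors are at least `8`. -/
lemma card_divisors_rough (n : ℕ) (hn : n ≠ 0) (h : ∀ q, q.Prime → q ∣ n → 8 ≤ q) :
    n.divisors.card ^ 3 ≤ n := by
  induction n using Nat.recOnPosPrimePosCoprime with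
  | prime_pow q k hq hk =>
    rw [Nat.divisors_prime_pow hq, Finset.card_map, Finset.card_range]
    have h8 : 8 ≤ q := h q hq (dvd_pow_self q hk.ne')
    exact (succ_cube_le_eight_pow k).trans (Nat.pow_le_pow_left h8 k)
  | zero => exact absurd rfl hn
  | one => simp
  | coprime a b ha hb hab iha ihb =>
    rw [Nat.Coprime.card_divisors_mul hab, mul_pow]
    exact Nat.mul_le_mul (iha (by omega) (fun q hq hqa => h q hq (hqa.mul_right b)))
      (ihb (by omega) (fun q hq hqb => h q hq (hqb.mul_left a)))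

lemma split_prime (q n c : ℕ) (hq : q.Prime) (hn : n ≠ 0) (hc : ∀ k, (k + 1) ^ 3 ≤ c * q ^ k)
    (B : ℕ) (hB : ∀ m, m ∣ n → ¬ q ∣ m → m ≠ 0 → m.divisors.card ^ 3 ≤ B * m) :
    n.divisors.card ^ 3 ≤ c * B * n := by
  obtain ⟨k, m, hm, hnm⟩ := Nat.exists_eq_pow_mul_and_not_dvd hn q hq.ne_one
  have hm0 : m ≠ 0 := by
    rintro rfl
    simp at hm
  have hcop : Nat.Coprime (q ^ k) m := Nat.Coprime.pow_left k ((Nat.Prime.coprime_iff_not_dvd hq).2 hm)
  rw [hnm, Nat.Coprime.card_divisors_mul hcop, mul_pow, Nat.divisors_prime_pow hq, Finset.card_map,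
    Finset.card_range]
  calc (k + 1) ^ 3 * m.divisors.card ^ 3 ≤ (c * q ^ k) * (B * m) :=
        Nat.mul_le_mul (hc k) (hB m ⟨q ^ k, by rw [hnm]; ring⟩ hm hm0)
    _ = c * B * (q ^ k * m) := by ring

/-- The divisor bound. -/
theorem card_divisors_cube_le (n : ℕ) (hn : n ≠ 0) : n.divisors.card ^ 3 ≤ 96 * n := by
  have key : n.divisors.card ^ 3 ≤ 8 * (3 * (2 * (2 * 1))) * n := by
    apply split_prime 2 n 8 Nat.prime_two hn cube_two
    intro m hmn hm2 hm0
    apply split_prime 3 m 3 Nat.prime_three hm0 cube_three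
    intro m' hmm' hm3 hm0'
    apply split_prime 5 m' 2 Nat.prime_five hm0' cube_five
    intro m'' hm'' hm5 hm0''
    apply split_prime 7 m'' 2 (by norm_num) hm0'' cube_seven
    intro r hr hr7 hr0
    rw [one_mul]
    apply card_divisors_rough r hr0
    intro q hq hqr
    by_contra hlt
    push Not at hlt
    have h2 := hq.two_le
    interval_cases q
    · exact hm2 (hqr.trans (hr.trans (hm''.trans hmm')))
    · exact hm3 (hqr.trans (hr.trans hm''))
    · exact absurd hq (by norm_num)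
    · exact hm5 (hqr.trans hr)
    · exact absurd hq (by norm_num)
    · exact hr7 hqr
  simpa using key

end Run7.h166
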