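import Pool.Agent.Run7.h166.OddRest

/-!
Lists of pairs of partial quotients, the corresponding matrices and words, and the subtractive
Euclidean algorithm.
-/

namespace Run7.h166

open Matrix Gen

/-- One double step of a continued fraction: the action of `u^a v^b` on a vector. -/
def stp (ab : ℕ × ℕ) (v : ℕ × ℕ) : ℕ × ℕ :=
  (v.1 + ab.1 * (v.2 + ab.2 * v.1), v.2 + ab.2 * v.1)

/-- The action of the product on a vector. -/
def app (l : List (ℕ × ℕ)) (v : ℕ × ℕ) : ℕ × ℕ := l.foldr stp v

/-- All partial quotients are positive. -/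
def PosL (l : List (ℕ × ℕ)) : Prop := ∀ ab ∈ l, 1 ≤ ab.1 ∧ 1 ≤ ab.2

@[simp] lemma app_nil (v : ℕ × ℕ) : app [] v = v := rfl

@[simp] lemma app_cons (ab : ℕ × ℕ) (l : List (ℕ × ℕ)) (v : ℕ × ℕ) :
    app (ab :: l) v = stp ab (app l v) := rfl

lemma app_append (l l' : List (ℕ × ℕ)) (v : ℕ × ℕ) : app (l ++ l') v = app l (app l' v) := by
  unfold app
  rw [List.foldr_append]

/-- First column. -/
def col (l : List (ℕ × ℕ)) : ℕ × ℕ := app l (1, 0)

/-- Second column. -/
def col2 (l : List (ℕ × ℕ)) : ℕ × ℕ := app l (0, 1)

@[simp] lemma col_nil : col [] = (1, 0) := rfl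
@[simp] lemma col2_nil : col2 [] = (0, 1) := rfl
@[simp] lemma col_cons (ab : ℕ × ℕ) (l : List (ℕ × ℕ)) : col (ab :: l) = stp ab (col l) := rfl
@[simp] lemma col2_cons (ab : ℕ × ℕ) (l : List (ℕ × ℕ)) : col2 (ab :: l) = stp ab (col2 l) := rfl

lemma app_eq (l : List (ℕ × ℕ)) (v : ℕ × ℕ) :
    app l v = ((col l).1 * v.1 + (col2 l).1 * v.2, (col l).2 * v.1 + (col2 l).2 * v.2) := by
  induction l with
  | nil => ext <;> simp
  | cons ab l ih =>
    rw [app_cons, ih, col_cons, col2_cons]
    unfold stp
    ext
    · simp only; ring
    · simp only; ring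

lemma col_append (l l' : List (ℕ × ℕ)) :
    col (l ++ l') = ((col l).1 * (col l').1 + (col2 l).1 * (col l').2,
      (col l).2 * (col l').1 + (col2 l).2 * (col l').2) := by
  unfold col
  rw [app_append, app_eq]
  rfl

lemma PosL.tail {ab : ℕ × ℕ} {l : List (ℕ × ℕ)} (h : PosL (ab :: l)) : PosL l :=
  fun x hx => h x (by simp [hx])

lemma PosL.head {ab : ℕ × ℕ} {l : List (ℕ × ℕ)} (h : PosL (ab :: l)) : 1 ≤ ab.1 ∧ 1 ≤ ab.2 :=
  h ab (by simp)

lemma PosL.append {l l' : List (ℕ × ℕ)} (h : PosL l) (h' : PosL l') : PosL (l ++ l') := by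
  intro x hx
  rcases List.mem_append.1 hx with hx | hx
  · exact h x hx
  · exact h' x hx

/-- The shape of the first column. -/
lemma col_lt {l : List (ℕ × ℕ)} (h : PosL l) : 1 ≤ (col l).1 ∧ (col l).2 < (col l).1 := by
  induction l with
  | nil => simp
  | cons ab l ih =>
    obtain ⟨h1, h2⟩ := ih h.tail
    obtain ⟨ha, hb⟩ := h.head
    rw [col_cons]
    unfold stp
    simp only
    have h3 : (col l).2 + ab.2 * (col l).1 ≤ ab.1 * ((col l).2 + ab.2 * (col l).1) :=
      Nat.le_mul_of_pos_left _ ha
    constructor
    · omega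
    · omega

/-- The other entries are at most the first one. -/
lemma col2_le {l : List (ℕ × ℕ)} (h : PosL l) :
    (col2 l).1 ≤ (col l).1 ∧ (col2 l).2 ≤ (col l).1 ∧
      (col2 l).1 + (col2 l).2 ≤ (col l).1 + (col l).2 := by
  induction l with
  | nil => simp
  | cons ab l ih =>
    obtain ⟨h1, h2, h3⟩ := ih h.tail
    obtain ⟨ha, hb⟩ := h.head
    rw [col_cons, col2_cons]
    unfold stp
    simp only
    obtain ⟨b, hb'⟩ := Nat.exists_eq_add_of_le hb
    have h4 : (col2 l).2 + ab.2 * (col2 l).1 ≤ (col l).2 + ab.2 * (col l).1 := by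
      rw [hb']
      have := Nat.mul_le_mul_left b h1
      nlinarith
    have h5 := Nat.mul_le_mul_left ab.1 h4
    have h6 : (col l).2 + ab.2 * (col l).1 ≤ ab.1 * ((col l).2 + ab.2 * (col l).1) :=
      Nat.le_mul_of_pos_left _ ha
    refine ⟨by omega, ?_, by omega⟩
    calc (col2 l).2 + ab.2 * (col2 l).1 ≤ (col l).2 + ab.2 * (col l).1 := h4
      _ ≤ _ := h6
      _ ≤ _ := Nat.le_add_left _ _

lemma det_nat (l : List (ℕ × ℕ)) :
    (col l).1 * (col2 l).2 = (col2 l).1 * (col l).2 + 1 := by
  induction l with
  | nil => simp
  | cons ab l ih =>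
    rw [col_cons, col2_cons]
    unfold stp
    simp only
    nlinarith

lemma col_append_le {l l' : List (ℕ × ℕ)} (h : PosL l) (h' : PosL l') :
    (col (l ++ l')).1 ≤ 2 * (col l).1 * (col l').1 := by
  rw [col_append]
  simp only
  have h1 := (col2_le h).1
  have h2 := (col_lt h').2
  have h3 : (col2 l).1 * (col l').2 ≤ (col l).1 * (col l').1 := Nat.mul_le_mul h1 h2.le
  nlinarith

/-- The first column determines the list. -/
lemma col_injective {l l' : List (ℕ × ℕ)} (h : PosL l) (h' : PosL l') (heq : col l = col l') :
    l = l' := by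
  induction l generalizing l' with
  | nil =>
    cases l' with
    | nil => rfl
    | cons ab' m' =>
      exfalso
      obtain ⟨a1, a2⟩ := col_lt h'.tail
      obtain ⟨hb1, hb2⟩ := h'.head
      rw [col_nil, col_cons] at heq
      unfold stp at heq
      have := congrArg Prod.snd heq
      simp only at this
      have h2 : (col m').1 ≤ ab'.2 * (col m').1 := Nat.le_mul_of_pos_left _ hb2
      omega
  | cons ab m ih =>
    cases l' with
    | nil =>
      exfalso
      obtain ⟨a1, a2⟩ := col_lt h.tail
      obtain ⟨hb1, hb2⟩ := h.head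
      rw [col_nil, col_cons] at heq
      unfold stp at heq
      have := congrArg Prod.snd heq
      simp only at this
      have h2 : (col m).1 ≤ ab.2 * (col m).1 := Nat.le_mul_of_pos_left _ hb2
      omega
    | cons ab' m' =>
      obtain ⟨a1, a2⟩ := col_lt h.tail
      obtain ⟨a1', a2'⟩ := col_lt h'.tail
      obtain ⟨ha, hb⟩ := h.head
      obtain ⟨ha', hb'⟩ := h'.head
      rw [col_cons, col_cons] at heq
      unfold stp at heq
      have e1 := congrArg Prod.fst heq
      have e2 := congrArg Prod.snd heq
      simp only at e1 e2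
      set C := (col m).2 + ab.2 * (col m).1 with hC
      have hAC : (col m).1 ≤ C := by
        have : (col m).1 ≤ ab.2 * (col m).1 := Nat.le_mul_of_pos_left _ hb
        omega
      have hAC' : (col m').1 ≤ C := by
        have : (col m').1 ≤ ab'.2 * (col m').1 := Nat.le_mul_of_pos_left _ hb'
        omega
      rw [← e2] at e1
      -- the first quotient
      have hCpos : 0 < C := by omega
      have key1 : ab.1 = ab'.1 ∧ (col m).1 = (col m').1 := by
        have q1 : ((col m).1 - 1 + ab.1 * C) / C = ab.1 := by
          rw [Nat.add_mul_div_right _ _ hCpos, Nat.div_eq_of_lt (by omega), zero_add]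
        have q2 : ((col m').1 - 1 + ab'.1 * C) / C = ab'.1 := by
          rw [Nat.add_mul_div_right _ _ hCpos, Nat.div_eq_of_lt (by omega), zero_add]
        have q3 : (col m).1 - 1 + ab.1 * C = (col m').1 - 1 + ab'.1 * C := by omega
        have q4 : ab.1 = ab'.1 := by rw [← q1, ← q2, q3]
        refine ⟨q4, ?_⟩
        rw [q4] at e1
        omega
      obtain ⟨k1, k2⟩ := key1
      have key2 : ab.2 = ab'.2 ∧ (col m).2 = (col m').2 := by
        rw [hC, k2] at e2
        have hpos : 0 < (col m').1 := by omega
        have a2k : (col m).2 < (col m').1 := by rw [← k2]; exact a2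
        have q1 : ((col m).2 + ab.2 * (col m').1) / (col m').1 = ab.2 := by
          rw [Nat.add_mul_div_right _ _ hpos, Nat.div_eq_of_lt a2k, zero_add]
        have q2 : ((col m').2 + ab'.2 * (col m').1) / (col m').1 = ab'.2 := by
          rw [Nat.add_mul_div_right _ _ hpos, Nat.div_eq_of_lt a2', zero_add]
        have q4 : ab.2 = ab'.2 := by rw [← q1, ← q2, e2]
        refine ⟨q4, ?_⟩
        rw [q4] at e2
        omega
      obtain ⟨k3, k4⟩ := key2
      have h1 : ab = ab' := Prod.ext k1 k3
      have h2 : m = m' := ih h.tail h'.tail (Prod.ext k2 k4)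
      rw [h1, h2]

/-- The positive word of a list. -/
def qword : List (ℕ × ℕ) → List Gen
  | [] => []
  | ab :: l => List.replicate ab.1 U ++ (List.replicate ab.2 V ++ qword l)

lemma length_qword (l : List (ℕ × ℕ)) (M : ℕ) (h : ∀ ab ∈ l, ab.1 ≤ M ∧ ab.2 ≤ M) :
    (qword l).length ≤ 2 * M * l.length := by
  induction l with
  | nil => simp [qword]
  | cons ab l ih =>
    have h1 := ih (fun x hx => h x (by simp [hx]))
    obtain ⟨h2, h3⟩ := h ab (by simp)
    simp only [qword, List.length_append, List.length_replicate, List.length_cons]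
    nlinarith

section
variable {R : Type} [CommRing R]

lemma eval_replicate_U (a : ℕ) : eval R (List.replicate a U) = upper (a : R) := by
  induction a with
  | zero => apply ext_val <;> simp
  | succ a ih =>
    rw [List.replicate_succ, eval_cons, ih]
    change upper 1 * upper (a : R) = _
    rw [upper_mul]
    push_cast
    rw [add_comm]

lemma eval_replicate_V (a : ℕ) : eval R (List.replicate a V) = lower (a : R) := by
  induction a with
  | zero => apply ext_val <;> simp
  | succ a ih =>
    rw [List.replicate_succ, eval_cons, ih]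
    change lower 1 * lower (a : R) = _
    rw [lower_mul]
    push_cast
    rw [add_comm]

lemma eval_qword_entries (l : List (ℕ × ℕ)) :
    (eval R (qword l)).1 0 0 = ((col l).1 : R) ∧ (eval R (qword l)).1 1 0 = ((col l).2 : R) ∧
      (eval R (qword l)).1 0 1 = ((col2 l).1 : R) ∧
      (eval R (qword l)).1 1 1 = ((col2 l).2 : R) := by
  induction l with
  | nil => simp [qword]
  | cons ab l ih =>
    obtain ⟨h1, h2, h3, h4⟩ := ih
    rw [qword, eval_append, eval_append, eval_replicate_U, eval_replicate_V, col_cons, col2_cons]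
    unfold stp
    refine ⟨?_, ?_, ?_, ?_⟩
    · simp only [mul_val, upper_val00, upper_val01, lower_val00, lower_val10, lower_val01,
        lower_val11, h1, h2]
      push_cast; ring
    · simp only [mul_val, upper_val10, upper_val11, lower_val00, lower_val10, lower_val01,
        lower_val11, h1, h2]
      push_cast; ring
    · simp only [mul_val, upper_val00, upper_val01, lower_val00, lower_val10, lower_val01,
        lower_val11, h3, h4]
      push_cast; ring
    · simp only [mul_val, upper_val10, upper_val11, lower_val00, lower_val10, lower_val01,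
        lower_val11, h3, h4]
      push_cast; ring

end

/-- The subtractive Euclidean algorithm, stopped after `n` steps: its output is the word `w` in
`U` and `V` such that the first column of the matrix of `w` is `(a, c)`, if there is such a word
of length at most `n`. -/
def euclid : ℕ → ℕ → ℕ → List Gen
  | 0, _, _ => []
  | n + 1, a, c =>
    if c = 0 then [] else if c < a then U :: euclid n (a - c) c else V :: euclid n a (c - a)

lemma length_euclid (n a c : ℕ) : (euclid n a c).length ≤ n := by
  induction n generalizing a c with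
  | zero => simp [euclid]
  | succ n ih =>
    unfold euclid
    split_ifs
    · simp
    · simp [ih]
    · simp [ih]

lemma euclid_V (n A C b : ℕ) (hA : 1 ≤ A) :
    euclid (n + b) A (C + b * A) = List.replicate b V ++ euclid n A C := by
  induction b with
  | zero => simp
  | succ b ih =>
    rw [← add_assoc, euclid]
    have h1 : C + (b + 1) * A ≠ 0 := by
      have : A ≤ (b + 1) * A := Nat.le_mul_of_pos_left _ (by omega)
      omega
    have h2 : ¬ (C + (b + 1) * A < A) := by
      have : A ≤ (b + 1) * A := Nat.le_mul_of_pos_left _ (by omega)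
      omega
    rw [if_neg h1, if_neg h2]
    have h3 : C + (b + 1) * A - A = C + b * A := by
      have : (b + 1) * A = b * A + A := by ring
      omega
    rw [h3, ih, List.replicate_succ, List.cons_append]

lemma euclid_U (n A C a : ℕ) (hA : 1 ≤ A) (hC : 1 ≤ C) :
    euclid (n + a) (A + a * C) C = List.replicate a U ++ euclid n A C := by
  induction a with
  | zero => simp
  | succ a ih =>
    rw [← add_assoc, euclid]
    have h1 : C ≠ 0 := by omega
    have h2 : C < A + (a + 1) * C := by
      have : C ≤ (a + 1) * C := Nat.le_mul_of_pos_left _ (by omega)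
      omega
    rw [if_neg h1, if_pos h2]
    have h3 : A + (a + 1) * C - C = A + a * C := by
      have : (a + 1) * C = a * C + C := by ring
      omega
    rw [h3, ih, List.replicate_succ, List.cons_append]

lemma euclid_one (n : ℕ) : euclid n 1 0 = [] := by
  cases n with
  | zero => rfl
  | succ n => simp [euclid]

/-- The Euclidean algorithm recovers the word. -/
lemma euclid_qword (l : List (ℕ × ℕ)) (h : PosL l) (n : ℕ) :
    euclid (n + (qword l).length) (col l).1 (col l).2 = qword l := by
  induction l with
  | nil => simp [qword, euclid_one]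
  | cons ab l ih =>
    obtain ⟨a1, a2⟩ := col_lt h.tail
    obtain ⟨ha, hb⟩ := h.head
    rw [col_cons]
    unfold stp
    simp only [qword, List.length_append, List.length_replicate]
    have hC : 1 ≤ (col l).2 + ab.2 * (col l).1 := by
      have : (col l).1 ≤ ab.2 * (col l).1 := Nat.le_mul_of_pos_left _ hb
      omega
    rw [show n + (ab.1 + (ab.2 + (qword l).length)) = (n + (qword l).length + ab.2) + ab.1 by ring,
      euclid_U _ _ _ _ a1 hC, euclid_V _ _ _ _ a1, ih h.tail]

/-- The candidate word of the algorithm: the Euclidean algorithm, stopped after `L` steps, is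
applied to the lift `((p (2 s + 1) + 1) / 2, p (r + 1))` of the vector `(1/2, 0)`, and `u^2` is
conjugated by its output. -/
def candidate (L p s r : ℕ) : List Gen :=
  euclid L ((p * (2 * s + 1) + 1) / 2) (p * (r + 1)) ++ [U, U] ++
    invWord (euclid L ((p * (2 * s + 1) + 1) / 2) (p * (r + 1)))

lemma length_candidate (L p s r : ℕ) : (candidate L p s r).length ≤ 2 * L + 2 := by
  unfold candidate
  have := length_euclid L ((p * (2 * s + 1) + 1) / 2) (p * (r + 1))
  simp only [List.length_append, length_invWord, List.length_cons, List.length_nil]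
  omega

/-- The criterion for a conjugate of `u^2` to be a solution. -/
lemma isSolution_conj {p : ℕ} (hp : Odd p) (w : List Gen)
    (h0 : 2 * (eval (ZMod p) w).1 0 0 = 1) (h1 : (eval (ZMod p) w).1 1 0 = 0) :
    IsSolution p (w ++ [U, U] ++ invWord w) := by
  unfold IsSolution value
  apply mk_congr
  have hh : 2 * ((((p + 1) / 2 : ℕ)) : ZMod p) = 1 := two_mul_half hp
  rw [eval_append, eval_append, eval_invWord]
  set A := eval (ZMod p) w with hA
  have e0 : eval (ZMod p) [U, U] = upper 2 := by
    apply ext_val <;> simp [Gen.mat, mul_val]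
    norm_num
  have hd := det_val A
  set x : ZMod p := (((p + 1) / 2 : ℕ) : ZMod p) with hx
  have hA0 : A.1 0 0 = x := by linear_combination x * h0 - A.1 0 0 * hh
  rw [e0]
  apply ext_val
  · simp only [mul_val, inv_val00, inv_val01, inv_val10, inv_val11, upper_val00, upper_val01,
      upper_val10, upper_val11]
    rw [h1] at hd ⊢
    linear_combination hd
  · simp only [mul_val, inv_val00, inv_val01, inv_val10, inv_val11, upper_val00, upper_val01,
      upper_val10, upper_val11]
    rw [hA0]
    linear_combination x * hh
  · simp only [mul_val, inv_val00, inv_val01, inv_val10, inv_val11, upper_val00, upper_val01,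
      upper_val10, upper_val11]
    rw [h1]
    ring
  · simp only [mul_val, inv_val00, inv_val01, inv_val10, inv_val11, upper_val00, upper_val01,
      upper_val10, upper_val11]
    rw [h1] at hd ⊢
    linear_combination hd

end Run7.h166
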