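import Pool.Agent.Run7.h166.Positive

namespace Run7.h166

open Matrix Gen

lemma hasOddTrace_iff (n : ℕ) (a : List Gen) :
    HasOddTrace n a ↔ ∃ m : ℤ, Odd m ∧ tr (eval ℤ a) = m * n := by
  unfold HasOddTrace
  simp only [trace_val]
  rfl

lemma positivize_hasOddTrace {n : ℕ} (hn3 : 3 ≤ n) (a : List Gen) (ha : HasOddTrace n a) :
    HasOddTrace n (positivize a) ∧ IsPositive (positivize a) ∧
      (positivize a).length ≤ a.length := by
  rw [hasOddTrace_iff] at ha
  obtain ⟨m, hm, htr⟩ := ha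
  have h2 : 2 ≤ |tr (eval ℤ a)| := by
    rw [htr, abs_mul]
    have h1 : 1 ≤ |m| := by
      apply Int.one_le_abs
      rintro rfl
      simp at hm
    have h3 : (3 : ℤ) ≤ |(n : ℤ)| := by
      rw [abs_of_nonneg (by positivity)]
      exact_mod_cast hn3
    nlinarith
  obtain ⟨k1, k2, k3⟩ := positivize_spec a h2
  refine ⟨?_, k2, k3⟩
  rw [hasOddTrace_iff]
  rw [htr] at k1
  rcases abs_eq_abs.1 k1 with h | h
  · exact ⟨m, hm, h⟩
  · exact ⟨-m, hm.neg, by rw [h]; ring⟩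

/-- Transfer of a solution along a map of words with linear increase of the length. -/
lemma solvedBy_map {I : Type} {P : I → ℕ} {A : Set (I → List Gen)} {Q Q' : ℕ → List Gen → Prop}
    (hP : ∀ i, 3 ≤ P i) (φ : List Gen → List Gen) (hA : ∀ f ∈ A, (fun i => φ (f i)) ∈ A)
    (hφ : ∀ i w, Q (P i) w → Q' (P i) (φ w) ∧ (φ w).length ≤ 6 * w.length + 44)
    (h : SolvedBy P A Q) : SolvedBy P A Q' := by
  obtain ⟨C, f, hf, hC⟩ := h
  refine ⟨6 * C + 44, _, hA f hf, ?_⟩
  intro i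
  obtain ⟨h1, h2⟩ := hC i
  obtain ⟨h3, h4⟩ := hφ i _ h1
  refine ⟨h3, ?_⟩
  have h5 : ((φ (f i)).length : ℝ) ≤ 6 * ((f i).length : ℝ) + 44 := by exact_mod_cast h4
  have hlog : 1 ≤ Real.log (P i) := by
    have h3' : (3 : ℝ) ≤ (P i : ℝ) := by exact_mod_cast hP i
    rw [Real.le_log_iff_exp_le (by linarith)]
    have := Real.exp_one_lt_d9
    linarith
  nlinarith

/-- The equivalences. -/
theorem odd_tfae {I : Type} (P : I → ℕ) (hP : ∀ i, Odd (P i) ∧ 3 ≤ P i)
    (A : Set (I → List Gen))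
    (hA : ∀ φ ∈ ({relOfSol, solOfRel, relOfTrace, traceOfSol, positivize} :
      Set (List Gen → List Gen)), ∀ f ∈ A, (fun i => φ (f i)) ∈ A) :
    List.TFAE [SolvedBy P A IsSolution, SolvedBy P A IsOddRelation, SolvedBy P A HasOddTrace,
      SolvedBy P A (fun n a => HasOddTrace n a ∧ IsPositive a)] := by
  have hP3 : ∀ i, 3 ≤ P i := fun i => (hP i).2
  tfae_have 1 → 3 := by
    refine solvedBy_map hP3 traceOfSol (hA _ (by simp)) ?_
    intro i w hw
    refine ⟨traceOfSol_spec (hP i).1 w hw, ?_⟩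
    have := length_traceOfSol w
    omega
  tfae_have 3 → 4 := by
    refine solvedBy_map hP3 positivize (hA _ (by simp)) ?_
    intro i w hw
    obtain ⟨h1, h2, h3⟩ := positivize_hasOddTrace (hP i).2 w hw
    exact ⟨⟨h1, h2⟩, by omega⟩
  tfae_have 4 → 2 := by
    refine solvedBy_map hP3 relOfTrace (hA _ (by simp)) ?_
    intro i w hw
    refine ⟨relOfTrace_spec (hP i).1 w hw.1, ?_⟩
    rw [length_relOfTrace]
    omega
  tfae_have 2 → 1 := by
    refine solvedBy_map hP3 solOfRel (hA _ (by simp)) ?_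
    intro i w hw
    exact ⟨solOfRel_spec (hP i).1 w hw, length_solOfRel w⟩
  tfae_finish

end Run7.h166
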