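import Pool.Agent.Run7.h166.FamDefs
import Pool.Agent.Run7.h166.OddMain
import Pool.Agent.Run7.h166.Lists

/-!
Proofs for `FamDefs`.
-/

namespace Run7.h166

open Matrix Gen

variable {R : Type} [CommRing R]

lemma eval_replicate_Ui (a : ℕ) : eval R (List.replicate a Ui) = upper (-(a : R)) := by
  induction a with
  | zero => apply ext_val <;> simp
  | succ a ih =>
    rw [List.replicate_succ, eval_cons, ih]
    change upper (-1) * upper (-(a : R)) = _
    rw [upper_mul]
    congr 1
    push_cast
    ring

lemma conj_upper (M : SL2 R) (x : R) :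
    (M * upper x * M⁻¹).1 0 0 = 1 - x * M.1 0 0 * M.1 1 0 ∧
    (M * upper x * M⁻¹).1 0 1 = x * M.1 0 0 ^ 2 ∧
    (M * upper x * M⁻¹).1 1 0 = - (x * M.1 1 0 ^ 2) ∧
    (M * upper x * M⁻¹).1 1 1 = 1 + x * M.1 0 0 * M.1 1 0 := by
  have hd := det_val M
  refine ⟨?_, ?_, ?_, ?_⟩ <;>
    simp only [mul_val, inv_val00, inv_val01, inv_val10, inv_val11, upper_val00, upper_val01,
      upper_val10, upper_val11]
  · linear_combination hd
  · ring
  · ring
  · linear_combination hd

lemma powWord_succ (b j : ℕ) : powWord b (j + 1) =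
    powWord b ((j + 1) / 2) ++ List.replicate (if (j + 1) % 2 = 1 then b else 1) Ui ++
      invWord (powWord b ((j + 1) / 2)) := by
  rw [powWord]

lemma powWord_entry (b j : ℕ) : (eval ℤ (powWord b j)).1 1 0 = (b : ℤ) ^ j := by
  induction j using Nat.strong_induction_on with
  | _ j ih =>
    match j with
    | 0 =>
      rw [powWord]
      simp [Gen.mat]
    | i + 1 =>
      rw [powWord_succ, eval_append, eval_append, eval_invWord, eval_replicate_Ui]
      rw [(conj_upper _ _).2.2.1, ih ((i + 1) / 2) (by omega)]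
      by_cases h : (i + 1) % 2 = 1
      · rw [if_pos h]
        have h2 : (b : ℤ) ^ (i + 1) = b ^ ((i + 1) / 2 + (i + 1) / 2 + 1) := by
          congr 1; omega
        rw [h2]
        ring
      · rw [if_neg h]
        have h2 : (b : ℤ) ^ (i + 1) = b ^ ((i + 1) / 2 + (i + 1) / 2) := by
          congr 1; omega
        rw [h2]
        push_cast
        ring

lemma powWord_length (b j : ℕ) :
    (powWord b j).length ≤ (b + 3) * j + 1 ∧ (1 ≤ j → (powWord b j).length + 1 ≤ (b + 3) * j) := by
  induction j using Nat.strong_induction_on with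
  | _ j ih =>
    match j with
    | 0 =>
      rw [powWord]
      simp
    | i + 1 =>
      have key : (powWord b (i + 1)).length + 1 ≤ (b + 3) * (i + 1) := by
        rw [powWord_succ, List.length_append, List.length_append, length_invWord,
          List.length_replicate]
        have h1 := ih ((i + 1) / 2) (by omega)
        set m := (i + 1) / 2 with hm
        by_cases h : (i + 1) % 2 = 1
        · rw [if_pos h]
          have h2 : i + 1 = 2 * m + 1 := by omega
          rw [h2]
          have h3 := h1.1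
          rcases Nat.eq_zero_or_pos m with h0 | h0
          · rw [h0] at h3 ⊢
            simp at h3 ⊢
            omega
          · have h4 := h1.2 h0
            nlinarith
        · rw [if_neg h]
          have h2 : i + 1 = 2 * m := by omega
          have h0 : 1 ≤ m := by omega
          have h4 := h1.2 h0
          rw [h2]
          nlinarith
      exact ⟨by omega, fun _ => key⟩

/-- The first column of `borelWord` modulo `N`. -/
lemma borelWord_col (s : Bool) (k : ℕ) (a : List Gen) (e : R)
    (he : e = if s then 1 else -1) (hk : (k : R) * (eval R a).1 1 0 ^ 2 = e) :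
    (eval R (borelWord s k a)).1 0 0 = k * (eval R a).1 1 0 ∧
    (eval R (borelWord s k a)).1 1 0 = 0 := by
  have hee : e * e = 1 := by rw [he]; cases s <;> simp
  have hg : Gen.mat R (if s then Ui else U) = upper (-e) := by
    rw [he]; cases s <;> simp [Gen.mat]
  set M := eval R a with hM
  have hd := det_val M
  have h1 : eval R (borelWord s k a) = M⁻¹ * (upper (-e) * (M * upper (-(k : R)) * M⁻¹)) := by
    unfold borelWord
    simp only [eval_append, eval_invWord, eval_replicate_Ui, eval_cons, eval_nil, mul_one, hg]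
    rw [← hM]
    group
  obtain ⟨c00, c01, c10, c11⟩ := conj_upper M (-(k : R))
  rw [h1]
  generalize M * upper (-(k : R)) * M⁻¹ = Q at c00 c01 c10 c11 ⊢
  constructor
  · rw [mul_val, mul_val, mul_val, inv_val00, inv_val01, c00, c10]
    simp only [upper_val00, upper_val01, upper_val10, upper_val11]
    linear_combination (M.1 1 0 * (k : R)) * hd - (M.1 1 1 * e) * hk - M.1 1 1 * hee
  · rw [mul_val, mul_val, mul_val, inv_val10, inv_val11, c00, c10]
    simp only [upper_val00, upper_val01, upper_val10, upper_val11]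
    linear_combination (M.1 1 0 * e) * hk + M.1 1 0 * hee

lemma inv_upper (x : R) : (upper x)⁻¹ = upper (-x) := by
  rw [inv_eq_iff_mul_eq_one, upper_mul]
  apply ext_val <;> simp

/-- Conjugation of `u` by an upper triangular matrix. -/
lemma conj_by_upper (B : SL2 R) (h : B.1 1 0 = 0) :
    B * upper 1 * B⁻¹ = upper (B.1 0 0 ^ 2) := by
  have hd := det_val B
  obtain ⟨c00, c01, c10, c11⟩ := conj_upper B 1
  apply ext_val
  · rw [c00, h]; simp
  · rw [c01]; simp
  · rw [c10, h]; simp
  · rw [c11, h]; simp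

lemma borelRel_spec (s : Bool) (k : ℕ) (a : List Gen) (N : ℕ) (hk : Even k)
    (h : (N : ℤ) ∣ (k : ℤ) * (eval ℤ a).1 1 0 ^ 2 - (if s then 1 else -1)) :
    IsOddRelation N (borelRel s k a) := by
  have main : ∀ n : ℕ, (n : ℤ) ∣ (k : ℤ) * (eval ℤ a).1 1 0 ^ 2 - (if s then 1 else -1) →
      eval (ZMod n) (borelRel s k a) = 1 := by
    intro n hn
    set e : ZMod n := if s then 1 else -1 with he
    have hee : e * e = 1 := by rw [he]; cases s <;> simp
    have hg : Gen.mat (ZMod n) (if s then Ui else U) = upper (-e) := by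
      rw [he]; cases s <;> simp [Gen.mat]
    have hke : (k : ZMod n) * (eval (ZMod n) a).1 1 0 ^ 2 = e := by
      rw [eval_cast, he]
      rw [← ZMod.intCast_zmod_eq_zero_iff_dvd] at hn
      cases s
      · push_cast at hn ⊢
        simp at hn ⊢
        linear_combination hn
      · push_cast at hn ⊢
        simp at hn ⊢
        linear_combination hn
    obtain ⟨h00, h10⟩ := borelWord_col s k a e he hke
    unfold borelRel
    rw [eval_append, eval_append, eval_append, eval_invWord]
    have hU : eval (ZMod n) [U] = upper 1 := by simp [Gen.mat]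
    rw [hU, conj_by_upper _ h10, h00]
    have hrep : ∀ m : ℕ, eval (ZMod n) (List.replicate m (if s then Ui else U)) =
        upper (- (m : ZMod n) * e) := by
      intro m
      rw [he]
      cases s
      · simp [eval_replicate_U]
      · simp [eval_replicate_Ui]
    rw [hrep, upper_mul]
    have : ((k : ZMod n) * (eval (ZMod n) a).1 1 0) ^ 2 + - (k : ZMod n) * e = 0 := by
      linear_combination (k : ZMod n) * hke
    rw [this]
    apply ext_val <;> simp
  refine ⟨?_, ?_⟩
  · unfold value
    rw [main N h]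
    rfl
  · rw [Ne, value_two_eq_one_iff]
    intro h2
    -- modulo 2 the relation is a conjugate of `u`
    have hk2 : (k : ZMod 2) = 0 := by
      rw [ZMod.natCast_eq_zero_iff]
      exact hk.two_dvd
    have hrep : eval (ZMod 2) (List.replicate k (if s then Ui else U)) = 1 := by
      cases s
      · rw [if_neg (by simp), eval_replicate_U, hk2]
        apply ext_val <;> simp
      · rw [if_pos rfl, eval_replicate_Ui, hk2]
        apply ext_val <;> simp
    unfold borelRel at h2
    rw [eval_append, eval_append, eval_append, eval_invWord, hrep, mul_one] at h2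
    have h3 : eval (ZMod 2) [U] = 1 := by
      have : eval (ZMod 2) [U] = (eval (ZMod 2) (borelWord s k a))⁻¹ *
          (eval (ZMod 2) (borelWord s k a) * eval (ZMod 2) [U] *
          (eval (ZMod 2) (borelWord s k a))⁻¹) * eval (ZMod 2) (borelWord s k a) := by group
      rw [this, h2]
      group
    have h4 : (eval (ZMod 2) [U]).1 0 1 = 0 := by rw [h3]; simp
    simp [Gen.mat] at h4

lemma borelRel_length (s : Bool) (k : ℕ) (a : List Gen) :
    (borelRel s k a).length = 6 * a.length + 3 * k + 3 := by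
  unfold borelRel borelWord
  simp
  ring

/-- The general statement. -/
theorem borelSol_spec (s : Bool) (k : ℕ) (a : List Gen) (N : ℕ) (hN : Odd N) (hk : Even k)
    (h : (N : ℤ) ∣ (k : ℤ) * (eval ℤ a).1 1 0 ^ 2 - (if s then 1 else -1)) :
    IsSolution N (borelSol s k a) ∧ (borelSol s k a).length ≤ 36 * a.length + 18 * k + 62 := by
  refine ⟨solOfRel_spec hN _ (borelRel_spec s k a N hk h), ?_⟩
  have h1 := length_solOfRel (borelRel s k a)
  rw [borelRel_length] at h1
  unfold borelSol
  omega

lemma pow_mod_le (b i : ℕ) (hb : 1 ≤ b) : b ^ (i % 2) ≤ b := by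
  rcases Nat.mod_two_eq_zero_or_one i with h | h <;> rw [h]
  · simpa using hb
  · simp

/-- The case of `k b^n - 1` and `k b^n + 1`. -/
theorem familyWord_spec (s : Bool) (k b n : ℕ) (N : ℕ) (hN : Odd N) (hb : 1 ≤ b) (hn : 1 ≤ n)
    (hkb : Even (k * b)) (h : (N : ℤ) ∣ (k : ℤ) * (b : ℤ) ^ n - (if s then 1 else -1)) :
    IsSolution N (familyWord s k b n) ∧
      (familyWord s k b n).length ≤ 18 * (b + 3) * n + 18 * k * b ^ 2 + 98 := by
  unfold familyWord
  split_ifs with hk
  · have hke : Even (k * b ^ (n % 2)) := (Nat.even_iff.2 hk).mul_right _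
    have hdiv : (N : ℤ) ∣ ((k * b ^ (n % 2) : ℕ) : ℤ) * (eval ℤ (powWord b (n / 2))).1 1 0 ^ 2 -
        (if s then 1 else -1) := by
      rw [powWord_entry]
      have h2 : ((k * b ^ (n % 2) : ℕ) : ℤ) * ((b : ℤ) ^ (n / 2)) ^ 2 = (k : ℤ) * (b : ℤ) ^ n := by
        have h3 : (b : ℤ) ^ n = (b : ℤ) ^ (n % 2 + (n / 2) * 2) := by congr 1; omega
        rw [h3, pow_add, pow_mul]
        push_cast
        ring
      rw [h2]
      exact h
    obtain ⟨h1, h2⟩ := borelSol_spec s _ _ N hN hke hdiv
    refine ⟨h1, h2.trans ?_⟩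
    have h3 := (powWord_length b (n / 2)).1
    have h4 := pow_mod_le b n hb
    have h5 : 2 * (n / 2) ≤ n := by omega
    have h6 : (b + 3) * (2 * (n / 2)) ≤ (b + 3) * n := Nat.mul_le_mul_left _ h5
    have h7 : k * b ^ (n % 2) ≤ k * b ^ 2 := by
      apply Nat.mul_le_mul_left
      calc b ^ (n % 2) ≤ b := h4
        _ ≤ b ^ 2 := by nlinarith
    nlinarith
  · have hko : ¬ Even k := by rw [Nat.even_iff]; exact hk
    have hbe : Even b := by
      rcases Nat.even_mul.1 hkb with h | h
      · exact absurd h hko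
      · exact h
    have hke : Even (k * b * b ^ ((n - 1) % 2)) := (hbe.mul_left k).mul_right _
    have hdiv : (N : ℤ) ∣ ((k * b * b ^ ((n - 1) % 2) : ℕ) : ℤ) *
        (eval ℤ (powWord b ((n - 1) / 2))).1 1 0 ^ 2 - (if s then 1 else -1) := by
      rw [powWord_entry]
      have h2 : ((k * b * b ^ ((n - 1) % 2) : ℕ) : ℤ) * ((b : ℤ) ^ ((n - 1) / 2)) ^ 2 =
          (k : ℤ) * (b : ℤ) ^ n := by
        have h3 : (b : ℤ) ^ n = (b : ℤ) ^ (1 + (n - 1) % 2 + ((n - 1) / 2) * 2) := by
          congr 1; omega
        rw [h3, pow_add, pow_add, pow_mul]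
        push_cast
        ring
      rw [h2]
      exact h
    obtain ⟨h1, h2⟩ := borelSol_spec s _ _ N hN hke hdiv
    refine ⟨h1, h2.trans ?_⟩
    have h3 := (powWord_length b ((n - 1) / 2)).1
    have h4 := pow_mod_le b (n - 1) hb
    have h5 : 2 * ((n - 1) / 2) ≤ n := by omega
    have h6 : (b + 3) * (2 * ((n - 1) / 2)) ≤ (b + 3) * n := Nat.mul_le_mul_left _ h5
    have h7 : k * b * b ^ ((n - 1) % 2) ≤ k * b ^ 2 := by
      calc k * b * b ^ ((n - 1) % 2) ≤ k * b * b := Nat.mul_le_mul_left _ h4
        _ = k * b ^ 2 := by ring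
    nlinarith

/-- The case of `x^2 + y^2`. -/
theorem sumSqWord_spec (a : List Gen) (N : ℕ) (hN : Odd N)
    (hodd : Odd ((eval ℤ a).1 0 0 + (eval ℤ a).1 1 0))
    (h : (N : ℤ) ∣ (eval ℤ a).1 0 0 ^ 2 + (eval ℤ a).1 1 0 ^ 2) :
    IsSolution N (sumSqWord a) ∧ (sumSqWord a).length ≤ 24 * a.length + 92 := by
  have htr : HasOddTrace N (a ++ [U] ++ invWord a ++ wWord) := by
    obtain ⟨m, hm⟩ := h
    refine ⟨-m, ?_, ?_⟩
    · have h1 : Odd ((eval ℤ a).1 0 0 ^ 2 + (eval ℤ a).1 1 0 ^ 2) := by
        have h2 : (eval ℤ a).1 0 0 ^ 2 + (eval ℤ a).1 1 0 ^ 2 =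
          ((eval ℤ a).1 0 0 + (eval ℤ a).1 1 0) ^ 2 -
            2 * ((eval ℤ a).1 0 0 * (eval ℤ a).1 1 0) := by ring
        rw [h2]
        exact (hodd.pow).sub_even (even_two_mul _)
      rw [hm] at h1
      exact (Int.odd_mul.1 h1).2.neg
    · rw [trace_val, eval_append, eval_append, eval_append, eval_invWord, eval_wWord]
      have hU : eval ℤ [U] = upper 1 := by simp [Gen.mat]
      rw [hU]
      obtain ⟨c00, c01, c10, c11⟩ := conj_upper (eval ℤ a) 1
      generalize eval ℤ a * upper 1 * (eval ℤ a)⁻¹ = Q at c00 c01 c10 c11 ⊢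
      rw [mul_val, mul_val, c00, c01, c10, c11]
      simp only [wMat_val00, wMat_val01, wMat_val10, wMat_val11]
      linear_combination -hm
  refine ⟨solOfRel_spec hN _ (relOfTrace_spec hN _ htr), ?_⟩
  have h1 := length_solOfRel (relOfTrace (a ++ [U] ++ invWord a ++ wWord))
  unfold relOfTrace at h1
  simp only [List.length_append, length_invWord, List.length_cons, List.length_nil, wWord] at h1
  unfold sumSqWord
  unfold relOfTrace wWord
  omega

end Run7.h166
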