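import Pool.Agent.Run7.h166.OddDefs

/-!
Explicit words for `u_{(N+1)/2}` in `PSL_2(Z/N)` when `N` divides `k c^2 - 1` or `k c^2 + 1`, where
`k` is even and `c` is the lower left entry of the integral matrix of a given word.
-/

namespace Run7.h166

open Gen

/-- A word whose integral matrix has lower left entry `b ^ j`. -/
def powWord (b : ℕ) : ℕ → List Gen
  | 0 => [V]
  | j + 1 => powWord b ((j + 1) / 2) ++ List.replicate (if (j + 1) % 2 = 1 then b else 1) Ui ++
      invWord (powWord b ((j + 1) / 2))
termination_by j => j
decreasing_by all_goals omega

/-- A word which is upper triangular modulo `N`, if the integral matrix of the word `a` has lower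
left entry `c` with `k c^2 = 1` modulo `N` (`s = true`) or `k c^2 = -1` modulo `N` (`s = false`). -/
def borelWord (s : Bool) (k : ℕ) (a : List Gen) : List Gen :=
  invWord a ++ [if s then Ui else U] ++ a ++ List.replicate k Ui ++ invWord a

/-- The odd relation which follows from `borelWord`. -/
def borelRel (s : Bool) (k : ℕ) (a : List Gen) : List Gen :=
  borelWord s k a ++ [U] ++ invWord (borelWord s k a) ++ List.replicate k (if s then Ui else U)

/-- The resulting word for `u_{(N+1)/2}`. -/
def borelSol (s : Bool) (k : ℕ) (a : List Gen) : List Gen := solOfRel (borelRel s k a)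

/-- The word for divisors of `k b^n - 1` (`s = true`) and of `k b^n + 1` (`s = false`), where `k b`
is even. -/
def familyWord (s : Bool) (k b n : ℕ) : List Gen :=
  if k % 2 = 0 then borelSol s (k * b ^ (n % 2)) (powWord b (n / 2))
  else borelSol s (k * b * b ^ ((n - 1) % 2)) (powWord b ((n - 1) / 2))

/-- The word for odd divisors of `x^2 + y^2`, where `(x, y)` is the first column of the integral
matrix of the word `a`, and `x + y` is odd. -/
def sumSqWord (a : List Gen) : List Gen :=
  solOfRel (relOfTrace (a ++ [U] ++ invWord a ++ wWord))

end Run7.h166
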