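import Pool.Agent.Run7.h166.Divisor

/-!
Counting the matrices of determinant `±1` with entries in a box and on a hyperplane.
-/

namespace Run7.h166

open Finset

/-- The integral divisors of `D`. -/
def intDiv (D : ℤ) : Finset ℤ :=
  (D.natAbs.divisors.image (fun n : ℕ => (n : ℤ))) ∪
    (D.natAbs.divisors.image (fun n : ℕ => -(n : ℤ)))

lemma mem_intDiv {D d : ℤ} (hD : D ≠ 0) (h : d ∣ D) : d ∈ intDiv D := by
  unfold intDiv
  have h1 : d.natAbs ∈ D.natAbs.divisors := by
    rw [Nat.mem_divisors]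
    exact ⟨Int.natAbs_dvd_natAbs.2 h, Int.natAbs_ne_zero.2 hD⟩
  rw [Finset.mem_union, Finset.mem_image, Finset.mem_image]
  rcases Int.natAbs_eq d with h2 | h2
  · left; exact ⟨d.natAbs, h1, h2.symm⟩
  · right; exact ⟨d.natAbs, h1, h2.symm⟩

lemma card_intDiv (D : ℤ) : (intDiv D).card ≤ 2 * D.natAbs.divisors.card := by
  unfold intDiv
  calc _ ≤ _ := Finset.card_union_le _ _
    _ ≤ D.natAbs.divisors.card + D.natAbs.divisors.card :=
        Nat.add_le_add Finset.card_image_le Finset.card_image_le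
    _ = _ := by ring

/-- The box of integral quadruples. -/
noncomputable def box4 (Z : ℕ) : Finset (ℤ × ℤ × ℤ × ℤ) :=
  Finset.Icc 0 (Z : ℤ) ×ˢ Finset.Icc 0 (Z : ℤ) ×ˢ Finset.Icc 0 (Z : ℤ) ×ˢ Finset.Icc 0 (Z : ℤ)

/-- The quadruples `(x, y, z, w)` with `x w - y z = s` and `α w + β y + γ z + δ x = k`. -/
noncomputable def plane (Z : ℕ) (s α β γ δ k : ℤ) : Finset (ℤ × ℤ × ℤ × ℤ) :=
  (box4 Z).filter (fun u => u.1 * u.2.2.2 - u.2.1 * u.2.2.1 = s ∧
    α * u.2.2.2 + β * u.2.1 + γ * u.2.2.1 + δ * u.1 = k)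

lemma mem_plane {Z : ℕ} {s α β γ δ k : ℤ} {u : ℤ × ℤ × ℤ × ℤ} :
    u ∈ plane Z s α β γ δ k ↔
      ((0 ≤ u.1 ∧ u.1 ≤ Z) ∧ (0 ≤ u.2.1 ∧ u.2.1 ≤ Z) ∧ (0 ≤ u.2.2.1 ∧ u.2.2.1 ≤ Z) ∧
        (0 ≤ u.2.2.2 ∧ u.2.2.2 ≤ Z)) ∧ u.1 * u.2.2.2 - u.2.1 * u.2.2.1 = s ∧
    α * u.2.2.2 + β * u.2.1 + γ * u.2.2.1 + δ * u.1 = k := by
  unfold plane box4
  simp only [Finset.mem_filter, Finset.mem_product, Finset.mem_Icc]

/-- The constant `D_x`. -/
def dis (s α β γ δ k x : ℤ) : ℤ := (β * γ - α * δ) * x ^ 2 + α * k * x - α ^ 2 * s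

lemma plane_factor {Z : ℕ} {s α β γ δ k : ℤ} {u : ℤ × ℤ × ℤ × ℤ}
    (hu : u ∈ plane Z s α β γ δ k) :
    (α * u.2.1 + γ * u.1) * (α * u.2.2.1 + β * u.1) = dis s α β γ δ k u.1 := by
  obtain ⟨-, h1, h2⟩ := mem_plane.1 hu
  unfold dis
  linear_combination (-α ^ 2) * h1 + (α * u.1) * h2

lemma plane_fiber_ne {Z : ℕ} {s α β γ δ k : ℤ} (hα : α ≠ 0) (x : ℤ)
    (hD : dis s α β γ δ k x ≠ 0) :
    ((plane Z s α β γ δ k).filter (fun u => u.1 = x)).card
      ≤ 2 * (dis s α β γ δ k x).natAbs.divisors.card := by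
  refine le_trans ?_ (card_intDiv _)
  apply Finset.card_le_card_of_injOn (fun u => α * u.2.1 + γ * u.1)
  · intro u hu
    rw [Finset.mem_coe, Finset.mem_filter] at hu
    obtain ⟨hu, hx⟩ := hu
    have h := plane_factor hu
    rw [hx] at h
    apply mem_intDiv hD
    simp only
    rw [hx, ← h]
    exact Dvd.intro _ rfl
  · intro u hu v hv huv
    rw [Finset.mem_coe, Finset.mem_filter] at hu hv
    obtain ⟨hu, hux⟩ := hu
    obtain ⟨hv, hvx⟩ := hv
    simp only at huv
    have h1 := plane_factor hu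
    have h2 := plane_factor hv
    rw [hux] at h1 huv
    rw [hvx] at h2 huv
    have hy : u.2.1 = v.2.1 := by
      have : α * (u.2.1 - v.2.1) = 0 := by linear_combination huv
      rcases mul_eq_zero.1 this with h | h
      · exact absurd h hα
      · linarith
    have hne : α * u.2.1 + γ * x ≠ 0 := by
      intro h0
      rw [h0, zero_mul] at h1
      exact hD h1.symm
    have hz : u.2.2.1 = v.2.2.1 := by
      have : (α * u.2.1 + γ * x) * (α * (u.2.2.1 - v.2.2.1)) = 0 := by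
        rw [hy] at h1 ⊢
        linear_combination h1 - h2
      rcases mul_eq_zero.1 this with h | h
      · exact absurd h hne
      · rcases mul_eq_zero.1 h with h | h
        · exact absurd h hα
        · linarith
    have hw : u.2.2.2 = v.2.2.2 := by
      obtain ⟨-, -, h3⟩ := mem_plane.1 hu
      obtain ⟨-, -, h4⟩ := mem_plane.1 hv
      have : α * (u.2.2.2 - v.2.2.2) = 0 := by
        rw [hy, hz, hux] at h3
        rw [hvx] at h4
        linear_combination h3 - h4
      rcases mul_eq_zero.1 this with h | h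
      · exact absurd h hα
      · linarith
    exact Prod.ext (hux.trans hvx.symm) (Prod.ext hy (Prod.ext hz hw))

lemma plane_fiber_zero {Z : ℕ} {s α β γ δ k : ℤ} (hα : α ≠ 0) (x : ℤ)
    (hD : dis s α β γ δ k x = 0) :
    ((plane Z s α β γ δ k).filter (fun u => u.1 = x)).card ≤ 2 * (Z + 1) := by
  have hsub : (plane Z s α β γ δ k).filter (fun u => u.1 = x) ⊆
      ((plane Z s α β γ δ k).filter (fun u => u.1 = x ∧ α * u.2.1 + γ * u.1 = 0)) ∪
      ((plane Z s α β γ δ k).filter (fun u => u.1 = x ∧ α * u.2.2.1 + β * u.1 = 0)) := by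
    intro u hu
    rw [Finset.mem_filter] at hu
    obtain ⟨hu, hx⟩ := hu
    have h := plane_factor hu
    rw [hx, hD] at h
    rw [Finset.mem_union, Finset.mem_filter, Finset.mem_filter, hx]
    rcases mul_eq_zero.1 h with h | h
    · left; exact ⟨hu, rfl, h⟩
    · right; exact ⟨hu, rfl, h⟩
  have hcard : (Finset.Icc 0 (Z : ℤ)).card = Z + 1 := by simp
  have hw : ∀ u ∈ plane Z s α β γ δ k, ∀ v ∈ plane Z s α β γ δ k, u.1 = v.1 → u.2.1 = v.2.1 →
      u.2.2.1 = v.2.2.1 → u = v := by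
    intro u hu v hv h1 h2 h3
    have h4 : u.2.2.2 = v.2.2.2 := by
      obtain ⟨-, -, h5⟩ := mem_plane.1 hu
      obtain ⟨-, -, h6⟩ := mem_plane.1 hv
      have : α * (u.2.2.2 - v.2.2.2) = 0 := by
        rw [h1, h2, h3] at h5
        linear_combination h5 - h6
      rcases mul_eq_zero.1 this with h | h
      · exact absurd h hα
      · linarith
    exact Prod.ext h1 (Prod.ext h2 (Prod.ext h3 h4))
  have hA : ((plane Z s α β γ δ k).filter (fun u => u.1 = x ∧ α * u.2.1 + γ * u.1 = 0)).card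
      ≤ Z + 1 := by
    rw [← hcard]
    apply Finset.card_le_card_of_injOn (fun u => u.2.2.1)
    · intro u hu
      rw [Finset.mem_coe, Finset.mem_filter] at hu
      obtain ⟨⟨-, -, h, -⟩, -⟩ := mem_plane.1 hu.1
      rw [Finset.mem_coe, Finset.mem_Icc]
      exact h
    · intro u hu v hv huv
      rw [Finset.mem_coe, Finset.mem_filter] at hu hv
      obtain ⟨hu, hux, hu0⟩ := hu
      obtain ⟨hv, hvx, hv0⟩ := hv
      apply hw u hu v hv (hux.trans hvx.symm) _ huv
      rw [hux] at hu0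
      rw [hvx] at hv0
      have : α * (u.2.1 - v.2.1) = 0 := by linear_combination hu0 - hv0
      rcases mul_eq_zero.1 this with h | h
      · exact absurd h hα
      · linarith
  have hB : ((plane Z s α β γ δ k).filter (fun u => u.1 = x ∧ α * u.2.2.1 + β * u.1 = 0)).card
      ≤ Z + 1 := by
    rw [← hcard]
    apply Finset.card_le_card_of_injOn (fun u => u.2.1)
    · intro u hu
      rw [Finset.mem_coe, Finset.mem_filter] at hu
      obtain ⟨⟨-, h, -, -⟩, -⟩ := mem_plane.1 hu.1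
      rw [Finset.mem_coe, Finset.mem_Icc]
      exact h
    · intro u hu v hv huv
      rw [Finset.mem_coe, Finset.mem_filter] at hu hv
      obtain ⟨hu, hux, hu0⟩ := hu
      obtain ⟨hv, hvx, hv0⟩ := hv
      apply hw u hu v hv (hux.trans hvx.symm) huv
      rw [hux] at hu0
      rw [hvx] at hv0
      have : α * (u.2.2.1 - v.2.2.1) = 0 := by linear_combination hu0 - hv0
      rcases mul_eq_zero.1 this with h | h
      · exact absurd h hα
      · linarith
  calc _ ≤ _ := Finset.card_le_card hsub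
    _ ≤ _ := Finset.card_union_le _ _
    _ ≤ (Z + 1) + (Z + 1) := Nat.add_le_add hA hB
    _ = _ := by ring

lemma abs_mul_le_of {a b A B : ℤ} (ha : |a| ≤ A) (hb : |b| ≤ B) : |a * b| ≤ A * B := by
  rw [abs_mul]
  exact mul_le_mul ha hb (abs_nonneg _) ((abs_nonneg _).trans ha)

/-- The bound for the number of points. -/
theorem card_plane_le (Z R T : ℕ) (hZ : 1 ≤ Z) (s α β γ δ k : ℤ) (hs : s = 1 ∨ s = -1)
    (hα : α ≠ 0) (hαR : |α| ≤ R) (hβR : |β| ≤ R) (hγR : |γ| ≤ R) (hδR : |δ| ≤ R)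
    (hT : 672 * (R ^ 2 * Z ^ 2) < (T + 1) ^ 3) :
    (plane Z s α β γ δ k).card ≤ 2 * (Z + 1) * (T + R ^ 2) := by
  have hmaps : ∀ u ∈ plane Z s α β γ δ k, u.1 ∈ Finset.Icc 0 (Z : ℤ) := by
    intro u hu
    obtain ⟨⟨h, -⟩, -⟩ := mem_plane.1 hu
    rw [Finset.mem_Icc]; exact h
  rw [Finset.card_eq_sum_card_fiberwise hmaps]
  have hfib : ∀ x ∈ Finset.Icc 0 (Z : ℤ),
      ((plane Z s α β γ δ k).filter (fun u => u.1 = x)).card
        ≤ 2 * T + if x ∈ Finset.Icc 1 ((R ^ 2 : ℕ) : ℤ) then 2 * (Z + 1) else 0 := by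
    intro x hx
    rw [Finset.mem_Icc] at hx
    by_cases hempty : ((plane Z s α β γ δ k).filter (fun u => u.1 = x)) = ∅
    · rw [hempty, Finset.card_empty]; exact Nat.zero_le _
    obtain ⟨u, hu⟩ := Finset.nonempty_iff_ne_empty.2 hempty
    rw [Finset.mem_filter] at hu
    obtain ⟨hu, hux⟩ := hu
    obtain ⟨⟨⟨a1, a2⟩, ⟨b1, b2⟩, ⟨c1, c2⟩, d1, d2⟩, hdet, hlin⟩ := mem_plane.1 hu
    by_cases hD : dis s α β γ δ k x = 0
    · -- `x` divides `α ^ 2`
      have hx1 : x ∈ Finset.Icc 1 ((R ^ 2 : ℕ) : ℤ) := by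
        have h0 : x * ((β * γ - α * δ) * x + α * k) = α ^ 2 * s := by
          unfold dis at hD
          linear_combination hD
        have hs2 : s * s = 1 := by rcases hs with h | h <;> rw [h] <;> norm_num
        have h1 : x ∣ α ^ 2 := by
          refine ⟨((β * γ - α * δ) * x + α * k) * s, ?_⟩
          linear_combination (-α ^ 2) * hs2 - s * h0
        have hα2 : 0 < α ^ 2 := by positivity
        have hx0 : x ≠ 0 := by
          rintro rfl
          rw [zero_dvd_iff] at h1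
          exact hα2.ne' h1
        rw [Finset.mem_Icc]
        constructor
        · have := hx.1
          omega
        · have h2 := Int.le_of_dvd hα2 h1
          have h3 : α ^ 2 ≤ (R : ℤ) ^ 2 := by
            rw [← sq_abs α]
            exact pow_le_pow_left₀ (abs_nonneg _) hαR 2
          push_cast
          linarith
      rw [if_pos hx1]
      have := plane_fiber_zero (Z := Z) hα x hD
      omega
    · have h1 := plane_fiber_ne (Z := Z) hα x hD
      have hR0 : (0 : ℤ) ≤ R := by positivity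
      have hZ0 : (0 : ℤ) ≤ Z := by positivity
      have hxZ : |x| ≤ Z := abs_le.2 ⟨by linarith [hx.1], hx.2⟩
      have hk : |k| ≤ 4 * (R * Z) := by
        rw [← hlin]
        have e1 : |α * u.2.2.2| ≤ R * Z := abs_mul_le_of hαR (abs_le.2 ⟨by linarith, d2⟩)
        have e2 : |β * u.2.1| ≤ R * Z := abs_mul_le_of hβR (abs_le.2 ⟨by linarith, b2⟩)
        have e3 : |γ * u.2.2.1| ≤ R * Z := abs_mul_le_of hγR (abs_le.2 ⟨by linarith, c2⟩)
        have e4 : |δ * u.1| ≤ R * Z := abs_mul_le_of hδR (abs_le.2 ⟨by linarith, a2⟩)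
        have f1 := abs_add_le (α * u.2.2.2 + β * u.2.1 + γ * u.2.2.1) (δ * u.1)
        have f2 := abs_add_le (α * u.2.2.2 + β * u.2.1) (γ * u.2.2.1)
        have f3 := abs_add_le (α * u.2.2.2) (β * u.2.1)
        linarith
      have hDle : |dis s α β γ δ k x| ≤ 7 * (R ^ 2 * Z ^ 2) := by
        unfold dis
        have e1 : |β * γ| ≤ R * R := abs_mul_le_of hβR hγR
        have e2 : |α * δ| ≤ R * R := abs_mul_le_of hαR hδR
        have e3 : |β * γ - α * δ| ≤ 2 * (R * R) := by
          have := abs_sub (β * γ) (α * δ)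
          linarith
        have e4 : |x ^ 2| ≤ Z * Z := by
          rw [sq]; exact abs_mul_le_of hxZ hxZ
        have e5 : |(β * γ - α * δ) * x ^ 2| ≤ 2 * (R * R) * (Z * Z) := abs_mul_le_of e3 e4
        have e6 : |α * k| ≤ R * (4 * (R * Z)) := abs_mul_le_of hαR hk
        have e7 : |α * k * x| ≤ R * (4 * (R * Z)) * Z := abs_mul_le_of e6 hxZ
        have e8 : |α ^ 2 * s| ≤ R * R * 1 := by
          have : |s| ≤ 1 := by rcases hs with h | h <;> rw [h] <;> norm_num
          rw [sq]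
          exact abs_mul_le_of (abs_mul_le_of hαR hαR) this
        have f1 := abs_sub ((β * γ - α * δ) * x ^ 2 + α * k * x) (α ^ 2 * s)
        have f2 := abs_add_le ((β * γ - α * δ) * x ^ 2) (α * k * x)
        have hZ1 : (1 : ℤ) ≤ Z := by exact_mod_cast hZ
        have f3 : (R : ℤ) * R * 1 ≤ R * R * (Z * Z) := by
          apply mul_le_mul_of_nonneg_left _ (by positivity)
          nlinarith
        nlinarith
      have hdiv : (dis s α β γ δ k x).natAbs.divisors.card ≤ T := by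
        have g1 := card_divisors_cube_le (dis s α β γ δ k x).natAbs (Int.natAbs_ne_zero.2 hD)
        have g2 : (dis s α β γ δ k x).natAbs ≤ 7 * (R ^ 2 * Z ^ 2) := by
          have : ((dis s α β γ δ k x).natAbs : ℤ) ≤ ((7 * (R ^ 2 * Z ^ 2) : ℕ) : ℤ) := by
            rw [Int.natCast_natAbs]
            push_cast
            exact hDle
          exact_mod_cast this
        have g3 : (dis s α β γ δ k x).natAbs.divisors.card ^ 3 < (T + 1) ^ 3 := by
          calc _ ≤ _ := g1
            _ ≤ 96 * (7 * (R ^ 2 * Z ^ 2)) := Nat.mul_le_mul_left _ g2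
            _ = 672 * (R ^ 2 * Z ^ 2) := by ring
            _ < _ := hT
        exact Nat.lt_succ_iff.1 (lt_of_pow_lt_pow_left₀ 3 (Nat.zero_le _) g3)
      omega
  calc _ ≤ ∑ x ∈ Finset.Icc 0 (Z : ℤ),
        (2 * T + if x ∈ Finset.Icc 1 ((R ^ 2 : ℕ) : ℤ) then 2 * (Z + 1) else 0) :=
        Finset.sum_le_sum hfib
    _ = (Z + 1) * (2 * T) + ∑ x ∈ Finset.Icc 0 (Z : ℤ),
        (if x ∈ Finset.Icc 1 ((R ^ 2 : ℕ) : ℤ) then 2 * (Z + 1) else 0) := by
        rw [Finset.sum_add_distrib, Finset.sum_const, smul_eq_mul]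
        simp
    _ ≤ (Z + 1) * (2 * T) + R ^ 2 * (2 * (Z + 1)) := by
        apply Nat.add_le_add_left
        rw [← Finset.sum_filter, Finset.sum_const, smul_eq_mul]
        apply Nat.mul_le_mul_right
        have : (Finset.Icc 1 ((R ^ 2 : ℕ) : ℤ)).card = R ^ 2 := by
          rw [Int.card_Icc, add_sub_cancel_right, Int.toNat_natCast]
        calc _ ≤ (Finset.Icc 1 ((R ^ 2 : ℕ) : ℤ)).card := by
              apply Finset.card_le_card
              intro x hx
              exact (Finset.mem_filter.1 hx).2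
          _ = _ := this
    _ = _ := by ring

end Run7.h166
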