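import Pool.Agent.Run7.h166.Second

/-!
Mixing for the action of `SL_2` on the plane over a finite field.
-/

namespace Run7.h166

open Matrix Finset

section Mixing

variable {K : Type} [Field K] [Fintype K] [DecidableEq K]

/-- indicator of the nonzero vectors -/
def nz (v : K × K) : ℝ := if v = 0 then 0 else 1

lemma sum_nz : ∑ v : K × K, nz v = (Fintype.card K : ℝ) ^ 2 - 1 := by
  have h1 : ∀ v : K × K, nz v = 1 - (if v = 0 then 1 else 0) := by
    intro v; unfold nz; split_ifs <;> ring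
  simp_rw [h1]
  rw [Finset.sum_sub_distrib, Finset.sum_ite_eq']
  simp
  ring

lemma nz_act (g : Matrix.SpecialLinearGroup (Fin 2) K) (v : K × K) : nz (act g v) = nz v := by
  unfold nz
  by_cases h : v = 0
  · rw [if_pos h, h, act_zero, if_pos rfl]
  · have : act g v ≠ 0 := by
      intro h'
      apply h
      have := act_zero (K := K) g
      exact (actEquiv g).injective (h'.trans this.symm)
    rw [if_neg h, if_neg this]

/-- The part of mean zero. -/
noncomputable def centre (F : K × K → ℝ) (v : K × K) : ℝ :=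
  F v - (∑ x, F x) / ((Fintype.card K : ℝ) ^ 2 - 1) * nz v

lemma card_sq_sub_pos : (0 : ℝ) < (Fintype.card K : ℝ) ^ 2 - 1 := by
  have := one_lt_card (K := K)
  nlinarith

lemma sum_centre (F : K × K → ℝ) : ∑ v, centre F v = 0 := by
  unfold centre
  rw [Finset.sum_sub_distrib, ← Finset.mul_sum, sum_nz]
  have := card_sq_sub_pos (K := K)
  field_simp
  ring

lemma centre_zero (F : K × K → ℝ) (hF : F 0 = 0) : centre F 0 = 0 := by
  unfold centre nz
  simp [hF]

lemma sum_centre_sq (F : K × K → ℝ) (hF : F 0 = 0) : ∑ v, centre F v ^ 2 ≤ ∑ v, F v ^ 2 := by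
  have hpos := card_sq_sub_pos (K := K)
  set m := (∑ x, F x) / ((Fintype.card K : ℝ) ^ 2 - 1) with hm
  have h1 : ∀ v, centre F v ^ 2 = F v ^ 2 - 2 * m * F v + m ^ 2 * nz v := by
    intro v
    unfold centre
    rw [← hm]
    unfold nz
    split_ifs with h
    · rw [h, hF]; ring
    · ring
  simp_rw [h1]
  rw [Finset.sum_add_distrib, Finset.sum_sub_distrib, ← Finset.mul_sum, ← Finset.mul_sum, sum_nz]
  have h2 : ∑ x, F x = m * ((Fintype.card K : ℝ) ^ 2 - 1) := by
    rw [hm]; field_simp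
  rw [h2]
  nlinarith [mul_nonneg (sq_nonneg m) hpos.le]

lemma cross_centre (H F : K × K → ℝ) (hH : H 0 = 0) (hF : F 0 = 0)
    (g : Matrix.SpecialLinearGroup (Fin 2) K) :
    cross H F g = cross (centre H) (centre F) g
      + (∑ x, H x) * (∑ x, F x) / ((Fintype.card K : ℝ) ^ 2 - 1) := by
  have hpos := card_sq_sub_pos (K := K)
  set mF := (∑ x, F x) / ((Fintype.card K : ℝ) ^ 2 - 1) with hmF
  set mH := (∑ x, H x) / ((Fintype.card K : ℝ) ^ 2 - 1) with hmH
  have h1 : ∀ v, H v * F (act g v) = centre H v * centre F (act g v) + mF * centre H v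
      + mH * (centre F (act g v)) * nz v + mH * mF * nz v := by
    intro v
    unfold centre
    rw [nz_act, ← hmF, ← hmH]
    unfold nz
    split_ifs with h
    · rw [h, hH]; ring
    · ring
  have h2 : ∀ v, mH * centre F (act g v) * nz v = mH * centre F (act g v) := by
    intro v
    unfold nz
    split_ifs with h
    · rw [h, act_zero, centre_zero F hF]; ring
    · ring
  have h3 : ∑ v, centre F (act g v) = 0 :=
    (Equiv.sum_comp (actEquiv g) (centre F)).trans (sum_centre F)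
  unfold cross
  simp_rw [h1, h2]
  rw [Finset.sum_add_distrib, Finset.sum_add_distrib, Finset.sum_add_distrib, ← Finset.mul_sum,
    ← Finset.mul_sum, ← Finset.mul_sum, sum_centre, sum_nz, h3]
  have h5 : ∑ x, F x = mF * ((Fintype.card K : ℝ) ^ 2 - 1) := by
    rw [hmF]; field_simp
  have h6 : ∑ x, H x = mH * ((Fintype.card K : ℝ) ^ 2 - 1) := by
    rw [hmH]; field_simp
  rw [h5, h6]
  field_simp
  ring

/-- Mixing. -/
theorem mixing (ν : Matrix.SpecialLinearGroup (Fin 2) K → ℝ) (H F : K × K → ℝ) (hH : H 0 = 0)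
    (hF : F 0 = 0) :
    (∑ g, ν g * cross H F g
        - (∑ g, ν g) * (∑ x, H x) * (∑ x, F x) / ((Fintype.card K : ℝ) ^ 2 - 1)) ^ 2
      ≤ (∑ g, ν g ^ 2) * (2 * (Fintype.card K : ℝ) ^ 2 * (∑ x, H x ^ 2) * ∑ x, F x ^ 2) := by
  have h1 : ∑ g, ν g * cross H F g
        - (∑ g, ν g) * (∑ x, H x) * (∑ x, F x) / ((Fintype.card K : ℝ) ^ 2 - 1)
      = ∑ g, ν g * cross (centre H) (centre F) g := by
    have : ∀ g, ν g * cross H F g = ν g * cross (centre H) (centre F) g
        + ν g * ((∑ x, H x) * (∑ x, F x) / ((Fintype.card K : ℝ) ^ 2 - 1)) := by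
      intro g
      rw [cross_centre H F hH hF g]; ring
    simp_rw [this]
    rw [Finset.sum_add_distrib, ← Finset.sum_mul]
    ring
  rw [h1]
  have h2 := Finset.sum_mul_sq_le_sq_mul_sq Finset.univ ν (cross (centre H) (centre F))
  have h3 := second_moment (centre H) (centre F) (sum_centre H) (sum_centre F)
    (centre_zero H hH) (centre_zero F hF)
  have h4 := sum_centre_sq H hH
  have h5 := sum_centre_sq F hF
  have h6 : 0 ≤ ∑ g, ν g ^ 2 := Finset.sum_nonneg (fun x _ => sq_nonneg _)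
  have h7 : 0 ≤ ∑ x, centre H x ^ 2 := Finset.sum_nonneg (fun x _ => sq_nonneg _)
  have h8 : 0 ≤ ∑ x, centre F x ^ 2 := Finset.sum_nonneg (fun x _ => sq_nonneg _)
  calc _ ≤ _ := h2
    _ ≤ (∑ g, ν g ^ 2) * (2 * (Fintype.card K : ℝ) ^ 2 * (∑ x, centre H x ^ 2) *
        ∑ x, centre F x ^ 2) := mul_le_mul_of_nonneg_left h3 h6
    _ ≤ _ := by
      apply mul_le_mul_of_nonneg_left _ h6
      have h9 : (∑ x, centre H x ^ 2) * (∑ x, centre F x ^ 2) ≤ (∑ x, H x ^ 2) * ∑ x, F x ^ 2 :=
        mul_le_mul h4 h5 h8 (h7.trans h4)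
      have h10 : (0 : ℝ) ≤ 2 * (Fintype.card K : ℝ) ^ 2 := by positivity
      calc _ = 2 * (Fintype.card K : ℝ) ^ 2 * ((∑ x, centre H x ^ 2) *
            ∑ x, centre F x ^ 2) := by ring
        _ ≤ 2 * (Fintype.card K : ℝ) ^ 2 * ((∑ x, H x ^ 2) * ∑ x, F x ^ 2) :=
            mul_le_mul_of_nonneg_left h9 h10
        _ = _ := by ring

end Mixing

end Run7.h166
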