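import Pool.Agent.Run7.h166.Tree
import Pool.Agent.Run7.h166.Mixing
import Pool.Agent.Run7.h166.Linear

/-!
Fibre counts for the three sets of matrices.
-/

namespace Run7.h166

open Matrix Finset Gen

section Cnt

variable {S T : Type} [DecidableEq S] [DecidableEq T]

/-- The number of elements of `A` with a given image. -/
def cnt (A : Finset S) (f : S → T) (t : T) : ℝ := ((A.filter (fun s => f s = t)).card : ℝ)

lemma cnt_nonneg (A : Finset S) (f : S → T) (t : T) : 0 ≤ cnt A f t := by
  unfold cnt; positivity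

lemma cnt_eq_zero (A : Finset S) (f : S → T) (t : T) (h : ∀ s ∈ A, f s ≠ t) : cnt A f t = 0 := by
  unfold cnt
  rw [Finset.filter_false_of_mem h]
  simp

lemma sum_cnt_mul [Fintype T] (A : Finset S) (f : S → T) (φ : T → ℝ) :
    ∑ t, cnt A f t * φ t = ∑ s ∈ A, φ (f s) := by
  have h1 : ∀ t, cnt A f t * φ t = ∑ s ∈ A, if f s = t then φ (f s) else 0 := by
    intro t
    unfold cnt
    rw [← Finset.sum_filter]
    rw [Finset.sum_congr rfl (g := fun _ => φ t)]
    · rw [Finset.sum_const, nsmul_eq_mul]
    · intro s hs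
      rw [(Finset.mem_filter.1 hs).2]
  simp_rw [h1]
  rw [Finset.sum_comm]
  apply Finset.sum_congr rfl
  intro s _
  rw [Finset.sum_ite_eq]
  simp

lemma sum_cnt [Fintype T] (A : Finset S) (f : S → T) : ∑ t, cnt A f t = (A.card : ℝ) := by
  have := sum_cnt_mul A f (fun _ => 1)
  simpa using this

lemma sum_cnt_sq_le [Fintype T] (A : Finset S) (f : S → T) (B : ℝ) (hB : ∀ t, cnt A f t ≤ B) :
    ∑ t, cnt A f t ^ 2 ≤ B * A.card := by
  calc ∑ t, cnt A f t ^ 2 ≤ ∑ t, B * cnt A f t := by
        apply Finset.sum_le_sum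
        intro t _
        rw [sq]
        exact mul_le_mul_of_nonneg_right (hB t) (cnt_nonneg A f t)
    _ = B * A.card := by rw [← Finset.mul_sum, sum_cnt]

lemma sum_cnt_sq [Fintype T] (A : Finset S) (f : S → T) :
    ∑ t, cnt A f t ^ 2 = (((A ×ˢ A).filter (fun x => f x.1 = f x.2)).card : ℝ) := by
  have h1 : ∑ t, cnt A f t ^ 2 = ∑ s ∈ A, cnt A f (f s) := by
    rw [← sum_cnt_mul A f (fun t => cnt A f t)]
    apply Finset.sum_congr rfl
    intro t _
    ring
  rw [h1]
  unfold cnt
  rw [← Nat.cast_sum]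
  congr 1
  rw [Finset.card_filter, Finset.sum_product]
  apply Finset.sum_congr rfl
  intro s _
  rw [Finset.card_filter]
  apply Finset.sum_congr rfl
  intro s' _
  by_cases h : f s = f s'
  · rw [if_pos h, if_pos h.symm]
  · rw [if_neg h, if_neg (fun h' => h h'.symm)]

end Cnt

section Mod

variable {p : ℕ} [Fact p.Prime]

/-- Reduction of the matrix of a list. -/
def rd (p : ℕ) (l : List (ℕ × ℕ)) : SL2 (ZMod p) := eval (ZMod p) (qword l)

/-- Reduction of the first column. -/
def cl (p : ℕ) (l : List (ℕ × ℕ)) : ZMod p × ZMod p := (((col l).1 : ZMod p), ((col l).2 : ZMod p))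

/-- The vector `(1/2, 0)`. -/
def v0 (p : ℕ) : ZMod p × ZMod p := ((((p + 1) / 2 : ℕ) : ZMod p), 0)

/-- The vector moved to `(1/2, 0)` by the matrix of the list. -/
def dl (p : ℕ) [Fact p.Prime] (l : List (ℕ × ℕ)) : ZMod p × ZMod p := act (rd p l)⁻¹ (v0 p)

lemma rd_nil : rd p [] = 1 := rfl

lemma act_rd (l : List (ℕ × ℕ)) (v : ZMod p × ZMod p) :
    act (rd p l) v = (((col l).1 : ZMod p) * v.1 + ((col2 l).1 : ZMod p) * v.2,
      ((col l).2 : ZMod p) * v.1 + ((col2 l).2 : ZMod p) * v.2) := by
  obtain ⟨h1, h2, h3, h4⟩ := eval_qword_entries (R := ZMod p) l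
  unfold act rd
  rw [h1, h2, h3, h4]

lemma act_rd_one (l : List (ℕ × ℕ)) : act (rd p l) (1, 0) = cl p l := by
  rw [act_rd]
  unfold cl
  simp

lemma cl_append (l l' : List (ℕ × ℕ)) : cl p (l ++ l') = act (rd p l) (cl p l') := by
  rw [act_rd]
  unfold cl
  rw [col_append]
  push_cast
  rfl

lemma cl_ne_zero (l : List (ℕ × ℕ)) : cl p l ≠ 0 := by
  rw [← act_rd_one]
  intro h
  have h2 : act (rd p l) (0 : ZMod p × ZMod p) = 0 := act_zero _
  have := (actEquiv (rd p l)).injective (h.trans h2.symm)
  have h3 := congrArg Prod.fst this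
  simp at h3

lemma dl_eq (l : List (ℕ × ℕ)) :
    dl p l = (((col2 l).2 : ZMod p) * (((p + 1) / 2 : ℕ) : ZMod p),
      -(((col l).2 : ZMod p) * (((p + 1) / 2 : ℕ) : ZMod p))) := by
  obtain ⟨h1, h2, h3, h4⟩ := eval_qword_entries (R := ZMod p) l
  unfold dl act
  have i0 := inv_val00 (rd p l)
  have i1 := inv_val01 (rd p l)
  have i2 := inv_val10 (rd p l)
  have i3 := inv_val11 (rd p l)
  rw [i0, i1, i2, i3]
  unfold rd v0
  rw [h1, h2, h3, h4]
  ext
  · simp
  · simp

lemma act_rd_eq_iff (l : List (ℕ × ℕ)) (v : ZMod p × ZMod p) :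
    act (rd p l) v = v0 p ↔ dl p l = v := by
  unfold dl
  constructor
  · intro h
    rw [← h, ← act_mul, inv_mul_cancel, act_one]
  · intro h
    rw [← h, ← act_mul, mul_inv_cancel, act_one]

lemma v0_ne_zero (hp : Odd p) : v0 p ≠ 0 := by
  intro h
  have h1 := congrArg Prod.fst h
  unfold v0 at h1
  simp only [Prod.fst_zero] at h1
  have h2 := two_mul_half hp
  rw [h1, mul_zero] at h2
  exact zero_ne_one h2

lemma dl_ne_zero (hp : Odd p) (l : List (ℕ × ℕ)) : dl p l ≠ 0 := by
  intro h
  have := (act_rd_eq_iff l 0).2 h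
  rw [act_zero] at this
  exact v0_ne_zero hp this.symm

lemma natCast_eq_imp {a b : ℕ} (h : (a : ZMod p) = b) : a % p = b % p :=
  (ZMod.natCast_eq_natCast_iff a b p).1 h

lemma eq_of_mod_div {a b n : ℕ} (h1 : a % n = b % n) (h2 : a / n = b / n) : a = b := by
  rw [← Nat.div_add_mod a n, ← Nat.div_add_mod b n, h1, h2]

/-- Distinct elements of `nset M X`, `X < p`, have distinct reductions of the first column. -/
lemma cnt_cl_le (M X : ℕ) (hX : 1 ≤ X) (hXp : X < p) (v : ZMod p × ZMod p) :
    cnt (nset M X) (cl p) v ≤ 1 := by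
  unfold cnt
  have : ((nset M X).filter (fun s => cl p s = v)).card ≤ 1 := by
    rw [Finset.card_le_one]
    intro l hl l' hl'
    rw [Finset.mem_filter] at hl hl'
    obtain ⟨hl, e⟩ := hl
    obtain ⟨hl', e'⟩ := hl'
    have P := nset_posL hX hl
    have P' := nset_posL hX hl'
    obtain ⟨-, a1, -⟩ := nset_spec M X hX l hl
    obtain ⟨-, a1', -⟩ := nset_spec M X hX l' hl'
    have a2 := (col_lt P).2
    have a2' := (col_lt P').2
    have h := e.trans e'.symm
    unfold cl at h
    have h1 := natCast_eq_imp (congrArg Prod.fst h)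
    have h2 := natCast_eq_imp (congrArg Prod.snd h)
    rw [Nat.mod_eq_of_lt (by omega), Nat.mod_eq_of_lt (by omega)] at h1 h2
    exact col_injective P P' (Prod.ext h1 h2)
  exact_mod_cast this

lemma col_fst_le {M : ℕ} {l : List (ℕ × ℕ)}
    (h : ∀ ab ∈ l, (1 ≤ ab.1 ∧ ab.1 ≤ M) ∧ (1 ≤ ab.2 ∧ ab.2 ≤ M)) (hl : l ≠ []) :
    1 ≤ (col l).2 ∧ (col l).1 ≤ (M + 1) * (col l).2 := by
  cases l with
  | nil => exact absurd rfl hl
  | cons ab m =>
    have P : PosL m := fun x hx => ⟨(h x (by simp [hx])).1.1, (h x (by simp [hx])).2.1⟩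
    obtain ⟨a1, a2⟩ := col_lt P
    obtain ⟨⟨ha1, ha2⟩, hb1, hb2⟩ := h ab (by simp)
    rw [col_cons]
    unfold stp
    simp only
    have h1 : (col m).1 ≤ ab.2 * (col m).1 := Nat.le_mul_of_pos_left _ hb1
    refine ⟨by omega, ?_⟩
    have h2 : ab.1 * ((col m).2 + ab.2 * (col m).1) ≤ M * ((col m).2 + ab.2 * (col m).1) :=
      Nat.mul_le_mul_right _ ha2
    have h3 : (M + 1) * ((col m).2 + ab.2 * (col m).1)
      = M * ((col m).2 + ab.2 * (col m).1) + ((col m).2 + ab.2 * (col m).1) := by ring
    omega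

/-- The fibres of `dl`. -/
lemma cnt_dl_le (hp : Odd p) (M X : ℕ) (hX : 1 ≤ X) (v : ZMod p × ZMod p) :
    cnt (nset M X) (dl p) v ≤ ((M : ℝ) + 2) * ((X / p : ℕ) + 1) ^ 2 := by
  unfold cnt
  have key : ((nset M X).filter (fun s => dl p s = v)).card
      ≤ (M + 2) * ((X / p) + 1) ^ 2 := by
    have hcard : ((Finset.range (X / p + 1)) ×ˢ ((Finset.range (X / p + 1)) ×ˢ
        (Finset.range (M + 2)))).card = (M + 2) * ((X / p) + 1) ^ 2 := by
      rw [Finset.card_product, Finset.card_product, Finset.card_range, Finset.card_range]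
      ring
    rw [← hcard]
    apply Finset.card_le_card_of_injOn
      (fun l => ((col l).2 / p, (col2 l).2 / p, (col l).1 / (col l).2))
    · intro l hl
      rw [Finset.mem_coe, Finset.mem_filter] at hl
      obtain ⟨hl, -⟩ := hl
      have P := nset_posL hX hl
      obtain ⟨a0, a1, -⟩ := nset_spec M X hX l hl
      have a2 := (col_lt P).2
      have a3 := (col2_le P).2.1
      simp only [Finset.coe_product, Finset.coe_range, Set.mem_prod, Set.mem_Iio]
      refine ⟨?_, ?_, ?_⟩
      · exact Nat.lt_succ_of_le (Nat.div_le_div_right (by omega))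
      · exact Nat.lt_succ_of_le (Nat.div_le_div_right (by omega))
      · by_cases hl0 : l = []
        · subst hl0; simp
        · obtain ⟨c1, c2⟩ := col_fst_le a0 hl0
          have : (col l).1 / (col l).2 ≤ M + 1 := by
            apply Nat.div_le_of_le_mul
            rw [mul_comm]; exact c2
          omega
    · intro l hl l' hl' heq
      rw [Finset.mem_coe, Finset.mem_filter] at hl hl'
      obtain ⟨hl, e⟩ := hl
      obtain ⟨hl', e'⟩ := hl'
      have P := nset_posL hX hl
      have P' := nset_posL hX hl'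
      simp only [Prod.mk.injEq] at heq
      obtain ⟨q1, q2, q3⟩ := heq
      have h := e.trans e'.symm
      rw [dl_eq, dl_eq] at h
      have hh := two_mul_half hp
      set x : ZMod p := (((p + 1) / 2 : ℕ) : ZMod p) with hx
      have h1 := congrArg Prod.fst h
      have h2 := congrArg Prod.snd h
      simp only at h1 h2
      have hD : (((col2 l).2 : ℕ) : ZMod p) = (((col2 l').2 : ℕ) : ZMod p) := by
        linear_combination 2 * h1 - (((col2 l).2 : ZMod p) - ((col2 l').2 : ZMod p)) * hh
      have hC : (((col l).2 : ℕ) : ZMod p) = (((col l').2 : ℕ) : ZMod p) := by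
        linear_combination (-2) * h2 - (((col l).2 : ZMod p) - ((col l').2 : ZMod p)) * hh
      have eC := eq_of_mod_div (natCast_eq_imp hC) q1
      have eD := eq_of_mod_div (natCast_eq_imp hD) q2
      -- now the first entries
      have d1 := det_nat l
      have d2 := det_nat l'
      by_cases hl0 : l = []
      · by_cases hl0' : l' = []
        · rw [hl0, hl0']
        · obtain ⟨a0', -, -⟩ := nset_spec M X hX l' hl'
          obtain ⟨c1, -⟩ := col_fst_le a0' hl0'
          rw [hl0] at eC
          simp at eC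
          omega
      · obtain ⟨a0, -, -⟩ := nset_spec M X hX l hl
        obtain ⟨c1, -⟩ := col_fst_le a0 hl0
        have hmod : (col l).1 % (col l).2 = (col l').1 % (col l).2 := by
          have hcop : Nat.Coprime (col l).2 (col2 l).2 := by
            rw [Nat.coprime_comm]
            apply Nat.Coprime.symm
            have : Nat.gcd (col l).2 (col2 l).2 ∣ 1 := by
              have g1 : Nat.gcd (col l).2 (col2 l).2 ∣ (col2 l).1 * (col l).2 + 1 := by
                rw [← d1]
                exact Dvd.dvd.mul_left (Nat.gcd_dvd_right _ _) _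
              have g2 : Nat.gcd (col l).2 (col2 l).2 ∣ (col2 l).1 * (col l).2 :=
                Dvd.dvd.mul_left (Nat.gcd_dvd_left _ _) _
              exact (Nat.dvd_add_right g2).1 g1
            exact Nat.eq_one_of_dvd_one this
          have hm : (col l).1 * (col2 l).2 ≡ (col l').1 * (col2 l).2 [MOD (col l).2] := by
            have m1 : (col l).1 * (col2 l).2 ≡ 1 [MOD (col l).2] := by
              rw [d1]
              have := (Nat.modEq_zero_iff_dvd.2 (Dvd.intro_left (col2 l).1 rfl :
                (col l).2 ∣ (col2 l).1 * (col l).2)).add_right 1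
              simpa using this
            have m2 : (col l').1 * (col2 l).2 ≡ 1 [MOD (col l).2] := by
              rw [eD, d2, ← eC]
              have := (Nat.modEq_zero_iff_dvd.2 (Dvd.intro_left (col2 l').1 rfl :
                (col l).2 ∣ (col2 l').1 * (col l).2)).add_right 1
              simpa using this
            exact m1.trans m2.symm
          exact Nat.ModEq.cancel_right_of_coprime hcop hm
        have eA : (col l).1 = (col l').1 := by
          apply eq_of_mod_div hmod
          rw [q3, ← eC]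
        exact col_injective P P' (Prod.ext eA eC)
  have : (((nset M X).filter (fun s => dl p s = v)).card : ℝ)
      ≤ (((M + 2) * ((X / p) + 1) ^ 2 : ℕ) : ℝ) := by exact_mod_cast key
  refine this.trans (le_of_eq ?_)
  push_cast
  ring

end Mod

end Run7.h166
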