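import Pool.Agent.Run7.h166.Pairs

/-!
The density of the good pairs.
-/

namespace Run7.h166

open Matrix Finset Gen

/-- The constant in the lower bound for `nset`. -/
noncomputable def cM (M : ℕ) : ℝ := Real.exp (-4) / ((M : ℝ) + 1) ^ 4

lemma cM_pos (M : ℕ) : 0 < cM M := by unfold cM; positivity

lemma nset_lower (M X : ℕ) (hM : 1 ≤ M) (hX : 1 ≤ X) :
    cM M * (X : ℝ) ^ 2 / (X : ℝ) ^ (6 / (M : ℝ)) ≤ ((nset M X).card : ℝ) := by
  have h := card_nset_ge_rpow M X hM hX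
  have hX0 : (0 : ℝ) < X := by exact_mod_cast hX
  rw [Real.rpow_sub hX0, Real.rpow_two] at h
  unfold cM
  rw [mul_div_assoc]
  exact h

/-- The parameters. -/
lemma exists_params (p M : ℕ) (hp : p.Prime) (y : ℝ) (hy90 : y ^ 90 = p) (hy2 : 2 ≤ y)
    (hM : 720 ≤ M) (hK1 : 14256 / cM M ≤ y) (hK2 : 1024 * ((M : ℝ) + 2) / cM M ^ 3 ≤ y) :
    ∃ X1 X2 X3 T : ℕ, 1 ≤ X1 ∧ 1 ≤ X2 ∧ 1 ≤ X3 ∧ X3 < p ∧ 4 * (X1 * X2 * X3) ≤ p ^ 4 ∧
      672 * ((X2 / p) ^ 2 * X2 ^ 2) < (T + 1) ^ 3 ∧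
      (2 * (X2 / p) + 1) ^ 4 * (2 * (X2 + 1) * (T + (X2 / p) ^ 2)) ≤ (nset M X2).card ∧
      16 * (p : ℝ) ^ 6 * (((M : ℝ) + 2) * ((X1 / p : ℕ) + 1) ^ 2)
        ≤ ((nset M X1).card : ℝ) * ((nset M X2).card : ℝ) * ((nset M X3).card : ℝ) ∧
      cM M ^ 3 * (((p : ℝ) ^ 4 / 16) ^ 2 / ((p : ℝ) ^ 4) ^ (6 / (M : ℝ)))
        ≤ ((nset M X1).card : ℝ) * ((nset M X2).card : ℝ) * ((nset M X3).card : ℝ) := by
  have hy0 : (0 : ℝ) < y := by linarith
  have hy1 : (1 : ℝ) ≤ y := by linarith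
  have hM1 : 1 ≤ M := by omega
  have hc := cM_pos M
  have hp1 : 1 ≤ p := hp.one_lt.le
  have hp2 : 2 ≤ p := hp.two_le
  have hpR : (0 : ℝ) < p := by exact_mod_cast hp.pos
  have hpow2 : ∀ k : ℕ, 1 ≤ k → (2 : ℝ) ≤ y ^ k := by
    intro k hk
    calc (2 : ℝ) ≤ y := hy2
      _ = y ^ 1 := (pow_one y).symm
      _ ≤ y ^ k := pow_le_pow_right₀ hy1 hk
  have hpow1 : ∀ k : ℕ, (1 : ℝ) ≤ y ^ k := fun k => one_le_pow₀ hy1
  -- the parameter X2
  set X2 : ℕ := ⌊y ^ 93⌋₊ with hX2def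
  have hX2le : (X2 : ℝ) ≤ y ^ 93 := Nat.floor_le (by positivity)
  have hX2ge : y ^ 93 / 2 ≤ (X2 : ℝ) := by
    have h1 : y ^ 93 < (X2 : ℝ) + 1 := Nat.lt_floor_add_one _
    have h2 := hpow2 93 (by norm_num)
    linarith
  have hX2one : 1 ≤ X2 := by
    have h2 := hpow2 93 (by norm_num)
    have : (1 : ℝ) ≤ X2 := by linarith
    exact_mod_cast this
  have hX2pos : (0 : ℝ) < X2 := by exact_mod_cast hX2one
  -- the parameter X1
  set X1 : ℕ := p ^ 3 / (4 * X2) with hX1def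
  have hp3 : (p : ℝ) ^ 3 = y ^ 270 := by rw [← hy90, ← pow_mul]
  have hp4 : (p : ℝ) ^ 4 = y ^ 360 := by rw [← hy90, ← pow_mul]
  have hX1le : X1 * (4 * X2) ≤ p ^ 3 := Nat.div_mul_le_self _ _
  have hX1leR : (X1 : ℝ) * (4 * X2) ≤ (p : ℝ) ^ 3 := by exact_mod_cast hX1le
  have hX1geR : (p : ℝ) ^ 3 ≤ (X1 : ℝ) * (8 * X2) := by
    have h1 : p ^ 3 < (X1 + 1) * (4 * X2) := by
      rw [hX1def]
      have := Nat.lt_mul_div_succ (p ^ 3) (show 0 < 4 * X2 by omega)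
      rw [mul_comm]
      exact this
    have h1R : (p : ℝ) ^ 3 < ((X1 : ℝ) + 1) * (4 * X2) := by exact_mod_cast h1
    have h2 : 8 * (X2 : ℝ) ≤ (p : ℝ) ^ 3 := by
      rw [hp3]
      calc 8 * (X2 : ℝ) ≤ y ^ 3 * y ^ 93 := by
            apply mul_le_mul _ hX2le (by positivity) (by positivity)
            calc (8 : ℝ) = 2 ^ 3 := by norm_num
              _ ≤ y ^ 3 := pow_le_pow_left₀ (by norm_num) hy2 3
        _ = y ^ 96 := by ring
        _ ≤ y ^ 270 := pow_le_pow_right₀ hy1 (by norm_num)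
    -- from `p^3 < 4 X1 X2 + 4 X2` and `8 X2 ≤ p^3`
    nlinarith
  have hX1gep : (p : ℝ) ≤ X1 := by
    have h1 : (p : ℝ) * (8 * X2) ≤ (p : ℝ) ^ 3 := by
      rw [hp3]
      calc (p : ℝ) * (8 * X2) ≤ y ^ 90 * (y ^ 3 * y ^ 93) := by
            rw [hy90]
            apply mul_le_mul_of_nonneg_left _ hpR.le
            apply mul_le_mul _ hX2le (by positivity) (by positivity)
            calc (8 : ℝ) = 2 ^ 3 := by norm_num
              _ ≤ y ^ 3 := pow_le_pow_left₀ (by norm_num) hy2 3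
        _ = y ^ 186 := by ring
        _ ≤ y ^ 270 := pow_le_pow_right₀ hy1 (by norm_num)
    have h2 := h1.trans hX1geR
    have h3 : (0 : ℝ) < 8 * X2 := by positivity
    exact le_of_mul_le_mul_right h2 h3
  have hX1pos : (0 : ℝ) < X1 := by linarith
  have hX1one : 1 ≤ X1 := by exact_mod_cast (Nat.cast_pos.1 hX1pos)
  -- the parameter X3
  set X3 : ℕ := p - 1 with hX3def
  have hX3one : 1 ≤ X3 := by omega
  have hX3lt : X3 < p := by omega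
  have hX3ge : (p : ℝ) / 2 ≤ (X3 : ℝ) := by
    have : (X3 : ℝ) = p - 1 := by
      rw [hX3def, Nat.cast_sub hp1, Nat.cast_one]
    rw [this]
    have : (2 : ℝ) ≤ p := by exact_mod_cast hp2
    linarith
  have hX3pos : (0 : ℝ) < X3 := by exact_mod_cast hX3one
  have hX3le : (X3 : ℝ) ≤ p := by exact_mod_cast hX3lt.le
  -- the parameter T
  set T : ℕ := ⌈9 * y ^ 64⌉₊ with hTdef
  have hTge : 9 * y ^ 64 ≤ (T : ℝ) := Nat.le_ceil _
  have hTle : (T : ℝ) ≤ 10 * y ^ 64 := by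
    have h1 : (T : ℝ) < 9 * y ^ 64 + 1 := Nat.ceil_lt_add_one (by positivity)
    have h2 := hpow1 64
    linarith
  -- the quotient R
  set R : ℕ := X2 / p with hRdef
  have hRle : (R : ℝ) ≤ y ^ 3 := by
    have h1 : (R : ℝ) ≤ (X2 : ℝ) / p := Nat.cast_div_le
    have h2 : (X2 : ℝ) / p ≤ y ^ 3 := by
      rw [div_le_iff₀ hpR, ← hy90]
      calc (X2 : ℝ) ≤ y ^ 93 := hX2le
        _ = y ^ 3 * y ^ 90 := by ring
    exact h1.trans h2
  have hR0 : (0 : ℝ) ≤ R := by positivity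
  -- the product
  have hprod : 4 * (X1 * X2 * X3) ≤ p ^ 4 := by
    calc 4 * (X1 * X2 * X3) = X1 * (4 * X2) * X3 := by ring
      _ ≤ p ^ 3 * p := Nat.mul_le_mul hX1le hX3lt.le
      _ = p ^ 4 := by ring
  have hprodR : (X1 : ℝ) * X2 * X3 ≤ (p : ℝ) ^ 4 := by
    have : X1 * X2 * X3 ≤ p ^ 4 := by omega
    exact_mod_cast this
  have hprodge : (p : ℝ) ^ 4 / 16 ≤ (X1 : ℝ) * X2 * X3 := by
    calc (p : ℝ) ^ 4 / 16 = ((p : ℝ) ^ 3 / 8) * (p / 2) := by ring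
      _ ≤ ((X1 : ℝ) * X2) * X3 := by
        apply mul_le_mul _ hX3ge (by positivity) (by positivity)
        linarith
  have hM0 : (0 : ℝ) < M := by exact_mod_cast (show 0 < M by omega)
  have hexp0 : (0 : ℝ) ≤ 6 / (M : ℝ) := by positivity
  -- small powers
  have hsmall : ((p : ℝ) ^ 4) ^ (6 / (M : ℝ)) ≤ y ^ 3 := by
    rw [hp4, ← Real.rpow_natCast, ← Real.rpow_natCast, ← Real.rpow_mul hy0.le]
    apply Real.rpow_le_rpow_of_exponent_le hy1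
    have h720 : (720 : ℝ) ≤ M := by exact_mod_cast hM
    have : ((360 : ℕ) : ℝ) * (6 / (M : ℝ)) = 2160 / M := by push_cast; ring
    rw [this, div_le_iff₀ hM0]
    push_cast
    linarith
  have hc1 : 0 < cM M := hc
  -- lower bounds
  have hn1 := nset_lower M X1 hM1 hX1one
  have hn2 := nset_lower M X2 hM1 hX2one
  have hn3 := nset_lower M X3 hM1 hX3one
  have hr1 : (0 : ℝ) < (X1 : ℝ) ^ (6 / (M : ℝ)) := Real.rpow_pos_of_pos hX1pos _
  have hr2 : (0 : ℝ) < (X2 : ℝ) ^ (6 / (M : ℝ)) := Real.rpow_pos_of_pos hX2pos _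
  have hr3 : (0 : ℝ) < (X3 : ℝ) ^ (6 / (M : ℝ)) := Real.rpow_pos_of_pos hX3pos _
  have hnprod : cM M ^ 3 * (((X1 : ℝ) * X2 * X3) ^ 2 / ((p : ℝ) ^ 4) ^ (6 / (M : ℝ)))
      ≤ ((nset M X1).card : ℝ) * ((nset M X2).card : ℝ) * ((nset M X3).card : ℝ) := by
    have h1 : (cM M * (X1 : ℝ) ^ 2 / (X1 : ℝ) ^ (6 / (M : ℝ))) *
        (cM M * (X2 : ℝ) ^ 2 / (X2 : ℝ) ^ (6 / (M : ℝ))) *
        (cM M * (X3 : ℝ) ^ 2 / (X3 : ℝ) ^ (6 / (M : ℝ)))
        ≤ ((nset M X1).card : ℝ) * ((nset M X2).card : ℝ) * ((nset M X3).card : ℝ) := by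
      gcongr
    refine le_trans ?_ h1
    have h2 : (cM M * (X1 : ℝ) ^ 2 / (X1 : ℝ) ^ (6 / (M : ℝ))) *
        (cM M * (X2 : ℝ) ^ 2 / (X2 : ℝ) ^ (6 / (M : ℝ))) *
        (cM M * (X3 : ℝ) ^ 2 / (X3 : ℝ) ^ (6 / (M : ℝ)))
        = cM M ^ 3 * (((X1 : ℝ) * X2 * X3) ^ 2 / ((X1 : ℝ) * X2 * X3) ^ (6 / (M : ℝ))) := by
      rw [Real.mul_rpow (by positivity) (by positivity), Real.mul_rpow (by positivity)
        (by positivity)]
      field_simp
    rw [h2]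
    apply mul_le_mul_of_nonneg_left _ (by positivity)
    apply div_le_div_of_nonneg_left (by positivity) (by positivity)
    exact Real.rpow_le_rpow (by positivity) hprodR hexp0
  refine ⟨X1, X2, X3, T, hX1one, hX2one, hX3one, hX3lt, hprod, ?_, ?_, ?_, ?_⟩
  · -- the condition on T
    have h1 : (672 * ((R : ℝ) ^ 2 * (X2 : ℝ) ^ 2)) < ((T : ℝ) + 1) ^ 3 := by
      have e1 : (R : ℝ) ^ 2 ≤ (y ^ 3) ^ 2 := pow_le_pow_left₀ hR0 hRle 2
      have e2 : (X2 : ℝ) ^ 2 ≤ (y ^ 93) ^ 2 := pow_le_pow_left₀ hX2pos.le hX2le 2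
      have e3 : (R : ℝ) ^ 2 * (X2 : ℝ) ^ 2 ≤ (y ^ 3) ^ 2 * (y ^ 93) ^ 2 :=
        mul_le_mul e1 e2 (by positivity) (by positivity)
      have e4 : (9 * y ^ 64) ^ 3 < ((T : ℝ) + 1) ^ 3 := by
        apply pow_lt_pow_left₀ (by linarith) (by positivity) (by norm_num)
      have e5 : (0 : ℝ) < y ^ 192 := by positivity
      calc 672 * ((R : ℝ) ^ 2 * (X2 : ℝ) ^ 2) ≤ 672 * ((y ^ 3) ^ 2 * (y ^ 93) ^ 2) := by
            linarith
        _ = 672 * y ^ 192 := by ring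
        _ ≤ 729 * y ^ 192 := by linarith
        _ = (9 * y ^ 64) ^ 3 := by ring
        _ < _ := e4
    exact_mod_cast h1
  · -- the condition on collisions
    have h1 : (2 * (R : ℝ) + 1) ^ 4 * (2 * ((X2 : ℝ) + 1) * ((T : ℝ) + (R : ℝ) ^ 2))
        ≤ ((nset M X2).card : ℝ) := by
      have e1 : 2 * (R : ℝ) + 1 ≤ 3 * y ^ 3 := by
        have := hpow1 3
        linarith
      have e2 : (2 * (R : ℝ) + 1) ^ 4 ≤ (3 * y ^ 3) ^ 4 := pow_le_pow_left₀ (by positivity) e1 4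
      have e3 : 2 * ((X2 : ℝ) + 1) ≤ 4 * y ^ 93 := by
        have := hpow1 93
        linarith
      have e4 : (T : ℝ) + (R : ℝ) ^ 2 ≤ 11 * y ^ 64 := by
        have f1 : (R : ℝ) ^ 2 ≤ (y ^ 3) ^ 2 := pow_le_pow_left₀ hR0 hRle 2
        have f2 : (y ^ 3) ^ 2 ≤ y ^ 64 := by
          rw [← pow_mul]
          exact pow_le_pow_right₀ hy1 (by norm_num)
        linarith
      have e5 : 2 * ((X2 : ℝ) + 1) * ((T : ℝ) + (R : ℝ) ^ 2) ≤ (4 * y ^ 93) * (11 * y ^ 64) :=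
        mul_le_mul e3 e4 (by positivity) (by positivity)
      have e6 : (2 * (R : ℝ) + 1) ^ 4 * (2 * ((X2 : ℝ) + 1) * ((T : ℝ) + (R : ℝ) ^ 2))
          ≤ (3 * y ^ 3) ^ 4 * ((4 * y ^ 93) * (11 * y ^ 64)) :=
        mul_le_mul e2 e5 (by positivity) (by positivity)
      have e7 : (X2 : ℝ) ^ (6 / (M : ℝ)) ≤ y ^ 3 := by
        refine le_trans ?_ hsmall
        apply Real.rpow_le_rpow hX2pos.le _ hexp0
        refine le_trans ?_ hprodR
        have g1 : (1 : ℝ) ≤ X1 := by exact_mod_cast hX1one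
        have g3 : (1 : ℝ) ≤ X3 := by exact_mod_cast hX3one
        calc (X2 : ℝ) = 1 * X2 * 1 := by ring
          _ ≤ (X1 : ℝ) * X2 * X3 := by gcongr
      have e8 : cM M * (y ^ 93 / 2) ^ 2 / y ^ 3 ≤ cM M * (X2 : ℝ) ^ 2 / (X2 : ℝ) ^ (6 / (M : ℝ)) := by
        gcongr
      have e9 : 3564 * y ^ 169 ≤ cM M * (y ^ 93 / 2) ^ 2 / y ^ 3 := by
        rw [le_div_iff₀ (by positivity)]
        have g1 : 14256 ≤ cM M * y := by
          rw [div_le_iff₀ hc] at hK1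
          linarith
        have g2 : y ≤ y ^ 14 := by
          calc y = y ^ 1 := (pow_one y).symm
            _ ≤ y ^ 14 := pow_le_pow_right₀ hy1 (by norm_num)
        have g3 : 14256 ≤ cM M * y ^ 14 := by
          refine g1.trans (mul_le_mul_of_nonneg_left g2 hc.le)
        have g4 : (0 : ℝ) < y ^ 172 := by positivity
        calc 3564 * y ^ 169 * y ^ 3 = 14256 * (y ^ 172 / 4) := by ring
          _ ≤ (cM M * y ^ 14) * (y ^ 172 / 4) := by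
            apply mul_le_mul_of_nonneg_right g3 (by positivity)
          _ = _ := by ring
      calc _ ≤ _ := e6
        _ = 3564 * y ^ 169 := by ring
        _ ≤ _ := e9
        _ ≤ _ := e8
        _ ≤ _ := hn2
    exact_mod_cast h1
  · -- the condition for mixing
    refine le_trans ?_ hnprod
    have h1 : (((X1 / p : ℕ) : ℝ) + 1) ≤ 2 * (X1 : ℝ) / p := by
      have e1 : ((X1 / p : ℕ) : ℝ) ≤ (X1 : ℝ) / p := Nat.cast_div_le
      have e2 : 1 ≤ (X1 : ℝ) / p := by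
        rw [le_div_iff₀ hpR]; linarith
      calc (((X1 / p : ℕ) : ℝ) + 1) ≤ (X1 : ℝ) / p + (X1 : ℝ) / p := by linarith
        _ = _ := by ring
    have h2 : (((X1 / p : ℕ) : ℝ) + 1) ^ 2 ≤ (2 * (X1 : ℝ) / p) ^ 2 :=
      pow_le_pow_left₀ (by positivity) h1 2
    calc 16 * (p : ℝ) ^ 6 * (((M : ℝ) + 2) * (((X1 / p : ℕ) : ℝ) + 1) ^ 2)
        ≤ 16 * (p : ℝ) ^ 6 * (((M : ℝ) + 2) * (2 * (X1 : ℝ) / p) ^ 2) := by gcongr
      _ = 64 * ((M : ℝ) + 2) * (p : ℝ) ^ 4 * (X1 : ℝ) ^ 2 := by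
          field_simp
          ring
      _ ≤ cM M ^ 3 * (((X1 : ℝ) * X2 * X3) ^ 2 / y ^ 3) := by
          rw [← mul_div_assoc, le_div_iff₀ (by positivity)]
          have g1 : 1024 * ((M : ℝ) + 2) ≤ cM M ^ 3 * y := by
            rw [div_le_iff₀ (by positivity)] at hK2
            linarith
          have g2 : y ≤ y ^ 3 := by
            calc y = y ^ 1 := (pow_one y).symm
              _ ≤ y ^ 3 := pow_le_pow_right₀ hy1 (by norm_num)
          have g3 : 1024 * ((M : ℝ) + 2) ≤ cM M ^ 3 * y ^ 3 :=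
            g1.trans (mul_le_mul_of_nonneg_left g2 (by positivity))
          have g4 : (y ^ 93 / 2) ^ 2 ≤ (X2 : ℝ) ^ 2 := pow_le_pow_left₀ (by positivity) hX2ge 2
          have g5 : (y ^ 90 / 2) ^ 2 ≤ (X3 : ℝ) ^ 2 := by
            apply pow_le_pow_left₀ (by positivity)
            rw [hy90]; exact hX3ge
          calc 64 * ((M : ℝ) + 2) * (p : ℝ) ^ 4 * (X1 : ℝ) ^ 2 * y ^ 3
              = (1024 * ((M : ℝ) + 2)) * (y ^ 363 / 16) * (X1 : ℝ) ^ 2 := by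
                rw [hp4]; ring
            _ ≤ (cM M ^ 3 * y ^ 3) * (y ^ 363 / 16) * (X1 : ℝ) ^ 2 := by gcongr
            _ = cM M ^ 3 * ((X1 : ℝ) ^ 2 * (y ^ 93 / 2) ^ 2 * (y ^ 90 / 2) ^ 2) := by ring
            _ ≤ cM M ^ 3 * ((X1 : ℝ) ^ 2 * (X2 : ℝ) ^ 2 * (X3 : ℝ) ^ 2) := by gcongr
            _ = _ := by ring
      _ ≤ _ := by gcongr
  · refine le_trans ?_ hnprod
    gcongr

end Run7.h166
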