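import Pool.Agent.Run7.h166.Lists

/-!
Every word for `u_{(p+1)/2}` in `PSL_2(F_p)` has length at least `2 log p / log φ - O(1)`.
-/

namespace Run7.h166

open Matrix Gen

/-- Growth of a column. -/
lemma col_growth (w : List Gen) (j : Fin 2) :
    |(eval ℤ w).1 0 j| ≤ Nat.fib (w.length + 1) ∧ |(eval ℤ w).1 1 j| ≤ Nat.fib (w.length + 1) ∧
      |(eval ℤ w).1 0 j| + |(eval ℤ w).1 1 j| ≤ Nat.fib (w.length + 2) := by
  induction w with
  | nil =>
    fin_cases j <;> simp
  | cons g w ih =>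
    obtain ⟨h1, h2, h3⟩ := ih
    have hf : Nat.fib (w.length + 3) = Nat.fib (w.length + 1) + Nat.fib (w.length + 2) :=
      Nat.fib_add_two
    have hmono : Nat.fib (w.length + 1) ≤ Nat.fib (w.length + 2) := Nat.fib_le_fib_succ
    have hfZ : (Nat.fib (w.length + 3) : ℤ) = Nat.fib (w.length + 1) + Nat.fib (w.length + 2) := by
      exact_mod_cast hf
    have hmonoZ : (Nat.fib (w.length + 1) : ℤ) ≤ Nat.fib (w.length + 2) := by exact_mod_cast hmono
    have e0 := mul_val (Gen.mat ℤ g) (eval ℤ w) 0 j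
    have e1 := mul_val (Gen.mat ℤ g) (eval ℤ w) 1 j
    rw [eval_cons, List.length_cons]
    set x := (eval ℤ w).1 0 j with hx
    set y := (eval ℤ w).1 1 j with hy
    have key : ∀ s t : ℤ, |s| ≤ Nat.fib (w.length + 1) → |t| ≤ Nat.fib (w.length + 1) →
        |s| + |t| ≤ Nat.fib (w.length + 2) → ∀ r : ℤ, |r| ≤ |s| + |t| →
        |r| ≤ Nat.fib (w.length + 1 + 1) ∧ |t| ≤ Nat.fib (w.length + 1 + 1) ∧
          |r| + |t| ≤ Nat.fib (w.length + 1 + 2) := by
      intro s t hs ht hst r hr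
      refine ⟨by linarith, by linarith, ?_⟩
      have : (Nat.fib (w.length + 1 + 2) : ℤ) = Nat.fib (w.length + 3) := rfl
      rw [this, hfZ]
      linarith
    cases g
    · -- U
      simp only [Gen.mat, upper_val00, upper_val01, upper_val10, upper_val11] at e0 e1
      have e0' : (Gen.mat ℤ U * eval ℤ w).1 0 j = x + y := by
        rw [show Gen.mat ℤ U = upper 1 from rfl, e0]; ring
      have e1' : (Gen.mat ℤ U * eval ℤ w).1 1 j = y := by
        rw [show Gen.mat ℤ U = upper 1 from rfl, e1]; ring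
      rw [e0', e1']
      exact key x y h1 h2 h3 (x + y) (abs_add_le x y)
    · simp only [Gen.mat, upper_val00, upper_val01, upper_val10, upper_val11] at e0 e1
      have e0' : (Gen.mat ℤ Ui * eval ℤ w).1 0 j = x - y := by
        rw [show Gen.mat ℤ Ui = upper (-1) from rfl, e0]; ring
      have e1' : (Gen.mat ℤ Ui * eval ℤ w).1 1 j = y := by
        rw [show Gen.mat ℤ Ui = upper (-1) from rfl, e1]; ring
      rw [e0', e1']
      exact key x y h1 h2 h3 (x - y) (abs_sub x y)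
    · simp only [Gen.mat, lower_val00, lower_val01, lower_val10, lower_val11] at e0 e1
      have e0' : (Gen.mat ℤ V * eval ℤ w).1 0 j = x := by
        rw [show Gen.mat ℤ V = lower 1 from rfl, e0]; ring
      have e1' : (Gen.mat ℤ V * eval ℤ w).1 1 j = x + y := by
        rw [show Gen.mat ℤ V = lower 1 from rfl, e1]; ring
      rw [e0', e1']
      obtain ⟨k1, k2, k3⟩ := key y x h2 h1 (by linarith) (x + y)
        (by have := abs_add_le x y; linarith)
      exact ⟨k2, k1, by linarith⟩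
    · simp only [Gen.mat, lower_val00, lower_val01, lower_val10, lower_val11] at e0 e1
      have e0' : (Gen.mat ℤ Vi * eval ℤ w).1 0 j = x := by
        rw [show Gen.mat ℤ Vi = lower (-1) from rfl, e0]; ring
      have e1' : (Gen.mat ℤ Vi * eval ℤ w).1 1 j = y - x := by
        rw [show Gen.mat ℤ Vi = lower (-1) from rfl, e1]; ring
      rw [e0', e1']
      obtain ⟨k1, k2, k3⟩ := key y x h2 h1 (by linarith) (y - x)
        (by have := abs_sub y x; linarith)
      exact ⟨k2, k1, by linarith⟩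

/-- The value at `i` of the Moebius map of an integral matrix. -/
noncomputable def moeb (h : SL2 ℤ) : ℂ :=
  (((h.1 0 0 : ℤ) : ℂ) * Complex.I + ((h.1 0 1 : ℤ) : ℂ)) /
    (((h.1 1 0 : ℤ) : ℂ) * Complex.I + ((h.1 1 1 : ℤ) : ℂ))

lemma one_le_norm_int (c d : ℤ) (h : c ≠ 0 ∨ d ≠ 0) :
    1 ≤ ‖((c : ℤ) : ℂ) * Complex.I + ((d : ℤ) : ℂ)‖ := by
  have h1 : ‖((c : ℤ) : ℂ) * Complex.I + ((d : ℤ) : ℂ)‖ ^ 2 = (c : ℝ) ^ 2 + (d : ℝ) ^ 2 := by
    rw [← Complex.normSq_eq_norm_sq, Complex.normSq_apply]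
    simp
    ring
  have h2 : (1 : ℝ) ≤ (c : ℝ) ^ 2 + (d : ℝ) ^ 2 := by
    have : (1 : ℤ) ≤ c ^ 2 + d ^ 2 := by
      rcases h with h | h
      · have := sq_nonneg d
        have : 0 < c ^ 2 := by positivity
        linarith [sq_nonneg d]
      · have : 0 < d ^ 2 := by positivity
        linarith [sq_nonneg c]
    exact_mod_cast this
  have h3 : 0 ≤ ‖((c : ℤ) : ℂ) * Complex.I + ((d : ℤ) : ℂ)‖ := norm_nonneg _
  nlinarith

lemma bottom_ne_zero (h : SL2 ℤ) : h.1 1 0 ≠ 0 ∨ h.1 1 1 ≠ 0 := by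
  by_contra hcon
  push Not at hcon
  have := det_val h
  rw [hcon.1, hcon.2] at this
  simp at this

lemma bottom_norm (h : SL2 ℤ) :
    1 ≤ ‖((h.1 1 0 : ℤ) : ℂ) * Complex.I + ((h.1 1 1 : ℤ) : ℂ)‖ :=
  one_le_norm_int _ _ (bottom_ne_zero h)

/-- One letter moves the point by at most one. -/
lemma moeb_letter (h : SL2 ℤ) (g : Gen) : ‖moeb (h * Gen.mat ℤ g) - moeb h‖ ≤ 1 := by
  have hb := bottom_norm h
  have hb' := bottom_norm (h * Gen.mat ℤ g)
  have hd := det_val h
  have hdC : ((h.1 0 0 : ℤ) : ℂ) * ((h.1 1 1 : ℤ) : ℂ) - ((h.1 0 1 : ℤ) : ℂ) * ((h.1 1 0 : ℤ) : ℂ)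
      = 1 := by exact_mod_cast hd
  have hne : ((h.1 1 0 : ℤ) : ℂ) * Complex.I + ((h.1 1 1 : ℤ) : ℂ) ≠ 0 := by
    intro h0; rw [h0, norm_zero] at hb; linarith
  have hne' : (((h * Gen.mat ℤ g).1 1 0 : ℤ) : ℂ) * Complex.I
      + (((h * Gen.mat ℤ g).1 1 1 : ℤ) : ℂ) ≠ 0 := by
    intro h0; rw [h0, norm_zero] at hb'; linarith
  have key : ∃ s : ℂ, ‖s‖ = 1 ∧ moeb (h * Gen.mat ℤ g) - moeb h =
      s / (((((h * Gen.mat ℤ g).1 1 0 : ℤ) : ℂ) * Complex.I
      + (((h * Gen.mat ℤ g).1 1 1 : ℤ) : ℂ)) *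
        (((h.1 1 0 : ℤ) : ℂ) * Complex.I + ((h.1 1 1 : ℤ) : ℂ))) := by
    unfold moeb
    set A := ((h.1 0 0 : ℤ) : ℂ) with hA
    set B := ((h.1 0 1 : ℤ) : ℂ) with hB
    set C := ((h.1 1 0 : ℤ) : ℂ) with hC
    set D := ((h.1 1 1 : ℤ) : ℂ) with hD
    have hII : Complex.I * Complex.I = -1 := Complex.I_mul_I
    cases g
    · refine ⟨1, by simp, ?_⟩
      rw [div_sub_div _ _ hne' hne]
      congr 1
      simp only [mul_val, Gen.mat, upper_val00, upper_val01, upper_val10, upper_val11]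
      push_cast
      rw [← hA, ← hB, ← hC, ← hD]
      linear_combination hdC
    · refine ⟨-1, by simp, ?_⟩
      rw [div_sub_div _ _ hne' hne]
      congr 1
      simp only [mul_val, Gen.mat, upper_val00, upper_val01, upper_val10, upper_val11]
      push_cast
      rw [← hA, ← hB, ← hC, ← hD]
      linear_combination -hdC
    · refine ⟨1, by simp, ?_⟩
      rw [div_sub_div _ _ hne' hne]
      congr 1
      simp only [mul_val, Gen.mat, lower_val00, lower_val01, lower_val10, lower_val11]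
      push_cast
      rw [← hA, ← hB, ← hC, ← hD]
      linear_combination hdC + (B * C - A * D) * hII
    · refine ⟨-1, by simp, ?_⟩
      rw [div_sub_div _ _ hne' hne]
      congr 1
      simp only [mul_val, Gen.mat, lower_val00, lower_val01, lower_val10, lower_val11]
      push_cast
      rw [← hA, ← hB, ← hC, ← hD]
      linear_combination -hdC - (B * C - A * D) * hII
  obtain ⟨s, hs, hkey⟩ := key
  rw [hkey, norm_div, hs, norm_mul]
  rw [div_le_one (by positivity)]
  calc (1 : ℝ) = 1 * 1 := by ring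
    _ ≤ _ := by gcongr

lemma moeb_word (h : SL2 ℤ) (w : List Gen) : ‖moeb (h * eval ℤ w) - moeb h‖ ≤ w.length := by
  induction w generalizing h with
  | nil => simp
  | cons g w ih =>
    have h1 : h * eval ℤ (g :: w) = (h * Gen.mat ℤ g) * eval ℤ w := by
      rw [eval_cons, mul_assoc]
    rw [h1, List.length_cons]
    have h2 := ih (h * Gen.mat ℤ g)
    have h3 := moeb_letter h g
    calc ‖moeb (h * Gen.mat ℤ g * eval ℤ w) - moeb h‖
        = ‖(moeb (h * Gen.mat ℤ g * eval ℤ w) - moeb (h * Gen.mat ℤ g)) +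
          (moeb (h * Gen.mat ℤ g) - moeb h)‖ := by congr 1; ring
      _ ≤ _ := norm_add_le _ _
      _ ≤ _ := by push_cast; linarith

end Run7.h166
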