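import Pool.Agent.Run7.h166.Lower
import Pool.Agent.Run7.h166.OddMain

/-!
Every word for `u_{(p+1)/2}` in `PSL_2(F_p)` has length at least `2 log p / log φ - O(1)`.
-/

namespace Run7.h166

open Matrix Gen

/-- The integral matrix of a solution, modulo `p`. -/
lemma sol_entries {p : ℕ} (hp : p.Prime) (hodd : Odd p) (w : List Gen) (hw : IsSolution p w) :
    ∃ e : ℤ, (e = 1 ∨ e = -1) ∧ (p : ℤ) ∣ (eval ℤ w).1 0 0 - e ∧
      (p : ℤ) ∣ 2 * (eval ℤ w).1 0 1 - e ∧
      (p : ℤ) ∣ (eval ℤ w).1 1 0 ∧ (p : ℤ) ∣ (eval ℤ w).1 1 1 - e := by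
  have := Fact.mk hp
  unfold IsSolution value at hw
  rw [mk_eq_mk_iff] at hw
  obtain ⟨c, hc, h⟩ := hw
  have hh : 2 * ((((p + 1) / 2 : ℕ)) : ZMod p) = 1 := two_mul_half hodd
  have hval : ∀ i j, (eval (ZMod p) w).1 i j =
      c * (upper ((((p + 1) / 2 : ℕ)) : ZMod p)).1 i j := by
    intro i j
    rw [h i j, ← mul_assoc, ← pow_two, hc, one_mul]
  have h00 := hval 0 0
  have h01 := hval 0 1
  have h10 := hval 1 0
  have h11 := hval 1 1
  simp only [upper_val00, upper_val01, upper_val10, upper_val11, mul_one, mul_zero] at h00 h01 h10 h11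
  rw [eval_cast] at h00 h01 h10 h11
  have hc' : c = 1 ∨ c = -1 := by
    have : (c - 1) * (c + 1) = 0 := by linear_combination hc
    rcases mul_eq_zero.mp this with h | h
    · left; linear_combination h
    · right; linear_combination h
  have main : ∀ e : ℤ, c = (e : ZMod p) → (p : ℤ) ∣ (eval ℤ w).1 0 0 - e ∧
      (p : ℤ) ∣ 2 * (eval ℤ w).1 0 1 - e ∧
      (p : ℤ) ∣ (eval ℤ w).1 1 0 ∧ (p : ℤ) ∣ (eval ℤ w).1 1 1 - e := by
    intro e he
    refine ⟨?_, ?_, ?_, ?_⟩ <;> rw [← ZMod.intCast_zmod_eq_zero_iff_dvd] <;> push_cast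
    · rw [h00, he]; ring
    · rw [h01, he]; linear_combination (e : ZMod p) * hh
    · rw [h10]
    · rw [h11, he]; ring
  rcases hc' with rfl | rfl
  · exact ⟨1, Or.inl rfl, main 1 (by simp)⟩
  · exact ⟨-1, Or.inr rfl, main (-1) (by simp)⟩

/-- A nonzero nilpotent integral matrix `(x, y; z, -x)` is `k (-r s, r^2; -s^2, r s)`, with `r, s`
coprime. -/
lemma nilpotent_form (x y z : ℤ) (h : x ^ 2 + y * z = 0) (hne : ¬ (x = 0 ∧ y = 0 ∧ z = 0)) :
    ∃ k r s : ℤ, k ≠ 0 ∧ IsCoprime r s ∧ x = - (k * r * s) ∧ y = k * r ^ 2 ∧ z = - (k * s ^ 2) := by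
  by_cases hy : y = 0
  · subst hy
    have hx : x = 0 := by
      have : x ^ 2 = 0 := by linarith
      exact pow_eq_zero_iff (two_ne_zero) |>.mp this
    refine ⟨-z, 0, 1, ?_, ?_, ?_, ?_, ?_⟩
    · intro hz; apply hne; exact ⟨hx, rfl, by linarith⟩
    · exact isCoprime_one_right
    · simp [hx]
    · simp
    · ring
  · -- `g = gcd (x, y)`
    obtain ⟨g, hgpos, x', y', hcop, hx, hy'⟩ : ∃ g : ℤ, 0 < g ∧ ∃ x' y' : ℤ, IsCoprime x' y' ∧
        x = x' * g ∧ y = y' * g := by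
      have hg : 0 < Int.gcd x y := Int.gcd_pos_of_ne_zero_right x hy
      obtain ⟨x', y', hc, h1, h2⟩ := Int.exists_gcd_one hg
      refine ⟨(Int.gcd x y : ℤ), by exact_mod_cast hg, x', y', ?_, h1, h2⟩
      rw [Int.isCoprime_iff_gcd_eq_one]
      exact hc
    subst hx
    subst hy'
    have hg0 : g ≠ 0 := hgpos.ne'
    have hy0 : y' ≠ 0 := by intro h0; apply hy; rw [h0]; ring
    have h1 : x' ^ 2 * g + y' * z = 0 := by
      have : g * (x' ^ 2 * g + y' * z) = 0 := by linear_combination h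
      rcases mul_eq_zero.mp this with h2 | h2
      · exact absurd h2 hg0
      · exact h2
    have hdvd : y' ∣ g := by
      have h2 : y' ∣ x' ^ 2 * g := ⟨-z, by linear_combination h1⟩
      exact (IsCoprime.pow_right hcop.symm).dvd_of_dvd_mul_left h2
    obtain ⟨k, hk⟩ := hdvd
    subst hk
    refine ⟨k, y', -x', ?_, ?_, ?_, ?_, ?_⟩
    · intro h0; apply hg0; rw [h0]; ring
    · exact hcop.symm.neg_right
    · ring
    · ring
    · have h3 : y' * (x' ^ 2 * k + z) = 0 := by linear_combination h1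
      rcases mul_eq_zero.mp h3 with h4 | h4
      · exact absurd h4 hy0
      · linear_combination h4

/-- The parabolic case. -/
lemma parabolic_case {p : ℕ} (w : List Gen) (e k r s : ℤ)
    (he : e = 1 ∨ e = -1) (hk : k ≠ 0) (hrs : IsCoprime r s)
    (h00 : 2 * (eval ℤ w).1 0 0 - 2 * e = - (p * k * r * s))
    (h01 : 2 * (eval ℤ w).1 0 1 - (eval ℤ w).1 0 0 = p * k * r ^ 2)
    (h10 : 2 * (eval ℤ w).1 1 0 = - (p * k * s ^ 2))
    (h11 : 2 * (eval ℤ w).1 1 1 - (eval ℤ w).1 1 0 - 2 * e = p * k * r * s) :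
    (p : ℝ) ≤ 2 * w.length + 1 := by
  obtain ⟨u, v, huv⟩ := hrs
  -- `h = (u, v; -s, r)`
  let h : SL2 ℤ := ⟨!![u, v; -s, r], by rw [Matrix.det_fin_two_of]; linear_combination huv⟩
  have hh00 : h.1 0 0 = u := rfl
  have hh01 : h.1 0 1 = v := rfl
  have hh10 : h.1 1 0 = -s := rfl
  have hh11 : h.1 1 1 = r := rfl
  have hmain := moeb_word h w
  have hb := bottom_norm h
  have hb' := bottom_norm (h * eval ℤ w)
  have huvC : (u : ℂ) * r + (v : ℂ) * s = 1 := by exact_mod_cast huv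
  set a := (eval ℤ w).1 0 0 with ha
  set b := (eval ℤ w).1 0 1 with hb0
  set c := (eval ℤ w).1 1 0 with hc
  set d := (eval ℤ w).1 1 1 with hd
  have eC : (e : ℂ) * e = 1 := by
    rcases he with h | h <;> rw [h] <;> push_cast <;> ring
  have h00C : 2 * (a : ℂ) - 2 * e = - (p * k * r * s) := by exact_mod_cast h00
  have h01C : 2 * (b : ℂ) - a = p * k * r ^ 2 := by exact_mod_cast h01
  have h10C : 2 * (c : ℂ) = - (p * k * s ^ 2) := by exact_mod_cast h10
  have h11C : 2 * (d : ℂ) - c - 2 * e = p * k * r * s := by exact_mod_cast h11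
  have aC : (a : ℂ) = e - p * k * r * s / 2 := by linear_combination h00C / 2
  have bC : (b : ℂ) = (a + p * k * r ^ 2) / 2 := by linear_combination h01C / 2
  have cC : (c : ℂ) = - (p * k * s ^ 2) / 2 := by linear_combination h10C / 2
  have dC : (d : ℂ) = (c + 2 * e + p * k * r * s) / 2 := by linear_combination h11C / 2
  set D1 : ℂ := ((h.1 1 0 : ℤ) : ℂ) * Complex.I + ((h.1 1 1 : ℤ) : ℂ) with hD1
  have hD1' : D1 = - s * Complex.I + r := by rw [hD1, hh10, hh11]; push_cast; ring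
  have hD2' : (((h * eval ℤ w).1 1 0 : ℤ) : ℂ) * Complex.I + (((h * eval ℤ w).1 1 1 : ℤ) : ℂ) =
      e * (- s * (Complex.I + 1 / 2) + r) := by
    rw [mul_val, mul_val, hh10, hh11, ← ha, ← hb0, ← hc, ← hd]
    push_cast
    rw [dC, bC, cC, aC]
    ring
  set D2 : ℂ := - s * (Complex.I + 1 / 2) + r with hD2
  have hN2 : (((h * eval ℤ w).1 0 0 : ℤ) : ℂ) * Complex.I + (((h * eval ℤ w).1 0 1 : ℤ) : ℂ) =
      p * k / 2 * D2 + e * (u * (Complex.I + 1 / 2) + v) := by
    rw [mul_val, mul_val, hh00, hh01, ← ha, ← hb0, ← hc, ← hd]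
    push_cast
    rw [dC, bC, cC, aC, hD2]
    linear_combination (p * k / 2 * (- s * (Complex.I + 1 / 2) + r) : ℂ) * huvC
  have hen : ‖(e : ℂ)‖ = 1 := by
    rcases he with h | h <;> rw [h] <;> simp
  have he0 : (e : ℂ) ≠ 0 := by intro h0; rw [h0, norm_zero] at hen; exact zero_ne_one hen
  have hD2n : 1 ≤ ‖D2‖ := by
    rw [hD2', norm_mul, hen, one_mul] at hb'
    exact hb'
  have hD1n : 1 ≤ ‖D1‖ := hb
  have hD10 : D1 ≠ 0 := by intro h0; rw [h0, norm_zero] at hD1n; linarith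
  have hD20 : D2 ≠ 0 := by intro h0; rw [h0, norm_zero] at hD2n; linarith
  have hdiff : moeb (h * eval ℤ w) - moeb h = e * (p * k / 2) + (1 / 2) / (D1 * D2) := by
    have hm1 : moeb h = (u * Complex.I + v) / D1 := rfl
    have hm2 : moeb (h * eval ℤ w) = (p * k / 2 * D2 + e * (u * (Complex.I + 1 / 2) + v)) /
        (e * D2) := by
      unfold moeb
      rw [hN2, hD2']
    have h1 : (p * k / 2 * D2 + e * (u * (Complex.I + 1 / 2) + v)) / (e * D2) =
        e * (p * k / 2) + (u * (Complex.I + 1 / 2) + v) / D2 := by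
      rw [div_eq_iff (mul_ne_zero he0 hD20)]
      have h2 : (u * (Complex.I + 1 / 2) + v) / D2 * (e * D2) =
          e * (u * (Complex.I + 1 / 2) + v) := by
        field_simp
      rw [add_mul, h2]
      linear_combination (-(p * k / 2 * D2) : ℂ) * eC
    rw [hm1, hm2, h1]
    have h3 : (u * (Complex.I + 1 / 2) + v) / D2 - (u * Complex.I + v) / D1 =
        (1 / 2) / (D1 * D2) := by
      rw [div_sub_div _ _ hD20 hD10, mul_comm D1 D2]
      congr 1
      rw [hD1', hD2]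
      linear_combination (1 / 2 : ℂ) * huvC
    linear_combination h3
  rw [hdiff] at hmain
  have hk1 : (1 : ℝ) ≤ ‖(k : ℂ)‖ := by
    rw [Complex.norm_intCast]
    have : (1 : ℤ) ≤ |k| := Int.one_le_abs hk
    exact_mod_cast this
  have hn1 : (p : ℝ) / 2 ≤ ‖(e : ℂ) * (p * k / 2)‖ := by
    rw [norm_mul, hen, one_mul, norm_div, norm_mul, Complex.norm_natCast, Complex.norm_ofNat]
    have : (p : ℝ) * 1 ≤ p * ‖(k : ℂ)‖ := by gcongr
    linarith
  have hn2 : ‖(1 / 2 : ℂ) / (D1 * D2)‖ ≤ 1 / 2 := by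
    rw [norm_div, norm_mul, norm_div, norm_one, Complex.norm_ofNat]
    apply div_le_self (by norm_num)
    calc (1 : ℝ) = 1 * 1 := by ring
      _ ≤ _ := by gcongr
  have hn3 : ‖(e : ℂ) * (p * k / 2)‖ ≤ ‖(e : ℂ) * (p * k / 2) + (1 / 2) / (D1 * D2)‖ +
      ‖(1 / 2 : ℂ) / (D1 * D2)‖ := by
    calc ‖(e : ℂ) * (p * k / 2)‖ = ‖((e : ℂ) * (p * k / 2) + (1 / 2) / (D1 * D2)) -
        (1 / 2 : ℂ) / (D1 * D2)‖ := by congr 1; ring
      _ ≤ _ := norm_sub_le _ _
  linarith

lemma fib_succ_le_phi (n : ℕ) : (Nat.fib (n + 1) : ℝ) ≤ Real.goldenRatio ^ n := by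
  induction n using Nat.strong_induction_on with
  | _ n ih =>
    match n with
    | 0 => simp
    | 1 => simpa using Real.one_lt_goldenRatio.le
    | m + 2 =>
      have h1 := ih m (by omega)
      have h2 := ih (m + 1) (by omega)
      have h3 : (Nat.fib (m + 2 + 1) : ℝ) = Nat.fib (m + 1) + Nat.fib (m + 1 + 1) := by
        exact_mod_cast Nat.fib_add_two
      rw [h3]
      have h4 : Real.goldenRatio ^ (m + 2) = Real.goldenRatio ^ m + Real.goldenRatio ^ (m + 1) := by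
        rw [pow_add, Real.goldenRatio_sq]; ring
      rw [h4]
      linarith

lemma phi_lower : (1.618 : ℝ) ≤ Real.goldenRatio := by
  have h : (2.236 : ℝ) ≤ √5 := by
    apply Real.le_sqrt_of_sq_le
    norm_num
  unfold Real.goldenRatio
  linarith

/-- `(2 m + 1)^2 ≤ 12 φ^m`. -/
lemma sq_le_phi (m : ℕ) : ((2 * m + 1 : ℕ) : ℝ) ^ 2 ≤ 12 * Real.goldenRatio ^ m := by
  have hphi := phi_lower
  have hstep : ∀ m : ℕ, ((2 * (m + 4) + 1 : ℕ) : ℝ) ^ 2 ≤ 12 * (1.618 : ℝ) ^ (m + 4) := by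
    intro m
    induction m with
    | zero => norm_num
    | succ m ih =>
      have e1 : (1.618 : ℝ) ^ (m + 1 + 4) = 1.618 * (1.618 : ℝ) ^ (m + 4) := by ring
      rw [e1]
      push_cast at ih ⊢
      have hm : (0 : ℝ) ≤ m := Nat.cast_nonneg m
      nlinarith
  have h2 : ((2 * m + 1 : ℕ) : ℝ) ^ 2 ≤ 12 * (1.618 : ℝ) ^ m := by
    rcases Nat.lt_or_ge m 4 with h | h
    · interval_cases m <;> norm_num
    · obtain ⟨j, rfl⟩ := Nat.exists_eq_add_of_le' h
      exact hstep j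
  calc _ ≤ 12 * (1.618 : ℝ) ^ m := h2
    _ ≤ _ := by gcongr

/-- The lower bound. -/
theorem lower_bound {p : ℕ} (hp : p.Prime) (hodd : Odd p) (w : List Gen) (hw : IsSolution p w) :
    (p : ℝ) ^ 2 ≤ 12 * Real.goldenRatio ^ w.length := by
  obtain ⟨e, he, ⟨a', ha'⟩, ⟨b', hb'⟩, ⟨c', hc'⟩, ⟨d', hd'⟩⟩ := sol_entries hp hodd w hw
  have hdet := det_val (eval ℤ w)
  have hcol0 := col_growth w 0
  have hcol1 := col_growth w 1
  have hp0 : (p : ℤ) ≠ 0 := by exact_mod_cast hp.ne_zero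
  have hee : e * e = 1 := by rcases he with h | h <;> rw [h] <;> ring
  set a := (eval ℤ w).1 0 0 with hae
  set b := (eval ℤ w).1 0 1 with hbe
  set c := (eval ℤ w).1 1 0 with hce
  set d := (eval ℤ w).1 1 1 with hde
  -- `T = 2 (a + d) - c` is `4 e` modulo `p^2`
  have hdiv : ∃ t : ℤ, 2 * (a + d) - c = 4 * e + p ^ 2 * t := by
    have h1 : e * (2 * (a' + d') - c') = - (p * (2 * a' * d' - b' * c')) := by
      have h2 : (p : ℤ) * (e * (2 * (a' + d') - c')) =
          p * (- (p * (2 * a' * d' - b' * c'))) := by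
        have ea : a = e + p * a' := by linarith
        have ed : d = e + p * d' := by linarith
        have eb : 2 * b = e + p * b' := by linarith
        rw [ea, ed] at hdet
        have h5 : 2 * ((e + p * a') * (e + p * d')) - (e + p * b') * (p * c') = 2 := by
          rw [← eb, ← hc']; linarith
        linear_combination h5 - 2 * hee
      exact mul_left_cancel₀ hp0 h2
    refine ⟨- e * (2 * a' * d' - b' * c'), ?_⟩
    have h3 : 2 * (a' + d') - c' = - e * (p * (2 * a' * d' - b' * c')) := by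
      linear_combination e * h1 - (2 * (a' + d') - c') * hee
    linear_combination 2 * ha' + 2 * hd' - hc' + (p : ℤ) * h3
  obtain ⟨t, ht⟩ := hdiv
  have hphi1 : (1 : ℝ) ≤ Real.goldenRatio ^ w.length := one_le_pow₀ Real.one_lt_goldenRatio.le
  by_cases ht0 : t = 0
  · -- parabolic case
    rw [ht0] at ht
    have hK : (2 * a - 2 * e) ^ 2 + (2 * b - a) * (2 * c) = 0 := by
      linear_combination (-4 : ℤ) * hdet + 4 * hee + 2 * a * ht
    have hx : 2 * a - 2 * e = p * (2 * a') := by linear_combination 2 * ha'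
    have hy : 2 * b - a = p * (b' - a') := by linear_combination hb' - ha'
    have hz : 2 * c = p * (2 * c') := by linear_combination 2 * hc'
    have hd2 : 2 * d - c - 2 * e = - (p * (2 * a')) := by linear_combination ht - 2 * ha'
    have hnil : (2 * a') ^ 2 + (b' - a') * (2 * c') = 0 := by
      have : (p : ℤ) ^ 2 * ((2 * a') ^ 2 + (b' - a') * (2 * c')) = 0 := by
        rw [hx, hy, hz] at hK
        linear_combination hK
      rcases mul_eq_zero.mp this with h | h
      · exact absurd h (pow_ne_zero 2 hp0)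
      · exact h
    have hne : ¬ (2 * a' = 0 ∧ b' - a' = 0 ∧ 2 * c' = 0) := by
      rintro ⟨h1, h2, -⟩
      rw [h1, mul_zero] at hx
      rw [h2, mul_zero] at hy
      rcases he with h | h <;> rw [h] at hx <;> omega
    obtain ⟨k, r, s, hk, hrs, e1, e2, e3⟩ := nilpotent_form _ _ _ hnil hne
    have hpl := parabolic_case (p := p) w e k r s he hk hrs
      (by rw [← hae, hx, e1]; ring) (by rw [← hae, ← hbe, hy, e2]; ring)
      (by rw [← hce, hz, e3]; ring) (by rw [← hce, ← hde, hd2, e1]; ring)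
    have h1 : p ≤ 2 * w.length + 1 := by exact_mod_cast hpl
    have h2 := sq_le_phi w.length
    calc (p : ℝ) ^ 2 ≤ ((2 * w.length + 1 : ℕ) : ℝ) ^ 2 := by gcongr
      _ ≤ _ := h2
  · have h1 : (p : ℤ) ^ 2 ≤ |(p : ℤ) ^ 2 * t| := by
      rw [abs_mul, abs_of_nonneg (by positivity : (0 : ℤ) ≤ (p : ℤ) ^ 2)]
      have := Int.one_le_abs ht0
      nlinarith [sq_nonneg (p : ℤ)]
    have h2 : |(p : ℤ) ^ 2 * t| ≤ 5 * Nat.fib (w.length + 1) + 4 := by
      have h3 : (p : ℤ) ^ 2 * t = 2 * (a + d) - c - 4 * e := by linarith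
      rw [h3]
      have ha1 := abs_le.mp hcol0.1
      have hc1 := abs_le.mp hcol0.2.1
      have hd1 := abs_le.mp hcol1.2.1
      rw [abs_le]
      rcases he with h | h <;> rw [h] <;> constructor <;> linarith
    have h4 : (p : ℝ) ^ 2 ≤ 5 * Nat.fib (w.length + 1) + 4 := by exact_mod_cast h1.trans h2
    have h5 := fib_succ_le_phi w.length
    linarith

end Run7.h166
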