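import Pool.Agent.Run7.h166.Words

/-!
Definitions for the equivalence between short words for `u_{(n+1)/2}`, short odd relations and
short words with odd trace divisible by `n`.
-/

namespace Run7.h166

open Matrix Gen

/-- The word `w` represents the target `u_{(n+1)/2}` of `PSL_2(Z/n)`. -/
def IsSolution (n : ℕ) (w : List Gen) : Prop :=
  value n w = ((upper (((n + 1) / 2 : ℕ) : ZMod n) : SL2 (ZMod n)) : PSL2 (ZMod n))

/-- The word `r` is an odd relation of `PSL_2(Z/n)`: it is trivial there, but it is not trivial in
`PSL_2(Z/2)`. -/
def IsOddRelation (n : ℕ) (r : List Gen) : Prop :=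
  value n r = 1 ∧ value 2 r ≠ 1

/-- The integral matrix of the word `a` has trace an odd multiple of `n`. -/
def HasOddTrace (n : ℕ) (a : List Gen) : Prop :=
  ∃ m : ℤ, Odd m ∧ (eval ℤ a).1.trace = m * n

/-- The word is positive: its letters are `U` and `V` only. -/
def IsPositive (a : List Gen) : Prop := ∀ g ∈ a, g = U ∨ g = V

/-- The word `u v^{-1} u`, with matrix `(0, 1; -1, 0)`. -/
def wWord : List Gen := [U, Vi, U]

/-- Transitions of the transducer: the state is the bottom row modulo `2` of what was read. -/
def step : Fin 3 → Gen → Fin 3
  | 0, U => 0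
  | 0, Ui => 0
  | 0, V => 1
  | 0, Vi => 1
  | 1, U => 2
  | 1, Ui => 2
  | 1, V => 0
  | 1, Vi => 0
  | 2, U => 1
  | 2, Ui => 1
  | 2, V => 2
  | 2, Vi => 2

/-- Outputs of the transducer. -/
def out : Fin 3 → Gen → List Gen
  | 0, U => [U, U]
  | 0, Ui => [Ui, Ui]
  | 0, V => []
  | 0, Vi => [Vi]
  | 1, U => [V, Ui, Ui]
  | 1, Ui => [U, U]
  | 1, V => [V]
  | 1, Vi => []
  | 2, U => [Ui, Ui]
  | 2, Ui => [U, U, Vi]
  | 2, V => [Ui, Ui]
  | 2, Vi => [U, U]

/-- The state reached after reading a word. -/
def finalState : Fin 3 → List Gen → Fin 3
  | s, [] => s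
  | s, g :: w => finalState (step s g) w

/-- The output produced while reading a word. -/
def runOut : Fin 3 → List Gen → List Gen
  | _, [] => []
  | s, g :: w => out s g ++ runOut (step s g) w

/-- From a solution to an odd relation. -/
def relOfSol (w : List Gen) : List Gen := w ++ w ++ [Ui]

/-- An odd relation, conjugated if necessary so that the transducer does not end in state `0`. -/
def turn (r : List Gen) : List Gen :=
  if finalState 0 r = 0 then wWord ++ r ++ invWord wWord else r

/-- From an odd relation to a solution. -/
def solOfRel (r : List Gen) : List Gen :=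
  if finalState 0 (turn r) = 1 then
    wWord ++ runOut 0 (turn r) ++ invWord wWord
  else
    invWord (runOut 0 (turn r) ++ wWord) ++ [U, U] ++ (runOut 0 (turn r) ++ wWord)

/-- From a word with odd trace divisible by `n` to an odd relation. -/
def relOfTrace (a : List Gen) : List Gen := a ++ a

/-- From a solution to a word with odd trace divisible by `n`. -/
def traceOfSol (w : List Gen) : List Gen :=
  if finalState 0 (relOfSol w) = 2 then
    [U] ++ wWord ++ [Ui] ++ relOfSol w
  else
    wWord ++ relOfSol w

/-- The letter `U` for `V` and conversely. -/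
def bar : Gen → Gen
  | U => V
  | V => U
  | Ui => Vi
  | Vi => Ui

/-- The positive letter `q` for which the letter is `q` or `w q w^{-1}`. -/
def posLetter : Gen → Gen
  | U => U
  | V => V
  | Ui => V
  | Vi => U

/-- Whether the letter is an inverse letter. -/
def isNeg : Gen → Bool
  | U => false
  | V => false
  | Ui => true
  | Vi => true

/-- One step of the reduction to the form `w^e P w^{e'}` with `P` a positive word, which is stored
in reverse order. -/
def nfStep (s : Bool × List Gen × Bool) (g : Gen) : Bool × List Gen × Bool :=
  if s.2.2 = isNeg g then (s.1, posLetter g :: s.2.1, isNeg g)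
  else match s.2.1 with
    | [] => (!s.1, [posLetter g], isNeg g)
    | x :: P => if x = posLetter g then (s.1, bar x :: P, isNeg g) else (s.1, P, !isNeg g)

/-- The reduction of a word to the form `w^e P w^{e'}`. -/
def nf (a : List Gen) : Bool × List Gen × Bool := a.foldl nfStep (false, [], false)

/-- Cyclic reduction of a word `P w`, with `P` positive. -/
def cyc : ℕ → List Gen → List Gen
  | 0, P => P
  | _ + 1, [] => []
  | k + 1, x :: Q => if Q.getLast? = some x then bar x :: Q.dropLast else cyc k Q.dropLast

/-- From a word to a positive word with the same trace up to sign (if this trace is at least `2` in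
absolute value). -/
def positivize (a : List Gen) : List Gen :=
  if (nf a).1 = (nf a).2.2 then (nf a).2.1.reverse
  else cyc a.length (nf a).2.1.reverse

/-- The property `Q` is solved, in logarithmic length, by some member of the class `A` of
functions: here `P i` is the number on which the instance `i` asks for a word. -/
def SolvedBy {I : Type} (P : I → ℕ) (A : Set (I → List Gen)) (Q : ℕ → List Gen → Prop) : Prop :=
  ∃ C : ℝ, ∃ f ∈ A, ∀ i : I, Q (P i) (f i) ∧ ((f i).length : ℝ) ≤ C * Real.log (P i)

end Run7.h166
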