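import Pool.Agent.Run7.h166.Transducer

namespace Run7.h166

open Matrix Gen

section Main

variable {n : ℕ}

lemma two_mul_half (hn : Odd n) : (2 : ZMod n) * (((n + 1) / 2 : ℕ) : ZMod n) = 1 := by
  obtain ⟨k, rfl⟩ := hn
  have h1 : (2 * k + 1 + 1) / 2 = k + 1 := by omega
  rw [h1]
  have h2 : ((2 * k + 1 : ℕ) : ZMod (2 * k + 1)) = 0 := ZMod.natCast_self _
  push_cast at h2 ⊢
  linear_combination h2

lemma turn_final (r : List Gen) (hr : value 2 r ≠ 1) : finalState 0 (turn r) ≠ 0 := by
  unfold turn
  split_ifs with h0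
  · rw [Ne, final_eq_zero_iff]
    rw [eval_append, eval_append, eval_invWord, eval_wWord]
    rw [final_eq_zero_iff] at h0
    intro h1
    apply hr
    rw [value_two_eq_one_iff]
    have hdet := det_val (eval (ZMod 2) r)
    simp only [mul_val, inv_val00, inv_val01, inv_val10, inv_val11, wMat_val00, wMat_val01,
      wMat_val10, wMat_val11] at h1
    have key : ∀ a b c d : ZMod 2, a * d - b * c = 1 → c = 0 →
      ((-1) * a + 0 * c) * 0 + ((-1) * b + 0 * d) * -(-1) = 0 → a = 1 ∧ b = 0 ∧ c = 0 ∧ d = 1 := by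
      decide
    obtain ⟨e1, e2, e3, e4⟩ := key _ _ _ _ hdet h0 h1
    apply ext_val
    · rw [e1]; simp
    · rw [e2]; simp
    · rw [e3]; simp
    · rw [e4]; simp
  · exact h0

lemma turn_value (r : List Gen) (hr : value n r = 1) : value n (turn r) = 1 := by
  unfold turn
  split_ifs
  · unfold value at *
    rw [eval_append, eval_append, eval_invWord]
    have : ((eval (ZMod n) wWord * eval (ZMod n) r * (eval (ZMod n) wWord)⁻¹ : SL2 (ZMod n))
        : PSL2 (ZMod n)) = ((eval (ZMod n) wWord : SL2 (ZMod n)) : PSL2 (ZMod n)) *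
          ((eval (ZMod n) r : SL2 (ZMod n)) : PSL2 (ZMod n)) *
          ((eval (ZMod n) wWord : SL2 (ZMod n)) : PSL2 (ZMod n))⁻¹ := rfl
    rw [this, hr, mul_one, mul_inv_cancel]
  · exact hr

lemma length_turn (r : List Gen) : (turn r).length ≤ r.length + 6 := by
  unfold turn
  split_ifs
  · simp [wWord]
  · omega

lemma length_runOut (s : Fin 3) (w : List Gen) : (runOut s w).length ≤ 3 * w.length := by
  induction w generalizing s with
  | nil => simp [runOut]
  | cons g w ih =>
    have h1 : (out s g).length ≤ 3 := by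
      fin_cases s <;> cases g <;> simp [out]
    have := ih (step s g)
    simp only [runOut, List.length_append, List.length_cons]
    omega

lemma length_solOfRel (r : List Gen) : (solOfRel r).length ≤ 6 * r.length + 44 := by
  have h1 := length_turn r
  have h2 := length_runOut 0 (turn r)
  unfold solOfRel
  split_ifs
  · simp only [List.length_append, length_invWord]
    simp [wWord]; omega
  · simp only [List.length_append, length_invWord]
    simp [wWord]; omega

/-- From odd relations to solutions. -/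
theorem solOfRel_spec (hn : Odd n) (r : List Gen) (hr : IsOddRelation n r) :
    IsSolution n (solOfRel r) := by
  obtain ⟨hr1, hr2⟩ := hr
  have hf := turn_final r hr2
  have hv := turn_value r hr1
  set x := turn r with hx
  set hinv : ZMod n := (((n + 1) / 2 : ℕ) : ZMod n) with hh0
  have hh : 2 * hinv = 1 := two_mul_half hn
  have T := transduce hinv hh 0 x
  simp only [rep, one_mul] at T
  -- the left side is trivial
  have L : ((conjD hinv hh (eval (ZMod n) x) : SL2 (ZMod n)) : PSL2 (ZMod n)) = 1 := by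
    have h1 : ((eval (ZMod n) x : SL2 (ZMod n)) : PSL2 (ZMod n))
      = ((1 : SL2 (ZMod n)) : PSL2 (ZMod n)) := hv
    obtain ⟨c, hc, hcc⟩ := mk_eq_mk_iff.1 h1
    have h2 : ((conjD hinv hh (eval (ZMod n) x) : SL2 (ZMod n)) : PSL2 (ZMod n))
      = ((1 : SL2 (ZMod n)) : PSL2 (ZMod n)) := by
      rw [mk_eq_mk_iff]
      refine ⟨c, hc, ?_⟩
      have a00 := hcc 0 0
      have a01 := hcc 0 1
      have a10 := hcc 1 0
      have a11 := hcc 1 1
      intro i j
      fin_cases i <;> fin_cases j
      · exact a00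
      · change (0 : ZMod n) = c * (eval (ZMod n) x).1 0 1 at a01
        change (0 : ZMod n) = c * (2 * (eval (ZMod n) x).1 0 1)
        linear_combination 2 * a01
      · change (0 : ZMod n) = c * (eval (ZMod n) x).1 1 0 at a10
        change (0 : ZMod n) = c * (hinv * (eval (ZMod n) x).1 1 0)
        linear_combination hinv * a10
      · exact a11
    exact h2
  rw [L] at T
  set o := runOut 0 x with ho
  have hsol : solOfRel r = if finalState 0 x = 1 then wWord ++ o ++ invWord wWord
      else invWord (o ++ wWord) ++ [U, U] ++ (o ++ wWord) := rfl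
  rw [hsol]
  have h3 : finalState 0 x = 1 ∨ finalState 0 x = 2 := by
    revert hf
    generalize finalState 0 x = y
    revert y
    decide
  rcases h3 with h3 | h3
  · rw [if_pos h3]
    rw [h3] at T
    simp only at T
    have hT1 : ((eval (ZMod n) o : SL2 (ZMod n)) : PSL2 (ZMod n)) *
        ((conjD hinv hh (lower 1) : SL2 (ZMod n)) : PSL2 (ZMod n)) = 1 := T.symm
    have hT2 := eq_inv_of_mul_eq_one_left hT1
    have hT : ((eval (ZMod n) o : SL2 (ZMod n)) : PSL2 (ZMod n))
        = (((conjD hinv hh (lower 1))⁻¹ : SL2 (ZMod n)) : PSL2 (ZMod n)) := hT2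
    unfold IsSolution value
    rw [eval_append, eval_append, eval_invWord, eval_wWord]
    have e1 : ((wMat (ZMod n) * eval (ZMod n) o * (wMat (ZMod n))⁻¹ : SL2 (ZMod n)) :
        PSL2 (ZMod n)) = ((wMat (ZMod n) : SL2 (ZMod n)) : PSL2 (ZMod n)) *
          ((eval (ZMod n) o : SL2 (ZMod n)) : PSL2 (ZMod n)) *
          ((wMat (ZMod n) : SL2 (ZMod n)) : PSL2 (ZMod n))⁻¹ := rfl
    rw [e1, hT]
    change ((wMat (ZMod n) * (conjD hinv hh (lower 1))⁻¹ * (wMat (ZMod n))⁻¹ : SL2 (ZMod n)) :
        PSL2 (ZMod n)) = _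
    apply mk_congr
    apply ext_val <;>
      simp only [mul_val, inv_val00, inv_val01, inv_val10, inv_val11, wMat_val00, wMat_val01,
        wMat_val10, wMat_val11, conjD_val00, conjD_val01, conjD_val10, conjD_val11,
        lower_val00, lower_val01, lower_val10, lower_val11, upper_val00, upper_val01,
        upper_val10, upper_val11] <;> ring
  · have h4 : ¬ (finalState 0 x = 1) := by rw [h3]; decide
    rw [if_neg h4]
    rw [h3] at T
    simp only at T
    have hT1 : ((eval (ZMod n) o : SL2 (ZMod n)) : PSL2 (ZMod n)) *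
        ((conjD hinv hh (wMat (ZMod n)) : SL2 (ZMod n)) : PSL2 (ZMod n)) = 1 := T.symm
    have hT2 := eq_inv_of_mul_eq_one_left hT1
    have hT : ((eval (ZMod n) o : SL2 (ZMod n)) : PSL2 (ZMod n))
        = (((conjD hinv hh (wMat (ZMod n)))⁻¹ : SL2 (ZMod n)) : PSL2 (ZMod n)) := hT2
    unfold IsSolution value
    have e0 : eval (ZMod n) [U, U] = upper 2 := by
      apply ext_val <;> simp [Gen.mat, mul_val]
      norm_num
    rw [eval_append, eval_append, eval_invWord, eval_append, eval_wWord, e0]
    have e1 : (((eval (ZMod n) o * wMat (ZMod n))⁻¹ * upper 2 * (eval (ZMod n) o * wMat (ZMod n))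
        : SL2 (ZMod n)) : PSL2 (ZMod n)) = (((eval (ZMod n) o : SL2 (ZMod n)) : PSL2 (ZMod n)) *
          ((wMat (ZMod n) : SL2 (ZMod n)) : PSL2 (ZMod n)))⁻¹ *
          ((upper 2 : SL2 (ZMod n)) : PSL2 (ZMod n)) *
          (((eval (ZMod n) o : SL2 (ZMod n)) : PSL2 (ZMod n)) *
          ((wMat (ZMod n) : SL2 (ZMod n)) : PSL2 (ZMod n))) := rfl
    rw [e1, hT]
    change ((((conjD hinv hh (wMat (ZMod n)))⁻¹ * wMat (ZMod n))⁻¹ * upper 2 *
      ((conjD hinv hh (wMat (ZMod n)))⁻¹ * wMat (ZMod n)) : SL2 (ZMod n)) :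
        PSL2 (ZMod n)) = _
    apply mk_congr
    apply ext_val <;>
      simp only [mul_val, inv_val00, inv_val01, inv_val10, inv_val11, wMat_val00, wMat_val01,
        wMat_val10, wMat_val11, conjD_val00, conjD_val01, conjD_val10, conjD_val11,
        lower_val00, lower_val01, lower_val10, lower_val11, upper_val00, upper_val01,
        upper_val10, upper_val11]
    · linear_combination hh
    · linear_combination hinv * hh
    · ring
    · linear_combination hh

end Main

end Run7.h166
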