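import Pool.Agent.Run7.h166.OddProofs

namespace Run7.h166

open Matrix Gen

section

variable {n : ℕ}

/-- The square of a value, in `PSL_2`. -/
lemma relOfSol_spec (hn : Odd n) (w : List Gen) (hw : IsSolution n w) :
    IsOddRelation n (relOfSol w) := by
  constructor
  · unfold IsSolution value at hw
    unfold value relOfSol
    rw [eval_append, eval_append]
    set hinv : ZMod n := (((n + 1) / 2 : ℕ) : ZMod n) with hh0
    have hh : 2 * hinv = 1 := two_mul_half hn
    have e1 : ((eval (ZMod n) w * eval (ZMod n) w * eval (ZMod n) [Ui] : SL2 (ZMod n)) :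
        PSL2 (ZMod n)) = ((eval (ZMod n) w : SL2 (ZMod n)) : PSL2 (ZMod n)) *
          ((eval (ZMod n) w : SL2 (ZMod n)) : PSL2 (ZMod n)) *
          ((eval (ZMod n) [Ui] : SL2 (ZMod n)) : PSL2 (ZMod n)) := rfl
    rw [e1, hw]
    change ((upper hinv * upper hinv * eval (ZMod n) [Ui] : SL2 (ZMod n)) : PSL2 (ZMod n)) =
      ((1 : SL2 (ZMod n)) : PSL2 (ZMod n))
    apply mk_congr
    have e2 : eval (ZMod n) [Ui] = upper (-1) := by simp [Gen.mat]
    rw [e2, upper_mul, upper_mul]
    have e3 : hinv + hinv + -1 = 0 := by linear_combination hh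
    rw [e3]
    apply ext_val <;> simp
  · rw [Ne, value_two_eq_one_iff]
    intro h
    unfold relOfSol at h
    rw [eval_append, eval_append] at h
    have e2 : eval (ZMod 2) [Ui] = upper (-1) := by simp [Gen.mat]
    rw [e2] at h
    set A := eval (ZMod 2) w with hA
    have hd := det_val A
    have h01 : (A * A * upper (-1)).1 0 1 = 0 := by rw [h]; simp
    have h00 : (A * A * upper (-1)).1 0 0 = 1 := by rw [h]; simp
    have h10 : (A * A * upper (-1)).1 1 0 = 0 := by rw [h]; simp
    have h11 : (A * A * upper (-1)).1 1 1 = 1 := by rw [h]; simp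
    simp only [mul_val, upper_val00, upper_val01, upper_val10, upper_val11] at h00 h01 h10 h11
    have key : ∀ a b c d : ZMod 2, a * d - b * c = 1 →
      (a * a + b * c) * 1 + (a * b + b * d) * 0 = 1 →
      (a * a + b * c) * -1 + (a * b + b * d) * 1 = 0 →
      (c * a + d * c) * 1 + (c * b + d * d) * 0 = 0 →
      (c * a + d * c) * -1 + (c * b + d * d) * 1 = 1 → False := by decide
    exact key _ _ _ _ hd h00 h01 h10 h11

/-- Evaluation commutes with the reduction modulo `n`. -/
lemma eval_cast (R : Type) [CommRing R] (w : List Gen) (i j : Fin 2) :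
    (eval R w).1 i j = (((eval ℤ w).1 i j : ℤ) : R) := by
  induction w generalizing i j with
  | nil =>
    fin_cases i <;> fin_cases j <;> simp
  | cons g w ih =>
    rw [eval_cons, eval_cons, mul_val, mul_val, ih, ih]
    have hg : ∀ i j : Fin 2, (Gen.mat R g).1 i j = (((Gen.mat ℤ g).1 i j : ℤ) : R) := by
      intro i j
      cases g <;> fin_cases i <;> fin_cases j <;> simp [Gen.mat]
    rw [hg, hg]
    push_cast
    ring

lemma trace_val {R : Type} [CommRing R] (A : SL2 R) : A.1.trace = A.1 0 0 + A.1 1 1 := by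
  rw [Matrix.trace_fin_two]

lemma relOfTrace_spec (hn : Odd n) (a : List Gen) (ha : HasOddTrace n a) :
    IsOddRelation n (relOfTrace a) := by
  obtain ⟨m, hm, htr⟩ := ha
  rw [trace_val] at htr
  constructor
  · unfold value relOfTrace
    rw [eval_append]
    have hd := det_val (eval (ZMod n) a)
    have ht : (eval (ZMod n) a).1 0 0 + (eval (ZMod n) a).1 1 1 = 0 := by
      rw [eval_cast (ZMod n) a 0 0, eval_cast (ZMod n) a 1 1, ← Int.cast_add, htr]
      simp
    set A := eval (ZMod n) a with hA
    change ((A * A : SL2 (ZMod n)) : PSL2 (ZMod n)) = ((1 : SL2 (ZMod n)) : PSL2 (ZMod n))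
    apply mk_eq_of_entries_neg
    · rw [mul_val, one_val00]
      linear_combination -hd + A.1 0 0 * ht
    · rw [mul_val, one_val01]
      linear_combination A.1 0 1 * ht
    · rw [mul_val, one_val10]
      linear_combination A.1 1 0 * ht
    · rw [mul_val, one_val11]
      linear_combination -hd + A.1 1 1 * ht
  · rw [Ne, value_two_eq_one_iff]
    intro h
    unfold relOfTrace at h
    rw [eval_append] at h
    have hd := det_val (eval (ZMod 2) a)
    have ht : (eval (ZMod 2) a).1 0 0 + (eval (ZMod 2) a).1 1 1 = 1 := by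
      rw [eval_cast (ZMod 2) a 0 0, eval_cast (ZMod 2) a 1 1, ← Int.cast_add, htr]
      have h2 : Odd (m * (n : ℤ)) := hm.mul (by exact_mod_cast hn)
      obtain ⟨k, hk⟩ := h2
      rw [hk]
      push_cast
      have : (2 : ZMod 2) = 0 := rfl
      rw [this]
      ring
    set A := eval (ZMod 2) a with hA
    have h01 : (A * A).1 0 1 = 0 := by rw [h]; simp
    have h00 : (A * A).1 0 0 = 1 := by rw [h]; simp
    have h10 : (A * A).1 1 0 = 0 := by rw [h]; simp
    have h11 : (A * A).1 1 1 = 1 := by rw [h]; simp
    simp only [mul_val] at h00 h01 h10 h11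
    have key : ∀ a b c d : ZMod 2, a * d - b * c = 1 → a + d = 1 →
      (a * a + b * c) = 1 →
      (a * b + b * d) = 0 →
      (c * a + d * c) = 0 →
      (c * b + d * d) = 1 → False := by decide
    exact key _ _ _ _ hd ht h00 h01 h10 h11

lemma trivial_entries (r : List Gen) (hr : value n r = 1) :
    ∃ c : ZMod n, (eval (ZMod n) r).1 0 0 = c ∧ (eval (ZMod n) r).1 0 1 = 0 ∧
      (eval (ZMod n) r).1 1 0 = 0 ∧ (eval (ZMod n) r).1 1 1 = c := by
  have h1 : ((1 : SL2 (ZMod n)) : PSL2 (ZMod n)) = ((eval (ZMod n) r : SL2 (ZMod n)) :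
    PSL2 (ZMod n)) := hr.symm
  obtain ⟨c, hc, hcc⟩ := mk_eq_mk_iff.1 h1
  refine ⟨c, ?_, ?_, ?_, ?_⟩
  · rw [hcc, one_val00, mul_one]
  · rw [hcc, one_val01, mul_zero]
  · rw [hcc, one_val10, mul_zero]
  · rw [hcc, one_val11, mul_one]

lemma traceOfSol_spec (hn : Odd n) (w : List Gen) (hw : IsSolution n w) :
    HasOddTrace n (traceOfSol w) := by
  obtain ⟨h1, h2⟩ := relOfSol_spec hn w hw
  obtain ⟨c, c00, c01, c10, c11⟩ := trivial_entries _ h1
  -- the trace is divisible by `n`
  have hdvd : (n : ℤ) ∣ (eval ℤ (traceOfSol w)).1.trace := by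
    rw [← ZMod.intCast_zmod_eq_zero_iff_dvd, trace_val, Int.cast_add, ← eval_cast, ← eval_cast]
    unfold traceOfSol
    split_ifs
    · simp only [eval_append, eval_wWord, eval_cons, eval_nil, Gen.mat, mul_one, mul_val,
        upper_val00, upper_val01, upper_val10, upper_val11, wMat_val00, wMat_val01, wMat_val10,
        wMat_val11, c00, c01, c10, c11]
      ring
    · simp only [eval_append, eval_wWord, mul_val, wMat_val00, wMat_val01, wMat_val10,
        wMat_val11, c00, c01, c10, c11]
      ring
  -- the trace is odd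
  have hodd : Odd (eval ℤ (traceOfSol w)).1.trace := by
    rw [← Int.not_even_iff_odd, even_iff_two_dvd]
    have : ((2 : ℕ) : ℤ) ∣ (eval ℤ (traceOfSol w)).1.trace ↔ (2 : ℤ) ∣
      (eval ℤ (traceOfSol w)).1.trace := by simp
    rw [← this, ← ZMod.intCast_zmod_eq_zero_iff_dvd, trace_val, Int.cast_add, ← eval_cast,
      ← eval_cast]
    have hd := det_val (eval (ZMod 2) w)
    have e2 : eval (ZMod 2) [Ui] = upper (-1) := by simp [Gen.mat]
    have hr : eval (ZMod 2) (relOfSol w)
        = eval (ZMod 2) w * eval (ZMod 2) w * upper (-1) := by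
      unfold relOfSol
      rw [eval_append, eval_append, e2]
    unfold traceOfSol
    split_ifs with hs
    · rw [final_eq_two_iff, hr] at hs
      simp only [mul_val, upper_val00, upper_val01, upper_val10, upper_val11] at hs
      simp only [eval_append, eval_wWord, eval_cons, eval_nil, Gen.mat, mul_one, hr, mul_val,
        upper_val00, upper_val01, upper_val10, upper_val11, wMat_val00, wMat_val01, wMat_val10,
        wMat_val11]
      generalize (eval (ZMod 2) w).1 0 0 = a at *
      generalize (eval (ZMod 2) w).1 0 1 = b at *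
      generalize (eval (ZMod 2) w).1 1 0 = c at *
      generalize (eval (ZMod 2) w).1 1 1 = d at *
      clear c00 c01 c10 c11
      revert a b c d
      decide
    · rw [final_eq_two_iff, hr] at hs
      simp only [mul_val, upper_val00, upper_val01, upper_val10, upper_val11] at hs
      simp only [eval_append, eval_wWord, eval_cons, eval_nil, Gen.mat, mul_one, hr, mul_val,
        upper_val00, upper_val01, upper_val10, upper_val11, wMat_val00, wMat_val01, wMat_val10,
        wMat_val11]
      generalize (eval (ZMod 2) w).1 0 0 = a at *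
      generalize (eval (ZMod 2) w).1 0 1 = b at *
      generalize (eval (ZMod 2) w).1 1 0 = c at *
      generalize (eval (ZMod 2) w).1 1 1 = d at *
      clear c00 c01 c10 c11
      revert a b c d
      decide
  obtain ⟨m, hm⟩ := hdvd
  refine ⟨m, ?_, by rw [hm]; ring⟩
  rw [hm] at hodd
  exact (Int.odd_mul.1 hodd).2

lemma length_relOfSol (w : List Gen) : (relOfSol w).length = 2 * w.length + 1 := by
  simp [relOfSol]; ring

lemma length_relOfTrace (w : List Gen) : (relOfTrace w).length = 2 * w.length := by
  simp [relOfTrace]; ring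

lemma length_traceOfSol (w : List Gen) : (traceOfSol w).length ≤ 2 * w.length + 6 := by
  unfold traceOfSol
  split_ifs
  · simp [wWord, length_relOfSol]
  · simp [wWord, length_relOfSol]

end

end Run7.h166
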