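import Pool.Agent.Run7.h166.GM.Forms

/-!
# Every sequence of linear forms is a union of 44 chains of solvable equations

Let `A_i x + B_i`, `i` in a set `S` of natural numbers, be pairwise non-proportional linear forms, any
45 of which have no common fixed prime divisor. Then `S` can be coloured with 44 colours such that for
any two consecutive elements `i < j` of a colour class the equation
`A_j p - A_i q = A_j B_i - A_i B_j` has infinitely many solutions in primes; more precisely for every
`ε > 0` and arbitrarily large `x` at least `x ^ (1 - ε)` integers `n ≤ x` give the solution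
`p = A_i n + B_i`, `q = A_j n + B_j`.

For example (`A_i = i`, `B_i = 1`) the set of ALL positive integers is a union of 44 sequences such
that for any two successive members `a < b` of a sequence the equation `b p - a q = b - a`, that is
`(q - 1) / (p - 1) = b / a`, has infinitely many solutions in primes; after division by `gcd (a, b)`
this is an equation of the kind considered in the question. The conjecture says that one sequence is
enough, in any order.

Proof. By `DHL[45,2]` for linear forms (starting files, `Pool.Agent.Y826.ZG.dhl45L`) among any 45 of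
the forms there are two which are simultaneously prime that often. By the theorem of Gallai and Milgram,
for finite acyclic digraphs a consequence of Hall's theorem, a finite part of `S` is covered by 44
directed paths of the digraph of these pairs; infinite `S` follow by compactness.
-/

open Filter

namespace Pool.Agent.Run7.h166.OldChainsOfForms

/-- **44 chains of solvable equations.** -/
theorem result (A B : ℕ → ℕ) (S : Set ℕ) (hA : ∀ i ∈ S, 1 ≤ A i)
    (hne : ∀ i ∈ S, ∀ j ∈ S, i ≠ j → A i * B j ≠ A j * B i)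
    (hadm : ∀ I : Finset ℕ, (I : Set ℕ) ⊆ S → I.card = 45 →
      ∀ p : ℕ, p.Prime → ∃ a : ℕ, ∀ i ∈ I, ¬ p ∣ A i * a + B i) :
    ∃ f : ℕ → Fin 44, ∀ i ∈ S, ∀ j ∈ S, i < j → f i = f j →
      (∀ l ∈ S, i < l → l < j → f l ≠ f i) →
      ∀ ε : ℝ, 0 < ε → ∃ᶠ x : ℝ in atTop,
        x ^ (1 - ε) ≤ (Set.ncard {n : ℕ | (n : ℝ) ≤ x ∧ ∃ p q : ℕ, p.Prime ∧ q.Prime ∧
          p = A i * n + B i ∧ q = A j * n + B j ∧
          (A j : ℤ) * p - (A i : ℤ) * q = (A j : ℤ) * B i - (A i : ℤ) * B j} : ℝ) := by
  obtain ⟨f, hf⟩ := Run7.h166.GM.chains_forms A B S ⟨hA, hne, hadm⟩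
  refine ⟨f, fun i hi j hj hij hfij hno ε hε => ?_⟩
  refine (hf i hi j hj hij hfij hno ε hε).mono ?_
  intro x hx
  refine hx.trans ?_
  have hfin : {n : ℕ | (n : ℝ) ≤ x ∧ ∃ p q : ℕ, p.Prime ∧ q.Prime ∧
      p = A i * n + B i ∧ q = A j * n + B j ∧
      (A j : ℤ) * p - (A i : ℤ) * q = (A j : ℤ) * B i - (A i : ℤ) * B j}.Finite := by
    apply (Set.finite_Iic ⌊x⌋₊).subset
    rintro n ⟨hn, -⟩
    exact Nat.le_floor hn
  have hsub : ((Run7.h166.GM.bothSet A B i j x : Finset ℕ) : Set ℕ) ⊆
      {n : ℕ | (n : ℝ) ≤ x ∧ ∃ p q : ℕ, p.Prime ∧ q.Prime ∧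
      p = A i * n + B i ∧ q = A j * n + B j ∧
      (A j : ℤ) * p - (A i : ℤ) * q = (A j : ℤ) * B i - (A i : ℤ) * B j} := by
    intro n hn
    have h1 := Finset.mem_filter.1 (Finset.mem_coe.1 hn)
    have h2 := Finset.mem_Icc.1 h1.1
    refine ⟨(Nat.le_floor_iff' (by omega)).1 h2.2, A i * n + B i, A j * n + B j, h1.2.1, h1.2.2,
      rfl, rfl, ?_⟩
    push_cast
    ring
  have h3 := Set.ncard_le_ncard hsub hfin
  rw [Set.ncard_coe_finset] at h3
  exact_mod_cast h3

end Pool.Agent.Run7.h166.OldChainsOfForms
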