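import Pool.Agent.Run7.h166.Count

/-!
From good triples of lists to good pairs `(s, r)`.
-/

namespace Run7.h166

open Matrix Finset Gen

/-- The pairs `(s, r)` below `p ^ 3` for which the candidate word is a solution. -/
def goodPairs (L p : ℕ) : Set (ℕ × ℕ) :=
  {x | x.1 < p ^ 3 ∧ x.2 < p ^ 3 ∧ IsSolution p (candidate L p x.1 x.2)}

lemma goodPairs_finite (L p : ℕ) : (goodPairs L p).Finite := by
  apply Set.Finite.subset (Finset.finite_toSet ((Finset.range (p ^ 3)) ×ˢ (Finset.range (p ^ 3))))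
  intro x hx
  rw [Finset.mem_coe, Finset.mem_product, Finset.mem_range, Finset.mem_range]
  exact ⟨hx.1, hx.2.1⟩

/-- The pair of a vector. -/
def pairOf (p : ℕ) (v : ℕ × ℕ) : ℕ × ℕ := (((2 * v.1 - 1) / p - 1) / 2, v.2 / p - 1)

section

variable {p : ℕ} [Fact p.Prime]

lemma pairOf_spec (hp : Odd p) (l : List (ℕ × ℕ)) (hl : PosL l) (hcl : cl p l = v0 p) :
    (p * (2 * (pairOf p (col l)).1 + 1) + 1) / 2 = (col l).1 ∧
      p * (2 * (pairOf p (col l)).1 + 1) + 1 = 2 * (col l).1 ∧
      p * ((pairOf p (col l)).2 + 1) = (col l).2 := by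
  have hpp : p.Prime := Fact.out
  have hp0 : 0 < p := hpp.pos
  obtain ⟨a1, a2⟩ := col_lt hl
  have h1 := congrArg Prod.fst hcl
  have h2 := congrArg Prod.snd hcl
  unfold cl v0 at h1 h2
  simp only at h1 h2
  -- the first coordinate
  have hd1 : p ∣ 2 * (col l).1 - 1 := by
    have hh := two_mul_half hp
    have h3 : ((2 * (col l).1 - 1 : ℕ) : ZMod p) = 0 := by
      rw [Nat.cast_sub (by omega)]
      push_cast
      rw [h1]
      rw [hh]
      ring
    exact (ZMod.natCast_eq_zero_iff _ _).1 h3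
  obtain ⟨m, hm⟩ := hd1
  have hmodd : Odd m := by
    have : Odd (p * m) := by
      rw [← hm]
      exact ⟨(col l).1 - 1, by omega⟩
    exact (Nat.odd_mul.1 this).2
  obtain ⟨s, hs⟩ := hmodd
  have hs' : (pairOf p (col l)).1 = s := by
    unfold pairOf
    simp only
    rw [hm, Nat.mul_div_cancel_left _ hp0, hs]
    omega
  -- the second coordinate
  have hd2 : p ∣ (col l).2 := (ZMod.natCast_eq_zero_iff _ _).1 h2
  obtain ⟨k, hk⟩ := hd2
  have hC : (col l).2 ≠ 0 := by
    intro h0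
    have hdet := det_nat l
    rw [h0, mul_zero, zero_add] at hdet
    have hA : (col l).1 = 1 := Nat.eq_one_of_mul_eq_one_right hdet
    rw [hA] at hm
    have : p * m = 1 := by omega
    have := Nat.eq_one_of_mul_eq_one_right this
    exact hpp.one_lt.ne' this
  have hk0 : k ≠ 0 := by
    rintro rfl
    exact hC (by rw [hk]; simp)
  have hr' : (pairOf p (col l)).2 = k - 1 := by
    unfold pairOf
    simp only
    rw [hk, Nat.mul_div_cancel_left _ hp0]
  rw [hs', hr']
  have h5 : p * (2 * s + 1) + 1 = 2 * (col l).1 := by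
    rw [← hs, ← hm]
    omega
  refine ⟨?_, h5, ?_⟩
  · rw [h5]; omega
  · rw [hk]
    congr 1
    omega

/-- Good triples give good pairs. -/
theorem card_goodTriples_le (hp : Odd p) (M X1 X2 X3 L : ℕ) (hX1 : 1 ≤ X1) (hX2 : 1 ≤ X2)
    (hX3 : 1 ≤ X3) (hX : 4 * (X1 * X2 * X3) ≤ p ^ 4)
    (hL : 2 * M * (Nat.log 2 X1 + Nat.log 2 X2 + Nat.log 2 X3 + 3) ≤ L) :
    (goodTriples p M X1 X2 X3).card
      ≤ (Nat.log 2 X1 + 2) * (Nat.log 2 X2 + 2) * (goodPairs L p).ncard := by
  have hpp : p.Prime := Fact.out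
  have hp0 : 0 < p := hpp.pos
  set f : List (ℕ × ℕ) × List (ℕ × ℕ) × List (ℕ × ℕ) → ℕ × ℕ :=
    fun t => pairOf p (col (t.1 ++ (t.2.1 ++ t.2.2))) with hf
  have hmem : ∀ t ∈ goodTriples p M X1 X2 X3, t.1 ∈ nset M X1 ∧ t.2.1 ∈ nset M X2 ∧
      t.2.2 ∈ nset M X3 ∧ cl p (t.1 ++ (t.2.1 ++ t.2.2)) = v0 p := by
    intro t ht
    unfold goodTriples at ht
    rw [Finset.mem_filter, Finset.mem_product, Finset.mem_product] at ht
    exact ⟨ht.1.1, ht.1.2.1, ht.1.2.2, ht.2⟩
  have hpos : ∀ t ∈ goodTriples p M X1 X2 X3, PosL (t.1 ++ (t.2.1 ++ t.2.2)) := by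
    intro t ht
    obtain ⟨m1, m2, m3, -⟩ := hmem t ht
    exact (nset_posL hX1 m1).append ((nset_posL hX2 m2).append (nset_posL hX3 m3))
  have himage : ((goodTriples p M X1 X2 X3).image f).card ≤ (goodPairs L p).ncard := by
    rw [← Set.ncard_coe_finset]
    apply Set.ncard_le_ncard _ (goodPairs_finite L p)
    intro x hx
    rw [Finset.mem_coe, Finset.mem_image] at hx
    obtain ⟨t, ht, rfl⟩ := hx
    obtain ⟨m1, m2, m3, hcl⟩ := hmem t ht
    set l := t.1 ++ (t.2.1 ++ t.2.2) with hl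
    obtain ⟨e1, e2, e3⟩ := pairOf_spec hp l (hpos t ht) hcl
    obtain ⟨a1, a2⟩ : 1 ≤ (col l).1 ∧ (col l).2 < (col l).1 := col_lt (hpos t ht)
    obtain ⟨q1, b1, c1⟩ := nset_spec M X1 hX1 _ m1
    obtain ⟨q2, b2, c2⟩ := nset_spec M X2 hX2 _ m2
    obtain ⟨q3, b3, c3⟩ := nset_spec M X3 hX3 _ m3
    have hA : (col l).1 ≤ p ^ 4 := by
      have h1 := col_append_le (nset_posL hX1 m1) ((nset_posL hX2 m2).append (nset_posL hX3 m3))
      have h2 := col_append_le (nset_posL hX2 m2) (nset_posL hX3 m3)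
      calc (col l).1 ≤ 2 * (col t.1).1 * (col (t.2.1 ++ t.2.2)).1 := h1
        _ ≤ 2 * X1 * (2 * X2 * X3) := by
            apply Nat.mul_le_mul (Nat.mul_le_mul_left 2 b1)
            exact h2.trans (Nat.mul_le_mul (Nat.mul_le_mul_left 2 b2) b3)
        _ = 4 * (X1 * X2 * X3) := by ring
        _ ≤ _ := hX
    have hft : f t = pairOf p (col l) := rfl
    rw [hft]
    refine ⟨?_, ?_, ?_⟩
    · have h1 : p * (2 * (pairOf p (col l)).1 + 1) < p * (2 * p ^ 3) := by
        have : p * (2 * p ^ 3) = 2 * p ^ 4 := by ring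
        rw [this]
        omega
      have h2 := Nat.lt_of_mul_lt_mul_left h1
      omega
    · have h1 : p * ((pairOf p (col l)).2 + 1) < p * p ^ 3 := by
        have : p * p ^ 3 = p ^ 4 := by ring
        rw [this, e3]
        omega
      have h2 := Nat.lt_of_mul_lt_mul_left h1
      omega
    · have hlen : (qword l).length ≤ L := by
        have hM : ∀ ab ∈ l, ab.1 ≤ M ∧ ab.2 ≤ M := by
          intro ab hab
          rw [hl, List.mem_append, List.mem_append] at hab
          rcases hab with hab | hab | hab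
          · exact ⟨(q1 ab hab).1.2, (q1 ab hab).2.2⟩
          · exact ⟨(q2 ab hab).1.2, (q2 ab hab).2.2⟩
          · exact ⟨(q3 ab hab).1.2, (q3 ab hab).2.2⟩
        refine (length_qword l M hM).trans (le_trans ?_ hL)
        apply Nat.mul_le_mul_left
        rw [hl, List.length_append, List.length_append]
        omega
      obtain ⟨n, hn⟩ := Nat.exists_eq_add_of_le hlen
      have hw : euclid L (col l).1 (col l).2 = qword l := by
        rw [hn, add_comm]
        exact euclid_qword l (hpos t ht) n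
      unfold candidate
      rw [e1, e3, hw]
      obtain ⟨g1, g2, -, -⟩ := eval_qword_entries (R := ZMod p) l
      have k1 := congrArg Prod.fst hcl
      have k2 := congrArg Prod.snd hcl
      unfold cl v0 at k1 k2
      simp only at k1 k2
      apply isSolution_conj hp
      · rw [g1, k1]
        exact two_mul_half hp
      · rw [g2, k2]
  have hfib : ∀ a ∈ (goodTriples p M X1 X2 X3).image f,
      ((goodTriples p M X1 X2 X3).filter (fun t => f t = a)).card
        ≤ (Nat.log 2 X1 + 2) * (Nat.log 2 X2 + 2) := by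
    intro a _
    have hcard : ((Finset.range (Nat.log 2 X1 + 2)) ×ˢ (Finset.range (Nat.log 2 X2 + 2))).card
        = (Nat.log 2 X1 + 2) * (Nat.log 2 X2 + 2) := by
      rw [Finset.card_product, Finset.card_range, Finset.card_range]
    rw [← hcard]
    apply Finset.card_le_card_of_injOn (fun t => (t.1.length, t.2.1.length))
    · intro t ht
      rw [Finset.mem_coe, Finset.mem_filter] at ht
      obtain ⟨m1, m2, m3, -⟩ := hmem t ht.1
      obtain ⟨-, -, c1⟩ := nset_spec M X1 hX1 _ m1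
      obtain ⟨-, -, c2⟩ := nset_spec M X2 hX2 _ m2
      simp only [Finset.coe_product, Finset.coe_range, Set.mem_prod, Set.mem_Iio]
      omega
    · intro t ht t' ht' heq
      rw [Finset.mem_coe, Finset.mem_filter] at ht ht'
      simp only [Prod.mk.injEq] at heq
      obtain ⟨-, -, -, hcl⟩ := hmem t ht.1
      obtain ⟨-, -, -, hcl'⟩ := hmem t' ht'.1
      have P := hpos t ht.1
      have P' := hpos t' ht'.1
      obtain ⟨-, e2, e3⟩ := pairOf_spec hp _ P hcl
      obtain ⟨-, e2', e3'⟩ := pairOf_spec hp _ P' hcl'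
      have hff : pairOf p (col (t.1 ++ (t.2.1 ++ t.2.2)))
        = pairOf p (col (t'.1 ++ (t'.2.1 ++ t'.2.2))) := ht.2.trans ht'.2.symm
      rw [hff] at e2 e3
      have h1 : (col (t.1 ++ (t.2.1 ++ t.2.2))).1 = (col (t'.1 ++ (t'.2.1 ++ t'.2.2))).1 := by
        omega
      have h2 : (col (t.1 ++ (t.2.1 ++ t.2.2))).2 = (col (t'.1 ++ (t'.2.1 ++ t'.2.2))).2 := by
        rw [← e3, ← e3']
      have h3 := col_injective P P' (Prod.ext h1 h2)
      have h4 := List.append_inj h3 heq.1
      have h5 := List.append_inj h4.2 heq.2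
      exact Prod.ext h4.1 (Prod.ext h5.1 h5.2)
  calc _ ≤ (Nat.log 2 X1 + 2) * (Nat.log 2 X2 + 2) * ((goodTriples p M X1 X2 X3).image f).card :=
        Finset.card_le_mul_card_image _ _ hfib
    _ ≤ _ := Nat.mul_le_mul_left _ himage

end

end Run7.h166
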