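import Pool.Agent.Run7.h166.Triples
import Pool.Agent.Run7.h166.Density

/-!
The parameters of the uniform version.
-/

namespace Run7.h166

open Matrix Finset Gen

/-- The constant in the lower bound for `nset2`. -/
noncomputable def c2 (M : ℕ) : ℝ := Real.exp (-2) / 2 / ((M : ℝ) + 1) ^ 4

lemma c2_pos (M : ℕ) : 0 < c2 M := by unfold c2; positivity

lemma lam_nonneg (M : ℕ) : 0 ≤ lam M := by
  unfold lam
  apply div_nonneg _ (by positivity)
  apply Real.log_nonneg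
  have : (0 : ℝ) ≤ M := by positivity
  linarith

/-- The parameters. -/
lemma exists_params2 (p M B : ℕ) (hp : p.Prime) (y : ℝ) (hy90 : y ^ 90 = p) (hy2 : 2 ≤ y)
    (hM : 2 ≤ M) (hlam : lam M ≤ 1 / 2880) (hK1 : 14256 / c2 M ≤ y)
    (hK2 : 1024 * ((M : ℝ) + 2) / c2 M ^ 3 ≤ y)
    (hB : (M : ℝ) * (3 + 4 * Real.log ((M : ℝ) + 1) + 24 * lam M * (4 * Real.log p)) ≤ B) :
    ∃ X1 X2 X3 T : ℕ, 1 ≤ X1 ∧ 1 ≤ X2 ∧ 1 ≤ X3 ∧ X3 < p ∧ 4 * (X1 * X2 * X3) ≤ p ^ 4 ∧
      672 * ((X2 / p) ^ 2 * X2 ^ 2) < (T + 1) ^ 3 ∧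
      (2 * (X2 / p) + 1) ^ 4 * (2 * (X2 + 1) * (T + (X2 / p) ^ 2)) ≤ (nset2 M X2 B).card ∧
      16 * (p : ℝ) ^ 6 * (((M : ℝ) + 2) * ((X1 / p : ℕ) + 1) ^ 2)
        ≤ ((nset2 M X1 B).card : ℝ) * ((nset2 M X2 B).card : ℝ) * ((nset2 M X3 B).card : ℝ) ∧
      c2 M ^ 3 * (((p : ℝ) ^ 4 / 16) ^ 2 / Real.exp (96 * lam M * Real.log p))
        ≤ ((nset2 M X1 B).card : ℝ) * ((nset2 M X2 B).card : ℝ) * ((nset2 M X3 B).card : ℝ) := by
  have hy0 : (0 : ℝ) < y := by linarith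
  have hy1 : (1 : ℝ) ≤ y := by linarith
  have hc := c2_pos M
  have hp1 : 1 ≤ p := hp.one_lt.le
  have hp2 : 2 ≤ p := hp.two_le
  have hpR : (0 : ℝ) < p := by exact_mod_cast hp.pos
  have hl0 := lam_nonneg M
  have hpow2 : ∀ k : ℕ, 1 ≤ k → (2 : ℝ) ≤ y ^ k := by
    intro k hk
    calc (2 : ℝ) ≤ y := hy2
      _ = y ^ 1 := (pow_one y).symm
      _ ≤ y ^ k := pow_le_pow_right₀ hy1 hk
  have hpow1 : ∀ k : ℕ, (1 : ℝ) ≤ y ^ k := fun k => one_le_pow₀ hy1
  -- the parameter X2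
  set X2 : ℕ := ⌊y ^ 93⌋₊ with hX2def
  have hX2le : (X2 : ℝ) ≤ y ^ 93 := Nat.floor_le (by positivity)
  have hX2ge : y ^ 93 / 2 ≤ (X2 : ℝ) := by
    have h1 : y ^ 93 < (X2 : ℝ) + 1 := Nat.lt_floor_add_one _
    have h2 := hpow2 93 (by norm_num)
    linarith
  have hX2one : 1 ≤ X2 := by
    have h2 := hpow2 93 (by norm_num)
    have : (1 : ℝ) ≤ X2 := by linarith
    exact_mod_cast this
  have hX2pos : (0 : ℝ) < X2 := by exact_mod_cast hX2one
  -- the parameter X1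
  set X1 : ℕ := p ^ 3 / (4 * X2) with hX1def
  have hp3 : (p : ℝ) ^ 3 = y ^ 270 := by rw [← hy90, ← pow_mul]
  have hp4 : (p : ℝ) ^ 4 = y ^ 360 := by rw [← hy90, ← pow_mul]
  have hX1le : X1 * (4 * X2) ≤ p ^ 3 := Nat.div_mul_le_self _ _
  have hX1leR : (X1 : ℝ) * (4 * X2) ≤ (p : ℝ) ^ 3 := by exact_mod_cast hX1le
  have hX1geR : (p : ℝ) ^ 3 ≤ (X1 : ℝ) * (8 * X2) := by
    have h1 : p ^ 3 < (X1 + 1) * (4 * X2) := by
      rw [hX1def]
      have := Nat.lt_mul_div_succ (p ^ 3) (show 0 < 4 * X2 by omega)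
      rw [mul_comm]
      exact this
    have h1R : (p : ℝ) ^ 3 < ((X1 : ℝ) + 1) * (4 * X2) := by exact_mod_cast h1
    have h2 : 8 * (X2 : ℝ) ≤ (p : ℝ) ^ 3 := by
      rw [hp3]
      calc 8 * (X2 : ℝ) ≤ y ^ 3 * y ^ 93 := by
            apply mul_le_mul _ hX2le (by positivity) (by positivity)
            calc (8 : ℝ) = 2 ^ 3 := by norm_num
              _ ≤ y ^ 3 := pow_le_pow_left₀ (by norm_num) hy2 3
        _ = y ^ 96 := by ring
        _ ≤ y ^ 270 := pow_le_pow_right₀ hy1 (by norm_num)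
    nlinarith
  have hX1gep : (p : ℝ) ≤ X1 := by
    have h1 : (p : ℝ) * (8 * X2) ≤ (p : ℝ) ^ 3 := by
      rw [hp3]
      calc (p : ℝ) * (8 * X2) ≤ y ^ 90 * (y ^ 3 * y ^ 93) := by
            rw [hy90]
            apply mul_le_mul_of_nonneg_left _ hpR.le
            apply mul_le_mul _ hX2le (by positivity) (by positivity)
            calc (8 : ℝ) = 2 ^ 3 := by norm_num
              _ ≤ y ^ 3 := pow_le_pow_left₀ (by norm_num) hy2 3
        _ = y ^ 186 := by ring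
        _ ≤ y ^ 270 := pow_le_pow_right₀ hy1 (by norm_num)
    have h2 := h1.trans hX1geR
    have h3 : (0 : ℝ) < 8 * X2 := by positivity
    exact le_of_mul_le_mul_right h2 h3
  have hX1pos : (0 : ℝ) < X1 := by linarith
  have hX1one : 1 ≤ X1 := by exact_mod_cast (Nat.cast_pos.1 hX1pos)
  -- the parameter X3
  set X3 : ℕ := p - 1 with hX3def
  have hX3one : 1 ≤ X3 := by omega
  have hX3lt : X3 < p := by omega
  have hX3ge : (p : ℝ) / 2 ≤ (X3 : ℝ) := by
    have : (X3 : ℝ) = p - 1 := by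
      rw [hX3def, Nat.cast_sub hp1, Nat.cast_one]
    rw [this]
    have : (2 : ℝ) ≤ p := by exact_mod_cast hp2
    linarith
  have hX3pos : (0 : ℝ) < X3 := by exact_mod_cast hX3one
  -- the parameter T
  set T : ℕ := ⌈9 * y ^ 64⌉₊ with hTdef
  have hTge : 9 * y ^ 64 ≤ (T : ℝ) := Nat.le_ceil _
  have hTle : (T : ℝ) ≤ 10 * y ^ 64 := by
    have h1 : (T : ℝ) < 9 * y ^ 64 + 1 := Nat.ceil_lt_add_one (by positivity)
    have h2 := hpow1 64
    linarith
  -- the quotient R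
  set R : ℕ := X2 / p with hRdef
  have hRle : (R : ℝ) ≤ y ^ 3 := by
    have h1 : (R : ℝ) ≤ (X2 : ℝ) / p := Nat.cast_div_le
    have h2 : (X2 : ℝ) / p ≤ y ^ 3 := by
      rw [div_le_iff₀ hpR, ← hy90]
      calc (X2 : ℝ) ≤ y ^ 93 := hX2le
        _ = y ^ 3 * y ^ 90 := by ring
    exact h1.trans h2
  have hR0 : (0 : ℝ) ≤ R := by positivity
  -- the product
  have hprod : 4 * (X1 * X2 * X3) ≤ p ^ 4 := by
    calc 4 * (X1 * X2 * X3) = X1 * (4 * X2) * X3 := by ring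
      _ ≤ p ^ 3 * p := Nat.mul_le_mul hX1le hX3lt.le
      _ = p ^ 4 := by ring
  have hprodR : (X1 : ℝ) * X2 * X3 ≤ (p : ℝ) ^ 4 := by
    have : X1 * X2 * X3 ≤ p ^ 4 := by omega
    exact_mod_cast this
  have hprodge : (p : ℝ) ^ 4 / 16 ≤ (X1 : ℝ) * X2 * X3 := by
    calc (p : ℝ) ^ 4 / 16 = ((p : ℝ) ^ 3 / 8) * (p / 2) := by ring
      _ ≤ ((X1 : ℝ) * X2) * X3 := by
        apply mul_le_mul _ hX3ge (by positivity) (by positivity)
        linarith
  have g1 : (1 : ℝ) ≤ X1 := by exact_mod_cast hX1one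
  have g2 : (1 : ℝ) ≤ X2 := by exact_mod_cast hX2one
  have g3 : (1 : ℝ) ≤ X3 := by exact_mod_cast hX3one
  have hlogp4 : Real.log ((p : ℝ) ^ 4) = 4 * Real.log p := by
    rw [Real.log_pow]; push_cast; ring
  have hlogX1 : Real.log X1 ≤ 4 * Real.log p := by
    rw [← hlogp4]
    apply Real.log_le_log hX1pos
    refine le_trans ?_ hprodR
    calc (X1 : ℝ) = X1 * 1 * 1 := by ring
      _ ≤ (X1 : ℝ) * X2 * X3 := by gcongr
  have hlogX2 : Real.log X2 ≤ 4 * Real.log p := by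
    rw [← hlogp4]
    apply Real.log_le_log hX2pos
    refine le_trans ?_ hprodR
    calc (X2 : ℝ) = 1 * X2 * 1 := by ring
      _ ≤ (X1 : ℝ) * X2 * X3 := by gcongr
  have hlogX3 : Real.log X3 ≤ 4 * Real.log p := by
    rw [← hlogp4]
    apply Real.log_le_log hX3pos
    refine le_trans ?_ hprodR
    calc (X3 : ℝ) = 1 * 1 * X3 := by ring
      _ ≤ (X1 : ℝ) * X2 * X3 := by gcongr
  have hlogp0 : 0 ≤ Real.log p := Real.log_nonneg (by exact_mod_cast hp1)
  -- small powers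
  have hsmall : Real.exp (96 * lam M * Real.log p) ≤ y ^ 3 := by
    have h1 : Real.log p = 90 * Real.log y := by
      rw [← hy90, Real.log_pow]; push_cast; ring
    have h2 : 0 ≤ Real.log y := Real.log_nonneg hy1
    calc Real.exp (96 * lam M * Real.log p) ≤ Real.exp (3 * Real.log y) := by
          apply Real.exp_le_exp.2
          rw [h1]
          have h3 : 96 * lam M * (90 * Real.log y) = (8640 * lam M) * Real.log y := by ring
          rw [h3]
          apply mul_le_mul_of_nonneg_right _ h2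
          linarith
      _ = y ^ 3 := by
          have : 3 * Real.log y = Real.log (y ^ 3) := by
            rw [Real.log_pow]; push_cast; ring
          rw [this, Real.exp_log (by positivity)]
  -- lower bounds
  have hBi : ∀ X : ℕ, Real.log X ≤ 4 * Real.log p →
      (M : ℝ) * (3 + 4 * Real.log ((M : ℝ) + 1) + 24 * lam M * Real.log X) ≤ B := by
    intro X hX
    refine le_trans ?_ hB
    gcongr
  have hl8 : lam M ≤ 1 / 8 := by linarith
  have hn1 := card_nset2_ge M X1 B hM hX1one hl8 (hBi X1 hlogX1)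
  have hn2 := card_nset2_ge M X2 B hM hX2one hl8 (hBi X2 hlogX2)
  have hn3 := card_nset2_ge M X3 B hM hX3one hl8 (hBi X3 hlogX3)
  have hnprod : c2 M ^ 3 * (((X1 : ℝ) * X2 * X3) ^ 2 / Real.exp (96 * lam M * Real.log p))
      ≤ ((nset2 M X1 B).card : ℝ) * ((nset2 M X2 B).card : ℝ) * ((nset2 M X3 B).card : ℝ) := by
    have h1 : (c2 M * ((X1 : ℝ) ^ 2 * Real.exp (-(24 * lam M * Real.log X1)))) *
        (c2 M * ((X2 : ℝ) ^ 2 * Real.exp (-(24 * lam M * Real.log X2)))) *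
        (c2 M * ((X3 : ℝ) ^ 2 * Real.exp (-(24 * lam M * Real.log X3))))
        ≤ ((nset2 M X1 B).card : ℝ) * ((nset2 M X2 B).card : ℝ) * ((nset2 M X3 B).card : ℝ) := by
      have e1 : 0 ≤ c2 M * ((X1 : ℝ) ^ 2 * Real.exp (-(24 * lam M * Real.log X1))) := by
        positivity
      have e2 : 0 ≤ c2 M * ((X2 : ℝ) ^ 2 * Real.exp (-(24 * lam M * Real.log X2))) := by
        positivity
      have e3 : 0 ≤ c2 M * ((X3 : ℝ) ^ 2 * Real.exp (-(24 * lam M * Real.log X3))) := by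
        positivity
      exact mul_le_mul (mul_le_mul hn1 hn2 e2 (by positivity)) hn3 e3 (by positivity)
    refine le_trans ?_ h1
    have h2 : (c2 M * ((X1 : ℝ) ^ 2 * Real.exp (-(24 * lam M * Real.log X1)))) *
        (c2 M * ((X2 : ℝ) ^ 2 * Real.exp (-(24 * lam M * Real.log X2)))) *
        (c2 M * ((X3 : ℝ) ^ 2 * Real.exp (-(24 * lam M * Real.log X3))))
        = c2 M ^ 3 * (((X1 : ℝ) * X2 * X3) ^ 2 *
          Real.exp (-(24 * lam M * Real.log ((X1 : ℝ) * X2 * X3)))) := by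
      rw [Real.log_mul (by positivity) (by positivity), Real.log_mul (by positivity)
        (by positivity)]
      have : Real.exp (-(24 * lam M * (Real.log X1 + Real.log X2 + Real.log X3)))
          = Real.exp (-(24 * lam M * Real.log X1)) * Real.exp (-(24 * lam M * Real.log X2)) *
            Real.exp (-(24 * lam M * Real.log X3)) := by
        rw [← Real.exp_add, ← Real.exp_add]
        congr 1
        ring
      rw [this]
      ring
    rw [h2]
    apply mul_le_mul_of_nonneg_left _ (by positivity)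
    rw [div_eq_mul_inv, ← Real.exp_neg]
    apply mul_le_mul_of_nonneg_left _ (by positivity)
    apply Real.exp_le_exp.2
    have h3 : Real.log ((X1 : ℝ) * X2 * X3) ≤ 4 * Real.log p := by
      rw [← hlogp4]
      exact Real.log_le_log (by positivity) hprodR
    have h4 : 24 * lam M * Real.log ((X1 : ℝ) * X2 * X3) ≤ 24 * lam M * (4 * Real.log p) :=
      mul_le_mul_of_nonneg_left h3 (by positivity)
    linarith
  refine ⟨X1, X2, X3, T, hX1one, hX2one, hX3one, hX3lt, hprod, ?_, ?_, ?_, ?_⟩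
  · -- the condition on T
    have h1 : (672 * ((R : ℝ) ^ 2 * (X2 : ℝ) ^ 2)) < ((T : ℝ) + 1) ^ 3 := by
      have e1 : (R : ℝ) ^ 2 ≤ (y ^ 3) ^ 2 := pow_le_pow_left₀ hR0 hRle 2
      have e2 : (X2 : ℝ) ^ 2 ≤ (y ^ 93) ^ 2 := pow_le_pow_left₀ hX2pos.le hX2le 2
      have e3 : (R : ℝ) ^ 2 * (X2 : ℝ) ^ 2 ≤ (y ^ 3) ^ 2 * (y ^ 93) ^ 2 :=
        mul_le_mul e1 e2 (by positivity) (by positivity)
      have e4 : (9 * y ^ 64) ^ 3 < ((T : ℝ) + 1) ^ 3 := by
        apply pow_lt_pow_left₀ (by linarith) (by positivity) (by norm_num)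
      have e5 : (0 : ℝ) < y ^ 192 := by positivity
      calc 672 * ((R : ℝ) ^ 2 * (X2 : ℝ) ^ 2) ≤ 672 * ((y ^ 3) ^ 2 * (y ^ 93) ^ 2) := by
            linarith
        _ = 672 * y ^ 192 := by ring
        _ ≤ 729 * y ^ 192 := by linarith
        _ = (9 * y ^ 64) ^ 3 := by ring
        _ < _ := e4
    exact_mod_cast h1
  · -- the condition on collisions
    have h1 : (2 * (R : ℝ) + 1) ^ 4 * (2 * ((X2 : ℝ) + 1) * ((T : ℝ) + (R : ℝ) ^ 2))
        ≤ ((nset2 M X2 B).card : ℝ) := by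
      have e1 : 2 * (R : ℝ) + 1 ≤ 3 * y ^ 3 := by
        have := hpow1 3
        linarith
      have e2 : (2 * (R : ℝ) + 1) ^ 4 ≤ (3 * y ^ 3) ^ 4 := pow_le_pow_left₀ (by positivity) e1 4
      have e3 : 2 * ((X2 : ℝ) + 1) ≤ 4 * y ^ 93 := by
        have := hpow1 93
        linarith
      have e4 : (T : ℝ) + (R : ℝ) ^ 2 ≤ 11 * y ^ 64 := by
        have f1 : (R : ℝ) ^ 2 ≤ (y ^ 3) ^ 2 := pow_le_pow_left₀ hR0 hRle 2
        have f2 : (y ^ 3) ^ 2 ≤ y ^ 64 := by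
          rw [← pow_mul]
          exact pow_le_pow_right₀ hy1 (by norm_num)
        linarith
      have e5 : 2 * ((X2 : ℝ) + 1) * ((T : ℝ) + (R : ℝ) ^ 2) ≤ (4 * y ^ 93) * (11 * y ^ 64) :=
        mul_le_mul e3 e4 (by positivity) (by positivity)
      have e6 : (2 * (R : ℝ) + 1) ^ 4 * (2 * ((X2 : ℝ) + 1) * ((T : ℝ) + (R : ℝ) ^ 2))
          ≤ (3 * y ^ 3) ^ 4 * ((4 * y ^ 93) * (11 * y ^ 64)) :=
        mul_le_mul e2 e5 (by positivity) (by positivity)
      have e7 : (y ^ 3)⁻¹ ≤ Real.exp (-(24 * lam M * Real.log X2)) := by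
        rw [Real.exp_neg]
        apply inv_anti₀ (Real.exp_pos _)
        refine le_trans ?_ hsmall
        apply Real.exp_le_exp.2
        have : 24 * lam M * Real.log X2 ≤ 24 * lam M * (4 * Real.log p) :=
          mul_le_mul_of_nonneg_left hlogX2 (by positivity)
        linarith
      have e8 : c2 M * ((y ^ 93 / 2) ^ 2 * (y ^ 3)⁻¹)
          ≤ c2 M * ((X2 : ℝ) ^ 2 * Real.exp (-(24 * lam M * Real.log X2))) := by
        gcongr
      have e9 : 3564 * y ^ 169 ≤ c2 M * ((y ^ 93 / 2) ^ 2 * (y ^ 3)⁻¹) := by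
        rw [← div_eq_mul_inv, ← mul_div_assoc, le_div_iff₀ (by positivity)]
        have f1 : 14256 ≤ c2 M * y := by
          rw [div_le_iff₀ hc] at hK1
          linarith
        have f2 : y ≤ y ^ 14 := by
          calc y = y ^ 1 := (pow_one y).symm
            _ ≤ y ^ 14 := pow_le_pow_right₀ hy1 (by norm_num)
        have f3 : 14256 ≤ c2 M * y ^ 14 := by
          refine f1.trans (mul_le_mul_of_nonneg_left f2 hc.le)
        calc 3564 * y ^ 169 * y ^ 3 = 14256 * (y ^ 172 / 4) := by ring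
          _ ≤ (c2 M * y ^ 14) * (y ^ 172 / 4) := by
            apply mul_le_mul_of_nonneg_right f3 (by positivity)
          _ = _ := by ring
      calc _ ≤ _ := e6
        _ = 3564 * y ^ 169 := by ring
        _ ≤ _ := e9
        _ ≤ _ := e8
        _ ≤ _ := hn2
    exact_mod_cast h1
  · -- the condition for mixing
    refine le_trans ?_ hnprod
    have h1 : (((X1 / p : ℕ) : ℝ) + 1) ≤ 2 * (X1 : ℝ) / p := by
      have e1 : ((X1 / p : ℕ) : ℝ) ≤ (X1 : ℝ) / p := Nat.cast_div_le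
      have e2 : 1 ≤ (X1 : ℝ) / p := by
        rw [le_div_iff₀ hpR]; linarith
      calc (((X1 / p : ℕ) : ℝ) + 1) ≤ (X1 : ℝ) / p + (X1 : ℝ) / p := by linarith
        _ = _ := by ring
    have h2 : (((X1 / p : ℕ) : ℝ) + 1) ^ 2 ≤ (2 * (X1 : ℝ) / p) ^ 2 :=
      pow_le_pow_left₀ (by positivity) h1 2
    calc 16 * (p : ℝ) ^ 6 * (((M : ℝ) + 2) * (((X1 / p : ℕ) : ℝ) + 1) ^ 2)
        ≤ 16 * (p : ℝ) ^ 6 * (((M : ℝ) + 2) * (2 * (X1 : ℝ) / p) ^ 2) := by gcongr
      _ = 64 * ((M : ℝ) + 2) * (p : ℝ) ^ 4 * (X1 : ℝ) ^ 2 := by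
          field_simp
          ring
      _ ≤ c2 M ^ 3 * (((X1 : ℝ) * X2 * X3) ^ 2 / y ^ 3) := by
          rw [← mul_div_assoc, le_div_iff₀ (by positivity)]
          have f1 : 1024 * ((M : ℝ) + 2) ≤ c2 M ^ 3 * y := by
            rw [div_le_iff₀ (by positivity)] at hK2
            linarith
          have f2 : y ≤ y ^ 3 := by
            calc y = y ^ 1 := (pow_one y).symm
              _ ≤ y ^ 3 := pow_le_pow_right₀ hy1 (by norm_num)
          have f3 : 1024 * ((M : ℝ) + 2) ≤ c2 M ^ 3 * y ^ 3 :=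
            f1.trans (mul_le_mul_of_nonneg_left f2 (by positivity))
          have f4 : (y ^ 93 / 2) ^ 2 ≤ (X2 : ℝ) ^ 2 := pow_le_pow_left₀ (by positivity) hX2ge 2
          have f5 : (y ^ 90 / 2) ^ 2 ≤ (X3 : ℝ) ^ 2 := by
            apply pow_le_pow_left₀ (by positivity)
            rw [hy90]; exact hX3ge
          calc 64 * ((M : ℝ) + 2) * (p : ℝ) ^ 4 * (X1 : ℝ) ^ 2 * y ^ 3
              = (1024 * ((M : ℝ) + 2)) * (y ^ 363 / 16) * (X1 : ℝ) ^ 2 := by
                rw [hp4]; ring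
            _ ≤ (c2 M ^ 3 * y ^ 3) * (y ^ 363 / 16) * (X1 : ℝ) ^ 2 := by gcongr
            _ = c2 M ^ 3 * ((X1 : ℝ) ^ 2 * (y ^ 93 / 2) ^ 2 * (y ^ 90 / 2) ^ 2) := by ring
            _ ≤ c2 M ^ 3 * ((X1 : ℝ) ^ 2 * (X2 : ℝ) ^ 2 * (X3 : ℝ) ^ 2) := by gcongr
            _ = _ := by ring
      _ ≤ _ := by gcongr
  · refine le_trans ?_ hnprod
    gcongr

end Run7.h166
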