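import Pool.Agent.Run7.h166.OddRest

namespace Run7.h166

open Matrix Gen

section

/-- the trace of an element of `SL_2(Z)` -/
def tr (A : SL2 ℤ) : ℤ := A.1 0 0 + A.1 1 1

lemma tr_mul_comm (A B : SL2 ℤ) : tr (A * B) = tr (B * A) := by
  unfold tr
  rw [mul_val, mul_val, mul_val, mul_val]
  ring

lemma tr_conj (A B : SL2 ℤ) : tr (A * B * A⁻¹) = tr B := by
  rw [tr_mul_comm]
  congr 1
  group

lemma abs_tr_eq {A B : SL2 ℤ} (h : ((A : SL2 ℤ) : PSL2 ℤ) = (B : SL2 ℤ)) : |tr A| = |tr B| := by
  obtain ⟨c, hc, hcc⟩ := mk_eq_mk_iff.1 h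
  unfold tr
  rw [hcc, hcc, ← mul_add, abs_mul]
  have h1 : |c| = 1 := by
    rcases sq_eq_one_iff.1 hc with h1 | h1
    · rw [h1]; simp
    · rw [h1]; simp
  rw [h1, one_mul]

/-- The projection to `PSL_2(Z)`. -/
def proj : SL2 ℤ →* PSL2 ℤ := QuotientGroup.mk' _

lemma proj_def (A : SL2 ℤ) : proj A = ((A : SL2 ℤ) : PSL2 ℤ) := rfl

/-- `w` or `1`. -/
def wp (s : Bool) : SL2 ℤ := if s then wMat ℤ else 1

lemma wp_sq (s : Bool) : proj (wp s) * proj (wp s) = 1 := by
  cases s
  · simp [wp]
  · rw [← map_mul]
    change (((wp true * wp true : SL2 ℤ)) : PSL2 ℤ) = ((1 : SL2 ℤ) : PSL2 ℤ)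
    apply mk_eq_of_entries_neg <;> simp [wp, mul_val]

lemma wp_ne {s t : Bool} (h : s ≠ t) : proj (wp s) * proj (wp t) = proj (wMat ℤ) := by
  cases s <;> cases t
  · exact absurd rfl h
  · simp [wp]
  · simp [wp]
  · exact absurd rfl h

lemma wp_not (s : Bool) : proj (wp (!s)) = proj (wp s) * proj (wMat ℤ) := by
  cases s
  · simp [wp]
  · have := wp_sq true
    rw [show (!true) = false from rfl]
    simpa [wp] using this.symm

lemma wp_not' (s : Bool) : proj (wp (!s)) = proj (wMat ℤ) * proj (wp s) := by
  cases s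
  · simp [wp]
  · have := wp_sq true
    rw [show (!true) = false from rfl]
    simpa [wp] using this.symm

lemma letter_decomp (g : Gen) :
    proj (Gen.mat ℤ g) = proj (wp (isNeg g)) * proj (Gen.mat ℤ (posLetter g)) *
      proj (wp (isNeg g)) := by
  rw [← map_mul, ← map_mul]
  cases g
  · simp [wp, isNeg, posLetter]
  · change ((Gen.mat ℤ Ui : SL2 ℤ) : PSL2 ℤ) = ((wp true * Gen.mat ℤ V * wp true : SL2 ℤ) :
      PSL2 ℤ)
    apply mk_eq_of_entries_neg <;> simp [wp, mul_val, Gen.mat]
  · simp [wp, isNeg, posLetter]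
  · change ((Gen.mat ℤ Vi : SL2 ℤ) : PSL2 ℤ) = ((wp true * Gen.mat ℤ U * wp true : SL2 ℤ) :
      PSL2 ℤ)
    apply mk_eq_of_entries_neg <;> simp [wp, mul_val, Gen.mat]

lemma same_letter (x : Gen) (hx : x = U ∨ x = V) :
    proj (Gen.mat ℤ x) * proj (wMat ℤ) * proj (Gen.mat ℤ x) = proj (Gen.mat ℤ (bar x)) := by
  rw [← map_mul, ← map_mul]
  rcases hx with rfl | rfl
  · change ((Gen.mat ℤ U * wMat ℤ * Gen.mat ℤ U : SL2 ℤ) : PSL2 ℤ) = ((Gen.mat ℤ V : SL2 ℤ) :
      PSL2 ℤ)
    apply mk_eq_of_entries_neg <;> simp [mul_val, Gen.mat]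
  · change ((Gen.mat ℤ V * wMat ℤ * Gen.mat ℤ V : SL2 ℤ) : PSL2 ℤ) = ((Gen.mat ℤ U : SL2 ℤ) :
      PSL2 ℤ)
    apply mk_congr
    apply ext_val <;> simp [mul_val, Gen.mat]

lemma other_letter (x : Gen) (hx : x = U ∨ x = V) :
    proj (Gen.mat ℤ x) * proj (wMat ℤ) * proj (Gen.mat ℤ (bar x)) = proj (wMat ℤ) := by
  rw [← map_mul, ← map_mul]
  rcases hx with rfl | rfl
  · change ((Gen.mat ℤ U * wMat ℤ * Gen.mat ℤ V : SL2 ℤ) : PSL2 ℤ) = ((wMat ℤ : SL2 ℤ) :
      PSL2 ℤ)
    apply mk_congr
    apply ext_val <;> simp [mul_val, Gen.mat]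
  · change ((Gen.mat ℤ V * wMat ℤ * Gen.mat ℤ U : SL2 ℤ) : PSL2 ℤ) = ((wMat ℤ : SL2 ℤ) :
      PSL2 ℤ)
    apply mk_congr
    apply ext_val <;> simp [mul_val, Gen.mat]

lemma bar_of_ne {x y : Gen} (hx : x = U ∨ x = V) (hy : y = U ∨ y = V) (h : x ≠ y) :
    y = bar x := by
  rcases hx with rfl | rfl <;> rcases hy with rfl | rfl
  · exact absurd rfl h
  · rfl
  · rfl
  · exact absurd rfl h

lemma bar_pos {x : Gen} (hx : x = U ∨ x = V) : bar x = U ∨ bar x = V := by
  rcases hx with rfl | rfl
  · right; rfl
  · left; rfl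

lemma posLetter_pos (g : Gen) : posLetter g = U ∨ posLetter g = V := by
  cases g <;> simp [posLetter]

/-- The element represented by a state of the reduction. -/
def stVal (σ : Bool × List Gen × Bool) : PSL2 ℤ :=
  proj (wp σ.1) * proj (eval ℤ σ.2.1.reverse) * proj (wp σ.2.2)

lemma nfStep_spec (σ : Bool × List Gen × Bool) (g : Gen) (hσ : IsPositive σ.2.1) :
    stVal (nfStep σ g) = stVal σ * proj (Gen.mat ℤ g) ∧ IsPositive (nfStep σ g).2.1 ∧
      (nfStep σ g).2.1.length ≤ σ.2.1.length + 1 := by
  obtain ⟨s, P, t⟩ := σ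
  simp only at hσ
  unfold nfStep
  simp only
  split_ifs with ht
  · subst ht
    refine ⟨?_, ?_, by simp⟩
    · unfold stVal
      simp only [List.reverse_cons, eval_append, eval_cons, eval_nil, mul_one, map_mul]
      rw [letter_decomp g]
      have h := wp_sq (isNeg g)
      calc proj (wp s) * (proj (eval ℤ P.reverse) * proj (mat ℤ (posLetter g))) *
            proj (wp (isNeg g))
          = proj (wp s) * proj (eval ℤ P.reverse) * 1 * proj (mat ℤ (posLetter g)) *
            proj (wp (isNeg g)) := by group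
        _ = _ := by rw [← h]; group
    · intro y hy
      rcases List.mem_cons.1 hy with rfl | hy
      · exact posLetter_pos g
      · exact hσ y hy
  · cases P with
    | nil =>
      refine ⟨?_, ?_, by simp⟩
      · unfold stVal
        simp only [List.reverse_cons, List.reverse_nil, List.nil_append, eval_cons, eval_nil,
          mul_one, map_one]
        rw [letter_decomp g, wp_not, ← wp_ne ht]
        group
      · intro y hy
        rcases List.mem_cons.1 hy with rfl | hy
        · exact posLetter_pos g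
        · simp at hy
    | cons x P =>
      have hx : x = U ∨ x = V := hσ x (by simp)
      have hP : IsPositive P := fun y hy => hσ y (by simp [hy])
      simp only
      split_ifs with hxg
      · refine ⟨?_, ?_, by simp⟩
        · unfold stVal
          simp only [List.reverse_cons, eval_append, eval_cons, eval_nil, mul_one, map_mul]
          rw [letter_decomp g, ← hxg, ← same_letter x hx, ← wp_ne ht]
          group
        · intro y hy
          rcases List.mem_cons.1 hy with rfl | hy
          · exact bar_pos hx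
          · exact hP y hy
      · refine ⟨?_, hP, by simp; omega⟩
        have hb : posLetter g = bar x := bar_of_ne hx (posLetter_pos g) hxg
        unfold stVal
        simp only [List.reverse_cons, eval_append, eval_cons, eval_nil, mul_one, map_mul]
        rw [letter_decomp g, hb]
        have h1 := other_letter x hx
        rw [wp_not']
        calc proj (wp s) * proj (eval ℤ P.reverse) * (proj (wMat ℤ) * proj (wp (isNeg g)))
            = proj (wp s) * proj (eval ℤ P.reverse) * proj (wMat ℤ) * proj (wp (isNeg g)) := by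
              group
          _ = proj (wp s) * proj (eval ℤ P.reverse) *
              (proj (mat ℤ x) * (proj (wp t) * proj (wp (isNeg g))) * proj (mat ℤ (bar x))) *
              proj (wp (isNeg g)) := by rw [wp_ne ht, h1]
          _ = _ := by group

lemma nf_foldl (a : List Gen) (σ : Bool × List Gen × Bool) (hσ : IsPositive σ.2.1) :
    stVal (a.foldl nfStep σ) = stVal σ * proj (eval ℤ a) ∧
      IsPositive (a.foldl nfStep σ).2.1 ∧
      (a.foldl nfStep σ).2.1.length ≤ σ.2.1.length + a.length := by
  induction a generalizing σ with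
  | nil => simp [hσ]
  | cons g a ih =>
    obtain ⟨h1, h2, h3⟩ := nfStep_spec σ g hσ
    obtain ⟨k1, k2, k3⟩ := ih (nfStep σ g) h2
    rw [List.foldl_cons]
    refine ⟨?_, k2, ?_⟩
    · rw [k1, h1, eval_cons, map_mul, mul_assoc]
    · rw [List.length_cons]; omega

lemma nf_spec (a : List Gen) :
    stVal (nf a) = proj (eval ℤ a) ∧ IsPositive (nf a).2.1 ∧ (nf a).2.1.length ≤ a.length := by
  have h0 : IsPositive (false, ([] : List Gen), false).2.1 := by intro y hy; simp at hy
  obtain ⟨h1, h2, h3⟩ := nf_foldl a (false, [], false) h0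
  refine ⟨?_, h2, by simpa [nf] using h3⟩
  unfold nf
  rw [h1]
  simp [stVal, wp]

lemma cyc_spec (k : ℕ) (P : List Gen) (hP : IsPositive P) (hk : P.length ≤ k)
    (h2 : 2 ≤ |tr (eval ℤ P * wMat ℤ)|) :
    |tr (eval ℤ (cyc k P))| = |tr (eval ℤ P * wMat ℤ)| ∧ IsPositive (cyc k P) ∧
      (cyc k P).length ≤ P.length := by
  induction k generalizing P with
  | zero =>
    have : P = [] := List.length_eq_zero_iff.1 (by omega)
    subst this
    exfalso
    simp [tr] at h2
  | succ k ih =>
    cases P with
    | nil =>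
      exfalso
      simp [tr] at h2
    | cons x Q =>
      have hx : x = U ∨ x = V := hP x (by simp)
      rcases List.eq_nil_or_concat Q with rfl | ⟨Q', y, rfl⟩
      · exfalso
        rcases hx with rfl | rfl
        · simp [tr, Gen.mat, mul_val] at h2
        · simp [tr, Gen.mat, mul_val] at h2
      · have hy : y = U ∨ y = V := hP y (by simp)
        have hQ' : IsPositive Q' := fun z hz => hP z (by simp [hz])
        have hlast : (Q' ++ [y]).getLast? = some y := by simp
        have hdrop : (Q' ++ [y]).dropLast = Q' := by simp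
        have hlen : Q'.length ≤ k := by simp at hk; omega
        have hcyc : tr (eval ℤ (x :: (Q' ++ [y])) * wMat ℤ)
            = tr (mat ℤ y * wMat ℤ * mat ℤ x * eval ℤ Q') := by
          rw [eval_cons, eval_append, eval_cons, eval_nil, mul_one]
          rw [show mat ℤ x * (eval ℤ Q' * mat ℤ y) * wMat ℤ
            = (mat ℤ x * eval ℤ Q') * (mat ℤ y * wMat ℤ) by group, tr_mul_comm]
          congr 1
          group
        simp only [List.concat_eq_append] at *
        unfold cyc
        rw [hlast, hdrop]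
        split_ifs with hxy
        · have hxy' : y = x := by simpa using hxy
          subst hxy'
          refine ⟨?_, ?_, by simp⟩
          · rw [hcyc]
            apply abs_tr_eq
            rw [← proj_def, ← proj_def, eval_cons, map_mul, map_mul, map_mul, map_mul,
              same_letter y hy]
          · intro z hz
            rcases List.mem_cons.1 hz with rfl | hz
            · exact bar_pos hy
            · exact hQ' z hz
        · have hxy' : y ≠ x := by
            intro h; apply hxy; rw [h]
          have hb : x = bar y := bar_of_ne hy hx hxy'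
          have e1 : |tr (mat ℤ y * wMat ℤ * mat ℤ x * eval ℤ Q')| = |tr (wMat ℤ * eval ℤ Q')| := by
            apply abs_tr_eq
            rw [← proj_def, ← proj_def, map_mul, map_mul, map_mul, map_mul, hb,
              other_letter y hy]
          rw [hcyc, e1, tr_mul_comm] at h2
          obtain ⟨k1, k2, k3⟩ := ih Q' hQ' hlen h2
          refine ⟨?_, k2, ?_⟩
          · rw [k1, hcyc, e1, tr_mul_comm]
          · simp; omega

lemma positivize_spec (a : List Gen) (ha : 2 ≤ |tr (eval ℤ a)|) :
    |tr (eval ℤ (positivize a))| = |tr (eval ℤ a)| ∧ IsPositive (positivize a) ∧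
      (positivize a).length ≤ a.length := by
  obtain ⟨h1, h2, h3⟩ := nf_spec a
  have hrev : IsPositive (nf a).2.1.reverse := fun z hz => h2 z (by simpa using hz)
  unfold stVal at h1
  set s := (nf a).1 with hs
  set t := (nf a).2.2 with ht
  set X := eval ℤ (nf a).2.1.reverse with hX
  unfold positivize
  rw [← hs, ← ht]
  have h4 : |tr (eval ℤ a)| = |tr (wp s * X * wp t)| := by
    apply abs_tr_eq
    rw [← proj_def, ← proj_def, ← h1, map_mul, map_mul]
  split_ifs with hst
  · refine ⟨?_, hrev, by simpa using h3⟩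
    rw [h4, ← hst, ← hX]
    have h5 : |tr (wp s * X * wp s)| = |tr (wp s * X * (wp s)⁻¹)| := by
      apply abs_tr_eq
      rw [← proj_def, ← proj_def, map_mul, map_mul, map_mul, map_mul, map_inv]
      congr 1
      exact eq_inv_of_mul_eq_one_left (wp_sq s)
    rw [h5, tr_conj]
  · have h6 : |tr (wp s * X * wp t)| = |tr (X * wMat ℤ)| := by
      have : tr (wp s * X * wp t) = tr (X * (wp t * wp s)) := by
        rw [mul_assoc, tr_mul_comm]
        congr 1
        group
      rw [this]
      apply abs_tr_eq
      rw [← proj_def, ← proj_def, map_mul, map_mul, map_mul, wp_ne (Ne.symm hst)]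
    rw [h4, h6] at ha
    obtain ⟨k1, k2, k3⟩ := cyc_spec a.length (nf a).2.1.reverse hrev (by simpa using h3) ha
    refine ⟨by rw [k1, h4, h6], k2, ?_⟩
    rw [List.length_reverse] at k3
    omega

end

end Run7.h166
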