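import Pool.Agent.Run7.h166.Density

/-!
For every `ε > 0` there is a randomised algorithm which outputs a word of length `O_ε(log p)` for
`u_{(p+1)/2}` after an expected number of `O_ε(p^ε)` trials, each of which takes polynomial time.

A trial: choose `s, r` below `p ^ 3` at random, apply the subtractive Euclidean algorithm, stopped
after `⌊c log p⌋` steps, to the lift `((p (2 s + 1) + 1) / 2, p (r + 1))` of the vector `(1/2, 0)`,
let `w` be the positive word in `u_1` and `v_1` which it finds, and output `w u^2 w^{-1}` (the word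
`candidate`).
-/

namespace Run7.h166.RandomLiftsOld

open Run7.h166

theorem result (ε : ℝ) (hε : 0 < ε) :
    ∃ c C : ℝ, 0 < c ∧ 0 < C ∧ ∀ p : ℕ, p.Prime → Odd p →
      (p : ℝ) ^ 6 ≤ C * (p : ℝ) ^ ε *
        ({x : ℕ × ℕ | x.1 < p ^ 3 ∧ x.2 < p ^ 3 ∧
          IsSolution p (candidate ⌊c * Real.log p⌋₊ p x.1 x.2) ∧
          ((candidate ⌊c * Real.log p⌋₊ p x.1 x.2).length : ℝ) ≤ C * Real.log p}.ncard : ℝ) := by
  obtain ⟨c, C, hc, hC, h⟩ := density ε hε
  refine ⟨c, C + 2 * c + 2, hc, by positivity, ?_⟩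
  intro p hp hodd
  have hp3 : 3 ≤ p := by
    have h2 := hp.two_le
    rcases hodd with ⟨k, hk⟩
    omega
  have hp3R : (3 : ℝ) ≤ p := by exact_mod_cast hp3
  have hlog1 : 1 ≤ Real.log p := by
    rw [Real.le_log_iff_exp_le (by linarith)]
    have := Real.exp_one_lt_d9
    linarith
  have hset : {x : ℕ × ℕ | x.1 < p ^ 3 ∧ x.2 < p ^ 3 ∧
          IsSolution p (candidate ⌊c * Real.log p⌋₊ p x.1 x.2) ∧
          ((candidate ⌊c * Real.log p⌋₊ p x.1 x.2).length : ℝ) ≤ (C + 2 * c + 2) * Real.log p}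
      = goodPairs ⌊c * Real.log p⌋₊ p := by
    ext x
    unfold goodPairs
    simp only [Set.mem_setOf_eq]
    constructor
    · rintro ⟨h1, h2, h3, -⟩
      exact ⟨h1, h2, h3⟩
    · rintro ⟨h1, h2, h3⟩
      refine ⟨h1, h2, h3, ?_⟩
      have h4 := length_candidate ⌊c * Real.log p⌋₊ p x.1 x.2
      have h5 : ((candidate ⌊c * Real.log p⌋₊ p x.1 x.2).length : ℝ)
          ≤ 2 * ((⌊c * Real.log p⌋₊ : ℕ) : ℝ) + 2 := by exact_mod_cast h4
      have h6 : ((⌊c * Real.log p⌋₊ : ℕ) : ℝ) ≤ c * Real.log p :=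
        Nat.floor_le (by positivity)
      nlinarith
  rw [hset]
  refine (h p hp hodd).trans ?_
  gcongr
  linarith

end Run7.h166.RandomLiftsOld
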