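import Mathlib

/-!
The second moment of the correlations of two functions of mean zero on the plane over a finite
field, over the group `SL_2`.
-/

namespace Run7.h166

open Matrix Finset

section SecondMoment

variable {K : Type} [Field K] [Fintype K] [DecidableEq K]

/-- The determinant form on the plane. -/
def om (v w : K × K) : K := v.1 * w.2 - v.2 * w.1

/-- The action of `SL_2` on the plane. -/
def act (g : Matrix.SpecialLinearGroup (Fin 2) K) (v : K × K) : K × K :=
  (g.1 0 0 * v.1 + g.1 0 1 * v.2, g.1 1 0 * v.1 + g.1 1 1 * v.2)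

lemma sl_mul_val (A B : Matrix.SpecialLinearGroup (Fin 2) K) (i j : Fin 2) :
    (A * B).1 i j = A.1 i 0 * B.1 0 j + A.1 i 1 * B.1 1 j := by
  rw [Matrix.SpecialLinearGroup.coe_mul, Matrix.mul_apply, Fin.sum_univ_two]

lemma sl_det (A : Matrix.SpecialLinearGroup (Fin 2) K) :
    A.1 0 0 * A.1 1 1 - A.1 0 1 * A.1 1 0 = 1 := by
  have := A.2
  rwa [Matrix.det_fin_two] at this

lemma act_mul (g k : Matrix.SpecialLinearGroup (Fin 2) K) (v : K × K) :
    act (g * k) v = act g (act k v) := by
  unfold act
  ext
  · simp only [sl_mul_val]; ring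
  · simp only [sl_mul_val]; ring

lemma act_one (v : K × K) : act (1 : Matrix.SpecialLinearGroup (Fin 2) K) v = v := by
  unfold act
  ext <;> simp

lemma om_act (g : Matrix.SpecialLinearGroup (Fin 2) K) (v w : K × K) :
    om (act g v) (act g w) = om v w := by
  unfold om act
  have h := sl_det g
  simp only
  linear_combination (v.1 * w.2 - v.2 * w.1) * h

/-- The action as an equivalence. -/
def actEquiv (g : Matrix.SpecialLinearGroup (Fin 2) K) : (K × K) ≃ (K × K) where
  toFun := act g
  invFun := act g⁻¹
  left_inv v := by rw [← act_mul, inv_mul_cancel, act_one]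
  right_inv v := by rw [← act_mul, mul_inv_cancel, act_one]

/-- scaling -/
def sc (c : K) (v : K × K) : K × K := (c * v.1, c * v.2)

lemma act_sc (g : Matrix.SpecialLinearGroup (Fin 2) K) (c : K) (v : K × K) :
    act g (sc c v) = sc c (act g v) := by
  unfold act sc
  ext
  · simp only; ring
  · simp only; ring

lemma act_zero (g : Matrix.SpecialLinearGroup (Fin 2) K) : act g (0 : K × K) = 0 := by
  unfold act
  ext <;> simp

/-- A group element with prescribed columns. -/
def ofCols (v w : K × K) (h : om v w = 1) : Matrix.SpecialLinearGroup (Fin 2) K :=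
  ⟨!![v.1, w.1; v.2, w.2], by
    rw [Matrix.det_fin_two]
    unfold om at h
    simp only [Matrix.of_apply, Matrix.cons_val', Matrix.cons_val_zero, Matrix.cons_val_one,
      Matrix.cons_val_fin_one]
    linear_combination h⟩

lemma act_ofCols (v w : K × K) (h : om v w = 1) (x : K × K) :
    act (ofCols v w h) x = (v.1 * x.1 + w.1 * x.2, v.2 * x.1 + w.2 * x.2) := rfl

/-- Sum over the group as a sum over pairs of columns. -/
lemma sum_group (φ : K × K → K × K → ℝ) :
    ∑ g : Matrix.SpecialLinearGroup (Fin 2) K, φ (act g (1, 0)) (act g (0, 1))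
      = ∑ x : K × K, ∑ y : K × K, if om x y = 1 then φ x y else 0 := by
  rw [← Finset.sum_product', ← Finset.sum_filter]
  refine Finset.sum_bij' (fun g _ => (act g (1, 0), act g (0, 1)))
    (fun xy hxy => ofCols xy.1 xy.2 (by simpa using hxy)) ?_ ?_ ?_ ?_ ?_
  · intro g _
    simp only [Finset.mem_filter, Finset.mem_product, Finset.mem_univ, true_and]
    rw [om_act]
    simp [om]
  · intro xy _
    exact Finset.mem_univ _
  · intro g _
    apply Subtype.ext
    ext i j
    fin_cases i <;> fin_cases j <;> simp [ofCols, act]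
  · intro xy hxy
    simp [act_ofCols]
  · intro g _
    rfl

lemma exists_first_col (v : K × K) (hv : v ≠ 0) :
    ∃ k : Matrix.SpecialLinearGroup (Fin 2) K, act k (1, 0) = v := by
  by_cases h1 : v.1 = 0
  · have h2 : v.2 ≠ 0 := by
      intro h2; apply hv; ext <;> simp [h1, h2]
    refine ⟨ofCols v (-(v.2)⁻¹, 0) (by unfold om; simp [h2]), ?_⟩
    rw [act_ofCols]
    ext <;> simp
  · refine ⟨ofCols v (0, (v.1)⁻¹) (by unfold om; simp [h1]), ?_⟩
    rw [act_ofCols]
    ext <;> simp

/-- The number of `y` with `om x y = t`. -/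
lemma card_om_eq (x : K × K) (hx : x ≠ 0) (t : K) :
    (Finset.univ.filter (fun y : K × K => om x y = t)).card = Fintype.card K := by
  obtain ⟨k, hk⟩ := exists_first_col x hx
  have h1 : (Finset.univ.filter (fun y : K × K => om x y = t)).card
      = (Finset.univ.filter (fun y : K × K => y.2 = t)).card := by
    symm
    refine Finset.card_bij (fun y _ => act k y) ?_ ?_ ?_
    · intro y hy
      simp only [Finset.mem_filter, Finset.mem_univ, true_and] at hy ⊢
      rw [← hk, om_act]
      simpa [om] using hy
    · intro y _ z _ h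
      exact (actEquiv k).injective h
    · intro y hy
      refine ⟨act k⁻¹ y, ?_, ?_⟩
      · simp only [Finset.mem_filter, Finset.mem_univ, true_and] at hy ⊢
        have h2 : om (1, 0) (act k⁻¹ y) = t := by
          rw [← om_act k, hk, ← act_mul, mul_inv_cancel, act_one, hy]
        simpa [om] using h2
      · rw [← act_mul, mul_inv_cancel, act_one]
  rw [h1]
  have h2 : (Finset.univ.filter (fun y : K × K => y.2 = t))
      = Finset.univ.image (fun s : K => (s, t)) := by
    ext y
    simp only [Finset.mem_filter, Finset.mem_univ, true_and, Finset.mem_image]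
    constructor
    · intro h
      exact ⟨y.1, by ext <;> simp [h]⟩
    · rintro ⟨s, rfl⟩
      rfl
  rw [h2, Finset.card_image_of_injective _ (fun a b h => by simpa using h), Finset.card_univ]

/-- Sums over the orbit map. -/
lemma sum_orbit (v : K × K) (hv : v ≠ 0) (φ : K × K → ℝ) (hφ : φ 0 = 0) :
    ∑ g : Matrix.SpecialLinearGroup (Fin 2) K, φ (act g v)
      = Fintype.card K * ∑ x : K × K, φ x := by
  obtain ⟨k, hk⟩ := exists_first_col v hv
  have h1 : ∑ g : Matrix.SpecialLinearGroup (Fin 2) K, φ (act g v)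
      = ∑ g : Matrix.SpecialLinearGroup (Fin 2) K, φ (act g (1, 0)) := by
    rw [← hk]
    have : ∀ g : Matrix.SpecialLinearGroup (Fin 2) K, φ (act g (act k (1, 0)))
        = φ (act (g * k) (1, 0)) := fun g => by rw [act_mul]
    simp_rw [this]
    exact Equiv.sum_comp (Equiv.mulRight k)
      (fun g : Matrix.SpecialLinearGroup (Fin 2) K => φ (act g (1, 0)))
  rw [h1, sum_group (fun x _ => φ x), Finset.mul_sum]
  apply Finset.sum_congr rfl
  intro x _
  rw [← Finset.sum_filter, Finset.sum_const, nsmul_eq_mul]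
  by_cases hx : x = 0
  · subst hx; rw [hφ]; ring
  · rw [card_om_eq x hx 1]

/-- The correlation over pairs of determinant `t`. -/
def corr (t : K) (f : K × K → ℝ) : ℝ :=
  ∑ x : K × K, ∑ y : K × K, if om x y = t then f x * f y else 0

lemma sum_pair (v w : K × K) (hvw : om v w ≠ 0) (f : K × K → ℝ) :
    ∑ g : Matrix.SpecialLinearGroup (Fin 2) K, f (act g v) * f (act g w) = corr (om v w) f := by
  set t := om v w with ht
  have hk : om v (sc t⁻¹ w) = 1 := by
    have : om v (sc t⁻¹ w) = t⁻¹ * om v w := by unfold om sc; simp only; ring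
    rw [this, ← ht, inv_mul_cancel₀ hvw]
  set k := ofCols v (sc t⁻¹ w) hk with hkdef
  have e1 : act k (1, 0) = v := by rw [act_ofCols]; ext <;> simp
  have e2 : sc t (act k (0, 1)) = w := by
    rw [act_ofCols]
    unfold sc
    ext
    · simp only [mul_zero, mul_one, zero_add]; rw [← mul_assoc, mul_inv_cancel₀ hvw, one_mul]
    · simp only [mul_zero, mul_one, zero_add]; rw [← mul_assoc, mul_inv_cancel₀ hvw, one_mul]
  have h1 : ∑ g : Matrix.SpecialLinearGroup (Fin 2) K, f (act g v) * f (act g w)
      = ∑ g : Matrix.SpecialLinearGroup (Fin 2) K,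
        f (act g (1, 0)) * f (sc t (act g (0, 1))) := by
    rw [← Equiv.sum_comp (Equiv.mulRight k)
      (fun g : Matrix.SpecialLinearGroup (Fin 2) K => f (act g (1, 0)) * f (sc t (act g (0, 1))))]
    apply Finset.sum_congr rfl
    intro g _
    simp only [Equiv.coe_mulRight]
    rw [act_mul, act_mul, e1, ← act_sc, e2]
  rw [h1, sum_group (fun x y => f x * f (sc t y))]
  unfold corr
  apply Finset.sum_congr rfl
  intro x _
  -- substitute `y = t z`
  refine Finset.sum_bij' (fun y _ => sc t y) (fun y _ => sc t⁻¹ y) ?_ ?_ ?_ ?_ ?_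
  · intro y _; exact Finset.mem_univ _
  · intro y _; exact Finset.mem_univ _
  · intro y _
    unfold sc
    ext
    · simp only; rw [← mul_assoc, inv_mul_cancel₀ hvw, one_mul]
    · simp only; rw [← mul_assoc, inv_mul_cancel₀ hvw, one_mul]
  · intro y _
    unfold sc
    ext
    · simp only; rw [← mul_assoc, mul_inv_cancel₀ hvw, one_mul]
    · simp only; rw [← mul_assoc, mul_inv_cancel₀ hvw, one_mul]
  · intro y _
    have h2 : om x (sc t y) = t * om x y := by unfold om sc; simp only; ring
    rw [h2]
    have h3 : (om x y = 1) ↔ (t * om x y = t) := by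
      constructor
      · intro h; rw [h, mul_one]
      · intro h
        have := mul_left_cancel₀ hvw (h.trans (mul_one t).symm)
        exact this
    by_cases h4 : om x y = 1
    · rw [if_pos h4, if_pos (h3.1 h4)]
    · rw [if_neg h4, if_neg (fun h => h4 (h3.2 h))]

/-- The sum of `f` over a line. -/
def lineSum (f : K × K → ℝ) (t : K) (x : K × K) : ℝ := ∑ y : K × K, if om x y = t then f y else 0

lemma card_om_eq' (y y' : K × K) :
    ((Finset.univ.filter (fun x : K × K => om x y = om x y')).card : ℝ)
      = (Fintype.card K : ℝ) + if y = y' then (Fintype.card K : ℝ) ^ 2 - Fintype.card K else 0 := by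
  by_cases h : y = y'
  · subst h
    simp only [if_true, Finset.filter_true, Finset.card_univ, Fintype.card_prod]
    push_cast
    ring
  · rw [if_neg h, add_zero]
    have h1 : (Finset.univ.filter (fun x : K × K => om x y = om x y'))
        = Finset.univ.filter (fun x : K × K => om (y - y') x = 0) := by
      apply Finset.filter_congr
      intro x _
      have : om (y - y') x = - (om x y - om x y') := by
        unfold om; simp only [Prod.fst_sub, Prod.snd_sub]; ring
      rw [this, neg_eq_zero, sub_eq_zero]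
    rw [h1, card_om_eq (y - y') (sub_ne_zero.2 h) 0]

lemma sum_lineSum_sq (f : K × K → ℝ) (hf : ∑ x, f x = 0) :
    ∑ t : K, ∑ x : K × K, lineSum f t x ^ 2
      = ((Fintype.card K : ℝ) ^ 2 - Fintype.card K) * ∑ x, f x ^ 2 := by
  have h1 : ∀ x : K × K, ∑ t : K, lineSum f t x ^ 2
      = ∑ y : K × K, ∑ y' : K × K, if om x y = om x y' then f y * f y' else 0 := by
    intro x
    unfold lineSum
    simp_rw [sq, Finset.sum_mul_sum]
    rw [Finset.sum_comm]
    apply Finset.sum_congr rfl
    intro y _
    rw [Finset.sum_comm]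
    apply Finset.sum_congr rfl
    intro y' _
    rw [Finset.sum_eq_single (om x y)]
    · rw [if_pos rfl]
      by_cases h : om x y = om x y'
      · rw [if_pos h.symm, if_pos h]
      · rw [if_neg (fun h' => h h'.symm), if_neg h, mul_zero]
    · intro t _ ht
      rw [if_neg (Ne.symm ht), zero_mul]
    · intro h; exact absurd (Finset.mem_univ _) h
  rw [Finset.sum_comm]
  simp_rw [h1]
  rw [Finset.sum_comm]
  have h2 : ∀ y : K × K, ∑ x : K × K, ∑ y' : K × K, (if om x y = om x y' then f y * f y' else 0)
      = (Fintype.card K : ℝ) * f y * (∑ y', f y') + ((Fintype.card K : ℝ) ^ 2 - Fintype.card K) *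
        f y ^ 2 := by
    intro y
    rw [Finset.sum_comm]
    have h3 : ∀ y' : K × K, ∑ x : K × K, (if om x y = om x y' then f y * f y' else 0)
        = (Fintype.card K : ℝ) * f y * f y' +
          if y = y' then ((Fintype.card K : ℝ) ^ 2 - Fintype.card K) * (f y * f y') else 0 := by
      intro y'
      rw [← Finset.sum_filter, Finset.sum_const, nsmul_eq_mul, card_om_eq']
      split_ifs <;> ring
    simp_rw [h3]
    rw [Finset.sum_add_distrib, ← Finset.mul_sum, Finset.sum_ite_eq]
    simp only [Finset.mem_univ, if_true]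
    ring
  simp_rw [h2]
  rw [Finset.sum_add_distrib, ← Finset.mul_sum, hf]
  simp

lemma lineSum_scale (f : K × K → ℝ) (t : K) (ht : t ≠ 0) :
    ∑ x : K × K, lineSum f t x ^ 2 = ∑ x : K × K, lineSum f 1 x ^ 2 := by
  refine Finset.sum_bij' (fun y _ => sc t⁻¹ y) (fun y _ => sc t y) ?_ ?_ ?_ ?_ ?_
  · intro y _; exact Finset.mem_univ _
  · intro y _; exact Finset.mem_univ _
  · intro y _
    unfold sc
    ext
    · simp only; rw [← mul_assoc, mul_inv_cancel₀ ht, one_mul]
    · simp only; rw [← mul_assoc, mul_inv_cancel₀ ht, one_mul]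
  · intro y _
    unfold sc
    ext
    · simp only; rw [← mul_assoc, inv_mul_cancel₀ ht, one_mul]
    · simp only; rw [← mul_assoc, inv_mul_cancel₀ ht, one_mul]
  · intro x _
    congr 1
    unfold lineSum
    apply Finset.sum_congr rfl
    intro y _
    have h2 : om (sc t⁻¹ x) y = t⁻¹ * om x y := by unfold om sc; simp only; ring
    rw [h2]
    have h3 : (om x y = t) ↔ (t⁻¹ * om x y = 1) := by
      constructor
      · intro h; rw [h, inv_mul_cancel₀ ht]
      · intro h
        field_simp at h
        exact h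
    by_cases h4 : om x y = t
    · rw [if_pos h4, if_pos (h3.1 h4)]
    · rw [if_neg h4, if_neg (fun h => h4 (h3.2 h))]

lemma one_lt_card : (1 : ℝ) < Fintype.card K := by
  exact_mod_cast Fintype.one_lt_card

lemma lineSum_bound (f : K × K → ℝ) (hf : ∑ x, f x = 0) (t : K) (ht : t ≠ 0) :
    ∑ x : K × K, lineSum f t x ^ 2 ≤ (Fintype.card K : ℝ) * ∑ x, f x ^ 2 := by
  rw [lineSum_scale f t ht]
  have h1 := sum_lineSum_sq f hf
  have h2 : ∑ t ∈ (Finset.univ.erase (0 : K)), ∑ x : K × K, lineSum f t x ^ 2
      = ((Fintype.card K : ℝ) - 1) * ∑ x : K × K, lineSum f 1 x ^ 2 := by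
    rw [Finset.sum_congr rfl (fun t ht => lineSum_scale f t (Finset.ne_of_mem_erase ht)),
      Finset.sum_const, nsmul_eq_mul, Finset.card_erase_of_mem (Finset.mem_univ _),
      Finset.card_univ, Nat.cast_sub (Fintype.card_pos), Nat.cast_one]
  have h3 : ∑ t ∈ (Finset.univ.erase (0 : K)), ∑ x : K × K, lineSum f t x ^ 2
      ≤ ∑ t : K, ∑ x : K × K, lineSum f t x ^ 2 :=
    Finset.sum_le_sum_of_subset_of_nonneg (Finset.erase_subset _ _)
      (fun t _ _ => Finset.sum_nonneg (fun x _ => sq_nonneg _))
  rw [h1, h2] at h3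
  have h4 : (0 : ℝ) < (Fintype.card K : ℝ) - 1 := by
    have := one_lt_card (K := K)
    linarith
  have h5 : ((Fintype.card K : ℝ) - 1) * ∑ x : K × K, lineSum f 1 x ^ 2
      ≤ ((Fintype.card K : ℝ) - 1) * ((Fintype.card K : ℝ) * ∑ x, f x ^ 2) := by
    calc _ ≤ _ := h3
      _ = _ := by ring
  exact le_of_mul_le_mul_left h5 h4

/-- The correlation bound. -/
lemma corr_sq_le (f : K × K → ℝ) (hf : ∑ x, f x = 0) (t : K) (ht : t ≠ 0) :
    corr t f ^ 2 ≤ (Fintype.card K : ℝ) * (∑ x, f x ^ 2) ^ 2 := by
  have h1 : corr t f = ∑ x : K × K, f x * lineSum f t x := by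
    unfold corr lineSum
    apply Finset.sum_congr rfl
    intro x _
    rw [Finset.mul_sum]
    apply Finset.sum_congr rfl
    intro y _
    split_ifs <;> ring
  rw [h1]
  have h2 := Finset.sum_mul_sq_le_sq_mul_sq Finset.univ f (lineSum f t)
  have h3 := lineSum_bound f hf t ht
  have h4 : 0 ≤ ∑ x : K × K, f x ^ 2 := Finset.sum_nonneg (fun x _ => sq_nonneg _)
  nlinarith

lemma abs_corr_le (f : K × K → ℝ) (hf : ∑ x, f x = 0) (t : K) (ht : t ≠ 0) :
    |corr t f| ≤ Real.sqrt (Fintype.card K) * ∑ x, f x ^ 2 := by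
  have h4 : 0 ≤ ∑ x : K × K, f x ^ 2 := Finset.sum_nonneg (fun x _ => sq_nonneg _)
  apply abs_le_of_sq_le_sq _ (by positivity)
  rw [mul_pow, Real.sq_sqrt (by positivity)]
  exact corr_sq_le f hf t ht

/-- The correlation of `h` and `f` at a group element. -/
def cross (h f : K × K → ℝ) (g : Matrix.SpecialLinearGroup (Fin 2) K) : ℝ :=
  ∑ v : K × K, h v * f (act g v)

/-- The second moment of the correlations. -/
theorem second_moment (h f : K × K → ℝ) (hh : ∑ x, h x = 0) (hf : ∑ x, f x = 0)
    (hh0 : h 0 = 0) (hf0 : f 0 = 0) :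
    ∑ g : Matrix.SpecialLinearGroup (Fin 2) K, cross h f g ^ 2
      ≤ 2 * (Fintype.card K : ℝ) ^ 2 * (∑ x, h x ^ 2) * ∑ x, f x ^ 2 := by
  set q : ℝ := ((Fintype.card K : ℕ) : ℝ) with hq
  set Nf := ∑ x, f x ^ 2 with hNf
  set Nh := ∑ x, h x ^ 2 with hNh
  have hNf0 : 0 ≤ Nf := Finset.sum_nonneg (fun x _ => sq_nonneg _)
  have hNh0 : 0 ≤ Nh := Finset.sum_nonneg (fun x _ => sq_nonneg _)
  have hq1 : 1 < q := one_lt_card (K := K)
  set Θ : K × K → K × K → ℝ := fun v w =>
    ∑ g : Matrix.SpecialLinearGroup (Fin 2) K, f (act g v) * f (act g w) with hΘ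
  have e1 : ∑ g : Matrix.SpecialLinearGroup (Fin 2) K, cross h f g ^ 2
      = ∑ v : K × K, ∑ w : K × K, h v * h w * Θ v w := by
    unfold cross
    simp_rw [sq, Finset.sum_mul_sum]
    rw [Finset.sum_comm]
    apply Finset.sum_congr rfl
    intro v _
    rw [Finset.sum_comm]
    apply Finset.sum_congr rfl
    intro w _
    rw [hΘ]
    simp only
    rw [Finset.mul_sum]
    apply Finset.sum_congr rfl
    intro g _
    ring
  -- the degenerate pairs
  have e2 : ∀ v w : K × K, om v w = 0 → h v * h w * Θ v w
      ≤ q * Nf * ((h v ^ 2 + h w ^ 2) / 2) := by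
    intro v w _
    by_cases hv : v = 0
    · rw [hv, hh0, zero_mul, zero_mul]; positivity
    by_cases hw : w = 0
    · rw [hw, hh0, mul_zero, zero_mul]; positivity
    have a1 : |Θ v w| ≤ q * Nf := by
      have b1 : ∑ g : Matrix.SpecialLinearGroup (Fin 2) K, f (act g v) ^ 2 = q * Nf := by
        rw [sum_orbit v hv (fun x => f x ^ 2) (by simp [hf0])]
      have b2 : ∑ g : Matrix.SpecialLinearGroup (Fin 2) K, f (act g w) ^ 2 = q * Nf := by
        rw [sum_orbit w hw (fun x => f x ^ 2) (by simp [hf0])]
      calc |Θ v w| ≤ ∑ g : Matrix.SpecialLinearGroup (Fin 2) K, |f (act g v) * f (act g w)| :=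
            Finset.abs_sum_le_sum_abs _ _
        _ ≤ ∑ g : Matrix.SpecialLinearGroup (Fin 2) K,
            (f (act g v) ^ 2 + f (act g w) ^ 2) / 2 := by
            apply Finset.sum_le_sum
            intro g _
            rw [abs_mul]
            nlinarith [sq_nonneg (|f (act g v)| - |f (act g w)|), sq_abs (f (act g v)),
              sq_abs (f (act g w))]
        _ = q * Nf := by
            rw [← Finset.sum_div, Finset.sum_add_distrib, b1, b2]; ring
    have a2 : |h v * h w| ≤ (h v ^ 2 + h w ^ 2) / 2 := by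
      rw [abs_mul]
      nlinarith [sq_nonneg (|h v| - |h w|), sq_abs (h v), sq_abs (h w)]
    calc h v * h w * Θ v w ≤ |h v * h w * Θ v w| := le_abs_self _
      _ = |h v * h w| * |Θ v w| := abs_mul _ _
      _ ≤ ((h v ^ 2 + h w ^ 2) / 2) * (q * Nf) := by
          apply mul_le_mul a2 a1 (abs_nonneg _) (by positivity)
      _ = _ := by ring
  -- split according to the determinant
  have e3 : ∑ v : K × K, ∑ w : K × K, h v * h w * Θ v w
      = (∑ v : K × K, ∑ w : K × K, if om v w = 0 then h v * h w * Θ v w else 0)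
        + ∑ t ∈ Finset.univ.erase (0 : K), corr t f * corr t h := by
    have c1 : ∀ t ∈ Finset.univ.erase (0 : K), corr t f * corr t h
        = ∑ v : K × K, ∑ w : K × K, if om v w = t then h v * h w * Θ v w else 0 := by
      intro t ht
      have ht0 := Finset.ne_of_mem_erase ht
      conv_lhs => rw [show corr t f * corr t h = corr t f * (∑ x : K × K, ∑ y : K × K,
        if om x y = t then h x * h y else 0) from rfl]
      rw [Finset.mul_sum]
      apply Finset.sum_congr rfl
      intro v _
      rw [Finset.mul_sum]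
      apply Finset.sum_congr rfl
      intro w _
      split_ifs with hvw
      · have : Θ v w = corr t f := by
          rw [hΘ]
          simp only
          rw [sum_pair v w (by rw [hvw]; exact ht0) f, hvw]
        rw [this]; ring
      · rw [mul_zero]
    rw [Finset.sum_congr rfl c1]
    have c2 : (∑ v : K × K, ∑ w : K × K, if om v w = 0 then h v * h w * Θ v w else 0)
        + ∑ t ∈ Finset.univ.erase (0 : K), ∑ v : K × K, ∑ w : K × K,
          (if om v w = t then h v * h w * Θ v w else 0)
        = ∑ t : K, ∑ v : K × K, ∑ w : K × K,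
          (if om v w = t then h v * h w * Θ v w else 0) := by
      rw [Finset.add_sum_erase Finset.univ (fun t : K => ∑ v : K × K, ∑ w : K × K,
          (if om v w = t then h v * h w * Θ v w else 0)) (Finset.mem_univ (0 : K))]
    rw [c2]
    symm
    rw [Finset.sum_comm]
    apply Finset.sum_congr rfl
    intro v _
    rw [Finset.sum_comm]
    apply Finset.sum_congr rfl
    intro w _
    rw [Finset.sum_ite_eq]
    simp
  -- the bound for the degenerate part
  have e4 : (∑ v : K × K, ∑ w : K × K, if om v w = 0 then h v * h w * Θ v w else 0)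
      ≤ q ^ 2 * Nh * Nf := by
    -- only nonzero vectors matter
    have d1 : ∀ v w : K × K, (if om v w = 0 then h v * h w * Θ v w else 0)
        ≤ (if om v w = 0 ∧ v ≠ 0 then q * Nf * (h v ^ 2 / 2) else 0)
          + (if om w v = 0 ∧ w ≠ 0 then q * Nf * (h w ^ 2 / 2) else 0) := by
      intro v w
      have hsymm : om w v = - om v w := by unfold om; ring
      by_cases h0 : om v w = 0
      · have h0' : om w v = 0 := by rw [hsymm, h0, neg_zero]
        have h3 := e2 v w h0
        by_cases hv : v = 0
        · rw [hv, hh0]; simp only [zero_mul, ite_self]; positivity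
        · by_cases hw : w = 0
          · rw [hw, hh0]; simp only [mul_zero, zero_mul, ite_self]; positivity
          · rw [if_pos h0, if_pos ⟨h0, hv⟩, if_pos ⟨h0', hw⟩]
            linarith
      · have h0' : om w v ≠ 0 := by rw [hsymm]; exact neg_ne_zero.2 h0
        rw [if_neg h0, if_neg (fun h => h0 h.1), if_neg (fun h => h0' h.1)]
        simp
    have d2 : (∑ v : K × K, ∑ w : K × K, (if om v w = 0 ∧ v ≠ 0 then q * Nf * (h v ^ 2 / 2) else 0))
        = q * Nf * (q * (Nh / 2)) := by
      have : ∀ v : K × K, ∑ w : K × K, (if om v w = 0 ∧ v ≠ 0 then q * Nf * (h v ^ 2 / 2) else 0)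
          = q * Nf * (q * (h v ^ 2 / 2)) := by
        intro v
        by_cases hv : v = 0
        · rw [hv, hh0]; simp
        · rw [← Finset.sum_filter, Finset.sum_const, nsmul_eq_mul]
          have hc : (Finset.univ.filter (fun w : K × K => om v w = 0 ∧ v ≠ 0)).card
              = Fintype.card K := by
            rw [← card_om_eq v hv 0]
            congr 1
            apply Finset.filter_congr
            intro w _
            simp [hv]
          rw [hc]; ring
      rw [Finset.sum_congr rfl (fun v _ => this v), ← Finset.mul_sum, ← Finset.mul_sum,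
        ← Finset.sum_div]
    calc _ ≤ ∑ v : K × K, ∑ w : K × K,
          ((if om v w = 0 ∧ v ≠ 0 then q * Nf * (h v ^ 2 / 2) else 0)
          + (if om w v = 0 ∧ w ≠ 0 then q * Nf * (h w ^ 2 / 2) else 0)) :=
          Finset.sum_le_sum (fun v _ => Finset.sum_le_sum (fun w _ => d1 v w))
      _ = q ^ 2 * Nh * Nf := by
          simp_rw [Finset.sum_add_distrib]
          rw [d2]
          have : (∑ v : K × K, ∑ w : K × K,
            (if om w v = 0 ∧ w ≠ 0 then q * Nf * (h w ^ 2 / 2) else 0))
            = q * Nf * (q * (Nh / 2)) := by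
            rw [Finset.sum_comm]; exact d2
          rw [this]; ring
  -- the bound for the main part
  have e5 : ∑ t ∈ Finset.univ.erase (0 : K), corr t f * corr t h ≤ (q - 1) * (q * Nh * Nf) := by
    have h1 : ∀ t ∈ Finset.univ.erase (0 : K), corr t f * corr t h ≤ q * Nh * Nf := by
      intro t ht
      have ht0 := Finset.ne_of_mem_erase ht
      have b1 := abs_corr_le f hf t ht0
      have b2 := abs_corr_le h hh t ht0
      calc corr t f * corr t h ≤ |corr t f * corr t h| := le_abs_self _
        _ = |corr t f| * |corr t h| := abs_mul _ _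
        _ ≤ (Real.sqrt q * Nf) * (Real.sqrt q * Nh) :=
            mul_le_mul b1 b2 (abs_nonneg _) (by positivity)
        _ = (Real.sqrt q * Real.sqrt q) * Nf * Nh := by ring
        _ = q * Nh * Nf := by rw [Real.mul_self_sqrt (by linarith)]; ring
    calc _ ≤ ∑ t ∈ Finset.univ.erase (0 : K), q * Nh * Nf := Finset.sum_le_sum h1
      _ = (q - 1) * (q * Nh * Nf) := by
        rw [Finset.sum_const, nsmul_eq_mul, Finset.card_erase_of_mem (Finset.mem_univ _),
          Finset.card_univ, Nat.cast_sub (Fintype.card_pos), Nat.cast_one]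
  rw [e1, e3]
  have h6 : 0 ≤ q * Nh * Nf := by positivity
  nlinarith

end SecondMoment

end Run7.h166
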