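import Pool.Agent.Run7.h166.Params2

/-!
The trade-off between the length of the words and the success probability.
-/

namespace Run7.h166

open Matrix Finset Gen

/-- The count of the good pairs for large primes. -/
lemma large_primes (p M B L : ℕ) (hpp : p.Prime) (hodd : Odd p) (y : ℝ) (hy90 : y ^ 90 = p)
    (hy2 : 2 ≤ y) (hM : 2 ≤ M) (hlam : lam M ≤ 1 / 2880) (hK1 : 14256 / c2 M ≤ y)
    (hK2 : 1024 * ((M : ℝ) + 2) / c2 M ^ 3 ≤ y)
    (hB : (M : ℝ) * (3 + 4 * Real.log ((M : ℝ) + 1) + 24 * lam M * (4 * Real.log p)) ≤ B)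
    (hL : B + B + B ≤ L) :
    c2 M ^ 3 * (p : ℝ) ^ 6 ≤ 32768 * Real.log p ^ 2 * Real.exp (96 * lam M * Real.log p) *
      ((goodPairs L p).ncard : ℝ) := by
  have : Fact p.Prime := ⟨hpp⟩
  have hp3 : 3 ≤ p := by
    have h2 := hpp.two_le
    rcases hodd with ⟨k, hk⟩
    omega
  have hp3R : (3 : ℝ) ≤ p := by exact_mod_cast hp3
  have hpR : (0 : ℝ) < p := by linarith
  have hlog1 : 1 ≤ Real.log p := by
    rw [Real.le_log_iff_exp_le hpR]
    have := Real.exp_one_lt_d9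
    linarith
  obtain ⟨X1, X2, X3, T, hX1, hX2, hX3, hX3p, hprod, hT, hcol, hbig, hlow⟩ :=
    exists_params2 p M B hpp y hy90 hy2 hM hlam hK1 hK2 hB
  have hW := triples_ge hodd M X1 X2 X3 T (nset2 M X1 B) (nset2 M X2 B) (nset2 M X3 B)
    (nset2_subset _ _ _) (nset2_subset _ _ _) (nset2_subset _ _ _) hX1 hX2 hX3 hX3p hT hcol hbig
  have hcost : ∀ X, ∀ l ∈ nset2 M X B, cost l ≤ B := by
    intro X l hl
    unfold nset2 at hl
    exact (Finset.mem_filter.1 hl).2
  have hpairs := card_triples_le hodd M X1 X2 X3 L (nset2 M X1 B) (nset2 M X2 B) (nset2 M X3 B)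
    (nset2_subset _ _ _) (nset2_subset _ _ _) (nset2_subset _ _ _) hX1 hX2 hX3 hprod B B B
    (hcost X1) (hcost X2) (hcost X3) hL
  have hX1p : X1 ≤ p ^ 4 := by
    have : X1 * 1 * 1 ≤ X1 * X2 * X3 := Nat.mul_le_mul (Nat.mul_le_mul_left _ hX2) hX3
    omega
  have hX2p : X2 ≤ p ^ 4 := by
    have : 1 * X2 * 1 ≤ X1 * X2 * X3 := Nat.mul_le_mul (Nat.mul_le_mul_right _ hX1) hX3
    omega
  have l1 := log_le_of_le p X1 (by omega) hX1 hX1p
  have l2 := log_le_of_le p X2 (by omega) hX2 hX2p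
  set N : ℝ := ((goodPairs L p).ncard : ℝ) with hNdef
  have hN0 : 0 ≤ N := by positivity
  have hpairsR : ((triples p (nset2 M X1 B) (nset2 M X2 B) (nset2 M X3 B)).card : ℝ)
      ≤ ((Nat.log 2 X1 : ℝ) + 2) * ((Nat.log 2 X2 : ℝ) + 2) * N := by
    rw [hNdef]
    exact_mod_cast hpairs
  have hlogs : ((Nat.log 2 X1 : ℝ) + 2) * ((Nat.log 2 X2 : ℝ) + 2) ≤ 64 * Real.log p ^ 2 := by
    have h1 : (Nat.log 2 X1 : ℝ) + 2 ≤ 8 * Real.log p := by linarith
    have h2 : (Nat.log 2 X2 : ℝ) + 2 ≤ 8 * Real.log p := by linarith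
    calc _ ≤ (8 * Real.log p) * (8 * Real.log p) := by gcongr
      _ = _ := by ring
  set E : ℝ := Real.exp (96 * lam M * Real.log p) with hE
  have hE0 : 0 < E := Real.exp_pos _
  have hmain : c2 M ^ 3 * (p : ℝ) ^ 6 / 512 / E ≤ 64 * Real.log p ^ 2 * N := by
    calc c2 M ^ 3 * (p : ℝ) ^ 6 / 512 / E
        = c2 M ^ 3 * (((p : ℝ) ^ 4 / 16) ^ 2 / E) / (2 * (p : ℝ) ^ 2) := by
          field_simp
          ring
      _ ≤ ((nset2 M X1 B).card : ℝ) * ((nset2 M X2 B).card : ℝ) * ((nset2 M X3 B).card : ℝ)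
          / (2 * (p : ℝ) ^ 2) := by gcongr
      _ ≤ _ := hW
      _ ≤ _ := hpairsR
      _ ≤ _ := by gcongr
  rw [div_le_iff₀ hE0, div_le_iff₀ (by norm_num)] at hmain
  calc c2 M ^ 3 * (p : ℝ) ^ 6 ≤ 64 * Real.log p ^ 2 * N * E * 512 := hmain
    _ = _ := by ring

/-- The threshold for the parameter. -/
def M0 : ℕ := 10 ^ 9

lemma lam_le_of_ge (M : ℕ) (hM : M0 ≤ M) : lam M ≤ 1 / 2880 := by
  unfold M0 at hM
  have hMR : (10 ^ 9 : ℝ) ≤ M := by exact_mod_cast hM
  have hM0 : (0 : ℝ) < M := by linarith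
  unfold lam
  rw [div_le_iff₀ hM0]
  have h1 : Real.log ((M : ℝ) + 1) ≤ ((M : ℝ) + 1) ^ (1 / 2 : ℝ) / (1 / 2) :=
    Real.log_le_rpow_div (by positivity) (by norm_num)
  have h2 : ((M : ℝ) + 1) ^ (1 / 2 : ℝ) = Real.sqrt ((M : ℝ) + 1) := by
    rw [Real.sqrt_eq_rpow]
  rw [h2] at h1
  have h3 : Real.sqrt ((M : ℝ) + 1) ≤ ((M : ℝ) + 1) / 20000 := by
    rw [Real.sqrt_le_left (by positivity)]
    rw [div_pow]
    rw [le_div_iff₀ (by norm_num)]
    nlinarith
  linarith

/-- Comparison of the parameters: the constant for small `m`. -/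
noncomputable def A1 : ℝ := 4 * 10 ^ 9

lemma log_succ_le (m : ℕ) (hm : 2 ≤ m) : Real.log ((m : ℝ) + 1) ≤ 2 * Real.log m := by
  have hmR : (2 : ℝ) ≤ m := by exact_mod_cast hm
  have h1 : 2 * Real.log (m : ℝ) = Real.log ((m : ℝ) ^ 2) := by
    rw [Real.log_pow]; push_cast; ring
  rw [h1]
  apply Real.log_le_log (by positivity)
  nlinarith

lemma lam_max_le (m : ℕ) (hm : 2 ≤ m) : lam (max M0 m) ≤ A1 * (Real.log m / m) := by
  have hmR : (2 : ℝ) ≤ m := by exact_mod_cast hm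
  have hm0 : (0 : ℝ) < m := by linarith
  have hlogm : (1 / 2 : ℝ) ≤ Real.log m := by
    have h1 : Real.log 2 ≤ Real.log m := Real.log_le_log (by norm_num) hmR
    have := Real.log_two_gt_d9
    linarith
  rcases le_total M0 m with h | h
  · rw [max_eq_right h]
    unfold lam A1
    have h1 := log_succ_le m hm
    calc Real.log ((m : ℝ) + 1) / m ≤ 2 * Real.log m / m := by gcongr
      _ = 2 * (Real.log m / m) := by ring
      _ ≤ 4 * 10 ^ 9 * (Real.log m / m) := by
        apply mul_le_mul_of_nonneg_right (by norm_num) (by positivity)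
  · rw [max_eq_left h]
    have h1 := lam_le_of_ge M0 (le_refl _)
    have h2 : (m : ℝ) ≤ 10 ^ 9 := by
      have : (m : ℝ) ≤ (M0 : ℕ) := by exact_mod_cast h
      refine this.trans (le_of_eq ?_)
      unfold M0; norm_num
    have h3 : (1 / 2 : ℝ) / 10 ^ 9 ≤ Real.log m / m := by
      rw [div_le_div_iff₀ (by norm_num) hm0]
      nlinarith
    unfold A1
    calc lam M0 ≤ 1 / 2880 := h1
      _ ≤ 4 * 10 ^ 9 * ((1 / 2 : ℝ) / 10 ^ 9) := by norm_num
      _ ≤ _ := by
        apply mul_le_mul_of_nonneg_left h3 (by norm_num)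

lemma log_max_le (m : ℕ) (hm : 2 ≤ m) :
    Real.log (((max M0 m : ℕ) : ℝ) + 1) ≤ 100 * Real.log m := by
  have hmR : (2 : ℝ) ≤ m := by exact_mod_cast hm
  have hlogm : (1 / 2 : ℝ) ≤ Real.log m := by
    have h1 : Real.log 2 ≤ Real.log m := Real.log_le_log (by norm_num) hmR
    have := Real.log_two_gt_d9
    linarith
  rcases le_total M0 m with h | h
  · rw [max_eq_right h]
    have h1 := log_succ_le m hm
    linarith
  · rw [max_eq_left h]
    have h1 : Real.log (((M0 : ℕ) : ℝ) + 1) ≤ 50 := by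
      rw [Real.log_le_iff_le_exp (by positivity)]
      unfold M0
      push_cast
      have h2 : (2 : ℝ) ^ 50 ≤ Real.exp 50 := by
        have h3 : Real.exp 50 = Real.exp 1 ^ 50 := by
          rw [← Real.exp_nat_mul]; norm_num
        rw [h3]
        apply pow_le_pow_left₀ (by norm_num)
        have := Real.add_one_le_exp (1 : ℝ)
        linarith
      have h4 : (10 : ℝ) ^ 9 + 1 ≤ 2 ^ 50 := by norm_num
      linarith
    linarith

lemma exists_threshold : ∃ x0 : ℝ, 10 ^ 9 ≤ x0 ∧ ∀ x : ℝ, x0 ≤ x →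
    10 ^ 12 * (x + 4) ^ 13 ≤ Real.exp (x / 90) := by
  have h2 : Filter.Tendsto (fun x : ℝ => x ^ 13 * Real.exp (-((1 / 90) * x)))
      Filter.atTop (nhds 0) := by
    have := Real.tendsto_pow_mul_exp_neg_atTop_nhds_zero 13
    have h3 : Filter.Tendsto (fun x : ℝ => (1 / 90) * x) Filter.atTop Filter.atTop :=
      Filter.tendsto_id.const_mul_atTop (by norm_num)
    have h4 := this.comp h3
    have h5 := h4.const_mul ((90 : ℝ) ^ 13)
    rw [mul_zero] at h5
    refine h5.congr (fun x => ?_)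
    simp only [Function.comp]
    ring
  have h1 : Filter.Tendsto (fun x : ℝ => (x + 4) ^ 13 * Real.exp (-((1 / 90) * (x + 4))))
      Filter.atTop (nhds 0) :=
    h2.comp (Filter.tendsto_atTop_add_const_right _ 4 Filter.tendsto_id)
  have h6 := (h1.eventually (gt_mem_nhds (show (0 : ℝ) <
    (10 ^ 12 * Real.exp (4 / 90))⁻¹ by positivity)))
  obtain ⟨x1, hx1⟩ := Filter.eventually_atTop.1 h6
  refine ⟨max (10 ^ 9) x1, le_max_left _ _, ?_⟩
  intro x hx
  have h3 := (hx1 x ((le_max_right _ _).trans hx)).le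
  set a := Real.exp (x / 90) with ha
  set b := Real.exp (4 / 90 : ℝ) with hb
  have ha0 : 0 < a := Real.exp_pos _
  have hb0 : 0 < b := Real.exp_pos _
  have h4 : Real.exp (-((1 / 90) * (x + 4))) = (a * b)⁻¹ := by
    rw [ha, hb, ← Real.exp_add, ← Real.exp_neg]
    congr 1
    ring
  rw [h4] at h3
  have h5 : (x + 4) ^ 13 * (a * b)⁻¹ * (10 ^ 12 * (a * b)) ≤
      (10 ^ 12 * b)⁻¹ * (10 ^ 12 * (a * b)) :=
    mul_le_mul_of_nonneg_right h3 (by positivity)
  have h7 : (x + 4) ^ 13 * (a * b)⁻¹ * (10 ^ 12 * (a * b)) = 10 ^ 12 * (x + 4) ^ 13 := by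
    field_simp
  have h8 : (10 ^ 12 * b)⁻¹ * (10 ^ 12 * (a * b)) = a := by
    field_simp
  rw [h7, h8] at h5
  exact h5

lemma c2_ge (M : ℕ) : 1 / (16 * ((M : ℝ) + 1) ^ 4) ≤ c2 M := by
  unfold c2
  have h1 : (1 : ℝ) / 8 ≤ Real.exp (-2) := by
    rw [Real.exp_neg, le_inv_comm₀ (by norm_num) (Real.exp_pos _)]
    have h2 : Real.exp 2 = Real.exp 1 ^ 2 := by rw [← Real.exp_nat_mul]; norm_num
    rw [h2]
    have := Real.exp_one_lt_d9
    have h0 := Real.exp_pos 1
    norm_num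
    nlinarith
  have h3 : (1 : ℝ) / (16 * ((M : ℝ) + 1) ^ 4) = 1 / 8 / 2 / ((M : ℝ) + 1) ^ 4 := by
    field_simp
    norm_num
  rw [h3]
  gcongr

/-- The trade-off. -/
theorem tradeoff : ∃ A : ℝ, 0 < A ∧ ∀ p : ℕ, p.Prime → Odd p → ∀ m : ℕ, 2 ≤ m →
    (m : ℝ) ≤ 2 + Real.log p →
    (p : ℝ) ^ 6 ≤ A * Real.log p ^ 14 * (p : ℝ) ^ (A * Real.log m / m) *
      ((goodPairs ⌊A * Real.log m * Real.log p⌋₊ p).ncard : ℝ) := by
  obtain ⟨x0, hx0, hx⟩ := exists_threshold
  set p0 : ℕ := ⌈Real.exp x0⌉₊ with hp0def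
  have hp0nn : (0 : ℝ) ≤ (p0 : ℝ) := by positivity
  have hp06 : (0 : ℝ) ≤ (p0 : ℝ) ^ 6 := by positivity
  set A : ℝ := 10 ^ 20 + 96 * A1 + 2 * p0 + (p0 : ℝ) ^ 6 with hAdef
  have hA1 : 0 ≤ A1 := by unfold A1; norm_num
  have hAge : (10 : ℝ) ^ 20 ≤ A := by rw [hAdef]; linarith
  have hAge2 : 96 * A1 ≤ A := by
    rw [hAdef]
    have : (0 : ℝ) ≤ 10 ^ 20 := by norm_num
    linarith
  have hA0 : 0 < A := by
    have : (0 : ℝ) < 10 ^ 20 := by norm_num
    linarith
  refine ⟨A, hA0, ?_⟩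
  intro p hpp hodd m hm hmp
  have hmR : (2 : ℝ) ≤ m := by exact_mod_cast hm
  have hm0 : (0 : ℝ) < m := by linarith
  have hlogm : (1 / 2 : ℝ) ≤ Real.log m := by
    have h1 : Real.log 2 ≤ Real.log m := Real.log_le_log (by norm_num) hmR
    have := Real.log_two_gt_d9
    linarith
  have hp3 : 3 ≤ p := by
    have h2 := hpp.two_le
    rcases hodd with ⟨k, hk⟩
    omega
  have hp3R : (3 : ℝ) ≤ p := by exact_mod_cast hp3
  have hpR : (0 : ℝ) < p := by linarith
  have hp1R : (1 : ℝ) ≤ p := by linarith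
  have hlog1 : 1 ≤ Real.log p := by
    rw [Real.le_log_iff_exp_le hpR]
    have := Real.exp_one_lt_d9
    linarith
  have hpexp : 1 ≤ (p : ℝ) ^ (A * Real.log m / m) :=
    Real.one_le_rpow hp1R (by positivity)
  have hlogpow : 1 ≤ Real.log p ^ 14 := one_le_pow₀ hlog1
  set L : ℕ := ⌊A * Real.log m * Real.log p⌋₊ with hLdef
  set N : ℝ := ((goodPairs L p).ncard : ℝ) with hNdef
  have hN0 : 0 ≤ N := by positivity
  rcases Nat.lt_or_ge p p0 with hlt | hge
  · -- small primes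
    have hltR : (p : ℝ) ≤ p0 := by exact_mod_cast hlt.le
    have hL : p + 2 ≤ L := by
      rw [hLdef]
      apply Nat.le_floor
      push_cast
      have h2 : 2 * ((p : ℝ) + 2) ≤ A := by
        rw [hAdef]
        have : (4 : ℝ) ≤ 10 ^ 20 := by norm_num
        linarith
      have h3 : (p : ℝ) + 2 ≤ A * (1 / 2) := by linarith
      calc (p : ℝ) + 2 ≤ A * (1 / 2) * 1 := by linarith
        _ ≤ A * Real.log m * Real.log p := by gcongr
    have hmem := small_case p L hodd hp3 hL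
    have hn : 1 ≤ (goodPairs L p).ncard := by
      rw [Nat.one_le_iff_ne_zero, Ne, Set.ncard_eq_zero (goodPairs_finite L p)]
      exact Set.nonempty_iff_ne_empty.1 ⟨_, hmem⟩
    have hnR : (1 : ℝ) ≤ N := by rw [hNdef]; exact_mod_cast hn
    have h6 : (p : ℝ) ^ 6 ≤ (p0 : ℝ) ^ 6 := pow_le_pow_left₀ hpR.le hltR 6
    have h7 : (p0 : ℝ) ^ 6 ≤ A := by
      rw [hAdef]
      have : (0 : ℝ) ≤ 10 ^ 20 := by norm_num
      linarith
    calc (p : ℝ) ^ 6 ≤ A := h6.trans h7
      _ = A * 1 * 1 * 1 := by ring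
      _ ≤ _ := by gcongr
  · -- large primes
    set x : ℝ := Real.log p with hxdef
    have hpexpx : Real.exp x = p := Real.exp_log hpR
    have hxx0 : x0 ≤ x := by
      rw [hxdef, Real.le_log_iff_exp_le hpR]
      exact (Nat.le_ceil _).trans (by exact_mod_cast hge)
    have hthr := hx x hxx0
    set y : ℝ := Real.exp (x / 90) with hydef
    have hy90 : y ^ 90 = p := by
      rw [hydef, ← Real.exp_nat_mul, ← hpexpx]
      congr 1
      push_cast
      ring
    set M : ℕ := max M0 m with hMdef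
    have hMM0 : M0 ≤ M := le_max_left _ _
    have hM2 : 2 ≤ M := hm.trans (le_max_right _ _)
    have hMx : (M : ℝ) ≤ x + 2 := by
      rw [hMdef]
      rcases le_total M0 m with h | h
      · rw [max_eq_right h]; linarith
      · rw [max_eq_left h]
        have : ((M0 : ℕ) : ℝ) = 10 ^ 9 := by unfold M0; norm_num
        rw [this]
        linarith
    have hMnn : (0 : ℝ) ≤ M := by positivity
    have hx1 : (1 : ℝ) ≤ x := hlog1
    have hlam := lam_le_of_ge M hMM0
    have hlamA := lam_max_le m hm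
    rw [← hMdef] at hlamA
    have hlogM := log_max_le m hm
    rw [← hMdef] at hlogM
    have hc := c2_pos M
    have hcge := c2_ge M
    -- the conditions on y
    have hx4 : (1 : ℝ) ≤ x + 4 := by linarith
    have hpow13 : (M + 1 : ℝ) ^ 4 ≤ (x + 4) ^ 13 := by
      calc (M + 1 : ℝ) ^ 4 ≤ (x + 4) ^ 4 := by
            apply pow_le_pow_left₀ (by positivity); linarith
        _ ≤ (x + 4) ^ 13 := pow_le_pow_right₀ hx4 (by norm_num)
    have hK1 : 14256 / c2 M ≤ y := by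
      rw [div_le_iff₀ hc]
      have h1 : 14256 * (16 * ((M : ℝ) + 1) ^ 4) ≤ y := by
        calc 14256 * (16 * ((M : ℝ) + 1) ^ 4) = 228096 * ((M : ℝ) + 1) ^ 4 := by ring
          _ ≤ 10 ^ 12 * (x + 4) ^ 13 := by
            apply mul_le_mul (by norm_num) hpow13 (by positivity) (by norm_num)
          _ ≤ y := hthr
      have hy0 : 0 ≤ y := (Real.exp_pos _).le
      calc (14256 : ℝ) = 14256 * (16 * ((M : ℝ) + 1) ^ 4) * (1 / (16 * ((M : ℝ) + 1) ^ 4)) := by
            field_simp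
        _ ≤ y * c2 M := mul_le_mul h1 hcge (by positivity) hy0
    have hcge3 : (1 / (16 * ((M : ℝ) + 1) ^ 4)) ^ 3 ≤ c2 M ^ 3 :=
      pow_le_pow_left₀ (by positivity) hcge 3
    have hK2 : 1024 * ((M : ℝ) + 2) / c2 M ^ 3 ≤ y := by
      rw [div_le_iff₀ (by positivity)]
      have h1 : 1024 * ((M : ℝ) + 2) * (16 * ((M : ℝ) + 1) ^ 4) ^ 3 ≤ y := by
        calc 1024 * ((M : ℝ) + 2) * (16 * ((M : ℝ) + 1) ^ 4) ^ 3
            = 4194304 * (((M : ℝ) + 2) * ((M : ℝ) + 1) ^ 12) := by ring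
          _ ≤ 10 ^ 12 * ((x + 4) * (x + 4) ^ 12) := by
            apply mul_le_mul (by norm_num) _ (by positivity) (by norm_num)
            apply mul_le_mul (by linarith) _ (by positivity) (by linarith)
            apply pow_le_pow_left₀ (by positivity); linarith
          _ = 10 ^ 12 * (x + 4) ^ 13 := by ring
          _ ≤ y := hthr
      have hy0 : 0 ≤ y := (Real.exp_pos _).le
      calc 1024 * ((M : ℝ) + 2)
          = 1024 * ((M : ℝ) + 2) * (16 * ((M : ℝ) + 1) ^ 4) ^ 3 *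
            (1 / (16 * ((M : ℝ) + 1) ^ 4)) ^ 3 := by
            field_simp
        _ ≤ y * c2 M ^ 3 := mul_le_mul h1 hcge3 (by positivity) hy0
    have hy2 : 2 ≤ y := by
      have h1 : (1 : ℝ) ≤ (x + 4) ^ 13 := one_le_pow₀ hx4
      have h2 : (10 : ℝ) ^ 12 * 1 ≤ 10 ^ 12 * (x + 4) ^ 13 := by gcongr
      have h3 : (2 : ℝ) ≤ 10 ^ 12 * 1 := by norm_num
      linarith
    -- the cost
    set B : ℕ := ⌈(M : ℝ) * (3 + 4 * Real.log ((M : ℝ) + 1) + 24 * lam M * (4 * x))⌉₊ with hBdef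
    have hB : (M : ℝ) * (3 + 4 * Real.log ((M : ℝ) + 1) + 24 * lam M * (4 * x)) ≤ B :=
      Nat.le_ceil _
    have hlogM0 : 0 ≤ Real.log ((M : ℝ) + 1) := Real.log_nonneg (by linarith)
    have hMpos : (0 : ℝ) < M := by exact_mod_cast (show 0 < M by omega)
    have hexpand : (M : ℝ) * (3 + 4 * Real.log ((M : ℝ) + 1) + 24 * lam M * (4 * x))
        = M * 3 + M * (4 * Real.log ((M : ℝ) + 1)) + 96 * Real.log ((M : ℝ) + 1) * x := by
      unfold lam
      field_simp
      ring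
    have hM3x : (M : ℝ) ≤ 3 * x := by linarith
    have hlx : (1 / 2 : ℝ) ≤ Real.log m * x := by nlinarith
    have hBle : (B : ℝ) ≤ 20000 * (Real.log m * x) := by
      have h1 : (B : ℝ) < (M : ℝ) * (3 + 4 * Real.log ((M : ℝ) + 1) + 24 * lam M * (4 * x)) + 1 :=
        Nat.ceil_lt_add_one (by
          rw [hexpand]
          positivity)
      rw [hexpand] at h1
      have h2 : (M : ℝ) * 3 ≤ 18 * (Real.log m * x) := by nlinarith
      have h3 : (M : ℝ) * (4 * Real.log ((M : ℝ) + 1)) ≤ (3 * x) * (4 * (100 * Real.log m)) := by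
        gcongr
      have h4 : 96 * Real.log ((M : ℝ) + 1) * x ≤ 96 * (100 * Real.log m) * x := by
        gcongr
      nlinarith
    have hL : B + B + B ≤ L := by
      rw [hLdef]
      apply Nat.le_floor
      push_cast
      have h1 : (60000 : ℝ) ≤ A := by
        have : (60000 : ℝ) ≤ 10 ^ 20 := by norm_num
        linarith
      have h2 : 0 ≤ Real.log m * x := by linarith
      calc (B : ℝ) + B + B ≤ 60000 * (Real.log m * x) := by linarith
        _ ≤ A * (Real.log m * x) := mul_le_mul_of_nonneg_right h1 h2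
        _ = A * Real.log m * x := by ring
    have hmain := large_primes p M B L hpp hodd y hy90 hy2 hM2 hlam hK1 hK2 hB hL
    rw [← hxdef, ← hNdef] at hmain
    -- the exponential
    have hexp : Real.exp (96 * lam M * x) ≤ (p : ℝ) ^ (A * Real.log m / m) := by
      rw [Real.rpow_def_of_pos hpR, ← hxdef]
      apply Real.exp_le_exp.2
      have hq : 0 ≤ Real.log m / m := by positivity
      have h1 : 96 * lam M ≤ A * (Real.log m / m) := by
        calc 96 * lam M ≤ 96 * (A1 * (Real.log m / m)) := by linarith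
          _ = (96 * A1) * (Real.log m / m) := by ring
          _ ≤ A * (Real.log m / m) := mul_le_mul_of_nonneg_right hAge2 hq
      calc 96 * lam M * x ≤ A * (Real.log m / m) * x :=
            mul_le_mul_of_nonneg_right h1 (by linarith)
        _ = x * (A * Real.log m / m) := by ring
    -- conclusion
    have hcl3 : 1 / (4096 * (4 * x) ^ 12) ≤ c2 M ^ 3 := by
      refine le_trans ?_ hcge3
      rw [div_pow, one_pow]
      apply one_div_le_one_div_of_le (by positivity)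
      calc (16 * ((M : ℝ) + 1) ^ 4) ^ 3 = 4096 * ((M : ℝ) + 1) ^ 12 := by ring
        _ ≤ 4096 * (4 * x) ^ 12 := by
          apply mul_le_mul_of_nonneg_left _ (by norm_num)
          apply pow_le_pow_left₀ (by positivity)
          linarith
    have hden : (0 : ℝ) < 4096 * (4 * x) ^ 12 := by positivity
    have h1 : (p : ℝ) ^ 6 * (1 / (4096 * (4 * x) ^ 12)) ≤ 32768 * x ^ 2 *
        (p : ℝ) ^ (A * Real.log m / m) * N := by
      calc (p : ℝ) ^ 6 * (1 / (4096 * (4 * x) ^ 12)) ≤ (p : ℝ) ^ 6 * c2 M ^ 3 := by gcongr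
        _ = c2 M ^ 3 * (p : ℝ) ^ 6 := by ring
        _ ≤ _ := hmain
        _ ≤ _ := by gcongr
    rw [mul_one_div, div_le_iff₀ hden] at h1
    have h2 : 32768 * x ^ 2 * (p : ℝ) ^ (A * Real.log m / m) * N * (4096 * (4 * x) ^ 12)
        = 2251799813685248 * (x ^ 14 * (p : ℝ) ^ (A * Real.log m / m) * N) := by ring
    rw [h2] at h1
    refine h1.trans ?_
    have h3 : 0 ≤ x ^ 14 * (p : ℝ) ^ (A * Real.log m / m) * N := by positivity
    calc 2251799813685248 * (x ^ 14 * (p : ℝ) ^ (A * Real.log m / m) * N)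
        ≤ A * (x ^ 14 * (p : ℝ) ^ (A * Real.log m / m) * N) := by
          apply mul_le_mul_of_nonneg_right _ h3
          have : (2251799813685248 : ℝ) ≤ 10 ^ 20 := by norm_num
          linarith
      _ = _ := by ring

end Run7.h166
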