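import Pool.Agent.Run7.h166.OddDefs

/-!
The transducer computes the conjugate of a word by `diag(2, 1)`.
-/

namespace Run7.h166

open Matrix Gen

section General

variable {R : Type} [CommRing R]

/-- the matrix `(0,1;-1,0)` -/
def wMat (R : Type) [CommRing R] : SL2 R := ⟨!![0, 1; -1, 0], by simp [Matrix.det_fin_two]⟩

@[simp] lemma wMat_val00 : (wMat R).1 0 0 = 0 := rfl
@[simp] lemma wMat_val01 : (wMat R).1 0 1 = 1 := rfl
@[simp] lemma wMat_val10 : (wMat R).1 1 0 = -1 := rfl
@[simp] lemma wMat_val11 : (wMat R).1 1 1 = 0 := rfl

lemma eval_wWord : eval R wWord = wMat R := by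
  apply ext_val <;> simp [wWord, mul_val, Gen.mat]

lemma inv_val00 (A : SL2 R) : (A⁻¹).1 0 0 = A.1 1 1 := by
  rw [Matrix.SpecialLinearGroup.coe_inv, Matrix.adjugate_fin_two]; rfl
lemma inv_val01 (A : SL2 R) : (A⁻¹).1 0 1 = -A.1 0 1 := by
  rw [Matrix.SpecialLinearGroup.coe_inv, Matrix.adjugate_fin_two]; rfl
lemma inv_val10 (A : SL2 R) : (A⁻¹).1 1 0 = -A.1 1 0 := by
  rw [Matrix.SpecialLinearGroup.coe_inv, Matrix.adjugate_fin_two]; rfl
lemma inv_val11 (A : SL2 R) : (A⁻¹).1 1 1 = A.1 0 0 := by
  rw [Matrix.SpecialLinearGroup.coe_inv, Matrix.adjugate_fin_two]; rfl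

/-- Equality in PSL2 from a sign. -/
lemma mk_eq_of_neg {A B : SL2 R} (h : ∀ i j, B.1 i j = - A.1 i j) :
    ((A : SL2 R) : PSL2 R) = (B : SL2 R) :=
  mk_eq_mk_iff.2 ⟨-1, by ring, fun i j => by rw [h]; ring⟩

/-- Conjugation by `diag(2,1)`, where `h = 1/2`, as a function. -/
def conjFun (h : R) (hh : 2 * h = 1) (A : SL2 R) : SL2 R :=
  ⟨!![A.1 0 0, 2 * A.1 0 1; h * A.1 1 0, A.1 1 1], by
    rw [Matrix.det_fin_two]
    have := det_val A
    simp only [Matrix.of_apply, Matrix.cons_val', Matrix.cons_val_zero, Matrix.cons_val_one,
      Matrix.cons_val_fin_one]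
    linear_combination this - (A.1 0 1 * A.1 1 0) * hh⟩

section
variable (h : R) (hh : 2 * h = 1)
@[simp] lemma conjFun_val00 (A : SL2 R) : (conjFun h hh A).1 0 0 = A.1 0 0 := rfl
@[simp] lemma conjFun_val01 (A : SL2 R) : (conjFun h hh A).1 0 1 = 2 * A.1 0 1 := rfl
@[simp] lemma conjFun_val10 (A : SL2 R) : (conjFun h hh A).1 1 0 = h * A.1 1 0 := rfl
@[simp] lemma conjFun_val11 (A : SL2 R) : (conjFun h hh A).1 1 1 = A.1 1 1 := rfl
end

/-- Conjugation by `diag(2,1)`, where `h = 1/2`. -/
def conjD (h : R) (hh : 2 * h = 1) : SL2 R →* SL2 R where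
  toFun := conjFun h hh
  map_one' := by apply ext_val <;> simp
  map_mul' A B := by
    apply ext_val <;>
      simp only [mul_val, conjFun_val00, conjFun_val01, conjFun_val10, conjFun_val11]
    · linear_combination (- A.1 0 1 * B.1 1 0) * hh
    · ring
    · ring
    · linear_combination (- A.1 1 0 * B.1 0 1) * hh

variable (h : R) (hh : 2 * h = 1)

@[simp] lemma conjD_val00 (A : SL2 R) : (conjD h hh A).1 0 0 = A.1 0 0 := rfl
@[simp] lemma conjD_val01 (A : SL2 R) : (conjD h hh A).1 0 1 = 2 * A.1 0 1 := rfl
@[simp] lemma conjD_val10 (A : SL2 R) : (conjD h hh A).1 1 0 = h * A.1 1 0 := rfl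
@[simp] lemma conjD_val11 (A : SL2 R) : (conjD h hh A).1 1 1 = A.1 1 1 := rfl

/-- The coset representatives. -/
def rep (R : Type) [CommRing R] : Fin 3 → SL2 R
  | 0 => 1
  | 1 => lower 1
  | 2 => wMat R

lemma mk_eq_of_entries_neg {A B : SL2 R} (h1 : B.1 0 0 = - A.1 0 0) (h2 : B.1 0 1 = - A.1 0 1)
    (h3 : B.1 1 0 = - A.1 1 0) (h4 : B.1 1 1 = - A.1 1 1) :
    ((A : SL2 R) : PSL2 R) = (B : SL2 R) := by
  apply mk_eq_of_neg
  intro i j
  fin_cases i <;> fin_cases j
  · exact h1
  · exact h2
  · exact h3
  · exact h4

lemma mk_congr {A B : SL2 R} (h : A = B) : ((A : SL2 R) : PSL2 R) = (B : SL2 R) := by rw [h]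

lemma letter_step (s : Fin 3) (g : Gen) :
    ((conjD h hh (rep R s * Gen.mat R g) : SL2 R) : PSL2 R)
      = ((eval R (out s g) * conjD h hh (rep R (step s g)) : SL2 R) : PSL2 R) := by
  fin_cases s <;> cases g
  · apply mk_congr; apply ext_val <;> simp [mul_val, rep, step, out, Gen.mat] <;>
      (first
        | ring1
        | linear_combination hh
        | linear_combination (-1 : R) * hh
        | linear_combination (2 : R) * hh
        | linear_combination (-2 : R) * hh)
  · apply mk_congr; apply ext_val <;> simp [mul_val, rep, step, out, Gen.mat] <;>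
      (first
        | ring1
        | linear_combination hh
        | linear_combination (-1 : R) * hh
        | linear_combination (2 : R) * hh
        | linear_combination (-2 : R) * hh)
  · apply mk_congr; apply ext_val <;> simp [mul_val, rep, step, out, Gen.mat] <;>
      (first
        | ring1
        | linear_combination hh
        | linear_combination (-1 : R) * hh
        | linear_combination (2 : R) * hh
        | linear_combination (-2 : R) * hh)
  · apply mk_congr; apply ext_val <;> simp [mul_val, rep, step, out, Gen.mat] <;>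
      (first
        | ring1
        | linear_combination hh
        | linear_combination (-1 : R) * hh
        | linear_combination (2 : R) * hh
        | linear_combination (-2 : R) * hh)
  · apply mk_congr; apply ext_val <;> simp [mul_val, rep, step, out, Gen.mat] <;>
      (first
        | ring1
        | linear_combination hh
        | linear_combination (-1 : R) * hh
        | linear_combination (2 : R) * hh
        | linear_combination (-2 : R) * hh)
  · apply mk_eq_of_entries_neg <;> simp [mul_val, rep, step, out, Gen.mat] <;>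
      (first
        | ring1
        | linear_combination hh
        | linear_combination (-1 : R) * hh
        | linear_combination (2 : R) * hh
        | linear_combination (-2 : R) * hh)
  · apply mk_congr; apply ext_val <;> simp [mul_val, rep, step, out, Gen.mat] <;>
      (first
        | ring1
        | linear_combination hh
        | linear_combination (-1 : R) * hh
        | linear_combination (2 : R) * hh
        | linear_combination (-2 : R) * hh)
  · apply mk_congr; apply ext_val <;> simp [mul_val, rep, step, out, Gen.mat] <;>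
      (first
        | ring1
        | linear_combination hh
        | linear_combination (-1 : R) * hh
        | linear_combination (2 : R) * hh
        | linear_combination (-2 : R) * hh)
  · apply mk_eq_of_entries_neg <;> simp [mul_val, rep, step, out, Gen.mat] <;>
      (first
        | ring1
        | linear_combination hh
        | linear_combination (-1 : R) * hh
        | linear_combination (2 : R) * hh
        | linear_combination (-2 : R) * hh)
  · apply mk_congr; apply ext_val <;> simp [mul_val, rep, step, out, Gen.mat] <;>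
      (first
        | ring1
        | linear_combination hh
        | linear_combination (-1 : R) * hh
        | linear_combination (2 : R) * hh
        | linear_combination (-2 : R) * hh)
  · apply mk_congr; apply ext_val <;> simp [mul_val, rep, step, out, Gen.mat] <;>
      (first
        | ring1
        | linear_combination hh
        | linear_combination (-1 : R) * hh
        | linear_combination (2 : R) * hh
        | linear_combination (-2 : R) * hh)
  · apply mk_congr; apply ext_val <;> simp [mul_val, rep, step, out, Gen.mat] <;>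
      (first
        | ring1
        | linear_combination hh
        | linear_combination (-1 : R) * hh
        | linear_combination (2 : R) * hh
        | linear_combination (-2 : R) * hh)

/-- The value of the output of the transducer. -/
lemma transduce (s : Fin 3) (w : List Gen) :
    ((conjD h hh (rep R s * eval R w) : SL2 R) : PSL2 R)
      = ((eval R (runOut s w) * conjD h hh (rep R (finalState s w)) : SL2 R) : PSL2 R) := by
  induction w generalizing s with
  | nil => simp [runOut, finalState]
  | cons g w ih =>
    have h1 : rep R s * eval R (g :: w) = (rep R s * Gen.mat R g) * eval R w := by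
      rw [eval_cons, mul_assoc]
    rw [h1, map_mul]
    simp only [runOut, finalState, eval_append]
    have h2 := letter_step h hh s g
    have h3 := ih (step s g)
    rw [map_mul] at h3
    have e1 : ((conjD h hh (rep R s * Gen.mat R g) * conjD h hh (eval R w) : SL2 R) : PSL2 R)
        = ((conjD h hh (rep R s * Gen.mat R g) : SL2 R) : PSL2 R)
          * ((conjD h hh (eval R w) : SL2 R) : PSL2 R) := rfl
    have e2 : ((eval R (out s g) * conjD h hh (rep R (step s g)) : SL2 R) : PSL2 R)
        = ((eval R (out s g) : SL2 R) : PSL2 R)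
          * ((conjD h hh (rep R (step s g)) : SL2 R) : PSL2 R) := rfl
    have e3 : ((conjD h hh (rep R (step s g)) * conjD h hh (eval R w) : SL2 R) : PSL2 R)
        = ((conjD h hh (rep R (step s g)) : SL2 R) : PSL2 R)
          * ((conjD h hh (eval R w) : SL2 R) : PSL2 R) := rfl
    rw [e1, h2, e2, mul_assoc, ← e3, h3, mul_assoc]
    rfl

end General

section ModTwo

/-- The bottom row modulo 2 follows the state. -/
lemma bottom_step (s : Fin 3) (g : Gen) :
    (rep (ZMod 2) s * Gen.mat (ZMod 2) g).1 1 0 = (rep (ZMod 2) (step s g)).1 1 0 ∧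
    (rep (ZMod 2) s * Gen.mat (ZMod 2) g).1 1 1 = (rep (ZMod 2) (step s g)).1 1 1 := by
  fin_cases s <;> cases g <;> constructor <;> simp [mul_val, rep, step, Gen.mat] <;> decide

lemma bottom_final (s : Fin 3) (w : List Gen) :
    (rep (ZMod 2) s * eval (ZMod 2) w).1 1 0 = (rep (ZMod 2) (finalState s w)).1 1 0 ∧
    (rep (ZMod 2) s * eval (ZMod 2) w).1 1 1 = (rep (ZMod 2) (finalState s w)).1 1 1 := by
  induction w generalizing s with
  | nil => simp [finalState]
  | cons g w ih =>
    obtain ⟨a1, a2⟩ := bottom_step s g
    obtain ⟨b1, b2⟩ := ih (step s g)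
    rw [eval_cons, ← mul_assoc]
    simp only [finalState]
    rw [← b1, ← b2]
    constructor
    · rw [mul_val (rep (ZMod 2) s * mat (ZMod 2) g), mul_val (rep (ZMod 2) (step s g)), a1, a2]
    · rw [mul_val (rep (ZMod 2) s * mat (ZMod 2) g), mul_val (rep (ZMod 2) (step s g)), a1, a2]

lemma eval_bottom (w : List Gen) :
    (eval (ZMod 2) w).1 1 0 = (rep (ZMod 2) (finalState 0 w)).1 1 0 ∧
    (eval (ZMod 2) w).1 1 1 = (rep (ZMod 2) (finalState 0 w)).1 1 1 := by
  have := bottom_final 0 w
  simpa [rep] using this

lemma final_eq_zero_iff (w : List Gen) :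
    finalState 0 w = 0 ↔ (eval (ZMod 2) w).1 1 0 = 0 := by
  obtain ⟨h1, -⟩ := eval_bottom w
  rw [h1]
  generalize finalState 0 w = s
  fin_cases s <;> simp [rep]

lemma final_eq_two_iff (w : List Gen) :
    finalState 0 w = 2 ↔ (eval (ZMod 2) w).1 1 1 = 0 := by
  obtain ⟨-, h1⟩ := eval_bottom w
  rw [h1]
  generalize finalState 0 w = s
  fin_cases s <;> simp [rep]

lemma value_two_eq_one_iff (w : List Gen) : value 2 w = 1 ↔ eval (ZMod 2) w = 1 := by
  constructor
  · intro h
    have h' : ((eval (ZMod 2) w : SL2 (ZMod 2)) : PSL2 (ZMod 2)) = ((1 : SL2 (ZMod 2)) : PSL2 (ZMod 2)) := h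
    obtain ⟨c, hc, hcc⟩ := mk_eq_mk_iff.1 h'
    have hc1 : c = 1 := by
      have : ∀ x : ZMod 2, x ^ 2 = 1 → x = 1 := by decide
      exact this c hc
    subst hc1
    apply Subtype.ext
    ext i j
    have := hcc i j
    rw [one_mul] at this
    exact this.symm
  · intro h
    unfold value
    rw [h]
    rfl

end ModTwo


end Run7.h166
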