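import Pool.Agent.Run7.h166.Lists

/-!
Lower bounds for the number of lists of bounded partial quotients with a given bound for the
entries.
-/

namespace Run7.h166

open Finset

/-- Lists `m` of pairs of partial quotients in `[1, M]` such that the first entry of the
product applied to `v` is between `X / (M + 1)^2` and `X`. -/
def tree (M X : ℕ) : ℕ → ℕ × ℕ → Finset (List (ℕ × ℕ))
  | 0, _ => {[]}
  | n + 1, v => if X < (M + 1) ^ 2 * v.1 then {[]} else
      ((Finset.Icc 1 M) ×ˢ (Finset.Icc 1 M)).biUnion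
        (fun ab => (tree M X n (stp ab v)).image (fun m => m ++ [ab]))

lemma tree_spec (M X n : ℕ) (v : ℕ × ℕ) (hv : v.1 ≤ X) (hv2 : v.2 ≤ v.1) (m : List (ℕ × ℕ))
    (hm : m ∈ tree M X n v) :
    (∀ ab ∈ m, (1 ≤ ab.1 ∧ ab.1 ≤ M) ∧ (1 ≤ ab.2 ∧ ab.2 ≤ M)) ∧ (app m v).1 ≤ X ∧
      m.length ≤ n := by
  induction n generalizing v m with
  | zero =>
    simp only [tree, Finset.mem_singleton] at hm
    subst hm
    exact ⟨by simp, hv, by simp⟩
  | succ n ih =>
    unfold tree at hm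
    split_ifs at hm with hX
    · simp only [Finset.mem_singleton] at hm
      subst hm
      exact ⟨by simp, hv, by simp⟩
    · rw [Finset.mem_biUnion] at hm
      obtain ⟨ab, hab, hm⟩ := hm
      rw [Finset.mem_image] at hm
      obtain ⟨m', hm', rfl⟩ := hm
      rw [Finset.mem_product, Finset.mem_Icc, Finset.mem_Icc] at hab
      obtain ⟨⟨ha1, ha2⟩, hb1, hb2⟩ := hab
      push Not at hX
      have h1 : (stp ab v).1 ≤ X := by
        unfold stp
        simp only
        calc v.1 + ab.1 * (v.2 + ab.2 * v.1) ≤ v.1 + M * (v.1 + M * v.1) := by gcongr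
          _ ≤ (M + 1) ^ 2 * v.1 := by nlinarith
          _ ≤ X := hX
      have h2 : (stp ab v).2 ≤ (stp ab v).1 := by
        unfold stp
        simp only
        have : v.2 + ab.2 * v.1 ≤ ab.1 * (v.2 + ab.2 * v.1) := Nat.le_mul_of_pos_left _ ha1
        omega
      obtain ⟨k1, k2, k3⟩ := ih (stp ab v) h1 h2 m' hm'
      refine ⟨?_, ?_, ?_⟩
      · intro x hx
        rcases List.mem_append.1 hx with hx | hx
        · exact k1 x hx
        · rw [List.mem_singleton] at hx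
          subst hx
          exact ⟨⟨ha1, ha2⟩, hb1, hb2⟩
      · rw [app_append]
        exact k2
      · rw [List.length_append, List.length_singleton]; omega

lemma sum_one_step (x y : ℝ) (hx : 0 < x) (hy : 0 ≤ y) (M : ℕ) :
    ∑ b ∈ Finset.Icc 1 M, 1 / ((y + b * x) * (y + b * x + x))
      = M / ((x + y) * (y + (M + 1) * x)) := by
  induction M with
  | zero => simp
  | succ M ih =>
    rw [Finset.sum_Icc_succ_top (by omega), ih]
    push_cast
    have h1 : (0 : ℝ) < x + y := by linarith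
    have h2 : (0 : ℝ) < y + (M + 1) * x := by positivity
    have h3 : (0 : ℝ) < y + (M + 1) * x + x := by positivity
    have h4 : (0 : ℝ) < y + (M + 1 + 1) * x := by positivity
    rw [div_add_div _ _ (by positivity) (by positivity), div_eq_div_iff (by positivity)
      (by positivity)]
    ring

lemma one_step_ge (x y : ℝ) (hx : 0 < x) (hy : 0 ≤ y) (hyx : y ≤ x) (M : ℕ) :
    (M : ℝ) / (M + 2) * (1 / (x * (x + y)))
      ≤ ∑ b ∈ Finset.Icc 1 M, 1 / ((y + b * x) * (y + b * x + x)) := by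
  rw [sum_one_step x y hx hy M, div_mul_div_comm, mul_one]
  have h2 : (0 : ℝ) < y + (M + 1) * x := by positivity
  apply div_le_div_of_nonneg_left (by positivity) (by positivity)
  have h3 : y + (M + 1) * x ≤ (M + 2) * x := by linarith
  have h1 : (0 : ℝ) < x + y := by linarith
  nlinarith [mul_le_mul_of_nonneg_left h3 h1.le]

/-- The weight of a vector. -/
noncomputable def wt (v : ℕ × ℕ) : ℝ := 1 / ((v.1 : ℝ) * ((v.1 : ℝ) + v.2))

lemma two_step_ge (v : ℕ × ℕ) (h1 : 1 ≤ v.1) (h2 : v.2 ≤ v.1) (M : ℕ) :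
    ((M : ℝ) / (M + 2)) ^ 2 * wt v
      ≤ ∑ ab ∈ (Finset.Icc 1 M) ×ˢ (Finset.Icc 1 M), wt (stp ab v) := by
  have hx : (0 : ℝ) < v.1 := by exact_mod_cast h1
  have hy : (0 : ℝ) ≤ v.2 := by positivity
  have hyx : (v.2 : ℝ) ≤ v.1 := by exact_mod_cast h2
  rw [Finset.sum_product_right]
  have key : ∀ b ∈ Finset.Icc 1 M, (M : ℝ) / (M + 2) *
      (1 / (((v.2 : ℝ) + b * v.1) * ((v.2 : ℝ) + b * v.1 + v.1)))
      ≤ ∑ a ∈ Finset.Icc 1 M, wt (stp (a, b) v) := by
    intro b hb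
    rw [Finset.mem_Icc] at hb
    have hb1 : (1 : ℝ) ≤ b := by exact_mod_cast hb.1
    have hz : (v.1 : ℝ) ≤ (v.2 : ℝ) + b * v.1 := by nlinarith
    have h3 := one_step_ge ((v.2 : ℝ) + b * v.1) v.1 (by linarith) hx.le hz M
    refine h3.trans (le_of_eq ?_)
    apply Finset.sum_congr rfl
    intro a _
    unfold wt stp
    push_cast
    rfl
  calc ((M : ℝ) / (M + 2)) ^ 2 * wt v
      = (M : ℝ) / (M + 2) * ((M : ℝ) / (M + 2) * (1 / ((v.1 : ℝ) * ((v.1 : ℝ) + v.2)))) := by
        unfold wt; ring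
    _ ≤ (M : ℝ) / (M + 2) * ∑ b ∈ Finset.Icc 1 M,
        1 / (((v.2 : ℝ) + b * v.1) * ((v.2 : ℝ) + b * v.1 + v.1)) :=
        mul_le_mul_of_nonneg_left (one_step_ge v.1 v.2 hx hy hyx M) (by positivity)
    _ = ∑ b ∈ Finset.Icc 1 M, (M : ℝ) / (M + 2) *
        (1 / (((v.2 : ℝ) + b * v.1) * ((v.2 : ℝ) + b * v.1 + v.1))) := by
        rw [Finset.mul_sum]
    _ ≤ _ := Finset.sum_le_sum key

lemma card_tree_ge (M X n : ℕ) (v : ℕ × ℕ) (h1 : 1 ≤ v.1) (h2 : v.2 ≤ v.1)
    (hn : X ^ 2 < v.1 * (v.1 + v.2) * 4 ^ n) :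
    (((M : ℝ) / (M + 2)) ^ 2) ^ n * (((X : ℝ) ^ 2 / ((M : ℝ) + 1) ^ 4) * wt v)
      ≤ ((tree M X n v).card : ℝ) := by
  have hρ0 : 0 ≤ ((M : ℝ) / (M + 2)) ^ 2 := by positivity
  have hρ1 : ((M : ℝ) / (M + 2)) ^ 2 ≤ 1 := by
    apply pow_le_one₀ (by positivity)
    rw [div_le_one (by positivity)]
    linarith
  have hM1 : (1 : ℝ) ≤ ((M : ℝ) + 1) ^ 4 := by
    apply one_le_pow₀
    have : (0 : ℝ) ≤ M := by positivity
    linarith
  induction n generalizing v with
  | zero =>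
    have hx : (0 : ℝ) < v.1 := by exact_mod_cast h1
    have hv : (0 : ℝ) < (v.1 : ℝ) * ((v.1 : ℝ) + v.2) := by positivity
    have hX : (X : ℝ) ^ 2 ≤ (v.1 : ℝ) * ((v.1 : ℝ) + v.2) := by
      have : X ^ 2 ≤ v.1 * (v.1 + v.2) := by simpa using hn.le
      exact_mod_cast this
    simp only [tree, Finset.card_singleton, pow_zero, one_mul, Nat.cast_one]
    unfold wt
    rw [div_mul_div_comm, mul_one, div_le_one (by positivity)]
    nlinarith
  | succ n ih =>
    have hx : (0 : ℝ) < v.1 := by exact_mod_cast h1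
    have hv : (0 : ℝ) < (v.1 : ℝ) * ((v.1 : ℝ) + v.2) := by positivity
    unfold tree
    split_ifs with hX
    · rw [Finset.card_singleton, Nat.cast_one]
      have hX' : (X : ℝ) ≤ ((M : ℝ) + 1) ^ 2 * v.1 := by exact_mod_cast hX.le
      have hX2 : (X : ℝ) ^ 2 ≤ ((M : ℝ) + 1) ^ 4 * ((v.1 : ℝ) * ((v.1 : ℝ) + v.2)) := by
        have h3 : (X : ℝ) ^ 2 ≤ (((M : ℝ) + 1) ^ 2 * v.1) ^ 2 :=
          pow_le_pow_left₀ (by positivity) hX' 2
        have h4 : (v.1 : ℝ) * v.1 ≤ (v.1 : ℝ) * ((v.1 : ℝ) + v.2) := by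
          apply mul_le_mul_of_nonneg_left _ hx.le
          have : (0 : ℝ) ≤ v.2 := by positivity
          linarith
        calc _ ≤ _ := h3
          _ = ((M : ℝ) + 1) ^ 4 * ((v.1 : ℝ) * v.1) := by ring
          _ ≤ _ := mul_le_mul_of_nonneg_left h4 (by positivity)
      have h5 : ((X : ℝ) ^ 2 / ((M : ℝ) + 1) ^ 4) * wt v ≤ 1 := by
        unfold wt
        rw [div_mul_div_comm, mul_one, div_le_one (by positivity)]
        exact hX2
      have h6 : 0 ≤ ((X : ℝ) ^ 2 / ((M : ℝ) + 1) ^ 4) * wt v := by unfold wt; positivity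
      exact mul_le_one₀ (pow_le_one₀ hρ0 hρ1) h6 h5
    · rw [Finset.card_biUnion]
      · have hcard : ∀ ab ∈ (Finset.Icc 1 M) ×ˢ (Finset.Icc 1 M),
            ((tree M X n (stp ab v)).image (fun m => m ++ [ab])).card
              = (tree M X n (stp ab v)).card := by
          intro ab _
          apply Finset.card_image_of_injective
          intro m m' h
          exact List.append_cancel_right h
        rw [Finset.sum_congr rfl hcard]
        push_cast
        have hchild : ∀ ab ∈ (Finset.Icc 1 M) ×ˢ (Finset.Icc 1 M),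
            (((M : ℝ) / (M + 2)) ^ 2) ^ n * (((X : ℝ) ^ 2 / ((M : ℝ) + 1) ^ 4) * wt (stp ab v))
              ≤ ((tree M X n (stp ab v)).card : ℝ) := by
          intro ab hab
          rw [Finset.mem_product, Finset.mem_Icc, Finset.mem_Icc] at hab
          obtain ⟨⟨ha1, ha2⟩, hb1, hb2⟩ := hab
          have k0 : v.1 + v.2 ≤ (stp ab v).2 := by
            unfold stp
            simp only
            have : v.1 ≤ ab.2 * v.1 := Nat.le_mul_of_pos_left _ hb1
            omega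
          have k1 : v.1 + (stp ab v).2 ≤ (stp ab v).1 := by
            unfold stp
            simp only
            have : v.2 + ab.2 * v.1 ≤ ab.1 * (v.2 + ab.2 * v.1) := Nat.le_mul_of_pos_left _ ha1
            omega
          apply ih
          · omega
          · omega
          · have k2 : 4 * (v.1 * (v.1 + v.2)) ≤ (stp ab v).1 * ((stp ab v).1 + (stp ab v).2) := by
              calc 4 * (v.1 * (v.1 + v.2)) ≤ (2 * v.1 + v.2) * ((2 * v.1 + v.2) + (v.1 + v.2)) := by
                    nlinarith [Nat.zero_le (v.1 * v.2), Nat.zero_le (v.2 * v.2)]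
                _ ≤ (stp ab v).1 * ((stp ab v).1 + (stp ab v).2) := by
                    apply Nat.mul_le_mul
                    · omega
                    · omega
            calc X ^ 2 < v.1 * (v.1 + v.2) * 4 ^ (n + 1) := hn
              _ = 4 * (v.1 * (v.1 + v.2)) * 4 ^ n := by ring
              _ ≤ _ := Nat.mul_le_mul_right _ k2
        refine le_trans ?_ (Finset.sum_le_sum hchild)
        rw [← Finset.mul_sum, ← Finset.mul_sum, pow_succ, mul_assoc]
        apply mul_le_mul_of_nonneg_left _ (by positivity)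
        calc ((M : ℝ) / (M + 2)) ^ 2 * ((X : ℝ) ^ 2 / ((M : ℝ) + 1) ^ 4 * wt v)
            = ((X : ℝ) ^ 2 / ((M : ℝ) + 1) ^ 4) * (((M : ℝ) / (M + 2)) ^ 2 * wt v) := by ring
          _ ≤ _ := mul_le_mul_of_nonneg_left (two_step_ge v h1 h2 M) (by positivity)
      · intro ab _ ab' _ hne
        rw [Function.onFun, Finset.disjoint_left]
        intro m hm hm'
        rw [Finset.mem_image] at hm hm'
        obtain ⟨m1, -, rfl⟩ := hm
        obtain ⟨m2, -, h2⟩ := hm'
        apply hne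
        have := List.append_inj_right' h2 rfl
        simpa using this.symm

/-- The set of lists with partial quotients in `[1, M]` used below. -/
def nset (M X : ℕ) : Finset (List (ℕ × ℕ)) := tree M X (Nat.log 2 X + 1) (1, 0)

lemma nset_spec (M X : ℕ) (hX : 1 ≤ X) (m : List (ℕ × ℕ)) (hm : m ∈ nset M X) :
    (∀ ab ∈ m, (1 ≤ ab.1 ∧ ab.1 ≤ M) ∧ (1 ≤ ab.2 ∧ ab.2 ≤ M)) ∧ (col m).1 ≤ X ∧
      m.length ≤ Nat.log 2 X + 1 :=
  tree_spec M X _ (1, 0) hX (by simp) m hm

lemma nset_posL {M X : ℕ} (hX : 1 ≤ X) {m : List (ℕ × ℕ)} (hm : m ∈ nset M X) : PosL m := by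
  intro ab hab
  obtain ⟨h, -⟩ := nset_spec M X hX m hm
  exact ⟨(h ab hab).1.1, (h ab hab).2.1⟩

lemma card_nset_ge (M X : ℕ) (hX : 1 ≤ X) :
    (((M : ℝ) / (M + 2)) ^ 2) ^ (Nat.log 2 X + 1) * ((X : ℝ) ^ 2 / ((M : ℝ) + 1) ^ 4)
      ≤ ((nset M X).card : ℝ) := by
  have h := card_tree_ge M X (Nat.log 2 X + 1) (1, 0) (by simp) (by simp) (by
    have h1 : X < 2 ^ (Nat.log 2 X + 1) := Nat.lt_pow_succ_log_self (by norm_num) X
    simp only [add_zero, mul_one, one_mul]
    calc X ^ 2 < (2 ^ (Nat.log 2 X + 1)) ^ 2 := Nat.pow_lt_pow_left h1 (by norm_num)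
      _ = 4 ^ (Nat.log 2 X + 1) := by rw [← pow_mul, mul_comm, pow_mul]; norm_num)
  have hw : wt (1, 0) = 1 := by simp [wt]
  rw [hw, mul_one] at h
  exact h

/-- The lower bound in terms of powers of `X`. -/
theorem card_nset_ge_rpow (M X : ℕ) (hM : 1 ≤ M) (hX : 1 ≤ X) :
    Real.exp (-4) / ((M : ℝ) + 1) ^ 4 * (X : ℝ) ^ (2 - 6 / (M : ℝ)) ≤ ((nset M X).card : ℝ) := by
  refine le_trans ?_ (card_nset_ge M X hX)
  have hM0 : (0 : ℝ) < M := by exact_mod_cast hM
  have hM1 : (1 : ℝ) ≤ M := by exact_mod_cast hM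
  have hX0 : (0 : ℝ) < X := by exact_mod_cast hX
  have hX1 : (1 : ℝ) ≤ X := by exact_mod_cast hX
  set n := Nat.log 2 X + 1 with hn
  have hlogn : (n : ℝ) ≤ 3 / 2 * Real.log X + 1 := by
    have h1 : 2 ^ (Nat.log 2 X) ≤ X := Nat.pow_log_le_self 2 (by omega)
    have h2 : ((2 : ℝ)) ^ (Nat.log 2 X) ≤ X := by exact_mod_cast h1
    have h3 : (Nat.log 2 X : ℝ) * Real.log 2 ≤ Real.log X := by
      rw [← Real.log_pow]
      exact Real.log_le_log (by positivity) h2
    have h4 : (2 / 3 : ℝ) ≤ Real.log 2 := by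
      have := Real.log_two_gt_d9
      linarith
    have h5 : (0 : ℝ) ≤ (Nat.log 2 X : ℝ) := by positivity
    rw [hn]
    push_cast
    nlinarith
  have hρ : Real.exp (-(4 * n / M)) ≤ (((M : ℝ) / (M + 2)) ^ 2) ^ n := by
    have h1 : Real.exp (-(2 / M)) ≤ (M : ℝ) / (M + 2) := by
      have h2 : (M : ℝ) / (M + 2) = (1 + 2 / (M : ℝ))⁻¹ := by
        rw [← one_div]
        field_simp
      rw [h2, Real.exp_neg]
      apply inv_anti₀ (by positivity)
      have := Real.add_one_le_exp (2 / (M : ℝ))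
      linarith
    calc Real.exp (-(4 * n / M)) = (Real.exp (-(2 / M)) ^ 2) ^ n := by
          rw [← pow_mul, ← Real.exp_nat_mul]
          congr 1
          push_cast
          ring
      _ ≤ _ := by gcongr
  have hX6 : (X : ℝ) ^ (2 - 6 / (M : ℝ)) = X ^ 2 * Real.exp (-(6 / M * Real.log X)) := by
    rw [Real.rpow_sub hX0, Real.rpow_two, Real.exp_neg, mul_comm (6 / (M : ℝ)),
      ← Real.rpow_def_of_pos hX0]
    rfl
  rw [hX6]
  have hexp : Real.exp (-4) * Real.exp (-(6 / M * Real.log X)) ≤ Real.exp (-(4 * n / M)) := by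
    rw [← Real.exp_add]
    apply Real.exp_le_exp.2
    have h1 : 4 * (n : ℝ) / M ≤ 4 * (3 / 2 * Real.log X + 1) / M := by gcongr
    have h2 : 4 * (3 / 2 * Real.log X + 1) / M = 6 / M * Real.log X + 4 / M := by ring
    have h3 : 4 / (M : ℝ) ≤ 4 := by
      rw [div_le_iff₀ hM0]; linarith
    linarith
  calc Real.exp (-4) / ((M : ℝ) + 1) ^ 4 * (X ^ 2 * Real.exp (-(6 / M * Real.log X)))
      = (Real.exp (-4) * Real.exp (-(6 / M * Real.log X))) * ((X : ℝ) ^ 2 / ((M : ℝ) + 1) ^ 4) := by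
        ring
    _ ≤ (((M : ℝ) / (M + 2)) ^ 2) ^ n * ((X : ℝ) ^ 2 / ((M : ℝ) + 1) ^ 4) :=
        mul_le_mul_of_nonneg_right (hexp.trans hρ) (by positivity)

end Run7.h166
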