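import Pool.Agent.Run7.h166.Tree

/-!
Lower bounds for the number of lists of small total cost.
-/

namespace Run7.h166

open Finset

/-- The weighted one-step inequality, `θ = M/(M+2) - 2 h / M` with `h = ∑ 1/(b+1)`. -/
noncomputable def theta (M : ℕ) : ℝ :=
  (M : ℝ) / (M + 2) - 2 * (∑ b ∈ Finset.Icc 1 M, 1 / ((b : ℝ) + 1)) / M

lemma one_step_weighted (x y : ℝ) (hx : 0 < x) (hy : 0 ≤ y) (hyx : y ≤ x) (M : ℕ) (hM : 1 ≤ M) :
    theta M * (1 / (x * (x + y)))
      ≤ ∑ b ∈ Finset.Icc 1 M, Real.exp (-(b / M)) * (1 / ((y + b * x) * (y + b * x + x))) := by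
  have hM0 : (0 : ℝ) < M := by exact_mod_cast hM
  have h1 := one_step_ge x y hx hy hyx M
  have h2 : ∀ b ∈ Finset.Icc 1 M, 1 / ((y + b * x) * (y + b * x + x))
      - 2 / M * (1 / ((b : ℝ) + 1)) * (1 / (x * (x + y)))
      ≤ Real.exp (-(b / M)) * (1 / ((y + b * x) * (y + b * x + x))) := by
    intro b hb
    rw [Finset.mem_Icc] at hb
    have hb1 : (1 : ℝ) ≤ b := by exact_mod_cast hb.1
    have hb0 : (0 : ℝ) < b := by linarith
    have hpos : 0 < (y + b * x) * (y + b * x + x) := by positivity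
    have e1 : 1 - (b : ℝ) / M ≤ Real.exp (-(b / M)) := by
      have := Real.add_one_le_exp (-((b : ℝ) / M))
      linarith
    have e2 : (1 - (b : ℝ) / M) * (1 / ((y + b * x) * (y + b * x + x)))
        ≤ Real.exp (-(b / M)) * (1 / ((y + b * x) * (y + b * x + x))) :=
      mul_le_mul_of_nonneg_right e1 (by positivity)
    refine le_trans ?_ e2
    -- `b / (M (y+bx)(y+bx+x)) ≤ 2 / (M (b+1) x (x+y))`
    have e3 : (b : ℝ) * (1 / ((y + b * x) * (y + b * x + x)))
        ≤ 2 * (1 / ((b : ℝ) + 1)) * (1 / (x * (x + y))) := by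
      have e4 : (b : ℝ) * (1 / ((y + b * x) * (y + b * x + x))) ≤ 1 / (((b : ℝ) + 1) * x ^ 2) := by
        rw [mul_one_div, div_le_div_iff₀ hpos (by positivity)]
        have : (b * x) * ((b + 1) * x) ≤ (y + b * x) * (y + b * x + x) := by
          apply mul_le_mul (by linarith) (by linarith) (by positivity) (by positivity)
        nlinarith
      have e5 : 1 / (((b : ℝ) + 1) * x ^ 2) ≤ 2 * (1 / ((b : ℝ) + 1)) * (1 / (x * (x + y))) := by
        have : 2 * (1 / ((b : ℝ) + 1)) * (1 / (x * (x + y))) = 2 / (((b : ℝ) + 1) * (x * (x + y))) := by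
          field_simp
        rw [this, div_le_div_iff₀ (by positivity) (by positivity)]
        have h3 : x * (x + y) ≤ 2 * x ^ 2 := by nlinarith
        nlinarith [mul_le_mul_of_nonneg_left h3 (show (0 : ℝ) ≤ (b : ℝ) + 1 by positivity)]
      exact e4.trans e5
    have e6 : (b : ℝ) / M * (1 / ((y + b * x) * (y + b * x + x)))
        ≤ 2 / M * (1 / ((b : ℝ) + 1)) * (1 / (x * (x + y))) := by
      calc (b : ℝ) / M * (1 / ((y + b * x) * (y + b * x + x)))
          = (1 / M) * ((b : ℝ) * (1 / ((y + b * x) * (y + b * x + x)))) := by ring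
        _ ≤ (1 / M) * (2 * (1 / ((b : ℝ) + 1)) * (1 / (x * (x + y)))) :=
            mul_le_mul_of_nonneg_left e3 (by positivity)
        _ = _ := by ring
    have e7 : (1 - (b : ℝ) / M) * (1 / ((y + b * x) * (y + b * x + x)))
        = 1 / ((y + b * x) * (y + b * x + x))
          - (b : ℝ) / M * (1 / ((y + b * x) * (y + b * x + x))) := by ring
    rw [e7]
    linarith
  have h3 := Finset.sum_le_sum h2
  rw [Finset.sum_sub_distrib, ← Finset.sum_mul, ← Finset.mul_sum] at h3
  refine le_trans ?_ h3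
  unfold theta
  have h4 : ((M : ℝ) / (M + 2) - 2 * (∑ b ∈ Finset.Icc 1 M, 1 / ((b : ℝ) + 1)) / M)
      * (1 / (x * (x + y))) = (M : ℝ) / (M + 2) * (1 / (x * (x + y)))
        - 2 / M * (∑ b ∈ Finset.Icc 1 M, 1 / ((b : ℝ) + 1)) * (1 / (x * (x + y))) := by ring
  rw [h4]
  linarith

/-- The cost of a list. -/
def cost (m : List (ℕ × ℕ)) : ℕ := (m.map (fun ab => ab.1 + ab.2)).sum

lemma cost_nil : cost [] = 0 := rfl

lemma cost_append (m m' : List (ℕ × ℕ)) : cost (m ++ m') = cost m + cost m' := by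
  unfold cost
  rw [List.map_append, List.sum_append]

lemma cost_single (ab : ℕ × ℕ) : cost [ab] = ab.1 + ab.2 := by simp [cost]

lemma length_qword_eq (l : List (ℕ × ℕ)) : (qword l).length = cost l := by
  induction l with
  | nil => rfl
  | cons ab l ih =>
    simp only [qword, List.length_append, List.length_replicate, ih]
    simp only [cost, List.map_cons, List.sum_cons]
    ring

/-- The weighted sum over the tree. -/
noncomputable def wsum (M X n : ℕ) (v : ℕ × ℕ) : ℝ :=
  ∑ m ∈ tree M X n v, Real.exp (-((cost m : ℝ) / M))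

lemma two_step_weighted (v : ℕ × ℕ) (h1 : 1 ≤ v.1) (h2 : v.2 ≤ v.1) (M : ℕ) (hM : 1 ≤ M)
    (hθ : 0 ≤ theta M) :
    theta M ^ 2 * wt v
      ≤ ∑ ab ∈ (Finset.Icc 1 M) ×ˢ (Finset.Icc 1 M),
        Real.exp (-(((ab.1 + ab.2 : ℕ) : ℝ) / M)) * wt (stp ab v) := by
  have hx : (0 : ℝ) < v.1 := by exact_mod_cast h1
  have hy : (0 : ℝ) ≤ v.2 := by positivity
  have hyx : (v.2 : ℝ) ≤ v.1 := by exact_mod_cast h2
  rw [Finset.sum_product_right]
  have key : ∀ b ∈ Finset.Icc 1 M, theta M * (Real.exp (-((b : ℝ) / M)) *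
      (1 / (((v.2 : ℝ) + b * v.1) * ((v.2 : ℝ) + b * v.1 + v.1))))
      ≤ ∑ a ∈ Finset.Icc 1 M, Real.exp (-(((a + b : ℕ) : ℝ) / M)) * wt (stp (a, b) v) := by
    intro b hb
    rw [Finset.mem_Icc] at hb
    have hb1 : (1 : ℝ) ≤ b := by exact_mod_cast hb.1
    have hz : (v.1 : ℝ) ≤ (v.2 : ℝ) + b * v.1 := by nlinarith
    have h3 := one_step_weighted ((v.2 : ℝ) + b * v.1) v.1 (by linarith) hx.le hz M hM
    have h4 := mul_le_mul_of_nonneg_left h3 (Real.exp_pos (-((b : ℝ) / M))).le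
    calc theta M * (Real.exp (-((b : ℝ) / M)) *
          (1 / (((v.2 : ℝ) + b * v.1) * ((v.2 : ℝ) + b * v.1 + v.1))))
        = Real.exp (-((b : ℝ) / M)) * (theta M *
          (1 / (((v.2 : ℝ) + b * v.1) * ((v.2 : ℝ) + b * v.1 + v.1)))) := by ring
      _ ≤ _ := h4
      _ = _ := by
        rw [Finset.mul_sum]
        apply Finset.sum_congr rfl
        intro a _
        rw [← mul_assoc, ← Real.exp_add]
        congr 1
        · congr 1
          push_cast
          ring
        · unfold wt stp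
          push_cast
          rfl
  calc theta M ^ 2 * wt v
      = theta M * (theta M * (1 / ((v.1 : ℝ) * ((v.1 : ℝ) + v.2)))) := by
        unfold wt; ring
    _ ≤ theta M * ∑ b ∈ Finset.Icc 1 M, Real.exp (-((b : ℝ) / M)) *
        (1 / (((v.2 : ℝ) + b * v.1) * ((v.2 : ℝ) + b * v.1 + v.1))) :=
        mul_le_mul_of_nonneg_left (one_step_weighted v.1 v.2 hx hy hyx M hM) hθ
    _ = ∑ b ∈ Finset.Icc 1 M, theta M * (Real.exp (-((b : ℝ) / M)) *
        (1 / (((v.2 : ℝ) + b * v.1) * ((v.2 : ℝ) + b * v.1 + v.1)))) := by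
        rw [Finset.mul_sum]
    _ ≤ _ := Finset.sum_le_sum key

lemma theta_le_one (M : ℕ) : theta M ≤ 1 := by
  unfold theta
  have h1 : (M : ℝ) / (M + 2) ≤ 1 := by
    rw [div_le_one (by positivity)]; linarith
  have h2 : 0 ≤ 2 * (∑ b ∈ Finset.Icc 1 M, 1 / ((b : ℝ) + 1)) / M := by
    apply div_nonneg _ (by positivity)
    apply mul_nonneg (by norm_num)
    exact Finset.sum_nonneg (fun b _ => by positivity)
  linarith

lemma wsum_ge (M X n : ℕ) (v : ℕ × ℕ) (hM : 1 ≤ M) (hθ : 0 ≤ theta M) (h1 : 1 ≤ v.1)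
    (h2 : v.2 ≤ v.1) (hn : X ^ 2 < v.1 * (v.1 + v.2) * 4 ^ n) :
    (theta M ^ 2) ^ n * (((X : ℝ) ^ 2 / ((M : ℝ) + 1) ^ 4) * wt v) ≤ wsum M X n v := by
  have hρ0 : 0 ≤ theta M ^ 2 := by positivity
  have hρ1 : theta M ^ 2 ≤ 1 := pow_le_one₀ hθ (theta_le_one M)
  have hM1 : (1 : ℝ) ≤ ((M : ℝ) + 1) ^ 4 := by
    apply one_le_pow₀
    have : (0 : ℝ) ≤ M := by positivity
    linarith
  induction n generalizing v with
  | zero =>
    have hx : (0 : ℝ) < v.1 := by exact_mod_cast h1
    have hv : (0 : ℝ) < (v.1 : ℝ) * ((v.1 : ℝ) + v.2) := by positivity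
    have hX : (X : ℝ) ^ 2 ≤ (v.1 : ℝ) * ((v.1 : ℝ) + v.2) := by
      have : X ^ 2 ≤ v.1 * (v.1 + v.2) := by simpa using hn.le
      exact_mod_cast this
    simp only [wsum, tree, Finset.sum_singleton, cost_nil, pow_zero, one_mul, Nat.cast_zero,
      zero_div, neg_zero, Real.exp_zero]
    unfold wt
    rw [div_mul_div_comm, mul_one, div_le_one (by positivity)]
    nlinarith
  | succ n ih =>
    have hx : (0 : ℝ) < v.1 := by exact_mod_cast h1
    have hv : (0 : ℝ) < (v.1 : ℝ) * ((v.1 : ℝ) + v.2) := by positivity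
    unfold wsum tree
    split_ifs with hX
    · simp only [Finset.sum_singleton, cost_nil, Nat.cast_zero, zero_div, neg_zero, Real.exp_zero]
      have hX' : (X : ℝ) ≤ ((M : ℝ) + 1) ^ 2 * v.1 := by exact_mod_cast hX.le
      have hX2 : (X : ℝ) ^ 2 ≤ ((M : ℝ) + 1) ^ 4 * ((v.1 : ℝ) * ((v.1 : ℝ) + v.2)) := by
        have h3 : (X : ℝ) ^ 2 ≤ (((M : ℝ) + 1) ^ 2 * v.1) ^ 2 :=
          pow_le_pow_left₀ (by positivity) hX' 2
        have h4 : (v.1 : ℝ) * v.1 ≤ (v.1 : ℝ) * ((v.1 : ℝ) + v.2) := by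
          apply mul_le_mul_of_nonneg_left _ hx.le
          have : (0 : ℝ) ≤ v.2 := by positivity
          linarith
        calc _ ≤ _ := h3
          _ = ((M : ℝ) + 1) ^ 4 * ((v.1 : ℝ) * v.1) := by ring
          _ ≤ _ := mul_le_mul_of_nonneg_left h4 (by positivity)
      have h5 : ((X : ℝ) ^ 2 / ((M : ℝ) + 1) ^ 4) * wt v ≤ 1 := by
        unfold wt
        rw [div_mul_div_comm, mul_one, div_le_one (by positivity)]
        exact hX2
      have h6 : 0 ≤ ((X : ℝ) ^ 2 / ((M : ℝ) + 1) ^ 4) * wt v := by unfold wt; positivity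
      exact mul_le_one₀ (pow_le_one₀ hρ0 hρ1) h6 h5
    · rw [Finset.sum_biUnion]
      · have hsum : ∀ ab ∈ (Finset.Icc 1 M) ×ˢ (Finset.Icc 1 M),
            ∑ m ∈ (tree M X n (stp ab v)).image (fun m => m ++ [ab]),
              Real.exp (-((cost m : ℝ) / M))
              = Real.exp (-(((ab.1 + ab.2 : ℕ) : ℝ) / M)) * wsum M X n (stp ab v) := by
          intro ab _
          rw [Finset.sum_image (fun m _ m' _ h => List.append_cancel_right h)]
          unfold wsum
          rw [Finset.mul_sum]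
          apply Finset.sum_congr rfl
          intro m _
          rw [cost_append, cost_single, ← Real.exp_add]
          congr 1
          push_cast
          ring
        rw [Finset.sum_congr rfl hsum]
        have hchild : ∀ ab ∈ (Finset.Icc 1 M) ×ˢ (Finset.Icc 1 M),
            Real.exp (-(((ab.1 + ab.2 : ℕ) : ℝ) / M)) *
              ((theta M ^ 2) ^ n * (((X : ℝ) ^ 2 / ((M : ℝ) + 1) ^ 4) * wt (stp ab v)))
              ≤ Real.exp (-(((ab.1 + ab.2 : ℕ) : ℝ) / M)) * wsum M X n (stp ab v) := by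
          intro ab hab
          rw [Finset.mem_product, Finset.mem_Icc, Finset.mem_Icc] at hab
          obtain ⟨⟨ha1, ha2⟩, hb1, hb2⟩ := hab
          have k0 : v.1 + v.2 ≤ (stp ab v).2 := by
            unfold stp
            simp only
            have : v.1 ≤ ab.2 * v.1 := Nat.le_mul_of_pos_left _ hb1
            omega
          have k1 : v.1 + (stp ab v).2 ≤ (stp ab v).1 := by
            unfold stp
            simp only
            have : v.2 + ab.2 * v.1 ≤ ab.1 * (v.2 + ab.2 * v.1) := Nat.le_mul_of_pos_left _ ha1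
            omega
          apply mul_le_mul_of_nonneg_left _ (Real.exp_pos _).le
          apply ih
          · omega
          · omega
          · have k2 : 4 * (v.1 * (v.1 + v.2)) ≤ (stp ab v).1 * ((stp ab v).1 + (stp ab v).2) := by
              calc 4 * (v.1 * (v.1 + v.2)) ≤ (2 * v.1 + v.2) * ((2 * v.1 + v.2) + (v.1 + v.2)) := by
                    nlinarith [Nat.zero_le (v.1 * v.2), Nat.zero_le (v.2 * v.2)]
                _ ≤ (stp ab v).1 * ((stp ab v).1 + (stp ab v).2) := by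
                    apply Nat.mul_le_mul
                    · omega
                    · omega
            calc X ^ 2 < v.1 * (v.1 + v.2) * 4 ^ (n + 1) := hn
              _ = 4 * (v.1 * (v.1 + v.2)) * 4 ^ n := by ring
              _ ≤ _ := Nat.mul_le_mul_right _ k2
        refine le_trans ?_ (Finset.sum_le_sum hchild)
        have hre : ∀ ab : ℕ × ℕ, Real.exp (-(((ab.1 + ab.2 : ℕ) : ℝ) / M)) *
              ((theta M ^ 2) ^ n * (((X : ℝ) ^ 2 / ((M : ℝ) + 1) ^ 4) * wt (stp ab v)))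
            = ((theta M ^ 2) ^ n * ((X : ℝ) ^ 2 / ((M : ℝ) + 1) ^ 4)) *
              (Real.exp (-(((ab.1 + ab.2 : ℕ) : ℝ) / M)) * wt (stp ab v)) := by
          intro ab; ring
        simp_rw [hre]
        rw [← Finset.mul_sum]
        calc (theta M ^ 2) ^ (n + 1) * ((X : ℝ) ^ 2 / ((M : ℝ) + 1) ^ 4 * wt v)
            = ((theta M ^ 2) ^ n * ((X : ℝ) ^ 2 / ((M : ℝ) + 1) ^ 4)) * (theta M ^ 2 * wt v) := by
              ring
          _ ≤ _ := mul_le_mul_of_nonneg_left (two_step_weighted v h1 h2 M hM hθ) (by positivity)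
      · intro ab _ ab' _ hne
        rw [Function.onFun, Finset.disjoint_left]
        intro m hm hm'
        rw [Finset.mem_image] at hm hm'
        obtain ⟨m1, -, rfl⟩ := hm
        obtain ⟨m2, -, h2⟩ := hm'
        apply hne
        have := List.append_inj_right' h2 rfl
        simpa using this.symm

end Run7.h166
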