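import Pool.Agent.Run7.h166.Pairs
import Pool.Agent.Run7.h166.Cheap

/-!
The count of good pairs for arbitrary subsets of the sets of lists.
-/

namespace Run7.h166

open Matrix Finset Gen

section

variable {p : ℕ} [Fact p.Prime]

/-- The triples of lists whose concatenation sends `(1, 0)` to `(1/2, 0)` modulo `p`. -/
def triples (p : ℕ) (N1 N2 N3 : Finset (List (ℕ × ℕ))) :
    Finset (List (ℕ × ℕ) × List (ℕ × ℕ) × List (ℕ × ℕ)) :=
  (N1 ×ˢ (N2 ×ˢ N3)).filter (fun t => cl p (t.1 ++ (t.2.1 ++ t.2.2)) = v0 p)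

lemma triples_eq (N1 N2 N3 : Finset (List (ℕ × ℕ))) :
    ((triples p N1 N2 N3).card : ℝ)
      = ∑ g : Matrix.SpecialLinearGroup (Fin 2) (ZMod p), cnt N2 (rd p) g *
          cross (cnt N3 (cl p)) (cnt N1 (dl p)) g := by
  rw [sum_cnt_mul]
  unfold cross
  have h1 : ∀ l2 ∈ N2, ∑ v, cnt N3 (cl p) v *
      cnt N1 (dl p) (act (rd p l2) v)
      = ∑ l3 ∈ N3, cnt N1 (dl p) (act (rd p l2) (cl p l3)) := by
    intro l2 _
    exact sum_cnt_mul N3 (cl p) (fun v => cnt N1 (dl p) (act (rd p l2) v))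
  rw [Finset.sum_congr rfl h1]
  unfold triples cnt
  rw [Finset.card_filter, Finset.sum_product_right, Finset.sum_product]
  push_cast
  apply Finset.sum_congr rfl
  intro l2 _
  apply Finset.sum_congr rfl
  intro l3 _
  rw [Finset.card_filter]
  push_cast
  apply Finset.sum_congr rfl
  intro l1 _
  have h2 : cl p (l1 ++ (l2 ++ l3)) = v0 p ↔ dl p l1 = act (rd p l2) (cl p l3) := by
    rw [cl_append, cl_append, act_rd_eq_iff]
  by_cases h : dl p l1 = act (rd p l2) (cl p l3)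
  · rw [if_pos h, if_pos (h2.2 h)]
  · rw [if_neg h, if_neg (fun h' => h (h2.1 h'))]

lemma cnt_mono {S T : Type} [DecidableEq S] [DecidableEq T] {A A' : Finset S} (h : A ⊆ A')
    (f : S → T) (t : T) : cnt A f t ≤ cnt A' f t := by
  unfold cnt
  have : (A.filter (fun s => f s = t)).card ≤ (A'.filter (fun s => f s = t)).card :=
    Finset.card_le_card (Finset.filter_subset_filter _ h)
  exact_mod_cast this

lemma card_collisions_subset (M Z T : ℕ) (N : Finset (List (ℕ × ℕ))) (hN : N ⊆ nset M Z)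
    (hZ : 1 ≤ Z) (hT : 672 * ((Z / p) ^ 2 * Z ^ 2) < (T + 1) ^ 3) :
    ((N ×ˢ N).filter (fun x => rd p x.1 = rd p x.2)).card
      ≤ N.card + (2 * (Z / p) + 1) ^ 4 * (2 * (Z + 1) * (T + (Z / p) ^ 2)) := by
  have hsplit : (N ×ˢ N).filter (fun x => rd p x.1 = rd p x.2)
      ⊆ (N.image (fun l => (l, l))) ∪
        (((nset M Z) ×ˢ (nset M Z)).filter (fun x => rd p x.1 = rd p x.2 ∧ x.1 ≠ x.2)) := by
    intro x hx
    rw [Finset.mem_filter, Finset.mem_product] at hx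
    obtain ⟨⟨h1, h2⟩, h3⟩ := hx
    rw [Finset.mem_union]
    by_cases h : x.1 = x.2
    · left
      rw [Finset.mem_image]
      exact ⟨x.1, h1, Prod.ext rfl h⟩
    · right
      rw [Finset.mem_filter, Finset.mem_product]
      exact ⟨⟨hN h1, hN h2⟩, h3, h⟩
  have hoff : (((nset M Z) ×ˢ (nset M Z)).filter
      (fun x => rd p x.1 = rd p x.2 ∧ x.1 ≠ x.2)).card
      ≤ (2 * (Z / p) + 1) ^ 4 * (2 * (Z + 1) * (T + (Z / p) ^ 2)) := by
    have h1 := card_collisions_le (p := p) M Z T hZ hT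
    have h2 : ((nset M Z).image (fun l => (l, l))).card = (nset M Z).card :=
      Finset.card_image_of_injective _ (fun a b h => congrArg Prod.fst h)
    have h3 : Disjoint ((nset M Z).image (fun l => (l, l)))
        (((nset M Z) ×ˢ (nset M Z)).filter (fun x => rd p x.1 = rd p x.2 ∧ x.1 ≠ x.2)) := by
      rw [Finset.disjoint_left]
      intro x hx hx'
      rw [Finset.mem_image] at hx
      obtain ⟨l, -, rfl⟩ := hx
      exact (Finset.mem_filter.1 hx').2.2 rfl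
    have h4 : ((nset M Z).image (fun l => (l, l))) ∪
        (((nset M Z) ×ˢ (nset M Z)).filter (fun x => rd p x.1 = rd p x.2 ∧ x.1 ≠ x.2))
        ⊆ ((nset M Z) ×ˢ (nset M Z)).filter (fun x => rd p x.1 = rd p x.2) := by
      intro x hx
      rw [Finset.mem_union] at hx
      rcases hx with hx | hx
      · rw [Finset.mem_image] at hx
        obtain ⟨l, hl, rfl⟩ := hx
        rw [Finset.mem_filter, Finset.mem_product]
        exact ⟨⟨hl, hl⟩, rfl⟩
      · rw [Finset.mem_filter] at hx ⊢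
        exact ⟨hx.1, hx.2.1⟩
    have h5 := Finset.card_le_card h4
    rw [Finset.card_union_of_disjoint h3, h2] at h5
    omega
  calc _ ≤ _ := Finset.card_le_card hsplit
    _ ≤ _ := Finset.card_union_le _ _
    _ ≤ _ := Nat.add_le_add Finset.card_image_le hoff

/-- The lower bound for the number of triples. -/
theorem triples_ge (hp : Odd p) (M X1 X2 X3 T : ℕ) (N1 N2 N3 : Finset (List (ℕ × ℕ)))
    (hN1 : N1 ⊆ nset M X1) (hN2 : N2 ⊆ nset M X2) (hN3 : N3 ⊆ nset M X3)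
    (hX1 : 1 ≤ X1) (hX2 : 1 ≤ X2) (hX3 : 1 ≤ X3) (hX3p : X3 < p)
    (hT : 672 * ((X2 / p) ^ 2 * X2 ^ 2) < (T + 1) ^ 3)
    (hcol : (2 * (X2 / p) + 1) ^ 4 * (2 * (X2 + 1) * (T + (X2 / p) ^ 2)) ≤ N2.card)
    (hbig : 16 * (p : ℝ) ^ 6 * (((M : ℝ) + 2) * ((X1 / p : ℕ) + 1) ^ 2)
      ≤ (N1.card : ℝ) * (N2.card : ℝ) * (N3.card : ℝ)) :
    (N1.card : ℝ) * (N2.card : ℝ) * (N3.card : ℝ)
      / (2 * (p : ℝ) ^ 2) ≤ ((triples p N1 N2 N3).card : ℝ) := by
  have hp2 : (2 : ℝ) ≤ p := by exact_mod_cast (Fact.out : p.Prime).two_le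
  have hmix := mixing (K := ZMod p) (cnt N2 (rd p)) (cnt N3 (cl p))
    (cnt N1 (dl p)) (cnt_eq_zero _ _ _ (fun l _ => cl_ne_zero l))
    (cnt_eq_zero _ _ _ (fun l _ => dl_ne_zero hp l))
  rw [← triples_eq, sum_cnt, sum_cnt, sum_cnt, ZMod.card] at hmix
  have hν : ∑ g : Matrix.SpecialLinearGroup (Fin 2) (ZMod p), cnt N2 (rd p) g ^ 2
      ≤ 2 * (N2.card : ℝ) := by
    rw [sum_cnt_sq]
    have h1 := card_collisions_subset (p := p) M X2 T N2 hN2 hX2 hT
    have h2 : ((N2 ×ˢ N2).filter (fun x => rd p x.1 = rd p x.2)).card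
        ≤ 2 * N2.card := by omega
    have h3 : (((N2 ×ˢ N2).filter (fun x => rd p x.1 = rd p x.2)).card : ℝ)
        ≤ ((2 * N2.card : ℕ) : ℝ) := by exact_mod_cast h2
    push_cast at h3
    exact h3
  have hH : ∑ x : ZMod p × ZMod p, cnt N3 (cl p) x ^ 2
      ≤ 1 * (N3.card : ℝ) :=
    sum_cnt_sq_le _ _ 1 (fun t => (cnt_mono hN3 _ t).trans (cnt_cl_le M X3 hX3 hX3p t))
  have hF : ∑ x : ZMod p × ZMod p, cnt N1 (dl p) x ^ 2
      ≤ (((M : ℝ) + 2) * ((X1 / p : ℕ) + 1) ^ 2) * (N1.card : ℝ) :=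
    sum_cnt_sq_le _ _ _ (fun t => (cnt_mono hN1 _ t).trans (cnt_dl_le hp M X1 hX1 t))
  exact final_ineq _ _ _ _ _ _ _ _ _ hp2 (by positivity) (by positivity) (by positivity)
    (by positivity) (Finset.sum_nonneg (fun x _ => sq_nonneg _))
    (Finset.sum_nonneg (fun x _ => sq_nonneg _)) hν hH hF hmix hbig

/-- Triples give good pairs. -/
theorem card_triples_le (hp : Odd p) (M X1 X2 X3 L : ℕ) (N1 N2 N3 : Finset (List (ℕ × ℕ)))
    (hN1 : N1 ⊆ nset M X1) (hN2 : N2 ⊆ nset M X2) (hN3 : N3 ⊆ nset M X3)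
    (hX1 : 1 ≤ X1) (hX2 : 1 ≤ X2) (hX3 : 1 ≤ X3) (hX : 4 * (X1 * X2 * X3) ≤ p ^ 4)
    (B1 B2 B3 : ℕ) (hB1 : ∀ l ∈ N1, cost l ≤ B1) (hB2 : ∀ l ∈ N2, cost l ≤ B2)
    (hB3 : ∀ l ∈ N3, cost l ≤ B3) (hL : B1 + B2 + B3 ≤ L) :
    (triples p N1 N2 N3).card
      ≤ (Nat.log 2 X1 + 2) * (Nat.log 2 X2 + 2) * (goodPairs L p).ncard := by
  have hpp : p.Prime := Fact.out
  have hp0 : 0 < p := hpp.pos
  set f : List (ℕ × ℕ) × List (ℕ × ℕ) × List (ℕ × ℕ) → ℕ × ℕ :=
    fun t => pairOf p (col (t.1 ++ (t.2.1 ++ t.2.2))) with hf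
  have hmem' : ∀ t ∈ triples p N1 N2 N3, t.1 ∈ N1 ∧ t.2.1 ∈ N2 ∧
      t.2.2 ∈ N3 ∧ cl p (t.1 ++ (t.2.1 ++ t.2.2)) = v0 p := by
    intro t ht
    unfold triples at ht
    rw [Finset.mem_filter, Finset.mem_product, Finset.mem_product] at ht
    exact ⟨ht.1.1, ht.1.2.1, ht.1.2.2, ht.2⟩
  have hmem : ∀ t ∈ triples p N1 N2 N3, t.1 ∈ nset M X1 ∧ t.2.1 ∈ nset M X2 ∧
      t.2.2 ∈ nset M X3 ∧ cl p (t.1 ++ (t.2.1 ++ t.2.2)) = v0 p := by
    intro t ht
    obtain ⟨a, b, c, d⟩ := hmem' t ht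
    exact ⟨hN1 a, hN2 b, hN3 c, d⟩
  have hpos : ∀ t ∈ triples p N1 N2 N3, PosL (t.1 ++ (t.2.1 ++ t.2.2)) := by
    intro t ht
    obtain ⟨m1, m2, m3, -⟩ := hmem t ht
    exact (nset_posL hX1 m1).append ((nset_posL hX2 m2).append (nset_posL hX3 m3))
  have himage : ((triples p N1 N2 N3).image f).card ≤ (goodPairs L p).ncard := by
    rw [← Set.ncard_coe_finset]
    apply Set.ncard_le_ncard _ (goodPairs_finite L p)
    intro x hx
    rw [Finset.mem_coe, Finset.mem_image] at hx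
    obtain ⟨t, ht, rfl⟩ := hx
    obtain ⟨m1, m2, m3, hcl⟩ := hmem t ht
    obtain ⟨m1', m2', m3', -⟩ := hmem' t ht
    have hcost := hB1 _ m1'
    have hcost2 := hB2 _ m2'
    have hcost3 := hB3 _ m3'
    set l := t.1 ++ (t.2.1 ++ t.2.2) with hl
    obtain ⟨e1, e2, e3⟩ := pairOf_spec hp l (hpos t ht) hcl
    obtain ⟨a1, a2⟩ : 1 ≤ (col l).1 ∧ (col l).2 < (col l).1 := col_lt (hpos t ht)
    obtain ⟨q1, b1, c1⟩ := nset_spec M X1 hX1 _ m1
    obtain ⟨q2, b2, c2⟩ := nset_spec M X2 hX2 _ m2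
    obtain ⟨q3, b3, c3⟩ := nset_spec M X3 hX3 _ m3
    have hA : (col l).1 ≤ p ^ 4 := by
      have h1 := col_append_le (nset_posL hX1 m1) ((nset_posL hX2 m2).append (nset_posL hX3 m3))
      have h2 := col_append_le (nset_posL hX2 m2) (nset_posL hX3 m3)
      calc (col l).1 ≤ 2 * (col t.1).1 * (col (t.2.1 ++ t.2.2)).1 := h1
        _ ≤ 2 * X1 * (2 * X2 * X3) := by
            apply Nat.mul_le_mul (Nat.mul_le_mul_left 2 b1)
            exact h2.trans (Nat.mul_le_mul (Nat.mul_le_mul_left 2 b2) b3)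
        _ = 4 * (X1 * X2 * X3) := by ring
        _ ≤ _ := hX
    have hft : f t = pairOf p (col l) := rfl
    rw [hft]
    refine ⟨?_, ?_, ?_⟩
    · have h1 : p * (2 * (pairOf p (col l)).1 + 1) < p * (2 * p ^ 3) := by
        have : p * (2 * p ^ 3) = 2 * p ^ 4 := by ring
        rw [this]
        omega
      have h2 := Nat.lt_of_mul_lt_mul_left h1
      omega
    · have h1 : p * ((pairOf p (col l)).2 + 1) < p * p ^ 3 := by
        have : p * p ^ 3 = p ^ 4 := by ring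
        rw [this, e3]
        omega
      have h2 := Nat.lt_of_mul_lt_mul_left h1
      omega
    · have hlen : (qword l).length ≤ L := by
        rw [length_qword_eq, hl, cost_append, cost_append]
        omega
      obtain ⟨n, hn⟩ := Nat.exists_eq_add_of_le hlen
      have hw : euclid L (col l).1 (col l).2 = qword l := by
        rw [hn, add_comm]
        exact euclid_qword l (hpos t ht) n
      unfold candidate
      rw [e1, e3, hw]
      obtain ⟨g1, g2, -, -⟩ := eval_qword_entries (R := ZMod p) l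
      have k1 := congrArg Prod.fst hcl
      have k2 := congrArg Prod.snd hcl
      unfold cl v0 at k1 k2
      simp only at k1 k2
      apply isSolution_conj hp
      · rw [g1, k1]
        exact two_mul_half hp
      · rw [g2, k2]
  have hfib : ∀ a ∈ (triples p N1 N2 N3).image f,
      ((triples p N1 N2 N3).filter (fun t => f t = a)).card
        ≤ (Nat.log 2 X1 + 2) * (Nat.log 2 X2 + 2) := by
    intro a _
    have hcard : ((Finset.range (Nat.log 2 X1 + 2)) ×ˢ (Finset.range (Nat.log 2 X2 + 2))).card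
        = (Nat.log 2 X1 + 2) * (Nat.log 2 X2 + 2) := by
      rw [Finset.card_product, Finset.card_range, Finset.card_range]
    rw [← hcard]
    apply Finset.card_le_card_of_injOn (fun t => (t.1.length, t.2.1.length))
    · intro t ht
      rw [Finset.mem_coe, Finset.mem_filter] at ht
      obtain ⟨m1, m2, m3, -⟩ := hmem t ht.1
      obtain ⟨-, -, c1⟩ := nset_spec M X1 hX1 _ m1
      obtain ⟨-, -, c2⟩ := nset_spec M X2 hX2 _ m2
      simp only [Finset.coe_product, Finset.coe_range, Set.mem_prod, Set.mem_Iio]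
      omega
    · intro t ht t' ht' heq
      rw [Finset.mem_coe, Finset.mem_filter] at ht ht'
      simp only [Prod.mk.injEq] at heq
      obtain ⟨-, -, -, hcl⟩ := hmem t ht.1
      obtain ⟨-, -, -, hcl'⟩ := hmem t' ht'.1
      have P := hpos t ht.1
      have P' := hpos t' ht'.1
      obtain ⟨-, e2, e3⟩ := pairOf_spec hp _ P hcl
      obtain ⟨-, e2', e3'⟩ := pairOf_spec hp _ P' hcl'
      have hff : pairOf p (col (t.1 ++ (t.2.1 ++ t.2.2)))
        = pairOf p (col (t'.1 ++ (t'.2.1 ++ t'.2.2))) := ht.2.trans ht'.2.symm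
      rw [hff] at e2 e3
      have h1 : (col (t.1 ++ (t.2.1 ++ t.2.2))).1 = (col (t'.1 ++ (t'.2.1 ++ t'.2.2))).1 := by
        omega
      have h2 : (col (t.1 ++ (t.2.1 ++ t.2.2))).2 = (col (t'.1 ++ (t'.2.1 ++ t'.2.2))).2 := by
        rw [← e3, ← e3']
      have h3 := col_injective P P' (Prod.ext h1 h2)
      have h4 := List.append_inj h3 heq.1
      have h5 := List.append_inj h4.2 heq.2
      exact Prod.ext h4.1 (Prod.ext h5.1 h5.2)
  calc _ ≤ (Nat.log 2 X1 + 2) * (Nat.log 2 X2 + 2) * ((triples p N1 N2 N3).image f).card :=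
        Finset.card_le_mul_card_image _ _ hfib
    _ ≤ _ := Nat.mul_le_mul_left _ himage

end

end Run7.h166
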