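import Mathlib

/-!
Words in the four unipotent generators and their values in `SL_2(R)` and `PSL_2(R)`.
-/

namespace Run7.h166

open Matrix

/-- The four formal generators: `U = u_1`, `Ui = u_{-1}`, `V = v_1`, `Vi = v_{-1}`. -/
inductive Gen : Type
  | U | Ui | V | Vi
  deriving DecidableEq

/-- `SL_2(R)`. -/
abbrev SL2 (R : Type) [CommRing R] : Type := Matrix.SpecialLinearGroup (Fin 2) R

/-- `PSL_2(R)`, the quotient of `SL_2(R)` by its centre. -/
abbrev PSL2 (R : Type) [CommRing R] : Type := Matrix.ProjectiveSpecialLinearGroup (Fin 2) R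

/-- The upper unipotent matrix `u_x`. -/
def upper {R : Type} [CommRing R] (x : R) : SL2 R :=
  ⟨!![1, x; 0, 1], by simp [Matrix.det_fin_two]⟩

/-- The lower unipotent matrix `v_x`. -/
def lower {R : Type} [CommRing R] (x : R) : SL2 R :=
  ⟨!![1, 0; x, 1], by simp [Matrix.det_fin_two]⟩

/-- The matrix of a generator. -/
def Gen.mat (R : Type) [CommRing R] : Gen → SL2 R
  | .U => upper 1
  | .Ui => upper (-1)
  | .V => lower 1
  | .Vi => lower (-1)

/-- The value in `SL_2(R)` of a word. -/
def eval (R : Type) [CommRing R] (w : List Gen) : SL2 R := (w.map (Gen.mat R)).prod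

/-- The value of a word in `PSL_2(Z/n)`. -/
def value (n : ℕ) (w : List Gen) : PSL2 (ZMod n) := (eval (ZMod n) w : SL2 (ZMod n))

/-- The inverse letter. -/
def Gen.inv : Gen → Gen
  | .U => .Ui
  | .Ui => .U
  | .V => .Vi
  | .Vi => .V

/-- The inverse word. -/
def invWord (w : List Gen) : List Gen := (w.map Gen.inv).reverse

variable {R : Type} [CommRing R]

@[simp] lemma eval_nil : eval R [] = 1 := rfl

@[simp] lemma eval_cons (g : Gen) (w : List Gen) : eval R (g :: w) = Gen.mat R g * eval R w := by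
  simp [eval]

@[simp] lemma eval_append (w w' : List Gen) : eval R (w ++ w') = eval R w * eval R w' := by
  simp [eval]

lemma mul_val (A B : SL2 R) (i j : Fin 2) :
    (A * B).1 i j = A.1 i 0 * B.1 0 j + A.1 i 1 * B.1 1 j := by
  rw [Matrix.SpecialLinearGroup.coe_mul, Matrix.mul_apply, Fin.sum_univ_two]

lemma det_val (A : SL2 R) : A.1 0 0 * A.1 1 1 - A.1 0 1 * A.1 1 0 = 1 := by
  have := A.2
  rwa [Matrix.det_fin_two] at this

lemma ext_val {A B : SL2 R} (h00 : A.1 0 0 = B.1 0 0) (h01 : A.1 0 1 = B.1 0 1)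
    (h10 : A.1 1 0 = B.1 1 0) (h11 : A.1 1 1 = B.1 1 1) : A = B := by
  apply Subtype.ext
  ext i j
  fin_cases i <;> fin_cases j
  · exact h00
  · exact h01
  · exact h10
  · exact h11

@[simp] lemma one_val00 : (1 : SL2 R).1 0 0 = 1 := by simp
@[simp] lemma one_val01 : (1 : SL2 R).1 0 1 = 0 := by simp
@[simp] lemma one_val10 : (1 : SL2 R).1 1 0 = 0 := by simp
@[simp] lemma one_val11 : (1 : SL2 R).1 1 1 = 1 := by simp

@[simp] lemma upper_val00 (x : R) : (upper x).1 0 0 = 1 := rfl
@[simp] lemma upper_val01 (x : R) : (upper x).1 0 1 = x := rfl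
@[simp] lemma upper_val10 (x : R) : (upper x).1 1 0 = 0 := rfl
@[simp] lemma upper_val11 (x : R) : (upper x).1 1 1 = 1 := rfl
@[simp] lemma lower_val00 (x : R) : (lower x).1 0 0 = 1 := rfl
@[simp] lemma lower_val01 (x : R) : (lower x).1 0 1 = 0 := rfl
@[simp] lemma lower_val10 (x : R) : (lower x).1 1 0 = x := rfl
@[simp] lemma lower_val11 (x : R) : (lower x).1 1 1 = 1 := rfl

lemma Gen.mat_inv (g : Gen) : Gen.mat R g.inv = (Gen.mat R g)⁻¹ := by
  rw [eq_inv_iff_mul_eq_one]
  cases g <;> apply ext_val <;> simp [mul_val, Gen.inv, Gen.mat]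

@[simp] lemma eval_invWord (w : List Gen) : eval R (invWord w) = (eval R w)⁻¹ := by
  induction w with
  | nil => simp [invWord]
  | cons g w ih =>
    have : invWord (g :: w) = invWord w ++ [g.inv] := by simp [invWord]
    rw [this, eval_append, ih, eval_cons, eval_cons, eval_nil, mul_one, _root_.mul_inv_rev,
      Gen.mat_inv]

@[simp] lemma length_invWord (w : List Gen) : (invWord w).length = w.length := by
  simp [invWord]

lemma upper_mul (x y : R) : upper x * upper y = upper (x + y) := by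
  apply ext_val <;> simp [mul_val, add_comm]

lemma lower_mul (x y : R) : lower x * lower y = lower (x + y) := by
  apply ext_val <;> simp [mul_val]

/-- The central element test in `PSL_2`. -/
lemma mk_eq_mk_iff {A B : SL2 R} :
    ((A : SL2 R) : PSL2 R) = (B : SL2 R) ↔ ∃ c : R, c ^ 2 = 1 ∧ ∀ i j, B.1 i j = c * A.1 i j := by
  rw [QuotientGroup.eq, Matrix.SpecialLinearGroup.mem_center_iff]
  constructor
  · rintro ⟨r, hr, hA⟩
    refine ⟨r, by simpa using hr, ?_⟩
    intro i j
    have hB : B.1 = A.1 * (Matrix.scalar (Fin 2) r) := by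
      rw [hA]
      have h3 : B = A * (A⁻¹ * B) := by group
      exact (congrArg Subtype.val h3).trans (Matrix.SpecialLinearGroup.coe_mul _ _)
    rw [hB]
    simp [mul_comm]
  · rintro ⟨c, hc, hAB⟩
    refine ⟨c, by simpa using hc, ?_⟩
    have hB : B.1 = c • A.1 := by
      ext i j; simp [hAB]
    rw [Matrix.SpecialLinearGroup.coe_mul, hB, Matrix.mul_smul,
      ← Matrix.SpecialLinearGroup.coe_mul, inv_mul_cancel]
    ext i j
    simp [Matrix.scalar_apply, Matrix.smul_apply, Matrix.one_apply, Matrix.diagonal_apply]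

end Run7.h166
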